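import Pool.Agent.LibBGR.Defs

/-! ROW PER: sums over the group. -/

open MeasureTheory Set Filter Topology
open scoped ContDiff ENNReal NNReal

namespace BGS

variable {Γ : Type} [Group Γ] [MulAction Γ Pl] {D : Set Pl}

/-- On a compact set only finitely many terms contribute. -/
theorem PER_fin (hX : Surface Γ D) {f : Pl → ℝ} (hc : HasCompactSupport f) {K : Set Pl}
    (hK : IsCompact K) : ∃ S : Finset Γ, (∀ z ∈ K, ∀ γ : Γ, γ ∉ S → f (γ • z) = 0) ∧
      ∀ z ∈ K, per Γ f z = ∑ γ ∈ S, f (γ • z) := by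
  have hfin := hX.proper (K ∪ tsupport f) (hK.union hc)
  have h1 : ∀ z ∈ K, ∀ γ : Γ, γ ∉ hfin.toFinset → f (γ • z) = 0 := by
    intro z hz γ hγ
    by_contra h
    apply hγ
    rw [Finite.mem_toFinset]
    exact ⟨z, Or.inl hz, Or.inr (subset_tsupport f h)⟩
  refine ⟨hfin.toFinset, h1, fun z hz => ?_⟩
  unfold per
  apply finsum_eq_sum_of_support_subset
  intro γ hγ
  by_contra h
  exact hγ (h1 z hz γ (by simpa using h))

theorem PER_smooth (hX : Surface Γ D) {f : Pl → ℝ} (hf : ContDiff ℝ ∞ f)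
    (hc : HasCompactSupport f) : ContDiff ℝ ∞ (per Γ f) := by
  rw [contDiff_iff_contDiffAt]
  intro z0
  obtain ⟨S, -, hS⟩ := PER_fin hX hc (isCompact_closedBall z0 1)
  have h1 : per Γ f =ᶠ[𝓝 z0] fun z => ∑ γ ∈ S, f (γ • z) := by
    filter_upwards [Metric.closedBall_mem_nhds z0 one_pos] with z hz
    exact hS z hz
  refine ContDiffAt.congr_of_eventuallyEq ?_ h1
  exact (ContDiff.sum fun γ _ => hf.comp (hX.smooth γ)).contDiffAt

theorem PER_inv (f : Pl → ℝ) (δ : Γ) (z : Pl) : per Γ f (δ • z) = per Γ f z := by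
  unfold per
  rw [← finsum_comp_equiv (Equiv.mulRight δ) (f := fun γ : Γ => f (γ • z))]
  apply finsum_congr
  intro γ
  rw [Equiv.coe_mulRight, mul_smul]

theorem per_mem (hX : Surface Γ D) {f : Pl → ℝ} (hf : ContDiff ℝ ∞ f) (hc : HasCompactSupport f) :
    per Γ f ∈ Test Γ :=
  ⟨PER_smooth hX hf hc, fun γ z => PER_inv f γ z⟩

theorem PER_det (A : Pl →L[ℝ] Pl) :
    A.det = (A (1, 0)).1 * (A (0, 1)).2 - (A (0, 1)).1 * (A (1, 0)).2 := by
  have h1 : A.det = LinearMap.det (A : Pl →ₗ[ℝ] Pl) := rfl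
  rw [h1, ← LinearMap.det_toMatrix (Module.Basis.finTwoProd ℝ), Matrix.det_fin_two]
  simp [LinearMap.toMatrix_apply]

theorem PER_apply (A : Pl →L[ℝ] Pl) (v : Pl) :
    A v = (v.1 * (A (1, 0)).1 + v.2 * (A (0, 1)).1, v.1 * (A (1, 0)).2 + v.2 * (A (0, 1)).2) := by
  have h1 : v = v.1 • ((1 : ℝ), (0 : ℝ)) + v.2 • ((0 : ℝ), (1 : ℝ)) := by
    ext <;> simp
  conv_lhs => rw [h1]
  rw [map_add, map_smul, map_smul]
  ext <;> simp

theorem PER_algebra {E F G E' F' G' a b c d : ℝ}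
    (hE : E' * a ^ 2 + 2 * F' * a * c + G' * c ^ 2 = E)
    (hG : E' * b ^ 2 + 2 * F' * b * d + G' * d ^ 2 = G)
    (hF : E' * a * b + F' * (a * d + b * c) + G' * c * d = F) :
    E * G - F ^ 2 = (a * d - b * c) ^ 2 * (E' * G' - F' ^ 2) := by
  subst hE hG hF
  ring

/-- The area density transforms like a density. -/
theorem PER_rho (hX : Surface Γ D) (m : Mt Γ D) (γ : Γ) (z : Pl) :
    √(dt (m.1.1 z)) =
      |(fderiv ℝ (fun w : Pl => γ • w) z).det| * √(dt (m.1.1 (γ • z))) := by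
  set A := fderiv ℝ (fun w : Pl => γ • w) z with hA
  have hi := m.2.inv γ z
  have h10 := hi (1, 0)
  have h01 := hi (0, 1)
  have h11 := hi (1, 1)
  rw [← hA, PER_apply A (1, 1)] at h11
  rw [← hA] at h10 h01
  simp only [qf] at h10 h01 h11
  have hd := PER_algebra (E := (m.1.1 z).1) (F := (m.1.1 z).2.1) (G := (m.1.1 z).2.2)
    (E' := (m.1.1 (γ • z)).1) (F' := (m.1.1 (γ • z)).2.1) (G' := (m.1.1 (γ • z)).2.2)
    (a := (A (1, 0)).1) (b := (A (0, 1)).1) (c := (A (1, 0)).2) (d := (A (0, 1)).2)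
    (by linarith) (by linarith) (by linarith)
  have hd' : dt (m.1.1 z) = A.det ^ 2 * dt (m.1.1 (γ • z)) := by
    rw [PER_det A]
    exact hd
  rw [hd', Real.sqrt_mul (sq_nonneg _), Real.sqrt_sq_eq_abs]

theorem PER_inj (γ : Γ) : Function.Injective fun w : Pl => γ • w := fun a b hab => by
  have : γ⁻¹ • γ • a = γ⁻¹ • γ • b := congrArg (fun w => γ⁻¹ • w) hab
  simpa using this

theorem PER_image (γ : Γ) : (fun w : Pl => γ • w) '' D = (fun w : Pl => γ⁻¹ • w) ⁻¹' D := by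
  ext z
  constructor
  · rintro ⟨w, hw, rfl⟩
    simpa using hw
  · intro hz
    exact ⟨γ⁻¹ • z, hz, by simp⟩

theorem PER_meas (hX : Surface Γ D) (γ : Γ) : MeasurableSet ((fun w : Pl => γ • w) '' D) := by
  rw [PER_image]
  exact (hX.smooth γ⁻¹).continuous.measurable hX.meas

/-- Change of variables for one element of the group. -/
theorem PER_one (hX : Surface Γ D) (m : Mt Γ D) (γ : Γ) {f : Pl → ℝ}
    {g : Pl → ℝ} (hgi : ∀ (γ : Γ) z, g (γ • z) = g z) :
    ∫ z in (fun w : Pl => γ • w) '' D, f z * g z * √(dt (m.1.1 z)) =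
      ∫ z in D, f (γ • z) * g z * √(dt (m.1.1 z)) := by
  rw [integral_image_eq_integral_abs_det_fderiv_smul volume hX.meas
    (f' := fun z => fderiv ℝ (fun w : Pl => γ • w) z)
    (fun z _ => ((hX.smooth γ).differentiable (by simp) z).hasFDerivAt.hasFDerivWithinAt)
    (PER_inj γ).injOn]
  congr 1
  funext z
  rw [smul_eq_mul, PER_rho hX m γ z, hgi γ z]
  ring

theorem per_int (hX : Surface Γ D) (m : Mt Γ D) {f : Pl → ℝ} (hf : ContDiff ℝ ∞ f)
    (hc : HasCompactSupport f) {g : Pl → ℝ} (hg : Continuous g) (hgi : ∀ (γ : Γ) z, g (γ • z) = g z) :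
    ∫ z in D, per Γ f z * g z * √(dt (m.1.1 z)) = ∫ z, f z * g z * √(dt (m.1.1 z)) := by
  have hK : IsCompact (closure D) := Cmp_compact hX
  obtain ⟨S, hS0, hS⟩ := PER_fin hX hc hK
  have hρ := BGR_rho m
  have hcont : Continuous fun z => f z * g z * √(dt (m.1.1 z)) := (hf.continuous.mul hg).mul hρ
  have hint : Integrable fun z => f z * g z * √(dt (m.1.1 z)) :=
    hcont.integrable_of_hasCompactSupport ((hc.mul_right).mul_right)
  have h1 : ∫ z in D, per Γ f z * g z * √(dt (m.1.1 z)) =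
      ∑ γ ∈ S, ∫ z in D, f (γ • z) * g z * √(dt (m.1.1 z)) := by
    rw [← integral_finsetSum]
    · apply setIntegral_congr_fun hX.meas
      intro z hz
      show per Γ f z * g z * √(dt (m.1.1 z)) = _
      rw [hS z (subset_closure hz), Finset.sum_mul, Finset.sum_mul]
    · intro γ _
      exact Cmp_int hX (((hf.continuous.comp (hX.smooth γ).continuous).mul hg).mul hρ)
  have h2 : (fun z => f z * g z * √(dt (m.1.1 z))) = fun z =>
      ∑ γ ∈ S, indicator ((fun w : Pl => γ • w) '' D) (fun z => f z * g z * √(dt (m.1.1 z))) z := by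
    funext z
    obtain ⟨γ, hγ, hun⟩ := hX.orbit z
    have hz' : z ∈ (fun w : Pl => γ⁻¹ • w) '' D := ⟨γ • z, hγ, by simp⟩
    have hothers : ∀ δ ∈ S, δ ≠ γ⁻¹ → indicator ((fun w : Pl => δ • w) '' D)
        (fun z => f z * g z * √(dt (m.1.1 z))) z = 0 := by
      intro δ _ hδ
      apply indicator_of_notMem
      rw [PER_image]
      intro h
      apply hδ
      rw [← hun δ⁻¹ h, inv_inv]
    by_cases hmem : γ⁻¹ ∈ S
    · rw [Finset.sum_eq_single_of_mem _ hmem hothers, indicator_of_mem hz']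
    · rw [Finset.sum_eq_zero]
      · have h3 := hS0 (γ • z) (subset_closure hγ) γ⁻¹ hmem
        rw [inv_smul_smul] at h3
        rw [h3, zero_mul, zero_mul]
      · intro δ hδ
        exact hothers δ hδ (fun h => hmem (h ▸ hδ))
  rw [h1]
  conv_rhs => rw [h2]
  rw [integral_finsetSum]
  · refine Finset.sum_congr rfl fun γ _ => ?_
    rw [integral_indicator (PER_meas hX γ), PER_one hX m γ hgi]
  · intro γ _
    exact hint.indicator (PER_meas hX γ)

end BGS
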