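import Pool.Agent.LibBGR.Asm4

open MeasureTheory Set Filter Topology
open scoped ContDiff ENNReal NNReal

namespace BGS

variable {Γ : Type} [Group Γ] [MulAction Γ Pl] {D : Set Pl}

/-- In every neighbourhood of every metric the first `N` gaps can be made polynomially large. -/
theorem ASM_dense_gap (hX : Surface Γ D) (m : Mt Γ D) {U : Set (Mt Γ D)} (hU : U ∈ 𝓝 m) :
    ∃ (B : ℕ) (C : ℝ), 0 < C ∧ ∀ N : ℕ, 1 ≤ N → ∃ m' ∈ U, ∀ k < N,
      1 / (C * (N : ℝ) ^ B) < x m' (k + 1) - x m' k := by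
  obtain ⟨r, K, δ0, hK, hδ0, hnear⟩ := conf_near hX m hU
  obtain ⟨L, hL, hDL⟩ := ASM_L hX
  obtain ⟨Kb, hKb, hb⟩ := per_bmp_le hX L
  obtain ⟨Cd, hCd, hd⟩ := per_bmp_deriv hX L r hK
  obtain ⟨c1, hc1, Cl, hCl, hloc⟩ := localize hX m hDL
  obtain ⟨c0, hc0, hlow⟩ := lam_lower hX m
  obtain ⟨Cu, hCu, hup⟩ := lam_upper hX m
  have hL' : (1 : ℝ) ≤ L := by exact_mod_cast hL
  set ν0 : ℝ := 1 / (32 * Cu) with hν0
  have hν0p : 0 < ν0 := by positivity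
  obtain ⟨q, hq⟩ := exists_nat_ge (max 1 (8 * Cl / ν0))
  have hq1 : (1 : ℝ) ≤ q := (le_max_left _ _).trans hq
  have hq2 : 8 * Cl / ν0 ≤ q := (le_max_right _ _).trans hq
  set z0 : ℝ := c1 * ν0 / (4 * (q : ℝ) ^ 2) with hz0
  have hz0p : 0 < z0 := by positivity
  set g0 : ℝ := 4 * (L : ℝ) ^ 2 * (q : ℝ) ^ 2 with hg0
  have hg0p : 0 < g0 := by positivity
  set M0 : ℝ := 2 / c0 with hM0
  have hM0p : 0 < M0 := by positivity
  obtain ⟨j0, hj0⟩ := exists_nat_gt (max 1 (16 * g0 * Kb * M0 / z0))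
  have hj1 : (1 : ℝ) < j0 := (le_max_left _ _).trans_lt hj0
  have hj2 : 16 * g0 * Kb * M0 / z0 < j0 := (le_max_right _ _).trans_lt hj0
  have hj0p : (0 : ℝ) < j0 := by linarith
  have hqr : (0 : ℝ) < (q : ℝ) ^ r := by positivity
  set t0 : ℝ := min (1 / (4 * j0 * g0 * Kb)) (min (δ0 / (j0 * g0 * Cd * (q : ℝ) ^ r))
    (z0 / (128 * Kb ^ 2 * M0))) with ht0
  have ht0p : 0 < t0 := lt_min (by positivity) (lt_min (by positivity) (by positivity))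
  have ht1 : t0 * (j0 * g0 * Kb) ≤ 1 / 4 := by
    have h1 : t0 ≤ 1 / (4 * j0 * g0 * Kb) := min_le_left _ _
    calc t0 * (j0 * g0 * Kb) ≤ 1 / (4 * j0 * g0 * Kb) * (j0 * g0 * Kb) := by gcongr
      _ = 1 / 4 := by field_simp
  have ht2 : t0 * (j0 * g0 * Cd * (q : ℝ) ^ r) ≤ δ0 := by
    have h1 : t0 ≤ δ0 / (j0 * g0 * Cd * (q : ℝ) ^ r) := (min_le_right _ _).trans (min_le_left _ _)
    calc t0 * (j0 * g0 * Cd * (q : ℝ) ^ r) ≤
          δ0 / (j0 * g0 * Cd * (q : ℝ) ^ r) * (j0 * g0 * Cd * (q : ℝ) ^ r) := by gcongr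
      _ = δ0 := by field_simp
  have ht3 : t0 * (128 * Kb ^ 2 * M0) ≤ z0 := by
    have h1 : t0 ≤ z0 / (128 * Kb ^ 2 * M0) := (min_le_right _ _).trans (min_le_right _ _)
    calc t0 * (128 * Kb ^ 2 * M0) ≤ z0 / (128 * Kb ^ 2 * M0) * (128 * Kb ^ 2 * M0) := by gcongr
      _ = z0 := by field_simp
  have hpi := Real.pi_pos
  refine ⟨26 + 2 * r, max (64 * Real.pi * M0 ^ 2 / (t0 * z0)) (16 * Real.pi * M0),
    lt_max_of_lt_right (by positivity), fun N hN => ?_⟩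
  have hN1 : (1 : ℝ) ≤ N := by exact_mod_cast hN
  have hN0 : (0 : ℝ) < N := by linarith
  have hqn : 1 ≤ q := by exact_mod_cast hq1
  have hR : 1 ≤ q * N ^ 2 := Nat.mul_pos hqn (pow_pos hN 2)
  have hj0n : 1 ≤ j0 := by exact_mod_cast hj1.le
  have hJ : 1 ≤ j0 * N ^ 14 := Nat.mul_pos hj0n (pow_pos hN 14)
  have hRc : ((q * N ^ 2 : ℕ) : ℝ) = q * (N : ℝ) ^ 2 := by push_cast; ring
  have hcard : ((grid L (q * N ^ 2)).card : ℝ) = g0 * (N : ℝ) ^ 4 := by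
    rw [ASM_card, hRc, hg0]
    ring
  have hJc : ((j0 * N ^ 14 : ℕ) : ℝ) = j0 * (N : ℝ) ^ 14 := by push_cast; ring
  set τ : ℝ := t0 / (N : ℝ) ^ (18 + 2 * r) with hτ
  have hτp : 0 < τ := by positivity
  have hN18 : (1 : ℝ) ≤ (N : ℝ) ^ (2 * r) := one_le_pow₀ hN1
  have hcore := ASM_core hX m (U := U) (L := L) (R := q * N ^ 2) (J := j0 * N ^ 14) (N := N)
    (r := r) hL hR hJ hN (K := K) (Kb := Kb) (c0 := c0) (c1 := c1) (Cl := Cl) (Cu := Cu)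
    (Cd := Cd * ((q * N ^ 2 : ℕ) : ℝ) ^ r) (ν := ν0 / (N : ℝ) ^ 4) (δ0 := δ0) (τ := τ)
    (ζ := z0 / (N : ℝ) ^ 8) hKb hc0 hc1 hCu (by positivity) hτp (by positivity) hnear
    (fun p hp z => hb _ hR p hp z) (fun p hp j hj z hz => hd _ hR p hp j hj z hz)
    (fun u hu v hv h => hloc _ hR u hu v hv h) hlow hup ?_ ?_ ?_ ?_ ?_ ?_ ?_
  · obtain ⟨m', hm'U, hm'⟩ := hcore
    refine ⟨m', hm'U, fun k hk => lt_of_le_of_lt ?_ (hm' k hk)⟩
    have hNB : (1 : ℝ) ≤ (N : ℝ) ^ (26 + 2 * r) := one_le_pow₀ hN1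
    refine le_min ?_ ?_
    · have e1 : τ * (z0 / (N : ℝ) ^ 8) / 8 / (8 * Real.pi * M0 ^ 2) =
          1 / (64 * Real.pi * M0 ^ 2 / (t0 * z0) * (N : ℝ) ^ (26 + 2 * r)) := by
        have e2 : (N : ℝ) ^ (26 + 2 * r) = (N : ℝ) ^ (18 + 2 * r) * (N : ℝ) ^ 8 := by
          rw [← pow_add]
          congr 1
          omega
        rw [hτ, e2]
        field_simp
        ring
      rw [e1]
      apply one_div_le_one_div_of_le (by positivity)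
      gcongr
      exact le_max_left _ _
    · apply one_div_le_one_div_of_le (by positivity)
      calc 16 * Real.pi * M0 = 16 * Real.pi * M0 * 1 := by ring
        _ ≤ _ := by
            gcongr
            exact le_max_right _ _
  · -- hνN
    intro n hn
    have h1 : ((n : ℝ) + 2) ≤ 2 * N := by
      have : (n : ℝ) + 1 ≤ N := by exact_mod_cast hn
      linarith
    have h2 : ν0 / (N : ℝ) ^ 4 = 1 / (2 * Cu * (2 * N) ^ 4) := by
      rw [hν0]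
      field_simp
      norm_num
    rw [h2]
    apply one_div_le_one_div_of_le (by positivity)
    gcongr
  · -- hR2
    rw [hRc]
    have h1 : (q * (N : ℝ) ^ 2) ^ 2 * (ν0 / (N : ℝ) ^ 4 / 4) = (q : ℝ) ^ 2 * ν0 / 4 := by
      field_simp
    rw [h1]
    have h2 : 8 * Cl ≤ q * ν0 := by rwa [div_le_iff₀ hν0p] at hq2
    nlinarith
  · -- hζ1
    rw [hRc, hz0]
    apply le_of_eq
    field_simp
  · -- hH1
    rw [hcard, hJc, hτ]
    have h1 : t0 / (N : ℝ) ^ (18 + 2 * r) * (j0 * (N : ℝ) ^ 14 * (g0 * (N : ℝ) ^ 4) * Kb) =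
        t0 * (j0 * g0 * Kb) / (N : ℝ) ^ (2 * r) := by
      have e2 : (N : ℝ) ^ (18 + 2 * r) = (N : ℝ) ^ 18 * (N : ℝ) ^ (2 * r) := by rw [← pow_add]
      rw [e2]
      field_simp
    rw [h1]
    refine le_trans ?_ ht1
    exact div_le_self (by positivity) hN18
  · -- hH2
    rw [hcard, hJc, hτ, hRc]
    have h1 : t0 / (N : ℝ) ^ (18 + 2 * r) *
        (j0 * (N : ℝ) ^ 14 * (g0 * (N : ℝ) ^ 4) * (Cd * (q * (N : ℝ) ^ 2) ^ r)) =
        t0 * (j0 * g0 * Cd * (q : ℝ) ^ r) := by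
      have e2 : (N : ℝ) ^ (18 + 2 * r) = (N : ℝ) ^ 18 * (N : ℝ) ^ (2 * r) := by rw [← pow_add]
      have e3 : (q * (N : ℝ) ^ 2) ^ r = (q : ℝ) ^ r * (N : ℝ) ^ (2 * r) := by
        rw [mul_pow, ← pow_mul]
      rw [e2, e3]
      field_simp
    rw [h1]
    exact ht2
  · -- hH3
    have h1 : 128 * N * Kb ^ 2 * M0 * τ ≤ z0 / (N : ℝ) ^ 8 := by
      rw [hτ, le_div_iff₀ (by positivity)]
      have e2 : (N : ℝ) ^ (18 + 2 * r) = (N : ℝ) ^ 9 * (N : ℝ) ^ (9 + 2 * r) := by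
        rw [← pow_add]
        congr 1
        omega
      have e3 : 128 * N * Kb ^ 2 * M0 * (t0 / (N : ℝ) ^ (18 + 2 * r)) * (N : ℝ) ^ 8 =
          t0 * (128 * Kb ^ 2 * M0) / (N : ℝ) ^ (9 + 2 * r) := by
        rw [e2]
        field_simp
      rw [e3]
      refine (div_le_self (by positivity) (one_le_pow₀ hN1)).trans ht3
    have h2 := mul_le_mul_of_nonneg_left h1 hτp.le
    calc 4 * (N : ℝ) * (2 * Kb) ^ 2 * τ ^ 2 * M0 = τ * (128 * N * Kb ^ 2 * M0 * τ) / 8 := by ring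
      _ ≤ τ * (z0 / (N : ℝ) ^ 8) / 8 := by gcongr
  · -- hH4
    rw [hcard, hJc]
    have h1 : 16 * g0 * Kb * M0 < j0 * z0 := by rwa [div_lt_iff₀ hz0p] at hj2
    calc 16 * (N : ℝ) ^ 2 * (g0 * (N : ℝ) ^ 4) * Kb * M0 = (16 * g0 * Kb * M0) * (N : ℝ) ^ 6 := by
          ring
      _ < (j0 * z0) * (N : ℝ) ^ 6 := by gcongr
      _ = j0 * (N : ℝ) ^ 14 * (z0 / (N : ℝ) ^ 8) := by
          field_simp

end BGS
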