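import Pool.Agent.LibBGR.Upp
import Pool.Agent.LibBGR.Asm5

/-! ROW OPN : gaps are open conditions; levels are finite. ROW FIN : Baire. -/

open MeasureTheory Set Filter Topology
open scoped ContDiff ENNReal NNReal

namespace BGS

variable {Γ : Type} [Group Γ] [MulAction Γ Pl] {D : Set Pl}

/-! ### ROW OPN -/

theorem lvl_ne_top (hX : Surface Γ D) (m : Mt Γ D) (k : ℕ) : lvl m k ≠ ⊤ := by
  obtain ⟨C, hC, h⟩ := lam_upper hX m
  have h1 : ev Γ D m.1.1 k = lam (aF hX m) (bF hX m (oneT Γ)) k / ENNReal.ofReal 1 := by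
    refine ev_eq_lam hX m m (oneT Γ) (fun z => one_pos) one_pos (fun z => ?_) k
    have h2 : (oneT Γ).1 z = 1 := rfl
    rw [h2, mul_one, one_smul]
  rw [ENNReal.ofReal_one, div_one] at h1
  unfold lvl
  rw [h1]
  exact ENNReal.div_ne_top (ne_top_of_le_ne_top ENNReal.ofReal_ne_top (h k)) Stat_pi_ne_zero

theorem OPN_cont (hX : Surface Γ D) (k : ℕ) : Continuous fun m : Mt Γ D => x m k :=
  continuous_iff_continuousAt.2 fun m => tendsto_x hX m (lvl_ne_top hX m k)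

theorem isOpen_gap (hX : Surface Γ D) (N : ℕ) (c : ℝ) :
    IsOpen {m : Mt Γ D | ∀ k < N, c < x m (k + 1) - x m k} := by
  have h1 : {m : Mt Γ D | ∀ k < N, c < x m (k + 1) - x m k} =
      ⋂ k ∈ Finset.range N, {m : Mt Γ D | c < x m (k + 1) - x m k} := by
    ext m
    simp
  rw [h1]
  refine isOpen_biInter_finset fun k _ => ?_
  exact isOpen_lt continuous_const ((OPN_cont hX (k + 1)).sub (OPN_cont hX k))

/-! ### ROW FIN -/

theorem FIN_small {s : ℕ → ℝ} (hs : ∀ B : ℕ, Tendsto (fun N : ℕ => (N : ℝ) ^ B * s N) atTop (𝓝 0))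
    (B : ℕ) {C : ℝ} (hC : 0 < C) (n₀ : ℕ) :
    ∃ N : ℕ, n₀ ≤ N ∧ 1 ≤ N ∧ s N < 1 / (C * (N : ℝ) ^ B) := by
  have h1 : ∀ᶠ N : ℕ in atTop, (N : ℝ) ^ B * s N < 1 / C :=
    (hs B).eventually_lt_const (by positivity)
  obtain ⟨N, h2, h3, h4⟩ := (h1.and ((eventually_ge_atTop n₀).and (eventually_ge_atTop 1))).exists
  refine ⟨N, h3, h4, ?_⟩
  have hN : (0 : ℝ) < (N : ℝ) ^ B := by
    have : (0 : ℝ) < N := by exact_mod_cast h4
    positivity
  rw [lt_div_iff₀ (by positivity)]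
  rw [lt_div_iff₀ hC] at h2
  linarith

theorem generic_gap (hX : Surface Γ D) (s : ℕ → ℝ)
    (hs : ∀ B : ℕ, Tendsto (fun N : ℕ => (N : ℝ) ^ B * s N) atTop (𝓝 0)) :
    {m : Mt Γ D | ∃ᶠ N : ℕ in atTop, ∀ k < N, s N ≤ x m (k + 1) - x m k} ∈ residual (Mt Γ D) := by
  have h1 : ∀ n₀ : ℕ, {m : Mt Γ D | ∃ N : ℕ, n₀ ≤ N ∧ ∀ k < N, s N < x m (k + 1) - x m k} ∈
      residual (Mt Γ D) := by
    intro n₀
    refine residual_of_dense_open ?_ ?_
    · have h2 : {m : Mt Γ D | ∃ N : ℕ, n₀ ≤ N ∧ ∀ k < N, s N < x m (k + 1) - x m k} =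
          ⋃ (N : ℕ) (_ : n₀ ≤ N), {m : Mt Γ D | ∀ k < N, s N < x m (k + 1) - x m k} := by
        ext m
        simp
      rw [h2]
      exact isOpen_iUnion fun N => isOpen_iUnion fun _ => isOpen_gap hX N (s N)
    · intro m
      rw [mem_closure_iff_nhds]
      intro U hU
      obtain ⟨B, C, hC, h3⟩ := ASM_dense_gap hX m hU
      obtain ⟨N, hN, hN1, hsN⟩ := FIN_small hs B hC n₀
      obtain ⟨m', hm', h4⟩ := h3 N hN1
      exact ⟨m', hm', N, hN, fun k hk => hsN.trans (h4 k hk)⟩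
  have h2 : (⋂ n₀ : ℕ, {m : Mt Γ D | ∃ N : ℕ, n₀ ≤ N ∧ ∀ k < N, s N < x m (k + 1) - x m k}) ∈
      residual (Mt Γ D) := countable_iInter_mem.2 h1
  refine mem_of_superset h2 ?_
  intro m hm
  rw [mem_iInter] at hm
  rw [mem_ofPred_eq, frequently_atTop]
  intro n₀
  obtain ⟨N, hN, h3⟩ := hm n₀
  exact ⟨N, hN, fun k hk => (h3 k hk).le⟩

end BGS
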