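import Mathlib
import Pool.Agent.LibBGS.StatP

/-! Quantitative level repulsion: abstract pencils of quadratic forms, the forms of a surface. -/

open MeasureTheory Set Filter Topology
open scoped ContDiff ENNReal NNReal

namespace BGS

section Abstract

variable {E : Type} [AddCommGroup E] [Module ℝ E]

/-- An energy form `a` and an `L²` form `b`, with constants `e`. -/
structure IsPair (a b : LinearMap.BilinForm ℝ E) (e : E) : Prop where
  asym : ∀ u v, a u v = a v u
  bsym : ∀ u v, b u v = b v u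
  apos : ∀ u, 0 ≤ a u u
  bpos : ∀ u, u ≠ 0 → 0 < b u u
  ae : ∀ u, a e u = 0
  aker : ∀ u, a u u = 0 → ∃ c : ℝ, u = c • e
  ne : e ≠ 0

/-- Min-max levels of `a` with respect to `b`. -/
noncomputable def lam (a b : LinearMap.BilinForm ℝ E) (k : ℕ) : ℝ≥0∞ :=
  ⨅ (c : ℝ≥0) (_ : ∃ V : Submodule ℝ E, Module.finrank ℝ V = k + 1 ∧
    ∀ u ∈ V, a u u ≤ c * b u u), (c : ℝ≥0∞)

/-- The reciprocal of the level number `k + 1`. -/
noncomputable def mu (a b : LinearMap.BilinForm ℝ E) (k : ℕ) : ℝ := ((lam a b (k + 1))⁻¹).toReal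

end Abstract

variable {Γ : Type} [Group Γ] [MulAction Γ Pl] {D : Set Pl}

/-- Smooth functions on the surface, as a submodule. -/
def TestS (Γ : Type) [Group Γ] [MulAction Γ Pl] : Submodule ℝ (Pl → ℝ) where
  carrier := Test Γ
  add_mem' := by
    rintro u v ⟨hu, hu'⟩ ⟨hv, hv'⟩
    exact ⟨hu.add hv, fun γ z => by simp [hu' γ z, hv' γ z]⟩
  zero_mem' := ⟨contDiff_const, fun _ _ => rfl⟩
  smul_mem' := by
    rintro c u ⟨hu, hu'⟩
    exact ⟨contDiff_const.smul hu, fun γ z => by simp [hu' γ z]⟩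

theorem mem_TestS {u : Pl → ℝ} : u ∈ TestS Γ ↔ u ∈ Test Γ := Iff.rfl

/-- The constant function one. -/
def oneT (Γ : Type) [Group Γ] [MulAction Γ Pl] : TestS Γ := ⟨fun _ => 1, contDiff_const, fun _ _ => rfl⟩

/-- Polarised energy density. -/
noncomputable def wf2 (c : Co) (p q p' q' : ℝ) : ℝ :=
  (c.2.2 * p * p' - c.2.1 * (p * q' + q * p') + c.1 * q * q') / √(dt c)

theorem wf2_self (c : Co) (p q : ℝ) : wf2 c p q p q = wf c p q := by
  unfold wf2 wf
  congr 1
  ring

theorem BGR_rho (m : Mt Γ D) : Continuous fun z => √(dt (m.1.1 z)) :=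
  Real.continuous_sqrt.comp (Cmp_dt_cont.comp m.1.2.continuous)

theorem BGR_wf2_cont (m : Mt Γ D) {u v : Pl → ℝ} (hu : ContDiff ℝ ∞ u) (hv : ContDiff ℝ ∞ v) :
    Continuous fun z => wf2 (m.1.1 z) (dx u z) (dy u z) (dx v z) (dy v z) := by
  have hm : Continuous m.1.1 := m.1.2.continuous
  have hx := Cmp_dx hu
  have hy := Cmp_dy hu
  have hx' := Cmp_dx hv
  have hy' := Cmp_dy hv
  unfold wf2
  apply Continuous.div
  · fun_prop
  · exact BGR_rho m
  · intro z
    exact (Real.sqrt_pos.2 (m.2.pos z).2).ne'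

theorem BGR_dx_add {u v : Pl → ℝ} (hu : ContDiff ℝ ∞ u) (hv : ContDiff ℝ ∞ v) (z : Pl) :
    dx (u + v) z = dx u z + dx v z := by
  unfold dx
  rw [fderiv_add (hu.differentiable (by simp) z) (hv.differentiable (by simp) z)]
  rfl

theorem BGR_dy_add {u v : Pl → ℝ} (hu : ContDiff ℝ ∞ u) (hv : ContDiff ℝ ∞ v) (z : Pl) :
    dy (u + v) z = dy u z + dy v z := by
  unfold dy
  rw [fderiv_add (hu.differentiable (by simp) z) (hv.differentiable (by simp) z)]
  rfl

theorem BGR_dx_smul {u : Pl → ℝ} (hu : ContDiff ℝ ∞ u) (c : ℝ) (z : Pl) :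
    dx (c • u) z = c * dx u z := by
  unfold dx
  rw [fderiv_const_smul (hu.differentiable (by simp) z)]
  rfl

theorem BGR_dy_smul {u : Pl → ℝ} (hu : ContDiff ℝ ∞ u) (c : ℝ) (z : Pl) :
    dy (c • u) z = c * dy u z := by
  unfold dy
  rw [fderiv_const_smul (hu.differentiable (by simp) z)]
  rfl

/-- The energy as a bilinear form. -/
noncomputable def aF (hX : Surface Γ D) (m : Mt Γ D) : LinearMap.BilinForm ℝ (TestS Γ) :=
  LinearMap.mk₂ ℝ (fun u v => ∫ z in D, wf2 (m.1.1 z) (dx u.1 z) (dy u.1 z) (dx v.1 z) (dy v.1 z))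
    (fun u u' v => by
      rw [← integral_add (Cmp_int hX (BGR_wf2_cont m u.2.1 v.2.1))
        (Cmp_int hX (BGR_wf2_cont m u'.2.1 v.2.1))]
      congr 1
      funext z
      rw [Submodule.coe_add, BGR_dx_add u.2.1 u'.2.1, BGR_dy_add u.2.1 u'.2.1]
      unfold wf2
      ring)
    (fun c u v => by
      rw [smul_eq_mul, ← integral_const_mul]
      congr 1
      funext z
      rw [Submodule.coe_smul, BGR_dx_smul u.2.1, BGR_dy_smul u.2.1]
      unfold wf2
      ring)
    (fun u v v' => by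
      rw [← integral_add (Cmp_int hX (BGR_wf2_cont m u.2.1 v.2.1))
        (Cmp_int hX (BGR_wf2_cont m u.2.1 v'.2.1))]
      congr 1
      funext z
      rw [Submodule.coe_add, BGR_dx_add v.2.1 v'.2.1, BGR_dy_add v.2.1 v'.2.1]
      unfold wf2
      ring)
    (fun c u v => by
      rw [smul_eq_mul, ← integral_const_mul]
      congr 1
      funext z
      rw [Submodule.coe_smul, BGR_dx_smul v.2.1, BGR_dy_smul v.2.1]
      unfold wf2
      ring)

theorem BGR_b_cont (m : Mt Γ D) {w u v : Pl → ℝ} (hw : ContDiff ℝ ∞ w) (hu : ContDiff ℝ ∞ u)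
    (hv : ContDiff ℝ ∞ v) : Continuous fun z => w z * u z * v z * √(dt (m.1.1 z)) :=
  (((hw.continuous.mul hu.continuous).mul hv.continuous)).mul (BGR_rho m)

/-- The `L²` form with weight `w`, as a bilinear form. -/
noncomputable def bF (hX : Surface Γ D) (m : Mt Γ D) (w : TestS Γ) :
    LinearMap.BilinForm ℝ (TestS Γ) :=
  LinearMap.mk₂ ℝ (fun u v => ∫ z in D, w.1 z * u.1 z * v.1 z * √(dt (m.1.1 z)))
    (fun u u' v => by
      rw [← integral_add (Cmp_int hX (BGR_b_cont m w.2.1 u.2.1 v.2.1))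
        (Cmp_int hX (BGR_b_cont m w.2.1 u'.2.1 v.2.1))]
      congr 1
      funext z
      rw [Submodule.coe_add, Pi.add_apply]
      ring)
    (fun c u v => by
      rw [smul_eq_mul, ← integral_const_mul]
      congr 1
      funext z
      rw [Submodule.coe_smul, Pi.smul_apply, smul_eq_mul]
      ring)
    (fun u v v' => by
      rw [← integral_add (Cmp_int hX (BGR_b_cont m w.2.1 u.2.1 v.2.1))
        (Cmp_int hX (BGR_b_cont m w.2.1 u.2.1 v'.2.1))]
      congr 1
      funext z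
      rw [Submodule.coe_add, Pi.add_apply]
      ring)
    (fun c u v => by
      rw [smul_eq_mul, ← integral_const_mul]
      congr 1
      funext z
      rw [Submodule.coe_smul, Pi.smul_apply, smul_eq_mul]
      ring)

theorem aF_apply (hX : Surface Γ D) (m : Mt Γ D) (u v : TestS Γ) :
    aF hX m u v = ∫ z in D, wf2 (m.1.1 z) (dx u.1 z) (dy u.1 z) (dx v.1 z) (dy v.1 z) := rfl

theorem bF_apply (hX : Surface Γ D) (m : Mt Γ D) (w u v : TestS Γ) :
    bF hX m w u v = ∫ z in D, w.1 z * u.1 z * v.1 z * √(dt (m.1.1 z)) := rfl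

/-- The basic bump function in the unit square. -/
noncomputable def bump0 : ContDiffBump (((1 / 2 : ℝ), (1 / 2 : ℝ)) : Pl) :=
  ⟨1 / 8, 1 / 4, by norm_num, by norm_num⟩

/-- The bump function in the square with corner `p / R` and side `1 / R`. -/
noncomputable def bmp (R : ℕ) (p : ℤ × ℤ) (z : Pl) : ℝ :=
  bump0 ((R * z.1 - p.1, R * z.2 - p.2) : Pl)

/-- Sum over the group. -/
noncomputable def per (Γ : Type) [Group Γ] [MulAction Γ Pl] (f : Pl → ℝ) (z : Pl) : ℝ :=
  ∑ᶠ γ : Γ, f (γ • z)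

/-- The grid of squares of side `1 / R` in `[-L, L)²`. -/
noncomputable def grid (L R : ℕ) : Finset (ℤ × ℤ) :=
  Finset.Ico (-(L * R : ℤ)) (L * R) ×ˢ Finset.Ico (-(L * R : ℤ)) (L * R)

/-- The big square. -/
def bigSq (L : ℕ) : Set Pl := Disc_sq (-L) (-L) (2 * L)

end BGS
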