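import Pool.Agent.LibBGR.Defs

/-! ROW FRC : the forms of a surface. -/

open MeasureTheory Set Filter Topology
open scoped ContDiff ENNReal NNReal

namespace BGS

variable {Γ : Type} [Group Γ] [MulAction Γ Pl] {D : Set Pl}

theorem FRC_zero {m : Mt Γ D} {z : Pl} {p q : ℝ} (h : wf (m.1.1 z) p q = 0) : p = 0 ∧ q = 0 := by
  have h0 := m.2.pos z
  have h1 := Cmp_one h0.2
  have h2 := Cmp_sum h0.1 h0.2
  rw [Cmp_wf] at h
  set A := (m.1.1 z).2.2 / √(dt (m.1.1 z))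
  set B := (m.1.1 z).2.1 / √(dt (m.1.1 z))
  set C := (m.1.1 z).1 / √(dt (m.1.1 z))
  have e : (A + C) * (A * p ^ 2 - 2 * B * p * q + C * q ^ 2) =
      (A * p - B * q) ^ 2 + (B * p - C * q) ^ 2 + (A * C - B ^ 2) * (p ^ 2 + q ^ 2) := by ring
  rw [h1, h, mul_zero] at e
  constructor
  · nlinarith [sq_nonneg (A * p - B * q), sq_nonneg (B * p - C * q), sq_nonneg p, sq_nonneg q]
  · nlinarith [sq_nonneg (A * p - B * q), sq_nonneg (B * p - C * q), sq_nonneg p, sq_nonneg q]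

theorem en_const (hX : Surface Γ D) (m : Mt Γ D) {u : Pl → ℝ} (hu : u ∈ Test Γ)
    (h : en D m.1.1 u = 0) : ∃ c : ℝ, ∀ z, u z = c := by
  have hcont := Cmp_wf_cont m hu.1
  have hnn : ∀ z, 0 ≤ wf (m.1.1 z) (dx u z) (dy u z) := fun z => Cover_wf_nonneg m z _ _
  have := Cover_countable hX
  have h1 : ∀ γ : Γ, volume (((fun w : Pl => γ • w) '' D) ∩
      {z | wf (m.1.1 z) (dx u z) (dy u z) ≠ 0}) = 0 := by
    intro γ
    have h2 : ∫ z in (fun w : Pl => γ • w) '' D, wf (m.1.1 z) (dx u z) (dy u z) = 0 := by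
      rw [en_smul hX m γ hu, h]
    rw [setIntegral_eq_zero_iff_of_nonneg_ae (ae_of_all _ hnn) (Cover_int hX γ hcont)] at h2
    have h3 : ∀ᵐ z ∂(volume.restrict ((fun w : Pl => γ • w) '' D)),
        wf (m.1.1 z) (dx u z) (dy u z) = 0 := h2
    rw [ae_restrict_iff' (Cover_meas hX γ), ae_iff] at h3
    refine measure_mono_null ?_ h3
    intro z hz
    simp only [Set.mem_ofPred_eq, Classical.not_imp]
    exact hz
  have hN : volume {z | wf (m.1.1 z) (dx u z) (dy u z) ≠ 0} = 0 := by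
    have hsub : {z | wf (m.1.1 z) (dx u z) (dy u z) ≠ 0} ⊆ ⋃ γ : Γ,
        (((fun w : Pl => γ • w) '' D) ∩ {z | wf (m.1.1 z) (dx u z) (dy u z) ≠ 0}) := by
      intro z hz
      obtain ⟨γ, hγ, -⟩ := hX.orbit z
      exact mem_iUnion.2 ⟨γ⁻¹, ⟨γ • z, hγ, by simp⟩, hz⟩
    refine measure_mono_null hsub ?_
    rw [measure_iUnion_null_iff]
    exact h1
  have hopen : IsOpen {z | wf (m.1.1 z) (dx u z) (dy u z) ≠ 0} :=
    isOpen_ne_fun hcont continuous_const
  have hz : ∀ z, wf (m.1.1 z) (dx u z) (dy u z) = 0 := by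
    intro z
    by_contra hz
    exact (hopen.measure_pos volume ⟨z, hz⟩).ne' hN
  have hd : Differentiable ℝ u := hu.1.differentiable (by simp)
  refine ⟨u 0, fun z => is_const_of_fderiv_eq_zero (𝕜 := ℝ) hd (fun w => ?_) z 0⟩
  obtain ⟨hp, hq⟩ := FRC_zero (hz w)
  refine ContinuousLinearMap.ext fun v => ?_
  have h1 : v = v.1 • ((1 : ℝ), (0 : ℝ)) + v.2 • ((0 : ℝ), (1 : ℝ)) := by
    ext <;> simp
  rw [h1, map_add, map_smul, map_smul]
  unfold dx at hp
  unfold dy at hq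
  rw [hp, hq]
  simp

theorem bF_add_smul (hX : Surface Γ D) (m : Mt Γ D) (w h : TestS Γ) (τ : ℝ) :
    bF hX m (w + τ • h) = bF hX m w + τ • bF hX m h := by
  refine LinearMap.ext₂ fun u v => ?_
  rw [LinearMap.add_apply, LinearMap.add_apply, LinearMap.smul_apply, LinearMap.smul_apply,
    bF_apply, bF_apply, bF_apply, smul_eq_mul, ← integral_const_mul,
    ← integral_add (Cmp_int hX (BGR_b_cont m w.2.1 u.2.1 v.2.1))
      ((Cmp_int hX (BGR_b_cont m h.2.1 u.2.1 v.2.1)).const_mul τ)]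
  congr 1
  funext z
  rw [Submodule.coe_add, Submodule.coe_smul, Pi.add_apply, Pi.smul_apply, smul_eq_mul]
  ring

theorem bF_le (hX : Surface Γ D) (m : Mt Γ D) {w w' : TestS Γ} {θ : ℝ}
    (h : ∀ z, w.1 z ≤ θ * w'.1 z) (u : TestS Γ) : bF hX m w u u ≤ θ * bF hX m w' u u := by
  rw [bF_apply, bF_apply, ← integral_const_mul]
  refine setIntegral_mono (Cmp_int hX (BGR_b_cont m w.2.1 u.2.1 u.2.1))
    ((Cmp_int hX (BGR_b_cont m w'.2.1 u.2.1 u.2.1)).const_mul θ) fun z => ?_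
  have h1 : 0 ≤ u.1 z * u.1 z * √(dt (m.1.1 z)) :=
    mul_nonneg (mul_self_nonneg _) (Real.sqrt_nonneg _)
  have h2 := mul_le_mul_of_nonneg_right (h z) h1
  calc w.1 z * u.1 z * u.1 z * √(dt (m.1.1 z)) = w.1 z * (u.1 z * u.1 z * √(dt (m.1.1 z))) := by
        ring
    _ ≤ θ * w'.1 z * (u.1 z * u.1 z * √(dt (m.1.1 z))) := h2
    _ = θ * (w'.1 z * u.1 z * u.1 z * √(dt (m.1.1 z))) := by ring

theorem aF_self (hX : Surface Γ D) (m : Mt Γ D) (u : TestS Γ) :
    aF hX m u u = en D m.1.1 u.1 := by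
  rw [aF_apply]
  unfold en
  simp only [wf2_self]

theorem bF_one_self (hX : Surface Γ D) (m : Mt Γ D) (u : TestS Γ) :
    bF hX m (oneT Γ) u u = l2 D m.1.1 u.1 := by
  rw [bF_apply]
  unfold l2
  refine integral_congr_ae (ae_of_all _ fun z => ?_)
  show (1 : ℝ) * u.1 z * u.1 z * √(dt (m.1.1 z)) = u.1 z ^ 2 * √(dt (m.1.1 z))
  ring

theorem FRC_bpos (hX : Surface Γ D) (m : Mt Γ D) (w : TestS Γ) (hw : ∀ z, 0 < w.1 z)
    (u : TestS Γ) (h0 : u ≠ 0) : 0 < bF hX m w u u := by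
  have hnn : ∀ z, 0 ≤ w.1 z * u.1 z * u.1 z * √(dt (m.1.1 z)) := fun z => by
    have h1 : 0 ≤ u.1 z * u.1 z * √(dt (m.1.1 z)) :=
      mul_nonneg (mul_self_nonneg _) (Real.sqrt_nonneg _)
    have h2 := mul_nonneg (hw z).le h1
    calc (0 : ℝ) ≤ _ := h2
      _ = _ := by ring
  rw [bF_apply]
  refine lt_of_le_of_ne (integral_nonneg hnn) fun hz => ?_
  have hu0 : (u.1 : Pl → ℝ) ≠ 0 := fun h => h0 (Subtype.ext h)
  have hl := l2_pos hX m u.2 hu0
  have hz' : ∫ z in D, w.1 z * u.1 z * u.1 z * √(dt (m.1.1 z)) = 0 := hz.symm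
  rw [setIntegral_eq_zero_iff_of_nonneg_ae (ae_of_all _ hnn)
    (Cmp_int hX (BGR_b_cont m w.2.1 u.2.1 u.2.1))] at hz'
  have h1 : l2 D m.1.1 u.1 = 0 := by
    unfold l2
    refine integral_eq_zero_of_ae ?_
    filter_upwards [hz'] with z hz2
    have h2 : √(dt (m.1.1 z)) ≠ 0 := (Real.sqrt_pos.2 (m.2.pos z).2).ne'
    have h3 : w.1 z * u.1 z * u.1 z * √(dt (m.1.1 z)) = 0 := hz2
    have h4 : u.1 z = 0 := by
      rcases mul_eq_zero.1 h3 with h4 | h4
      · rcases mul_eq_zero.1 h4 with h5 | h5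
        · rcases mul_eq_zero.1 h5 with h6 | h6
          · exact absurd h6 (hw z).ne'
          · exact h6
        · exact h5
      · exact absurd h4 h2
    show u.1 z ^ 2 * √(dt (m.1.1 z)) = 0
    rw [h4]
    simp
  exact hl.ne' h1

theorem pair_surface (hX : Surface Γ D) (m : Mt Γ D) (w : TestS Γ) (hw : ∀ z, 0 < w.1 z) :
    IsPair (aF hX m) (bF hX m w) (oneT Γ) where
  asym u v := by
    rw [aF_apply, aF_apply]
    congr 1
    funext z
    unfold wf2
    ring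
  bsym u v := by
    rw [bF_apply, bF_apply]
    congr 1
    funext z
    ring
  apos u := by
    rw [aF_self]
    exact integral_nonneg fun z => Cover_wf_nonneg m z _ _
  bpos u hu := FRC_bpos hX m w hw u hu
  ae u := by
    rw [aF_apply]
    have h1 : ∀ z : Pl, dx (oneT Γ).1 z = 0 := fun z => by
      show fderiv ℝ (fun _ : Pl => (1 : ℝ)) z (1, 0) = 0
      simp
    have h2 : ∀ z : Pl, dy (oneT Γ).1 z = 0 := fun z => by
      show fderiv ℝ (fun _ : Pl => (1 : ℝ)) z (0, 1) = 0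
      simp
    simp only [h1, h2, wf2]
    simp
  aker u hu := by
    rw [aF_self] at hu
    obtain ⟨c, hc⟩ := en_const hX m u.2 hu
    refine ⟨c, Subtype.ext (funext fun z => ?_)⟩
    rw [hc z]
    show c = c * 1
    ring
  ne h := by
    have h1 : (oneT Γ).1 0 = (0 : TestS Γ).1 0 := by rw [h]
    exact one_ne_zero h1

theorem FRC_dt (κ : ℝ) (c : Co) : dt (κ • c) = κ ^ 2 * dt c := by
  unfold dt
  simp only [Prod.smul_fst, Prod.smul_snd, smul_eq_mul]
  ring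

theorem FRC_sqrt {κ : ℝ} (hκ : 0 < κ) (c : Co) : √(dt (κ • c)) = κ * √(dt c) := by
  rw [FRC_dt, Real.sqrt_mul (sq_nonneg _), Real.sqrt_sq hκ.le]

theorem FRC_wf {κ : ℝ} (hκ : 0 < κ) (c : Co) (p q : ℝ) : wf (κ • c) p q = wf c p q := by
  unfold wf
  rw [FRC_sqrt hκ]
  simp only [Prod.smul_fst, Prod.smul_snd, smul_eq_mul]
  rw [show κ * c.2.2 * p ^ 2 - 2 * (κ * c.2.1) * p * q + κ * c.1 * q ^ 2 =
    κ * (c.2.2 * p ^ 2 - 2 * c.2.1 * p * q + c.1 * q ^ 2) by ring]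
  exact mul_div_mul_left _ _ hκ.ne'

/-- Levels of a conformal metric `c w m`. -/
theorem ev_eq_lam (hX : Surface Γ D) (m m' : Mt Γ D) (w : TestS Γ) (hw : ∀ z, 0 < w.1 z) {c : ℝ}
    (hc : 0 < c) (h : ∀ z, m'.1.1 z = (c * w.1 z) • m.1.1 z) (k : ℕ) :
    ev Γ D m'.1.1 k = lam (aF hX m) (bF hX m w) k / ENNReal.ofReal c := by
  have hen : ∀ u : TestS Γ, en D m'.1.1 u.1 = aF hX m u u := by
    intro u
    rw [aF_self]
    unfold en
    congr 1
    funext z
    rw [h z, FRC_wf (mul_pos hc (hw z))]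
  have hl2 : ∀ u : TestS Γ, l2 D m'.1.1 u.1 = c * bF hX m w u u := by
    intro u
    rw [bF_apply, ← integral_const_mul]
    unfold l2
    congr 1
    funext z
    rw [h z, FRC_sqrt (mul_pos hc (hw z))]
    ring
  have hc0 : ENNReal.ofReal c ≠ 0 := by simpa using hc
  have hct : ENNReal.ofReal c ≠ ⊤ := ENNReal.ofReal_ne_top
  set c' : ℝ≥0 := c.toNNReal with hc'
  have hcc : (c' : ℝ) = c := Real.coe_toNNReal c hc.le
  have hcp : c' ≠ 0 := by
    intro h0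
    rw [h0] at hcc
    exact hc.ne' (by simpa using hcc.symm)
  have hce : ENNReal.ofReal c = (c' : ℝ≥0∞) := rfl
  apply le_antisymm
  · rw [ENNReal.le_div_iff_mul_le (Or.inl hc0) (Or.inl hct)]
    unfold lam
    refine le_iInf₂ fun c₁ hV => ?_
    obtain ⟨V, hV1, hV2⟩ := hV
    have h1 : ev Γ D m'.1.1 k ≤ ((c₁ / c' : ℝ≥0) : ℝ≥0∞) := by
      unfold ev
      refine iInf₂_le (c₁ / c') ⟨V.map (TestS Γ).subtype, ?_, ?_⟩
      · rw [Submodule.finrank_map_subtype_eq, hV1]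
      · rintro u ⟨v, hv, rfl⟩
        refine ⟨v.2, ?_⟩
        have h2 := hV2 v hv
        show en D m'.1.1 v.1 ≤ _ * l2 D m'.1.1 v.1
        rw [hen, hl2, NNReal.coe_div, hcc]
        have h3 : (c₁ : ℝ) / c * (c * bF hX m w v v) = c₁ * bF hX m w v v := by
          field_simp
        rw [h3]
        exact h2
    calc ev Γ D m'.1.1 k * ENNReal.ofReal c ≤ ((c₁ / c' : ℝ≥0) : ℝ≥0∞) * c' := by
          rw [hce]
          exact mul_le_mul_left h1 _
      _ = (c₁ : ℝ≥0∞) := by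
          rw [← ENNReal.coe_mul, div_mul_cancel₀ _ hcp]
  · unfold ev
    refine le_iInf₂ fun c₀ hV => ?_
    obtain ⟨V, hV1, hV2⟩ := hV
    rw [ENNReal.div_le_iff_le_mul (Or.inl hc0) (Or.inl hct), hce, ← ENNReal.coe_mul]
    unfold lam
    have hle : V ≤ TestS Γ := fun u hu => (hV2 u hu).1
    refine iInf₂_le (c₀ * c') ⟨V.comap (TestS Γ).subtype, ?_, ?_⟩
    · rw [← hV1]
      exact (Submodule.comapSubtypeEquivOfLe hle).finrank_eq
    · intro u hu
      have h2 := (hV2 u.1 hu).2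
      rw [hen, hl2] at h2
      rw [NNReal.coe_mul, hcc, mul_assoc]
      exact h2

end BGS
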