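import Pool.Agent.LibBGR.Frc

/-! ROW LOW : the first level is positive. -/

open MeasureTheory Set Filter Topology
open scoped ContDiff ENNReal NNReal

namespace BGS

variable {Γ : Type} [Group Γ] [MulAction Γ Pl] {D : Set Pl}

theorem lam_lower (hX : Surface Γ D) (m : Mt Γ D) :
    ∃ c > 0, ENNReal.ofReal c ≤ lam (aF hX m) (bF hX m (oneT Γ)) 1 := by
  obtain ⟨R, hR, hDR⟩ : ∃ R : ℝ, 0 < R ∧ D ⊆ Disc_sq (-R) (-R) (2 * R) := by
    obtain ⟨R, hR⟩ := hX.bdd.subset_closedBall (0 : Pl)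
    refine ⟨max R 0 + 1, by positivity, fun z hz => ?_⟩
    have h1 := hR hz
    rw [mem_closedBall_zero_iff, Prod.norm_def, max_le_iff, Real.norm_eq_abs, Real.norm_eq_abs,
      abs_le, abs_le] at h1
    have h2 := le_max_left R 0
    exact ⟨⟨by linarith [h1.1.1], by linarith [h1.1.2]⟩, ⟨by linarith [h1.2.1],
      by linarith [h1.2.2]⟩⟩
  set K : Set Pl := Icc (-R) (-R + 2 * R) ×ˢ Icc (-R) (-R + 2 * R) with hK
  have hKc : IsCompact K := isCompact_Icc.prod isCompact_Icc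
  have hKne : K.Nonempty := ⟨(0, 0), by
    constructor <;> constructor <;> simp <;> linarith⟩
  have hm : Continuous m.1.1 := m.1.2.continuous
  have hsq : Continuous fun z => √(dt (m.1.1 z)) :=
    Real.continuous_sqrt.comp (Cmp_dt_cont.comp hm)
  have hEG : ∀ z, 0 < (m.1.1 z).1 + (m.1.1 z).2.2 := by
    intro z
    have h := m.2.pos z
    have h3 : 0 < (m.1.1 z).2.2 := by
      have h4 := h.2
      unfold dt at h4
      by_contra hc
      push Not at hc
      nlinarith [mul_nonneg h.1.le (neg_nonneg.2 hc), sq_nonneg (m.1.1 z).2.1]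
    linarith [h.1]
  have hlow : Continuous fun z => √(dt (m.1.1 z)) / ((m.1.1 z).1 + (m.1.1 z).2.2) :=
    hsq.div ((continuous_fst.comp hm).add (continuous_snd.comp (continuous_snd.comp hm)))
      fun z => (hEG z).ne'
  obtain ⟨z1, _, hz1⟩ := hKc.exists_isMaxOn hKne hsq.continuousOn
  obtain ⟨z2, _, hz2⟩ := hKc.exists_isMinOn hKne hlow.continuousOn
  set A1 : ℝ := √(dt (m.1.1 z1)) with hA1
  set a2 : ℝ := √(dt (m.1.1 z2)) / ((m.1.1 z2).1 + (m.1.1 z2).2.2) with ha2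
  have hA1pos : 0 < A1 := Real.sqrt_pos.2 (m.2.pos z1).2
  have ha2pos : 0 < a2 := div_pos (Real.sqrt_pos.2 (m.2.pos z2).2) (hEG z2)
  have hbd : Bornology.IsBounded (Disc_sq (-R) (-R) (2 * R)) :=
    hKc.isBounded.subset (Disc_sq_sub _ _ _)
  obtain ⟨P, hP, hcov⟩ := en_cover hX m _ hbd (Disc_sq_meas (-R) (-R) (2 * R))
  set M : ℝ := A1 / a2 * P * (2 * R) ^ 2 with hM
  have hMpos : 0 < M := by positivity
  refine ⟨1 / M, by positivity, ?_⟩
  unfold lam
  refine le_iInf₂ fun c hc => ?_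
  obtain ⟨V, hV, hVc⟩ := hc
  have hV' : Module.finrank ℝ (V.map (TestS Γ).subtype) = 1 + 1 := by
    rw [← hV]
    exact (LinearEquiv.finrank_eq
      (Submodule.equivMapOfInjective (TestS Γ).subtype (TestS Γ).subtype_injective V)).symm
  obtain ⟨u', huV', hu0', hmean⟩ := Disc_count (V.map (TestS Γ).subtype)
    (fun p : Fin 1 × Fin 1 => Disc_sq (-R + (p.1 : ℕ) * (2 * R)) (-R + (p.2 : ℕ) * (2 * R)) (2 * R))
    (by rw [hV', Fintype.card_prod, Fintype.card_fin]; omega)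
    (fun u hu p => by
      obtain ⟨u1, _, rfl⟩ := hu
      exact Disc_intble u1.2.1.continuous _ _ _)
  obtain ⟨v, hvV, rfl⟩ := huV'
  have hmean' : ∀ p : Fin 1 × Fin 1,
      ∫ z in Disc_sq (-R + (p.1 : ℕ) * (2 * R)) (-R + (p.2 : ℕ) * (2 * R)) (2 * R), v.1 z = 0 :=
    hmean
  set u : Pl → ℝ := v.1 with hu
  have hT : u ∈ Test Γ := v.2
  have hu0 : u ≠ 0 := hu0'
  have hen : en D m.1.1 u ≤ c * l2 D m.1.1 u := by
    have h1 := hVc v hvV
    rwa [aF_self, bF_one_self] at h1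
  have hpos := l2_pos hX m hT hu0
  have hp := Disc_poin hT.1 (-R) (-R) (r := 2 * R) (by positivity) 1 hmean'
  rw [Nat.cast_one, one_mul] at hp
  set Q : Set Pl := Disc_sq (-R) (-R) (2 * R) with hQ
  have hQK : Q ⊆ K := Disc_sq_sub _ _ _
  have s1 : l2 D m.1.1 u ≤ A1 * ∫ z in Q, u z ^ 2 := by
    rw [← integral_const_mul]
    calc l2 D m.1.1 u ≤ ∫ z in Q, u z ^ 2 * √(dt (m.1.1 z)) :=
          setIntegral_mono_set (Disc_intble (Cmp_l2_cont m hT.1) _ _ _)
            (Eventually.of_forall fun z => mul_nonneg (sq_nonneg _) (Real.sqrt_nonneg _))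
            hDR.eventuallyLE
      _ ≤ ∫ z in Q, A1 * u z ^ 2 := by
          refine setIntegral_mono_on (Disc_intble (Cmp_l2_cont m hT.1) _ _ _)
            (Disc_intble (continuous_const.mul (hT.1.continuous.pow 2)) _ _ _)
            (Disc_sq_meas _ _ _) fun z hz => ?_
          rw [mul_comm]
          exact mul_le_mul_of_nonneg_right (hz1 (hQK hz)) (sq_nonneg _)
  have s2 : a2 * ∫ z in Q, (dx u z ^ 2 + dy u z ^ 2) ≤ P * en D m.1.1 u := by
    rw [← integral_const_mul]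
    refine le_trans ?_ (hcov u hT)
    refine setIntegral_mono_on
      (Disc_intble (continuous_const.mul (((Cmp_dx hT.1).pow 2).add ((Cmp_dy hT.1).pow 2))) _ _ _)
      (Disc_intble (Cmp_wf_cont m hT.1) _ _ _) (Disc_sq_meas _ _ _) fun z hz => ?_
    refine le_trans ?_ (Disc_wf (m.2.pos z).1 (m.2.pos z).2 _ _)
    exact mul_le_mul_of_nonneg_right (hz2 (hQK hz)) (by positivity)
  have s3 : l2 D m.1.1 u ≤ M * (c * l2 D m.1.1 u) := by
    have hI : ∫ z in Q, (dx u z ^ 2 + dy u z ^ 2) ≤ P * (c * l2 D m.1.1 u) / a2 := by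
      rw [le_div_iff₀ ha2pos, mul_comm]
      exact s2.trans (mul_le_mul_of_nonneg_left hen hP.le)
    calc l2 D m.1.1 u ≤ A1 * ∫ z in Q, u z ^ 2 := s1
      _ ≤ A1 * ((2 * R) ^ 2 * ∫ z in Q, (dx u z ^ 2 + dy u z ^ 2)) :=
          mul_le_mul_of_nonneg_left hp hA1pos.le
      _ ≤ A1 * ((2 * R) ^ 2 * (P * (c * l2 D m.1.1 u) / a2)) :=
          mul_le_mul_of_nonneg_left (mul_le_mul_of_nonneg_left hI (sq_nonneg _)) hA1pos.le
      _ = M * (c * l2 D m.1.1 u) := by rw [hM]; ring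
  have s4 : 1 ≤ M * c := by
    by_contra hlt
    push Not at hlt
    have h5 := mul_lt_mul_of_pos_right hlt hpos
    rw [one_mul] at h5
    have h6 : M * (c * l2 D m.1.1 u) = M * c * l2 D m.1.1 u := by ring
    linarith
  have s5 : 1 / M ≤ (c : ℝ) := by
    rw [div_le_iff₀ hMpos]
    linarith
  calc ENNReal.ofReal (1 / M) ≤ ENNReal.ofReal (c : ℝ) := ENNReal.ofReal_le_ofReal s5
    _ = (c : ℝ≥0∞) := ENNReal.ofReal_coe_nnreal

end BGS
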