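import Pool.Agent.LibBGR.Defs

/-! ROW MUL: comparison of levels. -/

open MeasureTheory Set Filter Topology
open scoped ContDiff ENNReal NNReal

namespace BGS

section Abstract

variable {E : Type} [AddCommGroup E] [Module ℝ E] {a b b' : LinearMap.BilinForm ℝ E} {e : E}

theorem mu_nonneg (a b : LinearMap.BilinForm ℝ E) (k : ℕ) : 0 ≤ mu a b k := ENNReal.toReal_nonneg

theorem lam_mono (a b : LinearMap.BilinForm ℝ E) : Monotone (lam a b) := by
  refine monotone_nat_of_le_succ fun k => ?_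
  unfold lam
  refine le_iInf₂ fun c hc => ?_
  obtain ⟨V, hV, hVc⟩ := hc
  refine iInf₂_le c ?_
  have : FiniteDimensional ℝ V := Module.finite_of_finrank_pos (by omega)
  let bb := Module.finBasisOfFinrankEq ℝ V hV
  have hli : LinearIndependent ℝ fun i : Fin (k + 1) => (bb i.castSucc : E) := by
    have h1 := bb.linearIndependent.comp _ (Fin.castSucc_injective (k + 1))
    exact h1.map' V.subtype (Submodule.ker_subtype V)
  refine ⟨Submodule.span ℝ (range fun i : Fin (k + 1) => (bb i.castSucc : E)), ?_, ?_⟩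
  · rw [finrank_span_eq_card hli, Fintype.card_fin]
  · intro u hu
    refine hVc u ((Submodule.span_le.2 ?_) hu)
    rintro _ ⟨i, rfl⟩
    exact (bb i.castSucc).2

theorem MUL_ne_zero (h1 : lam a b 1 ≠ 0) (k : ℕ) : lam a b (k + 1) ≠ 0 := by
  have h2 : lam a b 1 ≤ lam a b (k + 1) := lam_mono a b (Nat.le_add_left 1 k)
  intro h3
  rw [h3] at h2
  exact h1 (le_antisymm h2 bot_le)

theorem mu_anti (h1 : lam a b 1 ≠ 0) : Antitone (mu a b) := by
  intro k l hkl
  unfold mu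
  refine ENNReal.toReal_mono (ENNReal.inv_ne_top.2 (MUL_ne_zero h1 k)) ?_
  exact ENNReal.inv_le_inv.2 (lam_mono a b (Nat.add_le_add_right hkl 1))

theorem lam_le_of_le {θ : ℝ} (hθ : 0 < θ) (h : ∀ u, b u u ≤ θ * b' u u) (k : ℕ) :
    lam a b' k ≤ ENNReal.ofReal θ * lam a b k := by
  have hne : ENNReal.ofReal θ ≠ 0 := (ENNReal.ofReal_pos.2 hθ).ne'
  conv_rhs => unfold lam
  rw [ENNReal.mul_iInf_of_ne hne ENNReal.ofReal_ne_top]
  apply le_iInf
  intro c
  rw [ENNReal.mul_iInf_of_ne hne ENNReal.ofReal_ne_top]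
  apply le_iInf
  rintro ⟨V, hV, hVu⟩
  have h1 : lam a b' k ≤ (θ.toNNReal * c : ℝ≥0) := by
    unfold lam
    apply iInf₂_le
    refine ⟨V, hV, fun u hu => ?_⟩
    have h2 := hVu u hu
    have h3 : (c : ℝ) * b u u ≤ c * (θ * b' u u) := mul_le_mul_of_nonneg_left (h u) c.2
    rw [NNReal.coe_mul, Real.coe_toNNReal θ hθ.le]
    linarith
  refine h1.trans (le_of_eq ?_)
  rw [ENNReal.coe_mul]
  rfl

theorem lam_ne_zero_of_le {θ : ℝ} (hθ : 0 < θ) (h : ∀ u, b' u u ≤ θ * b u u) {k : ℕ}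
    (h1 : lam a b k ≠ 0) : lam a b' k ≠ 0 := by
  intro h2
  have h3 := lam_le_of_le (a := a) hθ h k
  rw [h2, mul_zero] at h3
  exact h1 (le_antisymm h3 bot_le)

theorem mu_le_of_le {θ : ℝ} (hθ : 0 < θ) (h1 : lam a b' 1 ≠ 0) (h : ∀ u, b u u ≤ θ * b' u u)
    (k : ℕ) : mu a b k ≤ θ * mu a b' k := by
  have hne : ENNReal.ofReal θ ≠ 0 := (ENNReal.ofReal_pos.2 hθ).ne'
  have h2 := lam_le_of_le (a := a) hθ h (k + 1)
  have h3 : (lam a b (k + 1))⁻¹ ≤ ENNReal.ofReal θ * (lam a b' (k + 1))⁻¹ := by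
    have h4 : (ENNReal.ofReal θ * lam a b (k + 1))⁻¹ ≤ (lam a b' (k + 1))⁻¹ :=
      ENNReal.inv_le_inv.2 h2
    rw [ENNReal.mul_inv (Or.inl hne) (Or.inl ENNReal.ofReal_ne_top)] at h4
    calc (lam a b (k + 1))⁻¹
        = ENNReal.ofReal θ * ((ENNReal.ofReal θ)⁻¹ * (lam a b (k + 1))⁻¹) := by
          rw [← mul_assoc, ENNReal.mul_inv_cancel hne ENNReal.ofReal_ne_top, one_mul]
      _ ≤ _ := by gcongr
  unfold mu
  have h5 : ENNReal.ofReal θ * (lam a b' (k + 1))⁻¹ ≠ ⊤ :=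
    ENNReal.mul_ne_top ENNReal.ofReal_ne_top (ENNReal.inv_ne_top.2 (MUL_ne_zero h1 k))
  have h6 := ENNReal.toReal_mono h5 h3
  rwa [ENNReal.toReal_mul, ENNReal.toReal_ofReal hθ.le] at h6

/-- `b + τ h` is again a pair. -/
theorem IsPair.add (P : IsPair a b e) {h : LinearMap.BilinForm ℝ E} {K τ : ℝ}
    (hs : ∀ u v, h u v = h v u) (h0 : ∀ u, 0 ≤ h u u) (hK : ∀ u, h u u ≤ K * b u u)
    (hτ : |τ| * K ≤ 1 / 2) : IsPair a (b + τ • h) e where
  asym := P.asym
  bsym := by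
    intro u v
    simp only [LinearMap.add_apply, LinearMap.smul_apply, smul_eq_mul]
    rw [P.bsym u v, hs u v]
  apos := P.apos
  bpos := by
    intro u hu
    simp only [LinearMap.add_apply, LinearMap.smul_apply, smul_eq_mul]
    have h1 := P.bpos u hu
    have h2 : |τ * h u u| ≤ 1 / 2 * b u u := by
      rw [abs_mul, abs_of_nonneg (h0 u)]
      calc |τ| * h u u ≤ |τ| * (K * b u u) := mul_le_mul_of_nonneg_left (hK u) (abs_nonneg τ)
        _ = |τ| * K * b u u := by ring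
        _ ≤ 1 / 2 * b u u := mul_le_mul_of_nonneg_right hτ h1.le
    have h3 := (abs_le.1 h2).1
    linarith
  ae := P.ae
  aker := P.aker
  ne := P.ne

end Abstract

end BGS
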