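import Pool.Agent.LibBGR.Bmd
import Pool.Agent.LibBGR.Per

/-! ROW UPP: polynomial upper bound for the levels. -/

open MeasureTheory Set Filter Topology
open scoped ContDiff ENNReal NNReal

namespace BGS

variable {Γ : Type} [Group Γ] [MulAction Γ Pl] {D : Set Pl}

/-- The closed small square containing the support of a bump function. -/
def UPP_sq (R : ℕ) (p : ℤ × ℤ) : Set Pl :=
  {z | |R * z.1 - p.1 - 1 / 2| ≤ 1 / 4 ∧ |R * z.2 - p.2 - 1 / 2| ≤ 1 / 4}

theorem UPP_sq_closed (R : ℕ) (p : ℤ × ℤ) : IsClosed (UPP_sq R p) := by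
  have h1 : Continuous fun z : Pl => |R * z.1 - p.1 - 1 / 2| := by fun_prop
  have h2 : Continuous fun z : Pl => |R * z.2 - p.2 - 1 / 2| := by fun_prop
  exact (isClosed_le h1 continuous_const).inter (isClosed_le h2 continuous_const)

theorem UPP_supp (R : ℕ) (p : ℤ × ℤ) : tsupport (bmp R p) ⊆ UPP_sq R p := by
  apply closure_minimal _ (UPP_sq_closed R p)
  intro z hz
  have h1 : ((R * z.1 - p.1, R * z.2 - p.2) : Pl) ∈ Function.support bump0 := hz
  rw [bump0.support_eq, Metric.mem_ball, Prod.dist_eq, max_lt_iff, Real.dist_eq, Real.dist_eq] at h1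
  have h2 : bump0.rOut = 1 / 4 := rfl
  rw [h2] at h1
  exact ⟨by simpa using h1.1.le, by simpa using h1.2.le⟩

theorem UPP_one (R : ℕ) (p : ℤ × ℤ) {z : Pl} (h1 : |R * z.1 - p.1 - 1 / 2| ≤ 1 / 8)
    (h2 : |R * z.2 - p.2 - 1 / 2| ≤ 1 / 8) : bmp R p z = 1 := by
  unfold bmp
  apply bump0.one_of_mem_closedBall
  rw [Metric.mem_closedBall, Prod.dist_eq, max_le_iff, Real.dist_eq, Real.dist_eq]
  have h3 : bump0.rIn = 1 / 8 := rfl
  rw [h3]
  exact ⟨by simpa using h1, by simpa using h2⟩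

theorem UPP_free (hX : Surface Γ D) {γ : Γ} (hγ : γ ≠ 1) (z : Pl) : γ • z ≠ z := by
  intro h
  obtain ⟨δ, hδ, hun⟩ := hX.orbit z
  apply hγ
  have h1 : δ * γ = δ := hun _ (by
    show (δ * γ) • z ∈ D
    rw [mul_smul, h]; exact hδ)
  exact mul_eq_left.1 h1

/-- A small square that injects into the surface. -/
theorem UPP_small (hX : Surface Γ D) (z0 : Pl) :
    ∃ r : ℝ, 0 < r ∧ ∀ γ : Γ, ∀ z ∈ Metric.closedBall z0 r, γ • z ∈ Metric.closedBall z0 r →
      γ = 1 := by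
  have hfin := hX.proper _ (isCompact_closedBall z0 1)
  have h1 : ∀ γ ∈ hfin.toFinset, ∀ᶠ r : ℝ in 𝓝[>] 0, γ ≠ 1 →
      ∀ z ∈ Metric.closedBall z0 r, γ • z ∉ Metric.closedBall z0 r := by
    intro γ _
    by_cases hγ : γ = 1
    · exact Eventually.of_forall fun r h => absurd hγ h
    · have hd : 0 < dist (γ • z0) z0 := dist_pos.2 (UPP_free hX hγ z0)
      set d := dist (γ • z0) z0
      have hc : ContinuousAt (fun w : Pl => γ • w) z0 := (hX.smooth γ).continuous.continuousAt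
      obtain ⟨ε, hε, hball⟩ := Metric.continuousAt_iff.1 hc (d / 3) (by linarith)
      have h2 : ∀ᶠ r : ℝ in 𝓝[>] 0, r < min ε (d / 3) :=
        (eventually_lt_nhds (lt_min hε (by linarith))).filter_mono nhdsWithin_le_nhds
      filter_upwards [h2] with r hr _ z hz hz'
      have h3 : dist z z0 < ε := lt_of_le_of_lt (Metric.mem_closedBall.1 hz)
        (hr.trans_le (min_le_left _ _))
      have h4 := hball h3
      have h5 := Metric.mem_closedBall.1 hz'
      have h6 : r < d / 3 := hr.trans_le (min_le_right _ _)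
      have h7 := dist_triangle_left (γ • z0) z0 (γ • z)
      have h8 : d ≤ dist (γ • z) (γ • z0) + dist (γ • z) z0 := h7
      linarith
  have h2 := (Filter.eventually_all_finset hfin.toFinset).2 h1
  have h3 : ∀ᶠ r : ℝ in 𝓝[>] 0, r < 1 :=
    (eventually_lt_nhds one_pos).filter_mono nhdsWithin_le_nhds
  obtain ⟨r, hr, hr1, hr0⟩ := (h2.and (h3.and self_mem_nhdsWithin)).exists
  refine ⟨r, hr0, fun γ z hz hz' => ?_⟩
  by_contra hγ
  have hsub := Metric.closedBall_subset_closedBall (x := z0) hr1.le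
  have hmem : γ ∈ hfin.toFinset := by
    rw [Finite.mem_toFinset]
    exact ⟨z, hsub hz, hsub hz'⟩
  exact hr γ hmem hγ z hz hz'

theorem UPP_fin (hX : Surface Γ D) {f : Pl → ℝ} (hc : HasCompactSupport f) {K : Set Pl}
    (hK : IsCompact K) : ∃ S : Finset Γ, ∀ z ∈ K, per Γ f z = ∑ γ ∈ S, f (γ • z) := by
  have hfin := hX.proper (K ∪ tsupport f) (hK.union hc)
  refine ⟨hfin.toFinset, fun z hz => ?_⟩
  unfold per
  apply finsum_eq_sum_of_support_subset
  intro γ hγ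
  rw [Finset.mem_coe, Finite.mem_toFinset]
  exact ⟨z, Or.inl hz, Or.inr (subset_tsupport f hγ)⟩

theorem UPP_zero {f : Pl → ℝ} {z : Pl} (h : ∀ γ : Γ, γ • z ∉ tsupport f) : per Γ f z = 0 := by
  unfold per
  rw [← finsum_zero (α := Γ)]
  apply finsum_congr
  intro γ
  exact image_eq_zero_of_notMem_tsupport (h γ)

theorem UPP_fderiv_zero (hX : Surface Γ D) {f : Pl → ℝ} (hf : ContDiff ℝ ∞ f)
    (hc : HasCompactSupport f) {z : Pl} (h : ∀ γ : Γ, γ • z ∉ tsupport f) :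
    fderiv ℝ (per Γ f) z = 0 := by
  obtain ⟨S, hS⟩ := UPP_fin hX hc (isCompact_closedBall z 1)
  have h1 : per Γ f =ᶠ[𝓝 z] fun z => ∑ γ ∈ S, f (γ • z) := by
    filter_upwards [Metric.closedBall_mem_nhds z one_pos] with w hw
    exact hS w hw
  rw [h1.fderiv_eq]
  have h2 : HasFDerivAt (fun z => ∑ γ ∈ S, f (γ • z)) (∑ γ ∈ S, (0 : Pl →L[ℝ] ℝ)) z := by
    apply HasFDerivAt.fun_sum
    intro γ _
    have h3 : HasFDerivAt f (fderiv ℝ f (γ • z)) (γ • z) :=
      (hf.differentiable (by simp) _).hasFDerivAt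
    have h4 : fderiv ℝ f (γ • z) = 0 := by
      by_contra hne
      exact h γ (support_fderiv_subset ℝ hne)
    rw [h4] at h3
    have h5 : HasFDerivAt (fun w : Pl => γ • w) (fderiv ℝ (fun w : Pl => γ • w) z) z :=
      ((hX.smooth γ).differentiable (by simp) z).hasFDerivAt
    have h6 := h3.comp z h5
    rwa [ContinuousLinearMap.zero_comp] at h6
  rw [h2.fderiv, Finset.sum_const_zero]

theorem UPP_ge (hX : Surface Γ D) {R : ℕ} (p : ℤ × ℤ) (hc : HasCompactSupport (bmp R p)) (z : Pl) :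
    bmp R p z ≤ per Γ (bmp R p) z := by
  unfold per
  have hfin := hX.proper ({z} ∪ tsupport (bmp R p)) (isCompact_singleton.union hc)
  have hs : (Function.support fun γ : Γ => bmp R p (γ • z)).Finite := by
    apply hfin.subset
    intro γ hγ
    exact ⟨z, Or.inl rfl, Or.inr (subset_tsupport _ hγ)⟩
  have h1 := single_le_finsum (1 : Γ) hs (fun γ => bmp_nonneg R p (γ • z))
  rwa [one_smul] at h1

/-- Upper bound of the energy density on `D`. -/
theorem UPP_wf_le (hX : Surface Γ D) (m : Mt Γ D) : ∃ M : ℝ, 0 < M ∧ ∀ z ∈ D, ∀ p q : ℝ,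
    wf2 (m.1.1 z) p q p q ≤ M * (p ^ 2 + q ^ 2) := by
  have hcont : Continuous fun z => (|(m.1.1 z).2.2| + |(m.1.1 z).2.1| + |(m.1.1 z).1|) /
      √(dt (m.1.1 z)) := by
    have hm : Continuous m.1.1 := m.1.2.continuous
    apply Continuous.div
    · fun_prop
    · exact BGR_rho m
    · intro z
      exact (Real.sqrt_pos.2 (m.2.pos z).2).ne'
  obtain ⟨M, hM⟩ := (Cmp_compact hX).bddAbove_image hcont.continuousOn
  refine ⟨max M 1, by positivity, fun z hz p q => ?_⟩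
  have h1 : (|(m.1.1 z).2.2| + |(m.1.1 z).2.1| + |(m.1.1 z).1|) / √(dt (m.1.1 z)) ≤ max M 1 :=
    (hM (mem_image_of_mem _ (subset_closure hz))).trans (le_max_left _ _)
  have hs : 0 < √(dt (m.1.1 z)) := Real.sqrt_pos.2 (m.2.pos z).2
  rw [div_le_iff₀ hs] at h1
  unfold wf2
  rw [div_le_iff₀ hs]
  have h2 : |(m.1.1 z).2.1| * (2 * |p * q|) ≤ |(m.1.1 z).2.1| * (p ^ 2 + q ^ 2) := by
    apply mul_le_mul_of_nonneg_left _ (abs_nonneg _)
    rw [abs_mul]
    nlinarith [sq_nonneg (|p| - |q|), sq_abs p, sq_abs q]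
  have h3 : -((m.1.1 z).2.1 * (p * q + q * p)) ≤ |(m.1.1 z).2.1| * (2 * |p * q|) := by
    have : -((m.1.1 z).2.1 * (p * q + q * p)) = -((m.1.1 z).2.1 * (2 * (p * q))) := by ring
    rw [this]
    refine (neg_le_abs _).trans ?_
    rw [abs_mul, abs_mul, abs_two]
  have h4 : (m.1.1 z).2.2 * p * p ≤ |(m.1.1 z).2.2| * (p ^ 2 + q ^ 2) := by
    nlinarith [le_abs_self (m.1.1 z).2.2, abs_nonneg (m.1.1 z).2.2, sq_nonneg p, sq_nonneg q]
  have h5 : (m.1.1 z).1 * q * q ≤ |(m.1.1 z).1| * (p ^ 2 + q ^ 2) := by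
    nlinarith [le_abs_self (m.1.1 z).1, abs_nonneg (m.1.1 z).1, sq_nonneg p, sq_nonneg q]
  have h6 := mul_le_mul_of_nonneg_right h1 (add_nonneg (sq_nonneg p) (sq_nonneg q))
  nlinarith

/-- Energy of a periodised bump function. -/
theorem UPP_energy (hX : Surface Γ D) (m : Mt Γ D) (L : ℕ) : ∃ A : ℝ, 0 < A ∧ ∀ R : ℕ, 1 ≤ R →
    ∀ p ∈ grid L R, ∫ z in D, wf2 (m.1.1 z) (dx (per Γ (bmp R p)) z) (dy (per Γ (bmp R p)) z)
      (dx (per Γ (bmp R p)) z) (dy (per Γ (bmp R p)) z) ≤ A * (R : ℝ) ^ 2 := by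
  obtain ⟨C, hC, hder⟩ := per_bmp_deriv hX L 1 (Cmp_compact hX)
  obtain ⟨M, hM, hwf⟩ := UPP_wf_le hX m
  have hvol : volume D < ⊤ := hX.bdd.measure_lt_top
  refine ⟨2 * M * C ^ 2 * (volume.real D + 1), by positivity, fun R hR p hp => ?_⟩
  have hmem := per_mem hX (bmp_smooth R p) (bmp_compact hR p)
  have h1 : ∀ z ∈ D, wf2 (m.1.1 z) (dx (per Γ (bmp R p)) z) (dy (per Γ (bmp R p)) z)
      (dx (per Γ (bmp R p)) z) (dy (per Γ (bmp R p)) z) ≤ 2 * M * C ^ 2 * (R : ℝ) ^ 2 := by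
    intro z hz
    refine (hwf z hz _ _).trans ?_
    have h2 := hder R hR p hp 1 le_rfl z (subset_closure hz)
    rw [norm_iteratedFDeriv_one, pow_one] at h2
    have hb : ∀ v : Pl, ‖v‖ ≤ 1 → (fderiv ℝ (per Γ (bmp R p)) z v) ^ 2 ≤ (C * R) ^ 2 := by
      intro v hv
      rw [← sq_abs]
      have h3 : |fderiv ℝ (per Γ (bmp R p)) z v| ≤ C * R := by
        rw [← Real.norm_eq_abs]
        refine (ContinuousLinearMap.le_opNorm _ _).trans ?_
        calc ‖fderiv ℝ (per Γ (bmp R p)) z‖ * ‖v‖ ≤ ‖fderiv ℝ (per Γ (bmp R p)) z‖ * 1 :=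
              mul_le_mul_of_nonneg_left hv (norm_nonneg _)
          _ ≤ C * R := by rw [mul_one]; exact h2
      gcongr
    have h4 := hb (1, 0) (by simp)
    have h5 := hb (0, 1) (by simp)
    unfold dx dy
    nlinarith
  have hint := Cmp_int hX (BGR_wf2_cont m hmem.1 hmem.1)
  calc _ ≤ ∫ _z in D, 2 * M * C ^ 2 * (R : ℝ) ^ 2 := by
        apply setIntegral_mono_on hint _ hX.meas h1
        exact integrableOn_const (hvol.ne)
    _ = volume.real D * (2 * M * C ^ 2 * (R : ℝ) ^ 2) := by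
        rw [setIntegral_const, smul_eq_mul]
    _ ≤ 2 * M * C ^ 2 * (volume.real D + 1) * (R : ℝ) ^ 2 := by
        have : 0 ≤ M * C ^ 2 * (R : ℝ) ^ 2 := by positivity
        nlinarith

/-- Norm of a periodised bump function. -/
theorem UPP_norm (hX : Surface Γ D) (m : Mt Γ D) (B : Set Pl) (hB : IsCompact B) :
    ∃ c : ℝ, 0 < c ∧ ∀ R : ℕ, 1 ≤ R → ∀ p : ℤ × ℤ, UPP_sq R p ⊆ B →
      c / (R : ℝ) ^ 2 ≤ ∫ z in D, 1 * per Γ (bmp R p) z * per Γ (bmp R p) z *
        √(dt (m.1.1 z)) := by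
  have hρ := BGR_rho m
  have hpos : ∀ z, 0 < √(dt (m.1.1 z)) := fun z => Real.sqrt_pos.2 (m.2.pos z).2
  obtain ⟨c, hc, hcB⟩ : ∃ c : ℝ, 0 < c ∧ ∀ z ∈ B, c ≤ √(dt (m.1.1 z)) := by
    rcases B.eq_empty_or_nonempty with h | h
    · exact ⟨1, one_pos, fun z hz => by rw [h] at hz; exact absurd hz (notMem_empty z)⟩
    · obtain ⟨w, -, hw⟩ := hB.exists_isMinOn h hρ.continuousOn
      exact ⟨_, hpos w, fun z hz => hw hz⟩
  refine ⟨c / 16, by positivity, fun R hR p hsub => ?_⟩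
  have hR0 : (0 : ℝ) < R := by exact_mod_cast hR
  have hcp := bmp_compact hR p
  have hmem := per_mem hX (bmp_smooth R p) hcp
  have h1 := per_int hX m (bmp_smooth R p) hcp hmem.1.continuous hmem.2
  have h2 : ∫ z in D, 1 * per Γ (bmp R p) z * per Γ (bmp R p) z * √(dt (m.1.1 z)) =
      ∫ z, bmp R p z * per Γ (bmp R p) z * √(dt (m.1.1 z)) := by
    rw [← h1]
    congr 1
    funext z
    rw [one_mul]
  rw [h2]
  -- the small square on which the bump function is one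
  set Q : Set Pl := Icc (((p.1 : ℝ) + 3 / 8) / R) (((p.1 : ℝ) + 5 / 8) / R) ×ˢ
    Icc (((p.2 : ℝ) + 3 / 8) / R) (((p.2 : ℝ) + 5 / 8) / R) with hQ
  have hQmem : ∀ z ∈ Q, |R * z.1 - p.1 - 1 / 2| ≤ 1 / 8 ∧ |R * z.2 - p.2 - 1 / 2| ≤ 1 / 8 := by
    rintro z ⟨⟨a1, a2⟩, ⟨a3, a4⟩⟩
    rw [div_le_iff₀ hR0] at a1 a3
    rw [le_div_iff₀ hR0] at a2 a4
    constructor
    · rw [abs_le]; constructor <;> linarith
    · rw [abs_le]; constructor <;> linarith
  have hint : Integrable fun z => bmp R p z * per Γ (bmp R p) z * √(dt (m.1.1 z)) :=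
    (((bmp_smooth R p).continuous.mul hmem.1.continuous).mul hρ).integrable_of_hasCompactSupport
      ((hcp.mul_right).mul_right)
  have hnn : ∀ z, 0 ≤ bmp R p z * per Γ (bmp R p) z * √(dt (m.1.1 z)) := fun z =>
    mul_nonneg (mul_nonneg (bmp_nonneg R p z) ((bmp_nonneg R p z).trans (UPP_ge hX p hcp z)))
      (Real.sqrt_nonneg _)
  have hQm : MeasurableSet Q := measurableSet_Icc.prod measurableSet_Icc
  have h3 : ∫ z in Q, bmp R p z * per Γ (bmp R p) z * √(dt (m.1.1 z)) ≤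
      ∫ z, bmp R p z * per Γ (bmp R p) z * √(dt (m.1.1 z)) :=
    setIntegral_le_integral hint (ae_of_all _ hnn)
  have hQvol : volume.real Q = 1 / (16 * (R : ℝ) ^ 2) := by
    rw [hQ, Measure.real, Measure.volume_eq_prod, Measure.prod_prod, Real.volume_Icc,
      Real.volume_Icc, ENNReal.toReal_mul]
    have e1 : ∀ t : ℝ, (t + 5 / 8) / R - (t + 3 / 8) / R = 1 / (4 * R) := by
      intro t; field_simp; ring
    rw [e1, e1, ENNReal.toReal_ofReal (by positivity)]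
    field_simp
    norm_num
  have h4 : ∫ _z in Q, c ≤ ∫ z in Q, bmp R p z * per Γ (bmp R p) z * √(dt (m.1.1 z)) := by
    apply setIntegral_mono_on _ hint.integrableOn hQm
    · intro z hz
      obtain ⟨b1, b2⟩ := hQmem z hz
      have h5 : bmp R p z = 1 := UPP_one R p b1 b2
      have h6 : 1 ≤ per Γ (bmp R p) z := h5 ▸ UPP_ge hX p hcp z
      have h7 : z ∈ B := hsub ⟨b1.trans (by norm_num), b2.trans (by norm_num)⟩
      have h8 := hcB z h7
      rw [h5, one_mul]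
      nlinarith [Real.sqrt_nonneg (dt (m.1.1 z))]
    · exact integrableOn_const ((isCompact_Icc.prod isCompact_Icc).measure_lt_top.ne)
  rw [setIntegral_const, smul_eq_mul, hQvol] at h4
  calc c / 16 / (R : ℝ) ^ 2 = 1 / (16 * (R : ℝ) ^ 2) * c := by field_simp
    _ ≤ _ := h4.trans h3

theorem UPP_bilin {E : Type} [AddCommGroup E] [Module ℝ E] (a : LinearMap.BilinForm ℝ E) {n : ℕ}
    (u : Fin n → E) (h : ∀ i j, i ≠ j → a (u i) (u j) = 0) (c : Fin n → ℝ) :
    a (∑ i, c i • u i) (∑ i, c i • u i) = ∑ i, c i ^ 2 * a (u i) (u i) := by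
  have h1 : ∀ w : E, a (∑ i, c i • u i) w = ∑ i, c i * a (u i) w := by
    intro w
    simp [map_sum, LinearMap.sum_apply]
  rw [h1]
  refine Finset.sum_congr rfl fun i _ => ?_
  rw [map_sum, Finset.sum_eq_single i]
  · rw [map_smul, smul_eq_mul]; ring
  · intro j _ hj
    rw [map_smul, h i j hj.symm, smul_zero]
  · intro hi
    exact absurd (Finset.mem_univ i) hi

theorem lam_upper (hX : Surface Γ D) (m : Mt Γ D) :
    ∃ C > 0, ∀ k : ℕ, lam (aF hX m) (bF hX m (oneT Γ)) k ≤ ENNReal.ofReal (C * (k + 1) ^ 4) := by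
  obtain ⟨r, hr, hinj⟩ := UPP_small hX (0 : Pl)
  set B := Metric.closedBall (0 : Pl) r with hB
  have hBc : IsCompact B := isCompact_closedBall _ _
  obtain ⟨N, hN⟩ := exists_nat_ge (1 / r)
  have hN0 : (0 : ℝ) < N := lt_of_lt_of_le (by positivity) hN
  have hN1 : 1 ≤ N := by exact_mod_cast hN0
  have hNr : 1 ≤ N * r := by rwa [div_le_iff₀ hr] at hN
  obtain ⟨A, hA, hen⟩ := UPP_energy hX m 1
  obtain ⟨c, hc, hnorm⟩ := UPP_norm hX m B hBc
  refine ⟨A / c * N ^ 4, by positivity, fun k => ?_⟩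
  set R : ℕ := N * (k + 1) with hRdef
  have hR1 : 1 ≤ R := Nat.one_le_iff_ne_zero.2 (by positivity)
  have hR0 : (0 : ℝ) < R := by exact_mod_cast hR1
  have hRr : (R : ℝ) = N * (k + 1) := by rw [hRdef]; push_cast; ring
  have hkR : (k : ℝ) + 1 ≤ R * r := by
    rw [hRr]
    have : 0 ≤ (k : ℝ) + 1 := by positivity
    nlinarith
  set p : Fin (k + 1) → ℤ × ℤ := fun i => ((i : ℕ), 0) with hp
  have hpg : ∀ i, p i ∈ grid 1 R := by
    intro i
    have hi := i.2
    have h1 : ((i : ℕ) : ℤ) < R := by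
      have : (i : ℕ) < R := lt_of_lt_of_le hi (by rw [hRdef]; exact Nat.le_mul_of_pos_left _ hN1)
      exact_mod_cast this
    have h2 : (0 : ℤ) < R := by exact_mod_cast hR1
    rw [grid, Finset.mem_product, Finset.mem_Ico, Finset.mem_Ico]
    simp only [hp, Nat.cast_one, one_mul]
    refine ⟨⟨?_, h1⟩, ⟨?_, h2⟩⟩
    · have : (0 : ℤ) ≤ ((i : ℕ) : ℤ) := by positivity
      linarith
    · linarith
  have hsqB : ∀ i, UPP_sq R (p i) ⊆ B := by
    rintro i z ⟨h1, h2⟩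
    rw [hB, Metric.mem_closedBall, dist_zero_right, Prod.norm_def, max_le_iff, Real.norm_eq_abs,
      Real.norm_eq_abs]
    simp only [hp, Int.cast_natCast, Int.cast_zero] at h1 h2
    have hi : ((i : ℕ) : ℝ) ≤ k := by exact_mod_cast Nat.lt_succ_iff.1 i.2
    have hi0 : (0 : ℝ) ≤ ((i : ℕ) : ℝ) := by positivity
    have hk0 : (0 : ℝ) ≤ k := by positivity
    rw [abs_le] at h1 h2
    have key : ∀ t : ℝ, |R * t| ≤ R * r → |t| ≤ r := by
      intro t ht
      rw [abs_mul, abs_of_pos hR0] at ht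
      exact le_of_mul_le_mul_left ht hR0
    constructor
    · apply key
      rw [abs_le]
      constructor <;> linarith [h1.1, h1.2]
    · apply key
      rw [abs_le]
      constructor <;> linarith [h2.1, h2.2]
  have hdisj : ∀ i j, i ≠ j → ∀ z, z ∈ UPP_sq R (p i) → z ∉ UPP_sq R (p j) := by
    intro i j hij z hi hj
    apply hij
    have h1 := hi.1
    have h2 := hj.1
    simp only [hp, Int.cast_natCast] at h1 h2
    rw [abs_le] at h1 h2
    have h3 : ((i : ℕ) : ℝ) < ((j : ℕ) : ℝ) + 1 := by linarith [h1.1, h2.2]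
    have h4 : ((j : ℕ) : ℝ) < ((i : ℕ) : ℝ) + 1 := by linarith [h2.1, h1.2]
    have h5 : (i : ℕ) < (j : ℕ) + 1 := by exact_mod_cast h3
    have h6 : (j : ℕ) < (i : ℕ) + 1 := by exact_mod_cast h4
    exact Fin.ext (by omega)
  -- saturated supports are disjoint
  have hsat : ∀ i j, i ≠ j → ∀ z, (∃ γ : Γ, γ • z ∈ tsupport (bmp R (p i))) →
      ∀ γ : Γ, γ • z ∉ tsupport (bmp R (p j)) := by
    rintro i j hij z ⟨γ, hγ⟩ δ hδ
    have h1 := UPP_supp R (p i) hγ
    have h2 := UPP_supp R (p j) hδ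
    have h3 : (δ * γ⁻¹) • (γ • z) = δ • z := by rw [mul_smul, inv_smul_smul]
    have h4 := hinj (δ * γ⁻¹) (γ • z) (hsqB i h1) (by rw [h3]; exact hsqB j h2)
    have h5 : δ = γ := by rw [mul_inv_eq_one] at h4; exact h4
    rw [h5] at h2
    exact hdisj i j hij _ h1 h2
  set u : Fin (k + 1) → TestS Γ := fun i =>
    ⟨per Γ (bmp R (p i)), per_mem hX (bmp_smooth R (p i)) (bmp_compact hR1 (p i))⟩ with hu
  have hzero : ∀ i z, (∀ γ : Γ, γ • z ∉ tsupport (bmp R (p i))) → (u i).1 z = 0 := fun i z h =>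
    UPP_zero h
  have hfz : ∀ i z, (∀ γ : Γ, γ • z ∉ tsupport (bmp R (p i))) → fderiv ℝ (u i).1 z = 0 :=
    fun i z h => UPP_fderiv_zero hX (bmp_smooth R (p i)) (bmp_compact hR1 (p i)) h
  have hao : ∀ i j, i ≠ j → aF hX m (u i) (u j) = 0 := by
    intro i j hij
    rw [aF_apply]
    rw [← integral_zero (Pl) ℝ (μ := volume.restrict D)]
    congr 1
    funext z
    by_cases h : ∃ γ : Γ, γ • z ∈ tsupport (bmp R (p i))
    · have h1 := hfz j z (hsat i j hij z h)
      unfold wf2 dx dy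
      rw [h1]
      simp
    · push Not at h
      have h1 := hfz i z h
      unfold wf2 dx dy
      rw [h1]
      simp
  have hbo : ∀ i j, i ≠ j → bF hX m (oneT Γ) (u i) (u j) = 0 := by
    intro i j hij
    rw [bF_apply]
    rw [← integral_zero (Pl) ℝ (μ := volume.restrict D)]
    congr 1
    funext z
    by_cases h : ∃ γ : Γ, γ • z ∈ tsupport (bmp R (p i))
    · rw [hzero j z (hsat i j hij z h), mul_zero, zero_mul]
    · push Not at h
      rw [hzero i z h, mul_zero, zero_mul, zero_mul]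
  have hbb : ∀ i, c / (R : ℝ) ^ 2 ≤ bF hX m (oneT Γ) (u i) (u i) := fun i =>
    hnorm R hR1 (p i) (hsqB i)
  have haa : ∀ i, aF hX m (u i) (u i) ≤ A * (R : ℝ) ^ 2 := fun i => hen R hR1 (p i) (hpg i)
  have hbpos : ∀ i, 0 < bF hX m (oneT Γ) (u i) (u i) := fun i =>
    lt_of_lt_of_le (by positivity) (hbb i)
  have hab : ∀ i, aF hX m (u i) (u i) ≤ (A / c * N ^ 4 * (k + 1) ^ 4) *
      bF hX m (oneT Γ) (u i) (u i) := by
    intro i
    have h1 : A * (R : ℝ) ^ 2 = (A / c * (R : ℝ) ^ 4) * (c / (R : ℝ) ^ 2) := by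
      field_simp
    have h2 : A / c * (N : ℝ) ^ 4 * (k + 1) ^ 4 = A / c * (R : ℝ) ^ 4 := by
      rw [hRr]; ring
    rw [h2]
    calc _ ≤ A * (R : ℝ) ^ 2 := haa i
      _ = (A / c * (R : ℝ) ^ 4) * (c / (R : ℝ) ^ 2) := h1
      _ ≤ _ := mul_le_mul_of_nonneg_left (hbb i) (by positivity)
  have hli : LinearIndependent ℝ u := by
    rw [Fintype.linearIndependent_iff]
    intro g hg i
    have h1 : bF hX m (oneT Γ) (∑ j, g j • u j) (u i) = 0 := by
      rw [hg, map_zero, LinearMap.zero_apply]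
    rw [map_sum, LinearMap.sum_apply, Finset.sum_eq_single i] at h1
    · rw [map_smul, LinearMap.smul_apply, smul_eq_mul] at h1
      exact (mul_eq_zero.1 h1).resolve_right (hbpos i).ne'
    · intro j _ hj
      rw [map_smul, LinearMap.smul_apply, hbo j i hj, smul_zero]
    · intro hi
      exact absurd (Finset.mem_univ i) hi
  have hC0 : 0 ≤ A / c * (N : ℝ) ^ 4 * (k + 1) ^ 4 := by positivity
  unfold lam
  refine iInf₂_le_of_le (Real.toNNReal (A / c * N ^ 4 * (k + 1) ^ 4))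
    ⟨Submodule.span ℝ (range u), ?_, ?_⟩ ?_
  · rw [finrank_span_eq_card hli, Fintype.card_fin]
  · intro w hw
    rw [Submodule.mem_span_range_iff_exists_fun] at hw
    obtain ⟨g, rfl⟩ := hw
    rw [Real.coe_toNNReal _ hC0, UPP_bilin _ u hao g, UPP_bilin _ u hbo g, Finset.mul_sum]
    apply Finset.sum_le_sum
    intro i _
    have := mul_le_mul_of_nonneg_left (hab i) (sq_nonneg (g i))
    calc _ ≤ _ := this
      _ = _ := by ring
  · exact le_of_eq rfl

end BGS
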