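import Pool.Agent.LibBGR.AE_Defs
import Pool.Agent.LibBGR.Low
import Pool.Agent.LibBGR.Upp
import Pool.Agent.LibBGR.Mul
import Pool.Agent.LibBGR.Frc

/-! ROW WGT : the levels for the weight `e^φ`. -/

open MeasureTheory Set Filter Topology
open scoped ContDiff ENNReal NNReal unitInterval

namespace BGS

open Pool.BGR (PM upI pj)


variable {Γ : Type} [Group Γ] [MulAction Γ Pl] {D : Set Pl}

theorem test_bdd (hX : Surface Γ D) (φ : TestS Γ) : ∃ M : ℝ, 0 < M ∧ ∀ z, |φ.1 z| ≤ M := by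
  have hc : IsCompact (closure D) := Cmp_compact hX
  obtain ⟨M, hM⟩ := hc.exists_bound_of_continuousOn (f := φ.1) φ.2.1.continuous.continuousOn
  refine ⟨|M| + 1, by positivity, fun z => ?_⟩
  obtain ⟨γ, hγ, -⟩ := hX.orbit z
  have h1 := hM (γ • z) (subset_closure hγ)
  rw [φ.2.2 γ z, Real.norm_eq_abs] at h1
  linarith [le_abs_self M]

theorem WGT_up (hX : Surface Γ D) (m : Mt Γ D) {φ : TestS Γ} {M : ℝ} (h : ∀ z, |φ.1 z| ≤ M)
    (u : TestS Γ) :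
    bF hX m (expT φ) u u ≤ Real.exp M * bF hX m (oneT Γ) u u := by
  refine bF_le hX m (fun z => ?_) u
  change Real.exp (φ.1 z) ≤ Real.exp M * 1
  rw [mul_one]
  exact Real.exp_le_exp.2 ((abs_le.1 (h z)).2)

theorem WGT_dn (hX : Surface Γ D) (m : Mt Γ D) {φ : TestS Γ} {M : ℝ} (h : ∀ z, |φ.1 z| ≤ M)
    (u : TestS Γ) :
    bF hX m (oneT Γ) u u ≤ Real.exp M * bF hX m (expT φ) u u := by
  refine bF_le hX m (fun z => ?_) u
  change (1 : ℝ) ≤ Real.exp M * Real.exp (φ.1 z)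
  rw [← Real.exp_add]
  exact Real.one_le_exp (by linarith [(abs_le.1 (h z)).1])

theorem WGT_one (hX : Surface Γ D) (m : Mt Γ D) :
    lam (aF hX m) (bF hX m (oneT Γ)) 1 ≠ 0 := by
  obtain ⟨c, hc, h⟩ := lam_lower hX m
  exact (lt_of_lt_of_le (ENNReal.ofReal_pos.2 hc) h).ne'

theorem expT_lam1 (hX : Surface Γ D) (m : Mt Γ D) (φ : TestS Γ) :
    lam (aF hX m) (bF hX m (expT φ)) 1 ≠ 0 := by
  obtain ⟨M, -, hM⟩ := test_bdd hX φ
  exact lam_ne_zero_of_le (Real.exp_pos M) (WGT_up hX m hM) (WGT_one hX m)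

theorem WGT_lam (hX : Surface Γ D) (m : Mt Γ D) :
    ∃ C > 0, ∀ (M : ℝ) (φ : TestS Γ), (∀ z, |φ.1 z| ≤ M) → ∀ k : ℕ,
      lam (aF hX m) (bF hX m (expT φ)) k ≤ ENNReal.ofReal (Real.exp M * (C * (k + 1) ^ 4)) := by
  obtain ⟨C, hC, h⟩ := lam_upper hX m
  refine ⟨C, hC, fun M φ hM k => ?_⟩
  refine (lam_le_of_le (Real.exp_pos M) (WGT_dn hX m hM) k).trans ?_
  rw [ENNReal.ofReal_mul (Real.exp_pos M).le]
  exact mul_le_mul_right (h k) _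

theorem expT_top (hX : Surface Γ D) (m : Mt Γ D) (φ : TestS Γ) (k : ℕ) :
    lam (aF hX m) (bF hX m (expT φ)) k ≠ ⊤ := by
  obtain ⟨M, -, hM⟩ := test_bdd hX φ
  obtain ⟨C, -, h⟩ := WGT_lam hX m
  exact ((h M φ hM k).trans_lt ENNReal.ofReal_lt_top).ne

theorem muE_le (hX : Surface Γ D) (m : Mt Γ D) {φ φ' : TestS Γ} {s : ℝ}
    (h : ∀ z, φ.1 z ≤ φ'.1 z + s) (k : ℕ) : muE hX m φ k ≤ Real.exp s * muE hX m φ' k := by
  refine mu_le_of_le (Real.exp_pos s) (expT_lam1 hX m φ') (fun u => bF_le hX m (fun z => ?_) u) k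
  change Real.exp (φ.1 z) ≤ Real.exp s * Real.exp (φ'.1 z)
  rw [← Real.exp_add]
  exact Real.exp_le_exp.2 (by linarith [h z])

theorem muE_upper (hX : Surface Γ D) (m : Mt Γ D) (M : ℝ) :
    ∃ M₀ : ℝ, 0 < M₀ ∧ ∀ φ : TestS Γ, (∀ z, |φ.1 z| ≤ M) → ∀ k, muE hX m φ k ≤ M₀ := by
  have h0 : 0 ≤ muE hX m 0 0 := mu_nonneg _ _ _
  refine ⟨Real.exp M * muE hX m 0 0 + 1, by positivity, fun φ hφ k => ?_⟩
  have h1 : muE hX m φ k ≤ muE hX m φ 0 := mu_anti (expT_lam1 hX m φ) (Nat.zero_le k)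
  have h2 : muE hX m φ 0 ≤ Real.exp M * muE hX m 0 0 := by
    refine muE_le hX m (fun z => ?_) 0
    change φ.1 z ≤ 0 + M
    linarith [(abs_le.1 (hφ z)).2]
  linarith

theorem muE_lower (hX : Surface Γ D) (m : Mt Γ D) (M : ℝ) :
    ∃ c₀ : ℝ, 0 < c₀ ∧ ∀ φ : TestS Γ, (∀ z, |φ.1 z| ≤ M) → ∀ k : ℕ,
      c₀ / ((k : ℝ) + 2) ^ 4 ≤ muE hX m φ k := by
  obtain ⟨C, hC, h⟩ := WGT_lam hX m
  refine ⟨(Real.exp M * C)⁻¹, by positivity, fun φ hφ k => ?_⟩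
  have h1 := h M φ hφ (k + 1)
  have h2 : lam (aF hX m) (bF hX m (expT φ)) (k + 1) ≠ 0 := fun h0 =>
    expT_lam1 hX m φ (le_antisymm (h0 ▸ lam_mono (aF hX m) (bF hX m (expT φ)) (by omega)) bot_le)
  have h3 : (lam (aF hX m) (bF hX m (expT φ)) (k + 1)).toReal ≤
      Real.exp M * C * ((k : ℝ) + 2) ^ 4 := by
    refine (ENNReal.toReal_mono ENNReal.ofReal_ne_top h1).trans ?_
    rw [ENNReal.toReal_ofReal (by positivity)]
    refine le_of_eq ?_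
    push_cast
    ring
  have h4 : 0 < (lam (aF hX m) (bF hX m (expT φ)) (k + 1)).toReal :=
    ENNReal.toReal_pos h2 (expT_top hX m φ (k + 1))
  have h5 : muE hX m φ k = ((lam (aF hX m) (bF hX m (expT φ)) (k + 1)).toReal)⁻¹ := by
    unfold muE mu
    rw [ENNReal.toReal_inv]
  rw [h5, div_eq_mul_inv, ← mul_inv]
  exact inv_anti₀ h4 h3

end BGS
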