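import Pool.Agent.LibBGR.Defs

open MeasureTheory Set Filter Topology
open scoped ContDiff ENNReal NNReal

namespace BGS

variable {Γ : Type} [Group Γ] [MulAction Γ Pl] {D : Set Pl}

/-! ### ROW BMP : the bump functions -/

theorem bmp_smooth (R : ℕ) (p : ℤ × ℤ) : ContDiff ℝ ∞ (bmp R p) := by
  unfold bmp
  refine bump0.contDiff.comp ?_
  fun_prop

theorem bmp_nonneg (R : ℕ) (p : ℤ × ℤ) (z : Pl) : 0 ≤ bmp R p z := bump0.nonneg

theorem bmp_le_one (R : ℕ) (p : ℤ × ℤ) (z : Pl) : bmp R p z ≤ 1 := bump0.le_one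

theorem BMP_ball {R : ℕ} {p : ℤ × ℤ} {z : Pl} (hz : bmp R p z ≠ 0) :
    |R * z.1 - p.1 - 1 / 2| < 1 / 4 ∧ |R * z.2 - p.2 - 1 / 2| < 1 / 4 := by
  have h : ((R * z.1 - p.1, R * z.2 - p.2) : Pl) ∈ Function.support bump0 := hz
  rw [bump0.support_eq, Metric.mem_ball, Prod.dist_eq, max_lt_iff, Real.dist_eq, Real.dist_eq] at h
  exact h

theorem BMP_aux {R : ℕ} (hR : 1 ≤ R) {q : ℤ} {t : ℝ} (h : |R * t - q - 1 / 2| < 1 / 4) :
    t ∈ Ico ((q : ℝ) / R) ((q : ℝ) / R + 1 / R) := by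
  have hR0 : (0 : ℝ) < R := by exact_mod_cast hR
  rw [abs_lt] at h
  constructor
  · rw [div_le_iff₀ hR0]
    nlinarith [h.1]
  · rw [← add_div, lt_div_iff₀ hR0]
    nlinarith [h.2]

theorem bmp_supp {R : ℕ} (hR : 1 ≤ R) (p : ℤ × ℤ) {z : Pl} (hz : bmp R p z ≠ 0) :
    z ∈ Disc_sq (p.1 / R) (p.2 / R) (1 / R) :=
  ⟨BMP_aux hR (BMP_ball hz).1, BMP_aux hR (BMP_ball hz).2⟩

theorem bmp_compact {R : ℕ} (hR : 1 ≤ R) (p : ℤ × ℤ) : HasCompactSupport (bmp R p) := by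
  refine HasCompactSupport.intro (K := Icc ((p.1 : ℝ) / R) ((p.1 : ℝ) / R + 1 / R) ×ˢ
    Icc ((p.2 : ℝ) / R) ((p.2 : ℝ) / R + 1 / R)) (isCompact_Icc.prod isCompact_Icc) ?_
  intro z hz
  by_contra hne
  exact hz (Disc_sq_sub _ _ _ (bmp_supp hR p hne))

theorem BMP_one {R : ℕ} (hR : 1 ≤ R) (p : ℤ × ℤ) {z : Pl}
    (hz : z ∈ Icc (((p.1 : ℝ) + 3 / 8) / R) (((p.1 : ℝ) + 5 / 8) / R) ×ˢ
      Icc (((p.2 : ℝ) + 3 / 8) / R) (((p.2 : ℝ) + 5 / 8) / R)) : bmp R p z = 1 := by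
  have hR0 : (0 : ℝ) < R := by exact_mod_cast hR
  have key : ∀ (q t : ℝ), t ∈ Icc ((q + 3 / 8) / R) ((q + 5 / 8) / R) →
      |R * t - q - 1 / 2| ≤ 1 / 8 := by
    intro q t ht
    have h1 := (div_le_iff₀ hR0).1 ht.1
    have h2 := (le_div_iff₀ hR0).1 ht.2
    rw [abs_le]
    constructor <;> nlinarith
  refine bump0.one_of_mem_closedBall ?_
  rw [Metric.mem_closedBall, Prod.dist_eq, max_le_iff, Real.dist_eq, Real.dist_eq]
  exact ⟨key _ _ hz.1, key _ _ hz.2⟩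

theorem BMP_integrable {R : ℕ} (hR : 1 ≤ R) (p : ℤ × ℤ) : Integrable (bmp R p) :=
  (bmp_smooth R p).continuous.integrable_of_hasCompactSupport (bmp_compact hR p)

theorem bmp_int : ∃ c > 0, ∀ R : ℕ, 1 ≤ R → ∀ p : ℤ × ℤ, c / (R : ℝ) ^ 2 ≤ ∫ z, bmp R p z := by
  refine ⟨1 / 16, by norm_num, fun R hR p => ?_⟩
  have hR0 : (0 : ℝ) < R := by exact_mod_cast hR
  set K : Set Pl := Icc (((p.1 : ℝ) + 3 / 8) / R) (((p.1 : ℝ) + 5 / 8) / R) ×ˢ
      Icc (((p.2 : ℝ) + 3 / 8) / R) (((p.2 : ℝ) + 5 / 8) / R) with hK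
  have hKm : MeasurableSet K := measurableSet_Icc.prod measurableSet_Icc
  have h1 : ∫ z in K, bmp R p z ≤ ∫ z, bmp R p z :=
    setIntegral_le_integral (BMP_integrable hR p) (Eventually.of_forall fun z => bmp_nonneg R p z)
  have h2 : ∫ z in K, bmp R p z = ∫ _z in K, (1 : ℝ) :=
    setIntegral_congr_fun hKm fun z hz => BMP_one hR p hz
  have h3 : ∫ _z in K, (1 : ℝ) = 1 / 16 / (R : ℝ) ^ 2 := by
    rw [setIntegral_const, smul_eq_mul, mul_one, hK, Measure.real, Measure.volume_eq_prod,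
      Measure.prod_prod, Real.volume_Icc, Real.volume_Icc, ENNReal.toReal_mul,
      ENNReal.toReal_ofReal, ENNReal.toReal_ofReal]
    · field_simp
      ring
    · rw [← sub_div]
      exact div_nonneg (by linarith) hR0.le
    · rw [← sub_div]
      exact div_nonneg (by linarith) hR0.le
  linarith [h1, h2, h3]

theorem per_bmp_nonneg (R : ℕ) (p : ℤ × ℤ) (z : Pl) : 0 ≤ per Γ (bmp R p) z :=
  finsum_nonneg fun _ => bmp_nonneg R p _

theorem BMP_per_inv (f : Pl → ℝ) (γ : Γ) (z : Pl) : per Γ f (γ • z) = per Γ f z := by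
  unfold per
  rw [← finsum_comp_equiv (Equiv.mulRight γ) (f := fun γ' : Γ => f (γ' • z))]
  refine finsum_congr fun γ' => ?_
  rw [Equiv.coe_mulRight, mul_smul]

theorem BMP_bigSq {L R : ℕ} (hR : 1 ≤ R) {p : ℤ × ℤ} (hp : p ∈ grid L R) {z : Pl}
    (hz : bmp R p z ≠ 0) : z ∈ Icc (-(L : ℝ)) L ×ˢ Icc (-(L : ℝ)) L := by
  have hR0 : (0 : ℝ) < R := by exact_mod_cast hR
  have key : ∀ (q : ℤ) (t : ℝ), q ∈ Finset.Ico (-(L * R : ℤ)) (L * R) →
      t ∈ Ico ((q : ℝ) / R) ((q : ℝ) / R + 1 / R) → t ∈ Icc (-(L : ℝ)) L := by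
    intro q t hq ht
    rw [Finset.mem_Ico] at hq
    have h1 : (-(L * R : ℝ)) ≤ q := by exact_mod_cast hq.1
    have h2 : (q : ℝ) + 1 ≤ L * R := by exact_mod_cast hq.2
    have h3 := (div_le_iff₀ hR0).1 ht.1
    have h4 := ht.2
    rw [← add_div, lt_div_iff₀ hR0] at h4
    constructor
    · by_contra hlt
      push Not at hlt
      nlinarith
    · by_contra hlt
      push Not at hlt
      nlinarith
  unfold grid at hp
  rw [Finset.mem_product] at hp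
  have h := bmp_supp hR p hz
  exact ⟨key _ _ hp.1 h.1, key _ _ hp.2 h.2⟩

theorem per_bmp_le (hX : Surface Γ D) (L : ℕ) : ∃ C : ℝ, 0 < C ∧ ∀ R : ℕ, 1 ≤ R →
    ∀ p ∈ grid L R, ∀ z, per Γ (bmp R p) z ≤ C := by
  classical
  set K : Set Pl := closure D ∪ Icc (-(L : ℝ)) L ×ˢ Icc (-(L : ℝ)) L with hK
  have hKc : IsCompact K := hX.bdd.isCompact_closure.union (isCompact_Icc.prod isCompact_Icc)
  have hfin := hX.proper K hKc
  refine ⟨hfin.toFinset.card + 1, by positivity, fun R hR p hp z => ?_⟩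
  obtain ⟨γ, hγ, -⟩ := hX.orbit z
  rw [← BMP_per_inv (bmp R p) γ z]
  set w : Pl := γ • z with hw
  have hsub : Function.support (fun γ' : Γ => bmp R p (γ' • w)) ⊆ hfin.toFinset := by
    intro γ' hγ'
    rw [Finset.mem_coe, Set.Finite.mem_toFinset]
    exact ⟨w, Or.inl (subset_closure hγ), Or.inr (BMP_bigSq hR hp hγ')⟩
  unfold per
  rw [finsum_eq_sum_of_support_subset _ hsub]
  calc ∑ γ' ∈ hfin.toFinset, bmp R p (γ' • w) ≤ ∑ _γ' ∈ hfin.toFinset, (1 : ℝ) :=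
        Finset.sum_le_sum fun γ' _ => bmp_le_one R p _
    _ = hfin.toFinset.card := by simp
    _ ≤ hfin.toFinset.card + 1 := by linarith

end BGS
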