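import Pool.Agent.LibBGR.Defs
import Pool.Agent.LibBGS.Top

/-! ROW NEAR: small smooth conformal changes stay in a given neighbourhood. -/

open MeasureTheory Set Filter Topology
open scoped ContDiff ENNReal NNReal

namespace BGS

variable {Γ : Type} [Group Γ] [MulAction Γ Pl] {D : Set Pl}

theorem conf_near (hX : Surface Γ D) (m : Mt Γ D) {U : Set (Mt Γ D)} (hU : U ∈ 𝓝 m) :
    ∃ (r : ℕ) (K : Set Pl) (δ : ℝ), IsCompact K ∧ 0 < δ ∧ ∀ h ∈ Test Γ,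
      (∀ j ≤ r, ∀ z ∈ K, ‖iteratedFDeriv ℝ j h z‖ ≤ δ) →
      ∃ m' ∈ U, ∀ z, m'.1.1 z =
        ((∫ y in D, (1 + h y) * √(dt (m.1.1 y)))⁻¹ * (1 + h z)) • m.1.1 z := by
  obtain ⟨r, K, hK, δ, hδ, h1⟩ := Top_near hX m U hU
  refine ⟨r, K, δ, hK, hδ, fun h hh hb => ?_⟩
  obtain ⟨m', hm', he⟩ := h1 h hh hb
  refine ⟨m', hm', fun z => ?_⟩
  rw [he]
  show ((1 + h z) / ∫ w in D, (1 + h w) * √(dt (m.1.1 w))) • m.1.1 z = _
  rw [div_eq_inv_mul]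

end BGS
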