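import Pool.Agent.LibBGR.AE_PH1
import Pool.Agent.LibBGR.AE_PH2
import Pool.Agent.LibBGR.Near

/-! ROW SML : the random exponent is measurable; small multiples give metrics in a given neighbourhood. -/

open MeasureTheory Set Filter Topology
open scoped ContDiff ENNReal NNReal unitInterval

namespace BGS

open Pool.BGR (PM upI pj)

variable {Γ : Type} [Group Γ] [MulAction Γ Pl] {D : Set Pl}


/-- The random exponent is measurable in the parameters. -/
theorem SML_meas (hX : Surface Γ D) (L : ℕ) {c : ℕ → ℝ} (hc : Cs c) (z : Pl) :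
    Measurable fun ξ : Dir → I => phi Γ L c ξ z := by
  have h : Continuous fun ξ : Dir → I => phi Γ L c ξ z := by
    rw [continuous_iff_continuousAt]
    intro ξ₀
    rw [ContinuousAt, Metric.tendsto_nhds]
    intro ε hε
    filter_upwards [phi_cont hX L hc ξ₀ (half_pos hε)] with ξ hξ
    rw [Real.dist_eq]
    exact (hξ z).trans_lt (half_lt_self hε)
  exact h.measurable

/-- The series multiplied by a cutoff function, with bounds that do not depend on the parameters. -/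
theorem SML_cut (hX : Surface Γ D) (L : ℕ) {c : ℕ → ℝ} (hc : Cs c)
    {χ : Pl → ℝ} (hχ : ContDiff ℝ ∞ χ) (hs : HasCompactSupport χ) :
    ∃ v : ℕ → ℕ → ℝ, (∀ k, Summable (v k)) ∧ ∀ (ξ : Dir → I) (k R : ℕ) (z : Pl),
      ‖iteratedFDeriv ℝ k (fun z => χ z * (c R * phiR Γ L ξ R z)) z‖ ≤ v k R := by
  have hb : ∀ i : ℕ, ∃ B : ℝ, 0 ≤ B ∧ ∀ z, ‖iteratedFDeriv ℝ i χ z‖ ≤ B := by
    intro i
    have hcont : Continuous (iteratedFDeriv ℝ i χ) :=
      hχ.continuous_iteratedFDeriv (by exact_mod_cast le_top)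
    obtain ⟨B, hB⟩ := hcont.bounded_above_of_compact_support (hs.iteratedFDeriv i)
    exact ⟨B, (norm_nonneg _).trans (hB 0), hB⟩
  choose B hB0 hB using hb
  have hd : ∀ k : ℕ, ∃ C : ℝ, 0 < C ∧ ∀ (ξ : Dir → I) (R : ℕ), ∀ j ≤ k, ∀ z ∈ tsupport χ,
      ‖iteratedFDeriv ℝ j (phiR Γ L ξ R) z‖ ≤ C * ((R : ℝ) + 1) ^ (k + 2) :=
    fun k => PH1_deriv hX L k hs
  choose C hC0 hC using hd
  refine ⟨fun k R => (∑ i ∈ Finset.range (k + 1), (k.choose i : ℝ) * B i * C k) *
      (((R : ℝ) + 1) ^ (k + 2) * |c R|), fun k => (Rapid.summable hc.rapid (k + 2)).mul_left _, ?_⟩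
  intro ξ k R z
  have hsm : ContDiff ℝ ∞ fun z => c R * phiR Γ L ξ R z := contDiff_const.mul (PH1_phiR hX L ξ R).1
  by_cases hz : z ∈ tsupport χ
  · have h1 := norm_iteratedFDeriv_mul_le (𝕜 := ℝ) hχ hsm z (n := k)
      (by exact_mod_cast le_top)
    refine h1.trans ?_
    beta_reduce
    rw [Finset.sum_mul]
    refine Finset.sum_le_sum fun i hi => ?_
    have hcd : ∀ j : ℕ, ContDiffAt ℝ j (phiR Γ L ξ R) z := fun j =>
      ((PH1_phiR hX L ξ R).1.of_le (by exact_mod_cast le_top)).contDiffAt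
    have e : iteratedFDeriv ℝ (k - i) (fun z => c R * phiR Γ L ξ R z) z
        = c R • iteratedFDeriv ℝ (k - i) (phiR Γ L ξ R) z :=
      iteratedFDeriv_const_smul_apply (a := c R) (hcd (k - i))
    rw [e, norm_smul, Real.norm_eq_abs]
    have h2 := hC k ξ R (k - i) (Nat.sub_le _ _) z hz
    have h3 := hB i z
    have h4 : (0 : ℝ) ≤ k.choose i := Nat.cast_nonneg _
    calc (k.choose i : ℝ) * ‖iteratedFDeriv ℝ i χ z‖ *
          (|c R| * ‖iteratedFDeriv ℝ (k - i) (phiR Γ L ξ R) z‖)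
        ≤ (k.choose i : ℝ) * B i * (|c R| * (C k * ((R : ℝ) + 1) ^ (k + 2))) := by
          refine mul_le_mul (mul_le_mul_of_nonneg_left h3 h4)
            (mul_le_mul_of_nonneg_left h2 (abs_nonneg _)) ?_ (mul_nonneg h4 (hB0 i))
          exact mul_nonneg (abs_nonneg _) (norm_nonneg _)
      _ = (k.choose i : ℝ) * B i * C k * (((R : ℝ) + 1) ^ (k + 2) * |c R|) := by ring
  · have hz' : z ∉ tsupport fun z => χ z * (c R * phiR Γ L ξ R z) := by
      intro hcon
      apply hz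
      exact closure_mono (by
        intro w hw hw0
        exact hw (by simp [hw0])) hcon
    have h0 : iteratedFDeriv ℝ k (fun z => χ z * (c R * phiR Γ L ξ R z)) z = 0 := by
      by_contra hne
      exact hz' (support_iteratedFDeriv_subset k hne)
    rw [h0, norm_zero]
    refine mul_nonneg (Finset.sum_nonneg fun i _ => ?_) (by positivity)
    exact mul_nonneg (mul_nonneg (Nat.cast_nonneg _) (hB0 i)) (hC0 k).le

/-- The derivatives of the random exponent are bounded on compact sets, uniformly in the parameters. -/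
theorem SML_deriv (hX : Surface Γ D) (L : ℕ) {c : ℕ → ℝ} (hc : Cs c) (r : ℕ) {K : Set Pl}
    (hK : IsCompact K) : ∃ C : ℝ, 1 ≤ C ∧ ∀ (ξ : Dir → I), ∀ j ≤ r, ∀ z ∈ K,
      ‖iteratedFDeriv ℝ j (phi Γ L c ξ) z‖ ≤ C := by
  obtain ⟨ρ, hρ⟩ := hK.isBounded.subset_closedBall (0 : Pl)
  have hρ0 : 0 < max ρ 0 + 1 := by positivity
  set χ : ContDiffBump (0 : Pl) := ⟨max ρ 0 + 1, max ρ 0 + 2, hρ0, by linarith⟩ with hχ
  obtain ⟨v, hv, hb⟩ := SML_cut hX L hc (χ := χ) χ.contDiff χ.hasCompactSupport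
  refine ⟨1 + ∑ j ∈ Finset.range (r + 1), |∑' R, v j R|, ?_, fun ξ j hj z hz => ?_⟩
  · have : 0 ≤ ∑ j ∈ Finset.range (r + 1), |∑' R, v j R| :=
      Finset.sum_nonneg fun _ _ => abs_nonneg _
    linarith
  · have hsm : ∀ R, ContDiff ℝ ∞ fun z => χ z * (c R * phiR Γ L ξ R z) := fun R =>
      χ.contDiff.mul (contDiff_const.mul (PH1_phiR hX L ξ R).1)
    have h1 := iteratedFDeriv_tsum_apply (𝕜 := ℝ) (N := (⊤ : ℕ∞))
      (f := fun (R : ℕ) (z : Pl) => χ z * (c R * phiR Γ L ξ R z)) (v := v)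
      (fun R => hsm R) (fun k _ => hv k) (fun k R z _ => hb ξ k R z) (k := j)
      (by exact_mod_cast le_top) z
    have h2 : (fun y => ∑' R : ℕ, χ y * (c R * phiR Γ L ξ R y)) =ᶠ[𝓝 z] phi Γ L c ξ := by
      have h3 : (χ : Pl → ℝ) =ᶠ[𝓝 z] 1 := by
        refine χ.eventuallyEq_one_of_mem_ball ?_
        have h4 := hρ hz
        rw [mem_closedBall_zero_iff] at h4
        rw [mem_ball_zero_iff]
        have h5 := le_max_left ρ 0
        change ‖z‖ < max ρ 0 + 1
        linarith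
      filter_upwards [h3] with y hy
      unfold phi
      rw [tsum_mul_left, hy]
      simp
    rw [← (h2.iteratedFDeriv ℝ j).eq_of_nhds, h1]
    have hsum : Summable fun R => ‖iteratedFDeriv ℝ j (fun z => χ z * (c R * phiR Γ L ξ R z)) z‖ :=
      Summable.of_nonneg_of_le (fun R => norm_nonneg _) (fun R => hb ξ j R z) (hv j)
    refine (norm_tsum_le_tsum_norm hsum).trans ?_
    refine (hsum.tsum_le_tsum (fun R => hb ξ j R z) (hv j)).trans ?_
    refine (le_abs_self _).trans ?_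
    have h4 : |∑' R, v j R| ≤ ∑ j ∈ Finset.range (r + 1), |∑' R, v j R| :=
      Finset.single_le_sum (f := fun j => |∑' R, v j R|) (fun _ _ => abs_nonneg _)
        (Finset.mem_range.2 (by omega))
    linarith

/-- The derivatives of the exponential. -/
theorem SML_exp (i : ℕ) (y : ℝ) : ‖iteratedFDeriv ℝ i Real.exp y‖ = Real.exp y := by
  rw [norm_iteratedFDeriv_eq_norm_iteratedDeriv, iteratedDeriv_eq_iterate, Real.iter_deriv_exp,
    Real.norm_eq_abs, Real.abs_exp]

/-- Small exponents give small conformal changes. -/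
theorem SML_comp {f : Pl → ℝ} (hf : ContDiff ℝ ∞ f) (r : ℕ) (z : Pl) {M d : ℝ} (hd : 0 ≤ d)
    (hd1 : d ≤ 1) (hM : |f z| ≤ M) (hM1 : M ≤ 1) (hMd : M ≤ d)
    (hD : ∀ i, 1 ≤ i → i ≤ r → ‖iteratedFDeriv ℝ i f z‖ ≤ d ^ i) (j : ℕ) (hj : j ≤ r) :
    ‖iteratedFDeriv ℝ j (fun z => Real.exp (f z) - 1) z‖ ≤ 3 * (r.factorial : ℝ) * d := by
  have hr1 : (1 : ℝ) ≤ (r.factorial : ℝ) := by exact_mod_cast Nat.factorial_pos r
  have hexp : ContDiff ℝ ∞ fun z => Real.exp (f z) := Real.contDiff_exp.comp hf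
  rcases j with _ | j
  · rw [norm_iteratedFDeriv_zero, Real.norm_eq_abs]
    have h1 := Real.abs_exp_sub_one_le (hM.trans hM1)
    nlinarith
  · have h0 : ContDiffAt ℝ (j + 1 : ℕ) (fun z => Real.exp (f z)) z :=
      (hexp.of_le (by exact_mod_cast le_top)).contDiffAt
    have h1 : iteratedFDeriv ℝ (j + 1) (fun z => Real.exp (f z) - 1) z =
        iteratedFDeriv ℝ (j + 1) (fun z => Real.exp (f z)) z := by
      have h2 : iteratedFDeriv ℝ (j + 1) ((fun z => Real.exp (f z)) - fun _ : Pl => (1 : ℝ)) z =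
          iteratedFDeriv ℝ (j + 1) (fun z => Real.exp (f z)) z -
            iteratedFDeriv ℝ (j + 1) (fun _ : Pl => (1 : ℝ)) z :=
        iteratedFDeriv_sub_apply h0 contDiffAt_const
      rw [iteratedFDeriv_const_of_ne (by omega), Pi.zero_apply, sub_zero] at h2
      exact h2
    rw [h1]
    have h2 := norm_iteratedFDeriv_comp_le (𝕜 := ℝ) (g := Real.exp) (f := f) (n := j + 1)
      (N := (⊤ : ℕ∞)) Real.contDiff_exp hf (by exact_mod_cast le_top) z (C := 3) (D := d)
      (by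
        intro i _
        rw [SML_exp]
        have h3 : f z ≤ 1 := (le_abs_self _).trans (hM.trans hM1)
        have h4 := Real.exp_le_exp.2 h3
        have h5 := Real.exp_one_lt_d9
        linarith)
      (fun i h1i hi => hD i h1i (hi.trans hj))
    refine h2.trans ?_
    have h3 : ((j + 1).factorial : ℝ) ≤ r.factorial := by
      exact_mod_cast Nat.factorial_le hj
    have h4 : d ^ (j + 1) ≤ d := by
      rw [pow_succ]
      exact mul_le_of_le_one_left hd (pow_le_one₀ hd hd1)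
    calc ((j + 1).factorial : ℝ) * 3 * d ^ (j + 1) ≤ r.factorial * 3 * d :=
          mul_le_mul (mul_le_mul_of_nonneg_right h3 (by norm_num)) h4 (pow_nonneg hd _)
            (by positivity)
      _ = 3 * (r.factorial : ℝ) * d := by ring

/-- **Small multiples of the random exponent stay in a given neighbourhood of the metric.** -/
theorem SML_near (hX : Surface Γ D) (L : ℕ) {c : ℕ → ℝ} (hc : Cs c) (m : Mt Γ D)
    {U : Set (Mt Γ D)} (hU : U ∈ 𝓝 m) : ∃ ε₀ : ℝ, 0 < ε₀ ∧ ∀ ε : ℝ, 0 < ε → ε ≤ ε₀ →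
      ∀ ξ : Dir → I, ∃ m' ∈ U, ∃ q : ℝ, 0 < q ∧
        ∀ z, m'.1.1 z = (q * Real.exp (ε * phi Γ L c ξ z)) • m.1.1 z := by
  obtain ⟨r, K, δ, hK, hδ, h⟩ := conf_near hX m hU
  obtain ⟨C, hC, hb⟩ := SML_deriv hX L hc r hK
  obtain ⟨M, hM, hMb⟩ := phi_bound hX L hc
  have hr1 : (1 : ℝ) ≤ (r.factorial : ℝ) := by exact_mod_cast Nat.factorial_pos r
  set d : ℝ := min 1 (δ / (3 * r.factorial)) with hd
  have hd0 : 0 < d := lt_min one_pos (by positivity)
  have hd1 : d ≤ 1 := min_le_left _ _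
  have hdδ : 3 * (r.factorial : ℝ) * d ≤ δ := by
    have h1 : d ≤ δ / (3 * r.factorial) := min_le_right _ _
    rw [le_div_iff₀ (by positivity)] at h1
    linarith
  have hdr : 0 < d ^ (r + 1) := pow_pos hd0 _
  have hC0 : 0 < C := by linarith
  set ε₀ : ℝ := d ^ (r + 1) / (C + M) with hε₀
  have hε₀0 : 0 < ε₀ := by positivity
  refine ⟨ε₀, hε₀0, fun ε hε hεε ξ => ?_⟩
  have hε1 : ε * (C + M) ≤ d ^ (r + 1) := by
    rw [hε₀, le_div_iff₀ (by positivity)] at hεε
    exact hεε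
  have hf : ContDiff ℝ ∞ fun z => ε * phi Γ L c ξ z := contDiff_const.mul (phi_mem hX L hc ξ).1
  have hdle : ∀ i, i ≤ r + 1 → d ^ (r + 1) ≤ d ^ i := fun i hi =>
    pow_le_pow_of_le_one hd0.le hd1 hi
  have hεM : ∀ z, |ε * phi Γ L c ξ z| ≤ ε * M := fun z => by
    rw [abs_mul, abs_of_pos hε]
    exact mul_le_mul_of_nonneg_left (hMb ξ z) hε.le
  have hεMd : ε * M ≤ d := by
    have h1 := hdle 1 (by omega)
    rw [pow_one] at h1
    nlinarith
  set g : Pl → ℝ := fun z => Real.exp (ε * phi Γ L c ξ z) - 1 with hg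
  have hgT : g ∈ Test Γ := by
    refine ⟨(Real.contDiff_exp.comp hf).sub contDiff_const, fun γ z => ?_⟩
    rw [hg]
    simp only
    rw [(phi_mem hX L hc ξ).2 γ z]
  obtain ⟨m', hm', he⟩ := h g hgT (by
    intro j hj z hz
    refine (SML_comp hf r z hd0.le hd1 (hεM z) (hεMd.trans hd1) hεMd ?_ j hj).trans hdδ
    intro i hi1 hi
    have h1 : iteratedFDeriv ℝ i (fun z => ε * phi Γ L c ξ z) z =
        ε • iteratedFDeriv ℝ i (phi Γ L c ξ) z :=
      iteratedFDeriv_const_smul_apply (a := ε)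
        (((phi_mem hX L hc ξ).1.of_le (by exact_mod_cast le_top)).contDiffAt)
    rw [h1, norm_smul, Real.norm_eq_abs, abs_of_pos hε]
    have h2 := mul_le_mul_of_nonneg_left (hb ξ i hi z hz) hε.le
    have h3 := hdle i (by omega)
    nlinarith)
  refine ⟨m', hm', (∫ y in D, (1 + g y) * √(dt (m.1.1 y)))⁻¹, ?_, fun z => ?_⟩
  · -- the constant is positive
    have h1 := (m'.2.pos 0).1
    rw [he 0] at h1
    have h2 := (m.2.pos 0).1
    have h3 : ((((∫ y in D, (1 + g y) * √(dt (m.1.1 y)))⁻¹ * (1 + g 0)) • m.1.1 0 : Co)).1 =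
        (∫ y in D, (1 + g y) * √(dt (m.1.1 y)))⁻¹ * (1 + g 0) * (m.1.1 0).1 := rfl
    rw [h3] at h1
    have h4 : 0 < 1 + g 0 := by
      rw [hg]
      have := Real.exp_pos (ε * phi Γ L c ξ 0)
      simp only
      linarith
    have h5 : 0 < (1 + g 0) * (m.1.1 0).1 := mul_pos h4 h2
    by_contra hcon
    push Not at hcon
    have h6 := mul_nonpos_of_nonpos_of_nonneg hcon h5.le
    rw [← mul_assoc] at h6
    linarith
  · rw [he z, hg]
    simp only [add_sub_cancel]

end BGS
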