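import Pool.Agent.LibBGR.AE_WGT

open MeasureTheory Set Filter Topology
open scoped ContDiff ENNReal NNReal unitInterval

namespace BGS

variable {Γ : Type} [Group Γ] [MulAction Γ Pl] {D : Set Pl}


theorem GMU_lam0 {E : Type} [AddCommGroup E] [Module ℝ E] {a b : LinearMap.BilinForm ℝ E} {e : E}
    (P : IsPair a b e) : lam a b 0 = 0 := by
  apply le_antisymm _ bot_le
  unfold lam
  refine (iInf_le _ (0 : ℝ≥0)).trans ?_
  refine (iInf_le _ ?_).trans ?_
  · refine ⟨Submodule.span ℝ {e}, ?_, ?_⟩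
    · rw [finrank_span_singleton P.ne]
    · intro u hu
      obtain ⟨c, rfl⟩ := Submodule.mem_span_singleton.1 hu
      simp [P.ae]
  · simp

theorem GMU_x (hX : Surface Γ D) (m m' : Mt Γ D) (φ : TestS Γ) {q : ℝ} (hq : 0 < q)
    (h : ∀ z, m'.1.1 z = (q * Real.exp (φ.1 z)) • m.1.1 z) (k : ℕ) :
    x m' k = (lam (aF hX m) (bF hX m (expT φ)) k).toReal / q / (4 * Real.pi) := by
  unfold x lvl
  rw [ev_eq_lam hX m m' (expT φ) (fun z => Real.exp_pos _) hq h k, ENNReal.toReal_div,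
    ENNReal.toReal_div, ENNReal.toReal_ofReal hq.le,
    ENNReal.toReal_ofReal (mul_pos four_pos Real.pi_pos).le]

/-- Gaps of the metric from gaps of the reciprocals. -/
theorem gap_of_mu (hX : Surface Γ D) (m m' : Mt Γ D) (φ : TestS Γ) {q : ℝ} (hq : 0 < q)
    (h : ∀ z, m'.1.1 z = (q * Real.exp (φ.1 z)) • m.1.1 z) :
    ∃ C₃ : ℝ, 0 < C₃ ∧ 0 < x m' 1 - x m' 0 ∧ ∀ n : ℕ,
      0 ≤ muE hX m φ n - muE hX m φ (n + 1) →
      C₃ * (muE hX m φ n - muE hX m φ (n + 1)) ≤ x m' (n + 2) - x m' (n + 1) := by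
  obtain ⟨M, hM, hφ⟩ := test_bdd hX φ
  obtain ⟨M₀, hM₀, hup⟩ := muE_upper hX m M
  obtain ⟨c₀, hc₀, hlo⟩ := muE_lower hX m M
  have hpos : ∀ k, 0 < muE hX m φ k := fun k =>
    lt_of_lt_of_le (div_pos hc₀ (by positivity)) (hlo φ hφ k)
  have hpi : 0 < 4 * Real.pi := mul_pos four_pos Real.pi_pos
  have hx : ∀ k, x m' (k + 1) = (muE hX m φ k)⁻¹ / q / (4 * Real.pi) := by
    intro k
    rw [GMU_x hX m m' φ hq h (k + 1)]
    unfold muE mu
    rw [ENNReal.toReal_inv, inv_inv]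
  have hx0 : x m' 0 = 0 := by
    rw [GMU_x hX m m' φ hq h 0, GMU_lam0 (pair_surface hX m (expT φ) fun z => Real.exp_pos _)]
    simp
  refine ⟨(M₀ ^ 2 * q * (4 * Real.pi))⁻¹, by positivity, ?_, ?_⟩
  · rw [hx0, sub_zero, show x m' 1 = x m' (0 + 1) from rfl, hx 0]
    have := hpos 0
    positivity
  · intro n hn
    have h1 := hpos n
    have h2 := hpos (n + 1)
    have e : x m' (n + 2) - x m' (n + 1) =
        (muE hX m φ n - muE hX m φ (n + 1)) / (muE hX m φ n * muE hX m φ (n + 1) * q *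
          (4 * Real.pi)) := by
      rw [show x m' (n + 2) = x m' (n + 1 + 1) from rfl, hx (n + 1), hx n]
      field_simp
    rw [e, div_eq_inv_mul]
    refine mul_le_mul_of_nonneg_right ?_ hn
    apply inv_anti₀ (by positivity)
    have h3 := hup φ hφ n
    have h4 := hup φ hφ (n + 1)
    have h5 : muE hX m φ n * muE hX m φ (n + 1) ≤ M₀ ^ 2 := by
      rw [sq]
      exact mul_le_mul h3 h4 h2.le hM₀.le
    have h6 : muE hX m φ n * muE hX m φ (n + 1) * q ≤ M₀ ^ 2 * q :=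
      mul_le_mul_of_nonneg_right h5 hq.le
    exact mul_le_mul_of_nonneg_right h6 hpi.le

end BGS
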