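import Pool.Agent.LibBGR.Bmp

/-! ROW BMD: derivatives of the periodised bump functions. -/

open MeasureTheory Set Filter Topology
open scoped ContDiff ENNReal NNReal

namespace BGS

variable {Γ : Type} [Group Γ] [MulAction Γ Pl] {D : Set Pl}

/-- The supports of all the bump functions of the grids lie in one compact square. -/
theorem BMD_supp {L R : ℕ} (hR : 1 ≤ R) {p : ℤ × ℤ} (hp : p ∈ grid L R) {z : Pl}
    (hz : bmp R p z ≠ 0) : z ∈ Icc (-(L : ℝ)) L ×ˢ Icc (-(L : ℝ)) L := by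
  have hR0 : (0 : ℝ) < R := by exact_mod_cast hR
  have h := bmp_supp hR p hz
  rw [grid, Finset.mem_product, Finset.mem_Ico, Finset.mem_Ico] at hp
  obtain ⟨⟨h1, h2⟩, h3, h4⟩ := hp
  have key : ∀ (q : ℤ) (t : ℝ), -((L : ℤ) * R) ≤ q → q < L * R →
      t ∈ Ico ((q : ℝ) / R) ((q : ℝ) / R + 1 / R) → t ∈ Icc (-(L : ℝ)) L := by
    intro q t hq1 hq2 ht
    have e1 : (-((L : ℝ) * R)) ≤ q := by exact_mod_cast hq1
    have e2 : (q : ℝ) + 1 ≤ L * R := by exact_mod_cast hq2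
    constructor
    · refine le_trans ?_ ht.1
      rw [le_div_iff₀ hR0]
      linarith
    · refine le_trans ht.2.le ?_
      rw [← add_div, div_le_iff₀ hR0]
      exact e2
  exact ⟨key _ _ h1 h2 h.1, key _ _ h3 h4 h.2⟩

/-- On a compact set only finitely many elements of the group contribute, uniformly. -/
theorem BMD_fin (hX : Surface Γ D) (L : ℕ) {K : Set Pl} (hK : IsCompact K) :
    ∃ S : Finset Γ, ∀ R : ℕ, 1 ≤ R → ∀ p ∈ grid L R, ∀ z ∈ K,
      per Γ (bmp R p) z = ∑ γ ∈ S, bmp R p (γ • z) := by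
  have hfin := hX.proper (K ∪ Icc (-(L : ℝ)) L ×ˢ Icc (-(L : ℝ)) L)
    (hK.union (isCompact_Icc.prod isCompact_Icc))
  refine ⟨hfin.toFinset, fun R hR p hp z hz => ?_⟩
  unfold per
  apply finsum_eq_sum_of_support_subset
  intro γ hγ
  rw [Finset.mem_coe, Finite.mem_toFinset]
  exact ⟨z, Or.inl hz, Or.inr (BMD_supp hR hp hγ)⟩

/-- The derivatives of the basic bump function are bounded. -/
theorem BMD_bump (r : ℕ) : ∃ C : ℝ, 0 ≤ C ∧ ∀ i ≤ r, ∀ z : Pl,
    ‖iteratedFDeriv ℝ i (fun w : Pl => bump0 w) z‖ ≤ C := by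
  have h : ∀ i : ℕ, ∃ C : ℝ, ∀ z : Pl, ‖iteratedFDeriv ℝ i (fun w : Pl => bump0 w) z‖ ≤ C := by
    intro i
    have hs : ContDiff ℝ ∞ (fun w : Pl => bump0 w) := bump0.contDiff
    have hc : HasCompactSupport (fun w : Pl => bump0 w) := bump0.hasCompactSupport
    exact (hs.continuous_iteratedFDeriv (by exact_mod_cast le_top)).bounded_above_of_compact_support
      (hc.iteratedFDeriv i)
  choose C hC using h
  refine ⟨∑ i ∈ Finset.range (r + 1), |C i|, Finset.sum_nonneg fun i _ => abs_nonneg _,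
    fun i hi z => (hC i z).trans ((le_abs_self _).trans ?_)⟩
  exact Finset.single_le_sum (f := fun i => |C i|) (fun i _ => abs_nonneg _)
    (Finset.mem_range.2 (by omega))

/-- One derivative bound for finitely many elements of the group on a compact set. -/
theorem BMD_act (hX : Surface Γ D) (S : Finset Γ) (r : ℕ) {K : Set Pl} (hK : IsCompact K) :
    ∃ M : ℝ, 1 ≤ M ∧ ∀ γ ∈ S, ∀ i ≤ r, ∀ z ∈ K,
      ‖iteratedFDeriv ℝ i (fun w : Pl => γ • w) z‖ ≤ M := by
  have h : ∀ (γ : Γ) (i : ℕ), ∃ C : ℝ, ∀ z ∈ K,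
      ‖iteratedFDeriv ℝ i (fun w : Pl => γ • w) z‖ ≤ C := by
    intro γ i
    exact hK.exists_bound_of_continuousOn
      ((hX.smooth γ).continuous_iteratedFDeriv (by exact_mod_cast le_top)).continuousOn
  choose C hC using h
  refine ⟨1 + ∑ γ ∈ S, ∑ i ∈ Finset.range (r + 1), |C γ i|, ?_, ?_⟩
  · have : 0 ≤ ∑ γ ∈ S, ∑ i ∈ Finset.range (r + 1), |C γ i| :=
      Finset.sum_nonneg fun γ _ => Finset.sum_nonneg fun i _ => abs_nonneg _
    linarith
  · intro γ hγ i hi z hz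
    have h1 : |C γ i| ≤ ∑ i ∈ Finset.range (r + 1), |C γ i| :=
      Finset.single_le_sum (f := fun i => |C γ i|) (fun i _ => abs_nonneg _)
        (Finset.mem_range.2 (by omega))
    have h2 : ∑ i ∈ Finset.range (r + 1), |C γ i| ≤
        ∑ γ ∈ S, ∑ i ∈ Finset.range (r + 1), |C γ i| :=
      Finset.single_le_sum (f := fun γ => ∑ i ∈ Finset.range (r + 1), |C γ i|)
        (fun γ _ => Finset.sum_nonneg fun i _ => abs_nonneg _) hγ
    have h3 := hC γ i z hz
    have h4 := le_abs_self (C γ i)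
    linarith

theorem per_bmp_deriv (hX : Surface Γ D) (L r : ℕ) {K : Set Pl} (hK : IsCompact K) :
    ∃ C : ℝ, 0 < C ∧ ∀ R : ℕ, 1 ≤ R → ∀ p ∈ grid L R, ∀ j ≤ r, ∀ z ∈ K,
      ‖iteratedFDeriv ℝ j (per Γ (bmp R p)) z‖ ≤ C * (R : ℝ) ^ r := by
  obtain ⟨S, hS⟩ := BMD_fin hX L (hK.cthickening (r := 1))
  obtain ⟨C0, hC0, hb⟩ := BMD_bump r
  obtain ⟨M, hM1, hM⟩ := BMD_act hX S r hK
  have hM0 : 0 < M := by linarith
  refine ⟨1 + S.card * ((r.factorial : ℝ) * C0 * M ^ r), by positivity, ?_⟩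
  intro R hR p hp j hj z hz
  have hR1 : (1 : ℝ) ≤ R := by exact_mod_cast hR
  have hR0 : (0 : ℝ) < R := by linarith
  have hRM : 1 ≤ (R : ℝ) * M := one_le_mul_of_one_le_of_one_le hR1 hM1
  -- near `z` the periodisation is a finite sum
  have h1 : per Γ (bmp R p) =ᶠ[𝓝 z] fun w => ∑ γ ∈ S, bmp R p (γ • w) := by
    filter_upwards [Metric.ball_mem_nhds z one_pos] with w hw
    refine hS R hR p hp w ?_
    exact Metric.mem_cthickening_of_dist_le w z 1 K hz hw.le
  rw [(Filter.EventuallyEq.iteratedFDeriv ℝ h1 j).eq_of_nhds]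
  have hsm : ∀ γ ∈ S, ContDiffAt ℝ j (fun w : Pl => bmp R p (γ • w)) z := by
    intro γ _
    have : ContDiff ℝ ∞ (fun w : Pl => bmp R p (γ • w)) := (bmp_smooth R p).comp (hX.smooth γ)
    exact (this.of_le (by exact_mod_cast le_top)).contDiffAt
  rw [iteratedFDeriv_fun_sum_apply hsm]
  refine (norm_sum_le _ _).trans ?_
  have key : ∀ γ ∈ S, ‖iteratedFDeriv ℝ j (fun w : Pl => bmp R p (γ • w)) z‖ ≤
      (r.factorial : ℝ) * C0 * M ^ r * (R : ℝ) ^ r := by
    intro γ hγ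
    have e : (fun w : Pl => bmp R p (γ • w)) =
        (fun w : Pl => bump0 w) ∘ (fun w : Pl => (R : ℝ) • (γ • w) + ((-(p.1 : ℝ), -(p.2 : ℝ)) : Pl)) := by
      funext w
      simp only [bmp, Function.comp_apply]
      congr 1
    rw [e]
    have hg : ContDiff ℝ ∞ (fun w : Pl => bump0 w) := bump0.contDiff
    have hf0 : ContDiff ℝ ∞ (fun w : Pl => (R : ℝ) • (γ • w)) := (hX.smooth γ).const_smul (R : ℝ)
    have hf : ContDiff ℝ ∞ (fun w : Pl => (R : ℝ) • (γ • w) + ((-(p.1 : ℝ), -(p.2 : ℝ)) : Pl)) :=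
      hf0.add contDiff_const
    have hcomp := norm_iteratedFDeriv_comp_le hg hf (n := j) (by exact_mod_cast le_top) z
      (C := C0) (D := (R : ℝ) * M) (fun i hi => hb i (hi.trans hj) _) (by
        intro i hi1 hi2
        have hi : ContDiffAt ℝ i (fun w : Pl => γ • w) z :=
          ((hX.smooth γ).of_le (by exact_mod_cast le_top)).contDiffAt
        have ha : iteratedFDeriv ℝ i
            (fun w : Pl => (R : ℝ) • (γ • w) + ((-(p.1 : ℝ), -(p.2 : ℝ)) : Pl)) z =
            (R : ℝ) • iteratedFDeriv ℝ i (fun w : Pl => γ • w) z := by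
          have h3 : ContDiffAt ℝ i (fun w : Pl => (R : ℝ) • (γ • w)) z :=
            (hf0.of_le (by exact_mod_cast le_top)).contDiffAt
          rw [fun_iteratedFDeriv_add_apply h3 contDiffAt_const, iteratedFDeriv_const_of_ne (by omega),
            iteratedFDeriv_const_smul_apply' hi]
          simp
        rw [ha, norm_smul, Real.norm_of_nonneg hR0.le]
        calc (R : ℝ) * ‖iteratedFDeriv ℝ i (fun w : Pl => γ • w) z‖ ≤ R * M :=
              mul_le_mul_of_nonneg_left (hM γ hγ i (hi2.trans hj) z hz) hR0.le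
          _ = (R * M) ^ 1 := (pow_one _).symm
          _ ≤ (R * M) ^ i := pow_le_pow_right₀ hRM hi1)
    refine hcomp.trans ?_
    have f1 : ((j.factorial : ℕ) : ℝ) ≤ r.factorial := by exact_mod_cast Nat.factorial_le hj
    have f2 : ((R : ℝ) * M) ^ j ≤ (R * M) ^ r := pow_le_pow_right₀ hRM hj
    calc (j.factorial : ℝ) * C0 * ((R : ℝ) * M) ^ j ≤ (r.factorial : ℝ) * C0 * (R * M) ^ r := by
          gcongr
      _ = (r.factorial : ℝ) * C0 * M ^ r * (R : ℝ) ^ r := by rw [mul_pow]; ring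
  refine (Finset.sum_le_sum key).trans ?_
  rw [Finset.sum_const, nsmul_eq_mul]
  have hRr : 0 < (R : ℝ) ^ r := by positivity
  nlinarith [hRr]

end BGS
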