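import Pool.Agent.LibBGR.AE_CC
import Pool.Agent.LibBGR.Per
import Pool.Agent.LibBGR.Bmd

open MeasureTheory Set Filter Topology
open scoped ContDiff ENNReal NNReal unitInterval

namespace BGS

open Pool.BGR (PM upI pj)

variable {Γ : Type} [Group Γ] [MulAction Γ Pl] {D : Set Pl}


theorem PH1_per (hX : Surface Γ D) (R : ℕ) (p : ℤ × ℤ) : per Γ (bmp (R + 1) p) ∈ Test Γ :=
  per_mem hX (bmp_smooth _ p) (bmp_compact (by omega) p)

theorem PH1_phiR (hX : Surface Γ D) (L : ℕ) (ξ : Dir → I) (R : ℕ) :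
    phiR Γ L ξ R ∈ Test Γ := by
  refine ⟨?_, fun γ z => ?_⟩
  · unfold phiR
    exact ContDiff.sum fun p _ => contDiff_const.mul (PH1_per hX R p).1
  · unfold phiR
    refine Finset.sum_congr rfl fun p _ => ?_
    rw [(PH1_per hX R p).2 γ z]

theorem PH1_card (L R : ℕ) : ((grid L R).card : ℝ) = (2 * L * R) ^ 2 := by
  unfold grid
  rw [Finset.card_product, Int.card_Ico]
  have : ((L * R : ℤ) - -(L * R : ℤ)).toNat = 2 * L * R := by
    have : ((L * R : ℤ) - -(L * R : ℤ)) = ((2 * L * R : ℕ) : ℤ) := by push_cast; ring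
    rw [this]
    exact Int.toNat_natCast _
  rw [this]
  push_cast
  ring

/-- Derivatives of the part of one scale. -/
theorem PH1_deriv (hX : Surface Γ D) (L r : ℕ) {K : Set Pl} (hK : IsCompact K) :
    ∃ C : ℝ, 0 < C ∧ ∀ (ξ : Dir → I) (R : ℕ), ∀ j ≤ r, ∀ z ∈ K,
      ‖iteratedFDeriv ℝ j (phiR Γ L ξ R) z‖ ≤ C * ((R : ℝ) + 1) ^ (r + 2) := by
  obtain ⟨C, hC, h⟩ := per_bmp_deriv hX L r hK
  refine ⟨(2 * L) ^ 2 * C + 1, by positivity, fun ξ R j hj z hz => ?_⟩
  have e : iteratedFDeriv ℝ j (phiR Γ L ξ R) z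
      = ∑ p ∈ grid L (R + 1), (ξ (R, p) : ℝ) • iteratedFDeriv ℝ j (per Γ (bmp (R + 1) p)) z := by
    have h0 : phiR Γ L ξ R = fun z => ∑ p ∈ grid L (R + 1),
        ((ξ (R, p) : ℝ) • per Γ (bmp (R + 1) p)) z := rfl
    have hs : ∀ p : ℤ × ℤ, ContDiffAt ℝ j (per Γ (bmp (R + 1) p)) z := fun p =>
      ((PH1_per hX R p).1.of_le (by exact_mod_cast le_top)).contDiffAt
    rw [h0, iteratedFDeriv_fun_sum_apply]
    · refine Finset.sum_congr rfl fun p _ => ?_
      exact iteratedFDeriv_const_smul_apply (hs p)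
    · intro p _
      exact contDiffAt_const.smul (hs p)
  rw [e]
  have hR0 : (0 : ℝ) ≤ (R : ℝ) + 1 := by positivity
  calc ‖∑ p ∈ grid L (R + 1), (ξ (R, p) : ℝ) • iteratedFDeriv ℝ j (per Γ (bmp (R + 1) p)) z‖
      ≤ ∑ p ∈ grid L (R + 1), ‖(ξ (R, p) : ℝ) • iteratedFDeriv ℝ j (per Γ (bmp (R + 1) p)) z‖ :=
        norm_sum_le _ _
    _ ≤ ∑ _p ∈ grid L (R + 1), C * ((R : ℝ) + 1) ^ r := by
        refine Finset.sum_le_sum fun p hp => ?_
        rw [norm_smul]
        have h1 : ‖((ξ (R, p) : I) : ℝ)‖ ≤ 1 := by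
          rw [Real.norm_eq_abs, abs_of_nonneg (ξ (R, p)).2.1]
          exact (ξ (R, p)).2.2
        have h2 := h (R + 1) (by omega) p hp j hj z hz
        push_cast at h2
        calc _ ≤ 1 * ‖iteratedFDeriv ℝ j (per Γ (bmp (R + 1) p)) z‖ :=
              mul_le_mul_of_nonneg_right h1 (norm_nonneg _)
          _ ≤ _ := by rw [one_mul]; exact h2
    _ = ((grid L (R + 1)).card : ℝ) * (C * ((R : ℝ) + 1) ^ r) := by
        rw [Finset.sum_const, nsmul_eq_mul]
    _ = (2 * L) ^ 2 * C * ((R : ℝ) + 1) ^ (r + 2) := by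
        rw [PH1_card]
        push_cast
        ring
    _ ≤ ((2 * L) ^ 2 * C + 1) * ((R : ℝ) + 1) ^ (r + 2) := by
        have : 0 ≤ ((R : ℝ) + 1) ^ (r + 2) := pow_nonneg hR0 _
        nlinarith

/-- The series multiplied by a cutoff function is smooth. -/
theorem PH1_cut (hX : Surface Γ D) (L : ℕ) {c : ℕ → ℝ} (hc : Cs c) (ξ : Dir → I)
    {χ : Pl → ℝ} (hχ : ContDiff ℝ ∞ χ) (hs : HasCompactSupport χ) :
    ContDiff ℝ ∞ fun z => ∑' R : ℕ, χ z * (c R * phiR Γ L ξ R z) := by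
  have hb : ∀ i : ℕ, ∃ B : ℝ, 0 ≤ B ∧ ∀ z, ‖iteratedFDeriv ℝ i χ z‖ ≤ B := by
    intro i
    have hcont : Continuous (iteratedFDeriv ℝ i χ) :=
      hχ.continuous_iteratedFDeriv (by exact_mod_cast le_top)
    obtain ⟨B, hB⟩ := hcont.bounded_above_of_compact_support (hs.iteratedFDeriv i)
    exact ⟨B, (norm_nonneg _).trans (hB 0), hB⟩
  choose B hB0 hB using hb
  have hd : ∀ k : ℕ, ∃ C : ℝ, 0 < C ∧ ∀ (ξ : Dir → I) (R : ℕ), ∀ j ≤ k, ∀ z ∈ tsupport χ,
      ‖iteratedFDeriv ℝ j (phiR Γ L ξ R) z‖ ≤ C * ((R : ℝ) + 1) ^ (k + 2) :=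
    fun k => PH1_deriv hX L k hs
  choose C hC0 hC using hd
  have hsm : ∀ R, ContDiff ℝ ∞ fun z => c R * phiR Γ L ξ R z := fun R =>
    contDiff_const.mul (PH1_phiR hX L ξ R).1
  have key := contDiff_tsum (𝕜 := ℝ) (N := (⊤ : ℕ∞))
    (f := fun (R : ℕ) (z : Pl) => χ z * (c R * phiR Γ L ξ R z))
    (v := fun k R => (∑ i ∈ Finset.range (k + 1), (k.choose i : ℝ) * B i * C k) *
      (((R : ℝ) + 1) ^ (k + 2) * |c R|))
    (fun R => hχ.mul (hsm R))
    (fun k _ => (Rapid.summable hc.rapid (k + 2)).mul_left _) ?_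
  · exact key
  · intro k R z _
    by_cases hz : z ∈ tsupport χ
    · have h1 := norm_iteratedFDeriv_mul_le (𝕜 := ℝ) hχ (hsm R) z (n := k)
        (by exact_mod_cast le_top)
      refine h1.trans ?_
      rw [Finset.sum_mul]
      refine Finset.sum_le_sum fun i hi => ?_
      have hcd : ∀ j : ℕ, ContDiffAt ℝ j (phiR Γ L ξ R) z := fun j =>
        ((PH1_phiR hX L ξ R).1.of_le (by exact_mod_cast le_top)).contDiffAt
      have e : iteratedFDeriv ℝ (k - i) (fun z => c R * phiR Γ L ξ R z) z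
          = c R • iteratedFDeriv ℝ (k - i) (phiR Γ L ξ R) z :=
        iteratedFDeriv_const_smul_apply (a := c R) (hcd (k - i))
      rw [e, norm_smul, Real.norm_eq_abs]
      have h2 := hC k ξ R (k - i) (Nat.sub_le _ _) z hz
      have h3 := hB i z
      have h4 : (0 : ℝ) ≤ k.choose i := Nat.cast_nonneg _
      calc (k.choose i : ℝ) * ‖iteratedFDeriv ℝ i χ z‖ *
            (|c R| * ‖iteratedFDeriv ℝ (k - i) (phiR Γ L ξ R) z‖)
          ≤ (k.choose i : ℝ) * B i * (|c R| * (C k * ((R : ℝ) + 1) ^ (k + 2))) := by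
            refine mul_le_mul (mul_le_mul_of_nonneg_left h3 h4)
              (mul_le_mul_of_nonneg_left h2 (abs_nonneg _)) ?_ (mul_nonneg h4 (hB0 i))
            exact mul_nonneg (abs_nonneg _) (norm_nonneg _)
        _ = (k.choose i : ℝ) * B i * C k * (((R : ℝ) + 1) ^ (k + 2) * |c R|) := by ring
    · have hz' : z ∉ tsupport fun z => χ z * (c R * phiR Γ L ξ R z) := by
        intro hcon
        apply hz
        exact closure_mono (by
          intro w hw hw0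
          exact hw (by simp [hw0])) hcon
      have h0 : iteratedFDeriv ℝ k (fun z => χ z * (c R * phiR Γ L ξ R z)) z = 0 := by
        by_contra hne
        exact hz' (support_iteratedFDeriv_subset k hne)
      change ‖iteratedFDeriv ℝ k (fun z => χ z * (c R * phiR Γ L ξ R z)) z‖ ≤ _
      rw [h0, norm_zero]
      refine mul_nonneg (Finset.sum_nonneg fun i _ => ?_) (by positivity)
      exact mul_nonneg (mul_nonneg (Nat.cast_nonneg _) (hB0 i)) (hC0 k).le

theorem phi_mem (hX : Surface Γ D) (L : ℕ) {c : ℕ → ℝ} (hc : Cs c) (ξ : Dir → I) :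
    phi Γ L c ξ ∈ Test Γ := by
  refine ⟨?_, fun γ z => ?_⟩
  · rw [contDiff_iff_contDiffAt]
    intro z₀
    set χ : ContDiffBump z₀ := ⟨1, 2, one_pos, one_lt_two⟩ with hχ
    have h1 := PH1_cut hX L hc ξ (χ := χ) χ.contDiff χ.hasCompactSupport
    refine h1.contDiffAt.congr_of_eventuallyEq ?_
    filter_upwards [χ.eventuallyEq_one] with z hz
    unfold phi
    rw [tsum_mul_left, hz]
    simp
  · unfold phi
    refine tsum_congr fun R => ?_
    rw [(PH1_phiR hX L ξ R).2 γ z]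

end BGS
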