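import Pool.Agent.LibBGR.AE_LVB
import Pool.Agent.LibBGR.AE_PH1
import Pool.Agent.LibBGR.AE_GMU
import Pool.Agent.LibBGR.AE_SML

/-! ROWS AEM, FIN2 : almost every parameter. -/

open MeasureTheory Set Filter Topology
open scoped ContDiff ENNReal NNReal unitInterval

namespace BGS

open Pool.BGR (PM upI pj)

variable {Γ : Type} [Group Γ] [MulAction Γ Pl] {D : Set Pl}


theorem ae_mu (hX : Surface Γ D) (m : Mt Γ D) {L : ℕ} (hL : D ⊆ bigSq L) {c : ℕ → ℝ}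
    (hc : Cs c) (ψ : TestS Γ) :
    ∃ A B : ℕ, ∀ (Φ : (Dir → I) → TestS Γ), (∀ ξ z, (Φ ξ).1 z = ψ.1 z + phi Γ L c ξ z) →
      ∀ᵐ ξ ∂(PM Dir), (∀ n, 0 < muE hX m (Φ ξ) n - muE hX m (Φ ξ) (n + 1)) ∧
        ∀ᶠ n : ℕ in atTop, c (A * (n + 2) ^ 2) / ((n : ℝ) + 1) ^ B ≤
          muE hX m (Φ ξ) n - muE hX m (Φ ξ) (n + 1) := by
  obtain ⟨A, B, C₂, hC₂, h⟩ := level_bad hX m hL hc ψ
  refine ⟨A, B + 2, fun Φ hΦ => ?_⟩
  have hN : ∀ n : ℕ, (0 : ℝ) < (n : ℝ) + 1 := fun n => by positivity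
  -- all gaps are positive
  have h1 : ∀ᵐ ξ ∂(PM Dir), ∀ n, 0 < muE hX m (Φ ξ) n - muE hX m (Φ ξ) (n + 1) := by
    rw [ae_all_iff]
    intro n
    have hcn : 0 < c (A * (n + 2) ^ 2) := hc.pos _
    set cn : ℝ := c (A * (n + 2) ^ 2) with hcn'
    have h2 : ∀ j : ℕ, PM Dir {ξ | ¬ 0 < muE hX m (Φ ξ) n - muE hX m (Φ ξ) (n + 1)} ≤
        ENNReal.ofReal (1 / ((j : ℝ) + 1)) := by
      intro j
      have hδ : 0 < cn / (C₂ * ((n : ℝ) + 1) ^ B * ((j : ℝ) + 1)) := by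
        have := hN n
        positivity
      have h3 : C₂ * ((n : ℝ) + 1) ^ B * (cn / (C₂ * ((n : ℝ) + 1) ^ B * ((j : ℝ) + 1))) =
          cn / ((j : ℝ) + 1) := by
        have := hN n
        field_simp
      have h4 : cn / ((j : ℝ) + 1) ≤ cn := by
        rw [div_le_iff₀ (hN j)]
        nlinarith [Nat.cast_nonneg (α := ℝ) j]
      have h5 := h Φ hΦ n _ hδ (by rw [h3]; exact h4)
      rw [h3] at h5
      refine (measure_mono ?_).trans (h5.trans (le_of_eq ?_))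
      · intro ξ hξ
        have h6 : ¬ 0 < muE hX m (Φ ξ) n - muE hX m (Φ ξ) (n + 1) := hξ
        exact (not_lt.1 h6).trans_lt hδ
      · congr 1
        rw [← hcn', div_right_comm, div_self hcn.ne']
    have h3 : Tendsto (fun j : ℕ => ENNReal.ofReal (1 / ((j : ℝ) + 1))) atTop (𝓝 0) := by
      have h4 := ENNReal.tendsto_ofReal (tendsto_one_div_add_atTop_nhds_zero_nat (𝕜 := ℝ))
      rwa [ENNReal.ofReal_zero] at h4
    have h4 : PM Dir {ξ | ¬ 0 < muE hX m (Φ ξ) n - muE hX m (Φ ξ) (n + 1)} ≤ 0 :=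
      ge_of_tendsto' h3 h2
    exact le_antisymm h4 zero_le
  -- quantitative version
  have hsum : Summable fun n : ℕ => C₂ * (1 / ((n : ℝ) + 1) ^ 2) := by
    have h2 : Summable fun n : ℕ => 1 / ((n : ℝ) + 1) ^ 2 := by
      have h3 := (summable_nat_add_iff 1).2 (Real.summable_one_div_nat_pow.2 (by norm_num : 1 < 2))
      simpa using h3
    exact h2.mul_left C₂
  obtain ⟨n₀, hn₀⟩ := exists_nat_gt C₂
  have h2 := Pool.BGR.ae_good (κ := Dir)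
    (fun n => {ξ | muE hX m (Φ ξ) n - muE hX m (Φ ξ) (n + 1) <
      c (A * (n + 2) ^ 2) / ((n : ℝ) + 1) ^ (B + 2)})
    (fun n => C₂ * (1 / ((n : ℝ) + 1) ^ 2)) hsum n₀ (by
      intro n hn
      have hcn : 0 < c (A * (n + 2) ^ 2) := hc.pos _
      set cn : ℝ := c (A * (n + 2) ^ 2) with hcn'
      have hNn := hN n
      have h3 : C₂ * ((n : ℝ) + 1) ^ B * (cn / ((n : ℝ) + 1) ^ (B + 2)) =
          C₂ * (1 / ((n : ℝ) + 1) ^ 2) * cn := by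
        rw [pow_add]
        field_simp
      have h4 : C₂ * (1 / ((n : ℝ) + 1) ^ 2) ≤ 1 := by
        rw [mul_one_div, div_le_one (by positivity)]
        have h5 : (n₀ : ℝ) ≤ n := by exact_mod_cast hn
        nlinarith [Nat.cast_nonneg (α := ℝ) n]
      have h5 := h Φ hΦ n (cn / ((n : ℝ) + 1) ^ (B + 2)) (by positivity) (by
        rw [h3]
        exact mul_le_of_le_one_left hcn.le h4)
      rw [h3, mul_div_cancel_right₀ _ hcn.ne'] at h5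
      exact h5)
  filter_upwards [h1, h2] with ξ hξ1 hξ2
  refine ⟨hξ1, ?_⟩
  filter_upwards [hξ2] with n hn
  exact not_lt.1 hn

theorem FIN2_shift {a : ℕ → ℝ} (ha : Rapid a) : Rapid fun n => a (n + 1) := by
  intro B
  have h1 : Tendsto (fun N : ℕ => |((N + 1 : ℕ) : ℝ) ^ B * a (N + 1)|) atTop (𝓝 0) := by
    have h2 := ((tendsto_add_atTop_iff_nat 1).2 (ha B)).abs
    simpa using h2
  refine squeeze_zero_norm (fun N => ?_) h1
  rw [Real.norm_eq_abs, abs_mul, abs_mul]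
  refine mul_le_mul_of_nonneg_right ?_ (abs_nonneg _)
  rw [abs_of_nonneg (by positivity), abs_of_nonneg (by positivity)]
  exact pow_le_pow_left₀ (Nat.cast_nonneg _) (by push_cast; linarith) B

theorem FIN2_scale {c : ℕ → ℝ} (hc : Cs c) {ε : ℝ} (h0 : 0 < ε) (h1 : ε ≤ 1) :
    Cs fun R => ε * c R where
  pos R := mul_pos h0 (hc.pos R)
  le_one R := mul_le_one₀ h1 (hc.pos R).le (hc.le_one R)
  anti := fun _ _ h => mul_le_mul_of_nonneg_left (hc.anti h) h0.le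
  rapid := by
    intro B
    have h2 := (hc.rapid B).const_mul ε
    rw [mul_zero] at h2
    refine h2.congr fun N => ?_
    ring

theorem FIN2_phi (L : ℕ) (c : ℕ → ℝ) (ε : ℝ) (ξ : Dir → I) (z : Pl) :
    phi Γ L (fun R => ε * c R) ξ z = ε * phi Γ L c ξ z := by
  unfold phi
  rw [← tsum_mul_left]
  refine tsum_congr fun R => ?_
  ring

theorem ae_gap (hX : Surface Γ D) {L : ℕ} (hL : D ⊆ bigSq L) {a : ℕ → ℝ} (ha : Rapid a) :
    ∃ c : ℕ → ℝ, Cs c ∧ (∀ ξ : Dir → I, phi Γ L c ξ ∈ Test Γ) ∧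
      ∀ (m : Mt Γ D) (ψ : Pl → ℝ), ψ ∈ Test Γ → ∀ ε : ℝ, 0 < ε → ε ≤ 1 →
        ∀ᵐ ξ ∂(PM Dir), ∀ m' : Mt Γ D,
        (∃ q : ℝ, 0 < q ∧
          ∀ z, m'.1.1 z = (q * Real.exp (ψ z + ε * phi Γ L c ξ z)) • m.1.1 z) →
        (∀ k, 0 < x m' (k + 1) - x m' k) ∧ ∀ᶠ k : ℕ in atTop, a k ≤ x m' (k + 1) - x m' k := by
  obtain ⟨c, hc, hac⟩ := exists_c (FIN2_shift ha)
  have hphi : ∀ ξ : Dir → I, phi Γ L c ξ ∈ Test Γ := fun ξ => phi_mem hX L hc ξ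
  refine ⟨c, hc, hphi, fun m ψ hψ ε hε0 hε1 => ?_⟩
  have hcε := FIN2_scale hc hε0 hε1
  have hphiε : ∀ ξ : Dir → I, phi Γ L (fun R => ε * c R) ξ ∈ Test Γ :=
    fun ξ => phi_mem hX L hcε ξ
  obtain ⟨A, B, h⟩ := ae_mu hX m hL hcε (⟨ψ, hψ⟩ : TestS Γ)
  set Φ : (Dir → I) → TestS Γ := fun ξ => ⟨ψ, hψ⟩ + ⟨phi Γ L (fun R => ε * c R) ξ, hphiε ξ⟩ with hΦ
  filter_upwards [h Φ fun ξ z => rfl] with ξ hξ m' hm'
  obtain ⟨q, hq, hm'⟩ := hm'
  have hm'' : ∀ z, m'.1.1 z = (q * Real.exp ((Φ ξ).1 z)) • m.1.1 z := by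
    intro z
    rw [hm' z]
    have h1 : (Φ ξ).1 z = ψ z + phi Γ L (fun R => ε * c R) ξ z := rfl
    rw [h1, FIN2_phi]
  obtain ⟨C₃, hC₃, h0, h3⟩ := gap_of_mu hX m m' (Φ ξ) hq hm''
  have hpos : ∀ k, 0 < x m' (k + 1) - x m' k := by
    intro k
    rcases k with _ | k
    · exact h0
    · exact (mul_pos hC₃ (hξ.1 k)).trans_le (h3 k (hξ.1 k).le)
  refine ⟨hpos, ?_⟩
  obtain ⟨n₁, hn₁⟩ := exists_nat_gt (1 / (C₃ * ε))
  have hCε : 0 < C₃ * ε := mul_pos hC₃ hε0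
  have h4 : ∀ᶠ n : ℕ in atTop, a (n + 1) ≤ x m' (n + 1 + 1) - x m' (n + 1) := by
    filter_upwards [hξ.2, hac A (B + 1), eventually_ge_atTop n₁] with n h5 h6 h7
    by_cases ha0 : a (n + 1) ≤ 0
    · exact ha0.trans (hpos (n + 1)).le
    · push Not at ha0
      have hN : (0 : ℝ) < (n : ℝ) + 1 := by positivity
      have h8 : C₃ * (ε * c (A * (n + 2) ^ 2) / ((n : ℝ) + 1) ^ B) ≤
          x m' (n + 2) - x m' (n + 1) :=
        (mul_le_mul_of_nonneg_left h5 hC₃.le).trans (h3 n (hξ.1 n).le)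
      have h9 : a (n + 1) * ((n : ℝ) + 1) ≤ c (A * (n + 2) ^ 2) / ((n : ℝ) + 1) ^ B := by
        rw [le_div_iff₀ (by positivity)]
        refine le_trans (le_of_eq ?_) h6
        ring
      have h10 : 1 ≤ (C₃ * ε) * ((n : ℝ) + 1) := by
        have h11 : (n₁ : ℝ) ≤ n := by exact_mod_cast h7
        have h12 : 1 / (C₃ * ε) < (n : ℝ) + 1 := by linarith
        rw [div_lt_iff₀ hCε] at h12
        linarith
      calc a (n + 1) ≤ a (n + 1) * ((C₃ * ε) * ((n : ℝ) + 1)) := le_mul_of_one_le_right ha0.le h10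
        _ = (C₃ * ε) * (a (n + 1) * ((n : ℝ) + 1)) := by ring
        _ ≤ (C₃ * ε) * (c (A * (n + 2) ^ 2) / ((n : ℝ) + 1) ^ B) :=
            mul_le_mul_of_nonneg_left h9 hCε.le
        _ = C₃ * (ε * c (A * (n + 2) ^ 2) / ((n : ℝ) + 1) ^ B) := by ring
        _ ≤ x m' (n + 2) - x m' (n + 1) := h8
  rw [eventually_atTop] at h4 ⊢
  obtain ⟨j, hj⟩ := h4
  refine ⟨j + 1, fun k hk => ?_⟩
  obtain ⟨i, rfl⟩ : ∃ i, k = i + 1 := ⟨k - 1, by omega⟩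
  exact hj i (by omega)

end BGS
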