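import Pool.Agent.LibBGR.AE_Defs

/-! ### ROW CC : the coefficients (pure real analysis) -/

open MeasureTheory Set Filter Topology
open scoped ContDiff ENNReal NNReal unitInterval

namespace BGS

theorem Rapid.summable {c : ℕ → ℝ} (hc : Rapid c) (B : ℕ) :
    Summable fun R : ℕ => ((R : ℝ) + 1) ^ B * |c R| := by
  have hg : Summable fun R : ℕ => 1 / (R : ℝ) ^ 2 := Real.summable_one_div_nat_pow.2 (by norm_num)
  refine summable_of_isBigO_nat hg ?_
  refine Asymptotics.IsBigO.of_bound (2 ^ B) ?_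
  have h1 := hc (B + 2)
  have h2 : ∀ᶠ N : ℕ in atTop, |(N : ℝ) ^ (B + 2) * c N| < 1 := by
    have := h1.abs
    rw [abs_zero] at this
    exact this.eventually_lt_const one_pos
  filter_upwards [h2, eventually_ge_atTop 1] with N hN hN1
  have hNpos : (0 : ℝ) < N := by exact_mod_cast hN1
  have hN1' : (1 : ℝ) ≤ N := by exact_mod_cast hN1
  rw [Real.norm_eq_abs, Real.norm_eq_abs, abs_mul, abs_abs, abs_of_nonneg (by positivity : (0 : ℝ) ≤ ((N : ℝ) + 1) ^ B),
    abs_of_nonneg (by positivity : (0 : ℝ) ≤ 1 / (N : ℝ) ^ 2)]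
  have h3 : ((N : ℝ) + 1) ^ B ≤ 2 ^ B * (N : ℝ) ^ B := by
    rw [← mul_pow]
    exact pow_le_pow_left₀ (by positivity) (by linarith) B
  rw [abs_mul, abs_of_nonneg (by positivity : (0 : ℝ) ≤ (N : ℝ) ^ (B + 2))] at hN
  have h4 : (N : ℝ) ^ B * |c N| ≤ 1 / (N : ℝ) ^ 2 := by
    rw [le_div_iff₀ (by positivity)]
    calc (N : ℝ) ^ B * |c N| * (N : ℝ) ^ 2 = (N : ℝ) ^ (B + 2) * |c N| := by rw [pow_add]; ring
      _ ≤ 1 := hN.le
  calc ((N : ℝ) + 1) ^ B * |c N| ≤ 2 ^ B * (N : ℝ) ^ B * |c N| :=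
        mul_le_mul_of_nonneg_right h3 (abs_nonneg _)
    _ = 2 ^ B * ((N : ℝ) ^ B * |c N|) := by ring
    _ ≤ 2 ^ B * (1 / (N : ℝ) ^ 2) := mul_le_mul_of_nonneg_left h4 (by positivity)

/-- The square root of a rapidly decreasing sequence. -/
theorem CC_sqrt {a : ℕ → ℝ} (ha : Rapid a) : Rapid fun n => √|a n| := by
  intro B
  have h1 := (ha (2 * B)).abs
  rw [abs_zero] at h1
  have h2 := (Real.continuous_sqrt.tendsto 0).comp h1
  rw [Real.sqrt_zero] at h2
  refine h2.congr fun N => ?_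
  rw [Function.comp_apply, abs_mul, abs_of_nonneg (by positivity : (0 : ℝ) ≤ (N : ℝ) ^ (2 * B)),
    Real.sqrt_mul (by positivity), pow_mul', Real.sqrt_sq (by positivity)]

/-- Shifted power. -/
theorem CC_summable {b : ℕ → ℝ} (hb : Rapid b) (hb0 : ∀ n, 0 ≤ b n) (K : ℕ) :
    Summable fun n : ℕ => ((n : ℝ) + 2) ^ K * b n := by
  have h1 := (hb.summable K).mul_left ((2 : ℝ) ^ K)
  refine Summable.of_nonneg_of_le (fun n => mul_nonneg (by positivity) (hb0 n)) (fun n => ?_) h1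
  rw [abs_of_nonneg (hb0 n), ← mul_assoc, ← mul_pow]
  refine mul_le_mul_of_nonneg_right (pow_le_pow_left₀ (by positivity) ?_ K) (hb0 n)
  have : (0 : ℝ) ≤ n := Nat.cast_nonneg n
  linarith

/-- Tail sums. -/
noncomputable def CC_s (b : ℕ → ℝ) (R : ℕ) : ℝ :=
  ∑' n : ℕ, if R ≤ (n + 2) ^ 3 then b n else 0

theorem CC_s_summable {b : ℕ → ℝ} (hb : Rapid b) (hb0 : ∀ n, 0 ≤ b n) (R : ℕ) :
    Summable fun n : ℕ => if R ≤ (n + 2) ^ 3 then b n else 0 := by
  have h1 := CC_summable hb hb0 0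
  simp only [pow_zero, one_mul] at h1
  refine Summable.of_nonneg_of_le (fun n => ?_) (fun n => ?_) h1
  · split_ifs
    · exact hb0 n
    · exact le_rfl
  · split_ifs
    · exact le_rfl
    · exact hb0 n

theorem CC_s_nonneg {b : ℕ → ℝ} (hb0 : ∀ n, 0 ≤ b n) (R : ℕ) : 0 ≤ CC_s b R := by
  refine tsum_nonneg fun n => ?_
  split_ifs
  · exact hb0 n
  · exact le_rfl

theorem CC_s_anti {b : ℕ → ℝ} (hb : Rapid b) (hb0 : ∀ n, 0 ≤ b n) : Antitone (CC_s b) := by
  intro R R' hR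
  refine (CC_s_summable hb hb0 R').tsum_le_tsum (fun n => ?_) (CC_s_summable hb hb0 R)
  by_cases h : R' ≤ (n + 2) ^ 3
  · rw [if_pos h, if_pos (hR.trans h)]
  · rw [if_neg h]
    split_ifs
    · exact hb0 n
    · exact le_rfl

theorem CC_s_ge {b : ℕ → ℝ} (hb : Rapid b) (hb0 : ∀ n, 0 ≤ b n) {R n : ℕ} (h : R ≤ (n + 2) ^ 3) :
    b n ≤ CC_s b R := by
  have h1 := (CC_s_summable hb hb0 R).le_tsum n (fun j _ => by
    split_ifs
    · exact hb0 j
    · exact le_rfl)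
  rw [if_pos h] at h1
  exact h1

theorem CC_s_rapid {b : ℕ → ℝ} (hb : Rapid b) (hb0 : ∀ n, 0 ≤ b n) : Rapid (CC_s b) := by
  intro B
  have hsum := CC_summable hb hb0 (3 * (B + 1))
  set K := ∑' n : ℕ, ((n : ℝ) + 2) ^ (3 * (B + 1)) * b n with hK
  have h1 : ∀ R : ℕ, (R : ℝ) ^ (B + 1) * CC_s b R ≤ K := by
    intro R
    unfold CC_s
    rw [← tsum_mul_left, hK]
    refine ((CC_s_summable hb hb0 R).mul_left _).tsum_le_tsum (fun n => ?_) hsum
    split_ifs with h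
    · refine mul_le_mul_of_nonneg_right ?_ (hb0 n)
      rw [pow_mul]
      refine pow_le_pow_left₀ (by positivity) ?_ (B + 1)
      exact_mod_cast h
    · rw [mul_zero]
      exact mul_nonneg (by positivity) (hb0 n)
  have h2 : Tendsto (fun R : ℕ => K / (R : ℝ)) atTop (𝓝 0) :=
    tendsto_const_nhds.div_atTop tendsto_natCast_atTop_atTop
  refine squeeze_zero' (Eventually.of_forall fun R =>
    mul_nonneg (by positivity) (CC_s_nonneg hb0 R)) ?_ h2
  filter_upwards [eventually_ge_atTop 1] with R hR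
  have hR' : (0 : ℝ) < R := by exact_mod_cast hR
  rw [le_div_iff₀ hR']
  calc (R : ℝ) ^ B * CC_s b R * R = (R : ℝ) ^ (B + 1) * CC_s b R := by rw [pow_succ]; ring
    _ ≤ K := h1 R

theorem exists_c {a : ℕ → ℝ} (ha : Rapid a) :
    ∃ c : ℕ → ℝ, Cs c ∧ ∀ A B : ℕ, ∀ᶠ n : ℕ in atTop, a n * ((n : ℝ) + 1) ^ B ≤ c (A * (n + 2) ^ 2) := by
  set b : ℕ → ℝ := fun n => √|a n| with hb
  have hb0 : ∀ n, 0 ≤ b n := fun n => Real.sqrt_nonneg _
  have hbr : Rapid b := CC_sqrt ha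
  refine ⟨fun R => min 1 (Real.exp (-(R : ℝ)) + CC_s b R), ⟨?_, ?_, ?_, ?_⟩, ?_⟩
  · intro R
    exact lt_min one_pos (add_pos_of_pos_of_nonneg (Real.exp_pos _) (CC_s_nonneg hb0 R))
  · intro R
    exact min_le_left _ _
  · intro R R' h
    refine min_le_min le_rfl (add_le_add ?_ (CC_s_anti hbr hb0 h))
    rw [Real.exp_le_exp, neg_le_neg_iff]
    exact_mod_cast h
  · intro B
    have h1 : Tendsto (fun R : ℕ => (R : ℝ) ^ B * Real.exp (-(R : ℝ))) atTop (𝓝 0) :=
      (Real.tendsto_pow_mul_exp_neg_atTop_nhds_zero B).comp tendsto_natCast_atTop_atTop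
    have h2 := h1.add (CC_s_rapid hbr hb0 B)
    rw [add_zero] at h2
    refine squeeze_zero (fun R => mul_nonneg (by positivity)
      (le_min zero_le_one (add_nonneg (Real.exp_pos _).le (CC_s_nonneg hb0 R)))) (fun R => ?_) h2
    rw [← mul_add]
    exact mul_le_mul_of_nonneg_left (min_le_right _ _) (by positivity)
  · intro A B
    have h1 : Tendsto (fun n : ℕ => ((n : ℝ) + 1) ^ B * b n) atTop (𝓝 0) := by
      have h2 := (hbr.summable B).tendsto_atTop_zero
      refine h2.congr fun n => ?_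
      rw [abs_of_nonneg (hb0 n)]
    have h3 : Tendsto b atTop (𝓝 0) := by
      have := hbr 0
      simpa using this
    filter_upwards [h1.eventually_lt_const one_pos, h3.eventually_lt_const one_pos,
      eventually_ge_atTop A] with n hn1 hn2 hnA
    have h4 : a n ≤ b n * b n := by
      rw [hb]
      change a n ≤ √|a n| * √|a n|
      rw [Real.mul_self_sqrt (abs_nonneg _)]
      exact le_abs_self _
    have h5 : a n * ((n : ℝ) + 1) ^ B ≤ b n := by
      calc a n * ((n : ℝ) + 1) ^ B ≤ b n * b n * ((n : ℝ) + 1) ^ B :=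
            mul_le_mul_of_nonneg_right h4 (by positivity)
        _ = b n * (((n : ℝ) + 1) ^ B * b n) := by ring
        _ ≤ b n * 1 := mul_le_mul_of_nonneg_left hn1.le (hb0 n)
        _ = b n := mul_one _
    refine le_min (h5.trans hn2.le) (h5.trans ?_)
    have h6 : A * (n + 2) ^ 2 ≤ (n + 2) ^ 3 := by
      calc A * (n + 2) ^ 2 ≤ (n + 2) * (n + 2) ^ 2 := Nat.mul_le_mul_right _ (by omega)
        _ = (n + 2) ^ 3 := by ring
    have h7 := CC_s_ge hbr hb0 h6
    have h8 := Real.exp_pos (-((A * (n + 2) ^ 2 : ℕ) : ℝ))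
    linarith

end BGS
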