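import Mathlib

/-!
Repulsion: the measure theory. A real function with bounded slope and second differences bounded below has few kinks; the
product measure on `[0,1]^ℕ`; the estimate of the measure of the bad set; almost every point.
-/

set_option autoImplicit false

namespace Pool.BGR

open MeasureTheory Set Filter Topology

open scoped unitInterval ENNReal

/-! ### one real variable -/

/-- **Kinks are rare.** `F` is `L`-Lipschitz, its second differences with step `t` are `≥ -C t²` on `[t, 1-t]`. Then the set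
of the points of `[0,1]` for which the second difference is at least `θ` (or which are within `t` of the end points) is
small. -/
theorem kink_meas (F : ℝ → ℝ) (L C t θ : ℝ) (hL : ∀ x y, |F x - F y| ≤ L * |x - y|) (hC : 0 ≤ C)
    (ht : 0 < t) (ht' : t ≤ 1 / 2) (hθ : 0 < θ)
    (hc : ∀ s, t ≤ s → s ≤ 1 - t → -(C * t ^ 2) ≤ F (s + t) + F (s - t) - 2 * F s) :
    volume {s : ℝ | s ∈ Icc (0 : ℝ) 1 ∧
      (t ≤ s → s ≤ 1 - t → θ ≤ F (s + t) + F (s - t) - 2 * F s)} ≤
      ENNReal.ofReal (2 * t + (2 * L + C) * t ^ 2 / θ) := by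
  have hL0 : 0 ≤ L := by
    have h := (abs_nonneg _).trans (hL 1 0)
    rw [sub_zero, abs_one, mul_one] at h
    exact h
  have hFc : Continuous F := by
    have h1 : LipschitzWith (Real.toNNReal L) F := by
      refine LipschitzWith.of_dist_le_mul fun x y => ?_
      rw [Real.dist_eq, Real.dist_eq, Real.coe_toNNReal _ hL0]
      exact hL x y
    exact h1.continuous
  set G : ℝ → ℝ := fun s => F (s + t) - F s with hG
  have hGc : Continuous G := by
    rw [hG]
    fun_prop
  have hGb : ∀ s, |G s| ≤ L * t := by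
    intro s
    have h1 := hL (s + t) s
    rw [add_sub_cancel_left, abs_of_pos ht] at h1
    exact h1
  set Dd : ℝ → ℝ := fun s => F (s + t) + F (s - t) - 2 * F s with hDd
  have hDG : ∀ s, Dd s = G s - G (s - t) := by
    intro s
    rw [hDd, hG]
    simp only [sub_add_cancel]
    ring
  have hDc : Continuous Dd := by
    rw [hDd]
    fun_prop
  have hint : ∫ s in t..(1 - t), Dd s ≤ 2 * L * t ^ 2 := by
    have h1 : ∫ s in t..(1 - t), Dd s = (∫ s in t..(1 - t), G s) - ∫ s in t..(1 - t), G (s - t) := by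
      have h2 : Continuous fun s => G (s - t) := hGc.comp (continuous_sub_right t)
      rw [← intervalIntegral.integral_sub (hGc.intervalIntegrable _ _)
        (h2.intervalIntegrable _ _)]
      refine intervalIntegral.integral_congr fun s _ => ?_
      exact hDG s
    rw [h1, intervalIntegral.integral_comp_sub_right, sub_self,
      intervalIntegral.integral_interval_sub_interval_comm (hGc.intervalIntegrable _ _)
      (hGc.intervalIntegrable _ _) (hGc.intervalIntegrable _ _)]
    have h2 : |∫ s in t..0, G s| ≤ L * t * t := by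
      have h := intervalIntegral.norm_integral_le_of_norm_le_const (a := t) (b := 0) (f := G)
        (C := L * t) (fun s _ => by rw [Real.norm_eq_abs]; exact hGb s)
      rw [Real.norm_eq_abs, zero_sub, abs_neg, abs_of_pos ht] at h
      exact h
    have h3 : |∫ s in (1 - t)..(1 - t - t), G s| ≤ L * t * t := by
      have h := intervalIntegral.norm_integral_le_of_norm_le_const (a := 1 - t) (b := 1 - t - t)
        (f := G) (C := L * t) (fun s _ => by rw [Real.norm_eq_abs]; exact hGb s)
      rw [Real.norm_eq_abs, show 1 - t - t - (1 - t) = -t by ring, abs_neg, abs_of_pos ht] at h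
      exact h
    have h4 := (abs_le.1 h2).2
    have h5 := (abs_le.1 h3).1
    nlinarith
  -- the set in the middle
  set M : Set ℝ := {s | s ∈ Icc t (1 - t) ∧ θ ≤ Dd s} with hM
  have hMm : MeasurableSet M := by
    rw [hM]
    exact (measurableSet_Icc).inter (measurableSet_le measurable_const hDc.measurable)
  have hMv : volume M ≤ ENNReal.ofReal ((2 * L + C) * t ^ 2 / θ) := by
    have hMf : volume M ≠ ∞ := by
      refine ne_top_of_le_ne_top (b := volume (Icc t (1 - t))) ?_ (measure_mono fun s hs => hs.1)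
      rw [Real.volume_Icc]
      exact ENNReal.ofReal_ne_top
    have h1 : (volume M).toReal * θ ≤ (2 * L + C) * t ^ 2 := by
      have h2 : ∫ s in M, θ = (volume M).toReal * θ := by
        rw [setIntegral_const, smul_eq_mul]
        rfl
      have h3 : ∫ s in M, θ ≤ ∫ s in M, (Dd s + C * t ^ 2) := by
        refine setIntegral_mono_on ?_ ?_ hMm ?_
        · exact integrableOn_const (hs := hMf)
        · exact ((hDc.add continuous_const).integrableOn_Icc (a := t) (b := 1 - t)).mono_set
            fun s hs => hs.1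
        · intro s hs
          have := hs.2
          have h4 : 0 ≤ C * t ^ 2 := by positivity
          linarith
      have h4 : ∫ s in M, (Dd s + C * t ^ 2) ≤ ∫ s in Icc t (1 - t), (Dd s + C * t ^ 2) := by
        refine setIntegral_mono_set ((hDc.add continuous_const).integrableOn_Icc) ?_ ?_
        · refine (ae_restrict_iff' measurableSet_Icc).2 (Eventually.of_forall fun s hs => ?_)
          have := hc s hs.1 hs.2
          simp only [Pi.zero_apply]
          linarith
        · exact LE.le.eventuallyLE fun s hs => hs.1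
      have h5 : ∫ s in Icc t (1 - t), (Dd s + C * t ^ 2) ≤ (2 * L + C) * t ^ 2 := by
        rw [integral_Icc_eq_integral_Ioc, ← intervalIntegral.integral_of_le (by linarith),
          intervalIntegral.integral_add (hDc.intervalIntegrable _ _) intervalIntegrable_const,
          intervalIntegral.integral_const, smul_eq_mul]
        have h6 : (1 - t - t) * (C * t ^ 2) ≤ 1 * (C * t ^ 2) :=
          mul_le_mul_of_nonneg_right (by linarith) (by positivity)
        nlinarith
      linarith
    rw [← ENNReal.ofReal_toReal hMf]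
    refine ENNReal.ofReal_le_ofReal ?_
    rw [le_div_iff₀ hθ]
    exact h1
  have hsub : {s : ℝ | s ∈ Icc (0 : ℝ) 1 ∧
      (t ≤ s → s ≤ 1 - t → θ ≤ F (s + t) + F (s - t) - 2 * F s)} ⊆
      Icc 0 t ∪ Icc (1 - t) 1 ∪ M := by
    rintro s ⟨⟨hs0, hs1⟩, hs⟩
    by_cases h1 : s ≤ t
    · exact Or.inl (Or.inl ⟨hs0, h1⟩)
    · by_cases h2 : 1 - t ≤ s
      · exact Or.inl (Or.inr ⟨h2, hs1⟩)
      · push Not at h1 h2
        exact Or.inr ⟨⟨h1.le, h2.le⟩, hs h1.le h2.le⟩
  have hpos : 0 ≤ (2 * L + C) * t ^ 2 / θ := by positivity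
  calc volume {s : ℝ | s ∈ Icc (0 : ℝ) 1 ∧
      (t ≤ s → s ≤ 1 - t → θ ≤ F (s + t) + F (s - t) - 2 * F s)}
      ≤ volume (Icc 0 t ∪ Icc (1 - t) 1 ∪ M) := measure_mono hsub
    _ ≤ volume (Icc 0 t) + volume (Icc (1 - t) 1) + volume M :=
        (measure_union_le _ _).trans (add_le_add_left (measure_union_le _ _) _)
    _ ≤ ENNReal.ofReal t + ENNReal.ofReal t + ENNReal.ofReal ((2 * L + C) * t ^ 2 / θ) := by
        refine add_le_add (add_le_add ?_ ?_) hMv
        · rw [Real.volume_Icc, sub_zero]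
        · rw [Real.volume_Icc, sub_sub_cancel]
    _ = ENNReal.ofReal (2 * t + (2 * L + C) * t ^ 2 / θ) := by
        rw [← ENNReal.ofReal_add ht.le ht.le, ← ENNReal.ofReal_add (by linarith) hpos]
        congr 1
        ring

/-! ### the product measure -/

variable {κ : Type}

/-- The product measure on `[0,1]^κ`. -/
noncomputable def PM (κ : Type) : Measure (κ → I) :=
  Measure.infinitePi (fun _ : κ => (volume : Measure I))

instance : IsProbabilityMeasure (PM κ) := by
  unfold PM
  infer_instance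

variable [DecidableEq κ]

/-- Change one coordinate. -/
def upI (ξ : κ → I) (i : κ) (s : I) : κ → I := Function.update ξ i s

theorem measurable_upI (i : κ) : Measurable (fun p : (κ → I) × I => upI p.1 i p.2) := by
  refine measurable_pi_lambda _ fun j => ?_
  by_cases hj : j = i
  · subst hj
    have h1 : (fun p : (κ → I) × I => upI p.1 j p.2 j) = fun p => p.2 := by
      funext p
      exact Function.update_self _ _ _
    rw [h1]
    exact measurable_snd
  · have h1 : (fun p : (κ → I) × I => upI p.1 i p.2 j) = fun p => p.1 j := by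
      funext p
      exact Function.update_of_ne hj _ _
    rw [h1]
    exact (measurable_pi_apply j).comp measurable_fst

theorem map_upI (i : κ) :
    ((PM κ).prod (volume : Measure I)).map (fun p : (κ → I) × I => upI p.1 i p.2) = PM κ := by
  unfold PM
  refine Measure.eq_infinitePi _ fun s t ht => ?_
  rw [Measure.map_apply (measurable_upI i) (MeasurableSet.pi s.countable_toSet fun j _ => ht j)]
  by_cases hi : i ∈ s
  · have h1 : (fun p : (κ → I) × I => upI p.1 i p.2) ⁻¹' (Set.pi s t) =
        (Set.pi (s.erase i) t) ×ˢ (t i) := by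
      ext ⟨ξ, u⟩
      simp only [mem_preimage, Set.mem_pi, Finset.mem_coe, mem_prod, Finset.mem_erase]
      constructor
      · intro h
        constructor
        · rintro j ⟨hj, hjs⟩
          have h2 := h j hjs
          rw [upI, Function.update_of_ne hj] at h2
          exact h2
        · have h2 := h i hi
          rw [upI, Function.update_self] at h2
          exact h2
      · rintro ⟨h2, h3⟩ j hj
        by_cases hji : j = i
        · subst hji
          rw [upI, Function.update_self]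
          exact h3
        · rw [upI, Function.update_of_ne hji]
          exact h2 j ⟨hji, hj⟩
    rw [h1, Measure.prod_prod, Measure.infinitePi_pi _ (fun j _ => ht j),
      Finset.prod_erase_mul _ _ hi]
  · have h1 : (fun p : (κ → I) × I => upI p.1 i p.2) ⁻¹' (Set.pi s t) =
        (Set.pi s t) ×ˢ univ := by
      ext ⟨ξ, u⟩
      simp only [mem_preimage, Set.mem_pi, Finset.mem_coe, mem_prod, mem_univ, and_true]
      refine forall_congr' fun j => forall_congr' fun hj => ?_
      have hji : j ≠ i := fun h => hi (h ▸ hj)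
      rw [upI, Function.update_of_ne hji]
    rw [h1, Measure.prod_prod, Measure.infinitePi_pi _ (fun j _ => ht j), measure_univ, mul_one]

/-- The slices in one coordinate. -/
theorem slice_le {A : Set (κ → I)} (hA : MeasurableSet A) (i : κ) (c : ℝ≥0∞)
    (h : ∀ ξ, (volume : Measure I) {s | upI ξ i s ∈ A} ≤ c) : PM κ A ≤ c := by
  have h1 : PM κ A = ((PM κ).prod (volume : Measure I)) ((fun p : (κ → I) × I => upI p.1 i p.2) ⁻¹' A) := by
    conv_lhs => rw [← map_upI i]
    exact Measure.map_apply (measurable_upI i) hA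
  rw [h1, Measure.prod_apply (measurable_upI i hA)]
  calc ∫⁻ ξ, volume (Prod.mk ξ ⁻¹' ((fun p : (κ → I) × I => upI p.1 i p.2) ⁻¹' A)) ∂(PM κ)
      ≤ ∫⁻ _, c ∂(PM κ) := lintegral_mono fun ξ => h ξ
    _ = c := by rw [lintegral_const, measure_univ, mul_one]

/-! ### the bad set -/

/-- The projection of a real number to the unit interval. -/
noncomputable def pj (x : ℝ) : I := projIcc 0 1 zero_le_one x

theorem pj_coe (s : I) : pj (s : ℝ) = s := projIcc_val zero_le_one s

theorem pj_of_mem {x : ℝ} (h : x ∈ Icc (0 : ℝ) 1) : ((pj x : I) : ℝ) = x := by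
  unfold pj
  rw [projIcc_of_mem zero_le_one h]

/-- The set of the parameters with a kink in the direction `i`. -/
def kinkSet (S : (κ → I) → ℝ) (i : κ) (t θ : ℝ) : Set (κ → I) :=
  {ξ | t ≤ (ξ i : ℝ) → (ξ i : ℝ) ≤ 1 - t →
    θ ≤ S (upI ξ i (pj (ξ i + t))) + S (upI ξ i (pj (ξ i - t))) - 2 * S ξ}

theorem measurableSet_kinkSet {S : (κ → I) → ℝ} (hS : Measurable S) (i : κ) (t θ : ℝ) :
    MeasurableSet (kinkSet S i t θ) := by
  have he : Measurable fun ξ : κ → I => ((ξ i : I) : ℝ) :=
    measurable_subtype_coe.comp (measurable_pi_apply i)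
  have hu : ∀ c : ℝ, Measurable fun ξ : κ → I => S (upI ξ i (pj (ξ i + c))) := by
    intro c
    have h1 : Measurable fun ξ : κ → I => pj ((ξ i : ℝ) + c) :=
      continuous_projIcc.measurable.comp (he.add_const c)
    exact hS.comp ((measurable_upI i).comp (measurable_id.prodMk h1))
  have h1 : MeasurableSet {ξ : κ → I | t ≤ (ξ i : ℝ)} := measurableSet_le measurable_const he
  have h2 : MeasurableSet {ξ : κ → I | (ξ i : ℝ) ≤ 1 - t} := measurableSet_le he measurable_const
  have h3 : MeasurableSet {ξ : κ → I | θ ≤ S (upI ξ i (pj (ξ i + t))) +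
      S (upI ξ i (pj (ξ i - t))) - 2 * S ξ} := by
    refine measurableSet_le measurable_const ?_
    have h4 := hu (-t)
    simp only [← sub_eq_add_neg] at h4
    exact ((hu t).add h4).sub (measurable_const.mul hS)
  have h4 : kinkSet S i t θ = {ξ : κ → I | t ≤ (ξ i : ℝ)}ᶜ ∪ ({ξ : κ → I | (ξ i : ℝ) ≤ 1 - t}ᶜ ∪
      {ξ : κ → I | θ ≤ S (upI ξ i (pj (ξ i + t))) + S (upI ξ i (pj (ξ i - t))) - 2 * S ξ}) := by
    ext ξ
    simp only [kinkSet, mem_ofPred_eq, mem_union, mem_compl_iff]
    tauto
  rw [h4]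
  exact h1.compl.union (h2.compl.union h3)

/-- **The measure of the set of the parameters with a kink in the direction `i`.** -/
theorem kinkSet_le {S : (κ → I) → ℝ} (hS : Measurable S) (i : κ) (L C t θ : ℝ)
    (hL : ∀ ξ (x y : I), |S (upI ξ i x) - S (upI ξ i y)| ≤ L * |(x : ℝ) - y|) (hC : 0 ≤ C)
    (ht : 0 < t) (ht' : t ≤ 1 / 2) (hθ : 0 < θ)
    (hc : ∀ ξ : κ → I, t ≤ (ξ i : ℝ) → (ξ i : ℝ) ≤ 1 - t →
      -(C * t ^ 2) ≤ S (upI ξ i (pj (ξ i + t))) + S (upI ξ i (pj (ξ i - t))) - 2 * S ξ) :
    PM κ (kinkSet S i t θ) ≤ ENNReal.ofReal (2 * t + (2 * L + C) * t ^ 2 / θ) := by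
  refine slice_le (measurableSet_kinkSet hS i t θ) i _ fun ξ => ?_
  set F : ℝ → ℝ := fun s => S (upI ξ i (pj s)) with hF
  have hL0 : 0 ≤ L := by
    have h := (abs_nonneg _).trans (hL ξ 1 0)
    simpa using h
  have hFL : ∀ x y, |F x - F y| ≤ L * |x - y| := by
    intro x y
    refine (hL ξ (pj x) (pj y)).trans (mul_le_mul_of_nonneg_left ?_ hL0)
    exact abs_projIcc_sub_projIcc zero_le_one
  have hup : ∀ (u v : I), upI (upI ξ i u) i v = upI ξ i v := by
    intro u v
    unfold upI
    exact Function.update_idem _ _ _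
  have hself : ∀ u : I, (upI ξ i u) i = u := fun u => Function.update_self _ _ _
  have h1 := kink_meas F L C t θ hFL hC ht ht' hθ (by
    intro s hs hs'
    have hm : s ∈ Icc (0 : ℝ) 1 := ⟨ht.le.trans hs, hs'.trans (by linarith)⟩
    have h2 := hc (upI ξ i (pj s))
    rw [hself, pj_of_mem hm, hup, hup] at h2
    exact h2 hs hs')
  refine le_trans ?_ h1
  rw [unitInterval.volume_apply]
  refine measure_mono ?_
  rintro _ ⟨s, hs, rfl⟩
  refine ⟨s.2, fun h2 h3 => ?_⟩
  have h4 : upI ξ i s ∈ kinkSet S i t θ := hs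
  simp only [kinkSet, mem_ofPred_eq, hself, hup] at h4
  have h5 := h4 h2 h3
  simp only [hF, pj_coe]
  exact h5

/-- **One level.** If every parameter of a set `B` has a kink in one of the directions of `J`, then `B` is small. -/
theorem bad_le {S : (κ → I) → ℝ} (hS : Measurable S) (J : Finset κ) (L C t θ : ℝ)
    (hL : ∀ i ∈ J, ∀ ξ (x y : I), |S (upI ξ i x) - S (upI ξ i y)| ≤ L * |(x : ℝ) - y|) (hC : 0 ≤ C)
    (ht : 0 < t) (ht' : t ≤ 1 / 2) (hθ : 0 < θ)
    (hc : ∀ i ∈ J, ∀ ξ : κ → I, t ≤ (ξ i : ℝ) → (ξ i : ℝ) ≤ 1 - t →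
      -(C * t ^ 2) ≤ S (upI ξ i (pj (ξ i + t))) + S (upI ξ i (pj (ξ i - t))) - 2 * S ξ)
    (B : Set (κ → I)) (hB : ∀ ξ ∈ B, ∃ i ∈ J, t ≤ (ξ i : ℝ) → (ξ i : ℝ) ≤ 1 - t →
      θ ≤ S (upI ξ i (pj (ξ i + t))) + S (upI ξ i (pj (ξ i - t))) - 2 * S ξ) :
    PM κ B ≤ ENNReal.ofReal (J.card * (2 * t + (2 * L + C) * t ^ 2 / θ)) := by
  have h1 : B ⊆ ⋃ i ∈ J, kinkSet S i t θ := by
    intro ξ hξ
    obtain ⟨i, hi, h⟩ := hB ξ hξ
    exact mem_iUnion₂.2 ⟨i, hi, h⟩
  calc PM κ B ≤ PM κ (⋃ i ∈ J, kinkSet S i t θ) := measure_mono h1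
    _ ≤ ∑ i ∈ J, PM κ (kinkSet S i t θ) := measure_biUnion_finset_le _ _
    _ ≤ ∑ _i ∈ J, ENNReal.ofReal (2 * t + (2 * L + C) * t ^ 2 / θ) :=
        Finset.sum_le_sum fun i hi => kinkSet_le hS i L C t θ (hL i hi) hC ht ht' hθ (hc i hi)
    _ = ENNReal.ofReal (J.card * (2 * t + (2 * L + C) * t ^ 2 / θ)) := by
        rw [Finset.sum_const, nsmul_eq_mul, ENNReal.ofReal_mul (Nat.cast_nonneg _),
          ENNReal.ofReal_natCast]

/-- **Almost every parameter.** Borel–Cantelli. -/
theorem ae_good (B : ℕ → Set (κ → I)) (b : ℕ → ℝ) (hb : Summable b) (n₀ : ℕ)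
    (hB : ∀ n, n₀ ≤ n → PM κ (B n) ≤ ENNReal.ofReal (b n)) :
    ∀ᵐ ξ ∂(PM κ), ∀ᶠ n in atTop, ξ ∉ B n := by
  have h1 : ∀ᵐ ξ ∂(PM κ), ∀ᶠ n in atTop, ξ ∉ B (n + n₀) := by
    refine ae_eventually_notMem ?_
    have h2 : ∑' n, PM κ (B (n + n₀)) ≤ ∑' n, ENNReal.ofReal |b (n + n₀)| :=
      ENNReal.tsum_le_tsum fun n => (hB (n + n₀) (Nat.le_add_left _ _)).trans
        (ENNReal.ofReal_le_ofReal (le_abs_self _))
    refine ne_top_of_le_ne_top ?_ h2
    have h3 : Summable fun n => |b (n + n₀)| := ((summable_nat_add_iff n₀).2 hb).abs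
    rw [← ENNReal.ofReal_tsum_of_nonneg (fun n => abs_nonneg _) h3]
    exact ENNReal.ofReal_ne_top
  filter_upwards [h1] with ξ hξ
  rw [eventually_atTop] at hξ ⊢
  obtain ⟨a, ha⟩ := hξ
  refine ⟨a + n₀, fun n hn => ?_⟩
  have h2 := ha (n - n₀) (by omega)
  rwa [Nat.sub_add_cancel (by omega)] at h2

end Pool.BGR
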