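import Pool.Agent.LibBGR.Defs
import Pool.Agent.LibBGR.Prod

/-! Level repulsion for almost every metric: random conformal factors. -/

open MeasureTheory Set Filter Topology
open scoped ContDiff ENNReal NNReal unitInterval

namespace BGS

open Pool.BGR (PM upI pj)

variable {Γ : Type} [Group Γ] [MulAction Γ Pl] {D : Set Pl}

/-- Indices of the bump functions: the scale and the square. -/
abbrev Dir : Type := ℕ × (ℤ × ℤ)

/-- Rapidly decreasing sequences. -/
def Rapid (c : ℕ → ℝ) : Prop := ∀ B : ℕ, Tendsto (fun N : ℕ => (N : ℝ) ^ B * c N) atTop (𝓝 0)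

/-- The coefficients of the random series. -/
structure Cs (c : ℕ → ℝ) : Prop where
  pos : ∀ R, 0 < c R
  le_one : ∀ R, c R ≤ 1
  anti : Antitone c
  rapid : Rapid c

/-- The part of the scale `R`. -/
noncomputable def phiR (Γ : Type) [Group Γ] [MulAction Γ Pl] (L : ℕ) (ξ : Dir → I) (R : ℕ)
    (z : Pl) : ℝ :=
  ∑ p ∈ grid L (R + 1), (ξ (R, p) : ℝ) * per Γ (bmp (R + 1) p) z

/-- The random conformal exponent. -/
noncomputable def phi (Γ : Type) [Group Γ] [MulAction Γ Pl] (L : ℕ) (c : ℕ → ℝ) (ξ : Dir → I)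
    (z : Pl) : ℝ :=
  ∑' R : ℕ, c R * phiR Γ L ξ R z

/-- The exponential of a function on the surface. -/
noncomputable def expT (φ : TestS Γ) : TestS Γ :=
  ⟨fun z => Real.exp (φ.1 z), Real.contDiff_exp.comp φ.2.1, fun γ z => by
    change Real.exp (φ.1 (γ • z)) = Real.exp (φ.1 z)
    rw [φ.2.2 γ z]⟩

theorem expT_apply (φ : TestS Γ) (z : Pl) : (expT φ).1 z = Real.exp (φ.1 z) := rfl

/-- The reciprocals of the eigenvalues of the metric `e^φ m`. -/
noncomputable def muE (hX : Surface Γ D) (m : Mt Γ D) (φ : TestS Γ) (k : ℕ) : ℝ :=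
  mu (aF hX m) (bF hX m (expT φ)) k

/-- Ky Fan sums. -/
noncomputable def SE (hX : Surface Γ D) (m : Mt Γ D) (n : ℕ) (φ : TestS Γ) : ℝ :=
  ∑ k ∈ Finset.range (n + 1), muE hX m φ k

end BGS
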