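import Pool.Agent.LibBGR.Defs
import Pool.Agent.LibBGR.Mul

/-! Near-diagonal frames (row FRM). -/

open MeasureTheory Set Filter Topology
open scoped ContDiff ENNReal NNReal

namespace BGS

section Diag

variable {V : Type} [AddCommGroup V] [Module ℝ V] [FiniteDimensional ℝ V]

/-- Simultaneous diagonalisation of a positive definite form and a symmetric form. -/
theorem Frm_diag (A B : LinearMap.BilinForm ℝ V) (hA : ∀ u v, A u v = A v u)
    (hB : ∀ u v, B u v = B v u) (hp : ∀ u, u ≠ 0 → 0 < A u u) (n : ℕ)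
    (hn : Module.finrank ℝ V = n) :
    ∃ (f : Fin n → V) (β : Fin n → ℝ), Antitone β ∧
      (∀ i j, A (f i) (f j) = if i = j then 1 else 0) ∧
      (∀ i j, B (f i) (f j) = if i = j then β i else 0) ∧
      (∀ u, A u u = ∑ j, A (f j) u ^ 2) ∧ (∀ u, B u u = ∑ j, β j * A (f j) u ^ 2) := by
  let core : InnerProductSpace.Core ℝ V :=
    { inner := fun u v => A u v
      conj_inner_symm := fun x y => by simp [hA x y]
      re_inner_nonneg := fun x => by
        by_cases hx : x = 0
        · simp [hx]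
        · exact (hp x hx).le
      add_left := fun x y z => by simp
      smul_left := fun x y r => by simp
      definite := fun x hx => by
        by_contra h
        exact (hp x h).ne' hx }
  let _i1 : NormedAddCommGroup V := core.toNormedAddCommGroup
  let _i2 : InnerProductSpace ℝ V := InnerProductSpace.ofCore core.toCore
  have hin : ∀ u v : V, inner ℝ u v = A u v := fun u v => rfl
  have hnd : A.Nondegenerate := by
    constructor
    · intro x hx
      by_contra h
      exact (hp x h).ne' (hx x)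
    · intro x hx
      by_contra h
      exact (hp x h).ne' (hx x)
  let T : V →ₗ[ℝ] V := (A.toDual hnd).symm.toLinearMap ∘ₗ B
  have hT : ∀ x y, A (T x) y = B x y := fun x y =>
    LinearMap.BilinForm.apply_toDual_symm_apply (hB := hnd) (B x) y
  have hsym : T.IsSymmetric := by
    intro x y
    rw [hin, hin, hT, hA x (T y), hT, hB]
  have hfA : ∀ i j, A (hsym.eigenvectorBasis hn i) (hsym.eigenvectorBasis hn j) =
      if i = j then 1 else 0 := by
    intro i j
    rw [← hin, orthonormal_iff_ite.mp (hsym.eigenvectorBasis hn).orthonormal i j]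
  have hTf : ∀ i, T (hsym.eigenvectorBasis hn i) =
      hsym.eigenvalues hn i • hsym.eigenvectorBasis hn i := by
    intro i
    have := hsym.apply_eigenvectorBasis hn i
    exact this
  have hexp : ∀ x y, ∑ i, A x (hsym.eigenvectorBasis hn i) * A (hsym.eigenvectorBasis hn i) y =
      A x y := fun x y => (hsym.eigenvectorBasis hn).sum_inner_mul_inner x y
  refine ⟨fun i => hsym.eigenvectorBasis hn i, fun i => hsym.eigenvalues hn i,
    hsym.eigenvalues_antitone hn, hfA, ?_, ?_, ?_⟩
  · intro i j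
    rw [← hT, hTf, map_smul, LinearMap.smul_apply, hfA, smul_eq_mul]
    split_ifs <;> simp
  · intro u
    rw [← hexp u u]
    refine Finset.sum_congr rfl fun i _ => ?_
    rw [hA u, sq]
  · intro u
    rw [← hT, ← hexp (T u) u]
    refine Finset.sum_congr rfl fun i _ => ?_
    rw [hT, hB, ← hT, hTf, map_smul, LinearMap.smul_apply, smul_eq_mul, sq]
    ring

end Diag

section Abstract

variable {E : Type} [AddCommGroup E] [Module ℝ E] {a b b' : LinearMap.BilinForm ℝ E} {e : E}

/-- A good test space for the level `k`. -/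
theorem Frm_space {k : ℕ} (h1 : lam a b k ≠ 0) (hf : lam a b k ≠ ⊤) {ε : ℝ} (hε : 0 < ε) :
    ∃ (c : ℝ) (V : Submodule ℝ E), 0 < c ∧ Module.finrank ℝ V = k + 1 ∧
      (∀ u ∈ V, a u u ≤ c * b u u) ∧ ((lam a b k)⁻¹).toReal - ε ≤ 1 / c := by
  obtain ⟨t, ht0, ht1, ht2⟩ : ∃ t : ℝ, 0 < t ∧ lam a b k < ENNReal.ofReal t ∧
      ((lam a b k)⁻¹).toReal - ε ≤ 1 / t := by
    have hL : 0 < (lam a b k).toReal := ENNReal.toReal_pos h1 hf
    rcases le_or_gt (((lam a b k)⁻¹).toReal - ε) 0 with h | h
    · refine ⟨(lam a b k).toReal + 1, by positivity, ?_, ?_⟩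
      · rw [ENNReal.lt_ofReal_iff_toReal_lt hf]
        linarith
      · exact h.trans (by positivity)
    · refine ⟨1 / (((lam a b k)⁻¹).toReal - ε), by positivity, ?_, ?_⟩
      · rw [ENNReal.lt_ofReal_iff_toReal_lt hf]
        rw [ENNReal.toReal_inv] at h ⊢
        rw [lt_div_iff₀ h, mul_sub, mul_inv_cancel₀ hL.ne']
        nlinarith [mul_pos hL hε]
      · rw [one_div_one_div]
  rw [lam, iInf_lt_iff] at ht1
  obtain ⟨c, hc⟩ := ht1
  rw [iInf_lt_iff] at hc
  obtain ⟨⟨V, hV1, hV2⟩, hc⟩ := hc
  have hct : (c : ℝ) < t := by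
    rw [← ENNReal.ofReal_coe_nnreal, ENNReal.ofReal_lt_ofReal_iff ht0] at hc
    exact hc
  have hc0 : 0 < (c : ℝ) := by
    rcases (NNReal.coe_nonneg c).eq_or_lt with h | h
    · exfalso
      refine h1 (le_antisymm ?_ bot_le)
      have : lam a b k ≤ (c : ℝ≥0∞) := iInf₂_le c ⟨V, hV1, hV2⟩
      have h0 : c = 0 := NNReal.coe_eq_zero.mp h.symm
      rw [h0] at this
      simpa using this
    · exact h
  exact ⟨c, V, hc0, hV1, hV2, ht2.trans (one_div_le_one_div_of_le hc0 hct.le)⟩

/-- Upper bound for the form on an `a`-orthonormal, `b`-orthogonal frame. -/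
theorem Frm_upper (P : IsPair a b e) {m : ℕ} (h1 : lam a b (m + 1) ≠ 0) (f : Fin (m + 1) → E)
    {β : ℝ} (hβ : 0 < β) (hfa : ∀ i j, a (f i) (f j) = if i = j then 1 else 0)
    (hfe : ∀ i, b (f i) e = 0) (hfb : ∀ i j, i ≠ j → b (f i) (f j) = 0)
    (hfβ : ∀ i, β ≤ b (f i) (f i)) : β ≤ mu a b m := by
  let Φ : (ℝ × (Fin (m + 1) → ℝ)) →ₗ[ℝ] E :=
    { toFun := fun x => x.1 • e + ∑ j, x.2 j • f j
      map_add' := by
        intro x y
        simp only [Prod.fst_add, Prod.snd_add, Pi.add_apply, add_smul, Finset.sum_add_distrib]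
        abel
      map_smul' := by
        intro c x
        simp only [Prod.smul_fst, Prod.smul_snd, Pi.smul_apply, smul_eq_mul, mul_smul,
          RingHom.id_apply, smul_add, Finset.smul_sum] }
  have hae : ∀ u, a u e = 0 := fun u => by rw [P.asym, P.ae]
  have hΦf : ∀ x l, a (f l) (Φ x) = x.2 l := by
    intro x l
    change a (f l) (x.1 • e + ∑ j, x.2 j • f j) = x.2 l
    rw [map_add, map_smul, hae, smul_zero, zero_add, map_sum]
    simp [hfa]
  have hΦa : ∀ x, a (Φ x) (Φ x) = ∑ j, x.2 j ^ 2 := by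
    intro x
    have h0 : a (Φ x) = x.1 • a e + ∑ j, x.2 j • a (f j) := by
      change a (x.1 • e + ∑ j, x.2 j • f j) = _
      rw [map_add, map_smul, map_sum]
      simp only [map_smul]
    rw [h0, LinearMap.add_apply, LinearMap.smul_apply, P.ae, smul_zero, zero_add,
      LinearMap.sum_apply]
    refine Finset.sum_congr rfl fun j _ => ?_
    rw [LinearMap.smul_apply, hΦf, smul_eq_mul, sq]
  have hΦbe : ∀ x, b e (Φ x) = x.1 * b e e := by
    intro x
    change b e (x.1 • e + ∑ j, x.2 j • f j) = _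
    rw [map_add, map_smul, map_sum, smul_eq_mul]
    have : ∀ j, b e (x.2 j • f j) = 0 := by
      intro j
      rw [map_smul, P.bsym, hfe, smul_zero]
    simp [this]
  have hΦbf : ∀ x l, b (f l) (Φ x) = x.2 l * b (f l) (f l) := by
    intro x l
    change b (f l) (x.1 • e + ∑ j, x.2 j • f j) = _
    rw [map_add, map_smul, hfe, smul_zero, zero_add, map_sum, Finset.sum_eq_single l]
    · rw [map_smul, smul_eq_mul]
    · intro j _ hj
      rw [map_smul, hfb l j (Ne.symm hj), smul_zero]
    · intro h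
      exact absurd (Finset.mem_univ _) h
  have hΦb : ∀ x, b (Φ x) (Φ x) = x.1 ^ 2 * b e e + ∑ j, x.2 j ^ 2 * b (f j) (f j) := by
    intro x
    have h0 : b (Φ x) = x.1 • b e + ∑ j, x.2 j • b (f j) := by
      change b (x.1 • e + ∑ j, x.2 j • f j) = _
      rw [map_add, map_smul, map_sum]
      simp only [map_smul]
    rw [h0, LinearMap.add_apply, LinearMap.smul_apply, hΦbe, LinearMap.sum_apply, smul_eq_mul]
    congr 1
    · ring
    · refine Finset.sum_congr rfl fun j _ => ?_
      rw [LinearMap.smul_apply, hΦbf, smul_eq_mul]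
      ring
  have hinj : Function.Injective Φ := by
    rw [injective_iff_map_eq_zero]
    intro x hx
    have h2 : x.2 = 0 := by
      funext l
      rw [← hΦf x l, hx, map_zero]
      rfl
    have h3 : x.1 * b e e = 0 := by rw [← hΦbe x, hx, map_zero]
    have h4 : x.1 = 0 := by
      rcases mul_eq_zero.mp h3 with h | h
      · exact h
      · exact absurd h (P.bpos e P.ne).ne'
    exact Prod.ext h4 h2
  have hle : lam a b (m + 1) ≤ ENNReal.ofReal (1 / β) := by
    have hex : ∃ V : Submodule ℝ E, Module.finrank ℝ V = (m + 1) + 1 ∧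
        ∀ u ∈ V, a u u ≤ (Real.toNNReal (1 / β) : ℝ) * b u u := by
      refine ⟨LinearMap.range Φ, ?_, ?_⟩
      · rw [LinearMap.finrank_range_of_inj hinj, Module.finrank_prod, Module.finrank_self,
          Module.finrank_fin_fun]
        ring
      · rintro _ ⟨x, rfl⟩
        rw [hΦa, hΦb, Real.coe_toNNReal _ (by positivity)]
        have h3 : ∑ j, x.2 j ^ 2 * β ≤ ∑ j, x.2 j ^ 2 * b (f j) (f j) :=
          Finset.sum_le_sum fun j _ => mul_le_mul_of_nonneg_left (hfβ j) (sq_nonneg _)
        have h4 : 0 ≤ x.1 ^ 2 * b e e := mul_nonneg (sq_nonneg _) (P.bpos e P.ne).le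
        rw [← Finset.sum_mul] at h3
        rw [div_mul_eq_mul_div, le_div_iff₀ hβ]
        linarith
    exact iInf₂_le (Real.toNNReal (1 / β)) hex
  rw [mu, ← ENNReal.ofReal_le_iff_le_toReal (ENNReal.inv_ne_top.mpr h1), ENNReal.le_inv_iff_le_inv,
    ← ENNReal.ofReal_inv_of_pos hβ, ← one_div]
  exact hle

theorem frame (P : IsPair a b e) (h1 : lam a b 1 ≠ 0) (hf : ∀ k, lam a b k ≠ ⊤) (n : ℕ) {ε : ℝ}
    (hε : 0 < ε) : ∃ u : Fin n → E, (∀ i j, a (u i) (u j) = if i = j then 1 else 0) ∧
      (∀ i, b (u i) e = 0) ∧ (∀ i j, i ≠ j → b (u i) (u j) = 0) ∧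
      ∀ i : Fin n, mu a b i - ε ≤ b (u i) (u i) ∧ b (u i) (u i) ≤ mu a b i := by
  have h1' : ∀ k, 1 ≤ k → lam a b k ≠ 0 := by
    intro k hk h
    exact h1 (le_antisymm ((lam_mono a b hk).trans h.le) bot_le)
  choose c V hc0 hV1 hV2 hV3 using fun i : Fin n =>
    Frm_space (a := a) (b := b) (h1' (i + 1) (by omega)) (hf (i + 1)) hε
  have hVfin : ∀ i, FiniteDimensional ℝ (V i) := fun i =>
    Module.finite_of_finrank_pos (by rw [hV1]; omega)
  let F : Submodule ℝ E := ⨆ i, V i
  let F0 : Submodule ℝ E := F ⊓ LinearMap.ker (b e)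
  have hF : FiniteDimensional ℝ F := Submodule.finiteDimensional_iSup V
  have hF0 : FiniteDimensional ℝ F0 := Submodule.finiteDimensional_inf_left _ _
  -- the dimension of F0
  have hdim : n ≤ Module.finrank ℝ F0 := by
    rcases Nat.eq_zero_or_pos n with hn | hn
    · omega
    · let i : Fin n := ⟨n - 1, by omega⟩
      let g : V i →ₗ[ℝ] ℝ := (b e).domRestrict (V i)
      have e1 := LinearMap.finrank_range_add_finrank_ker g
      have e2 : Module.finrank ℝ (LinearMap.range g) ≤ 1 := by
        calc _ ≤ Module.finrank ℝ ℝ := Submodule.finrank_le _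
          _ = 1 := Module.finrank_self ℝ
      rw [hV1 i] at e1
      let ι : LinearMap.ker g →ₗ[ℝ] F0 :=
        { toFun := fun x => ⟨x.1.1, le_iSup V i x.1.2, x.2⟩
          map_add' := fun x y => rfl
          map_smul' := fun c x => rfl }
      have hι : Function.Injective ι := by
        intro x y hxy
        have : x.1.1 = y.1.1 := congrArg (fun z : F0 => z.1) hxy
        exact Subtype.ext (Subtype.ext this)
      have e3 := LinearMap.finrank_le_finrank_of_injective hι
      have e4 : (i : ℕ) = n - 1 := rfl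
      omega
  let A0 : LinearMap.BilinForm ℝ F0 := a.domRestrict₁₂ F0 F0
  let B0 : LinearMap.BilinForm ℝ F0 := b.domRestrict₁₂ F0 F0
  obtain ⟨f, β, hβ, hfA, hfB, hAs, hBs⟩ := Frm_diag A0 B0 (fun u v => P.asym _ _)
    (fun u v => P.bsym _ _) (fun u hu => by
      refine lt_of_le_of_ne (P.apos _) ?_
      intro h
      obtain ⟨t, ht⟩ := P.aker u.1 h.symm
      have h2 : b e u.1 = 0 := u.2.2
      rw [ht, map_smul, smul_eq_mul] at h2
      have h3 := (P.bpos e P.ne).ne'
      have h4 : t = 0 := by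
        rcases mul_eq_zero.mp h2 with h | h
        · exact h
        · exact absurd h h3
      rw [h4, zero_smul] at ht
      exact hu (Subtype.ext ht)) _ rfl
  have hA0 : ∀ u v : F0, A0 u v = a u.1 v.1 := fun _ _ => rfl
  have hB0 : ∀ u v : F0, B0 u v = b u.1 v.1 := fun _ _ => rfl
  let κ : Fin n → Fin (Module.finrank ℝ F0) := Fin.castLE hdim
  have hκ : Function.Injective κ := Fin.castLE_injective hdim
  have hfe : ∀ j, b (f j).1 e = 0 := fun j => by
    rw [P.bsym]
    exact (f j).2.2
  have hβ' : ∀ j, b (f j).1 (f j).1 = β j := fun j => by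
    rw [← hB0, hfB, if_pos rfl]
  have hne : ∀ j, (f j).1 ≠ 0 := by
    intro j h
    have h2 := hfA j j
    rw [hA0, if_pos rfl, h, map_zero] at h2
    simp at h2
  have hβpos : ∀ j, 0 < β j := fun j => by
    rw [← hβ']
    exact P.bpos _ (hne j)
  refine ⟨fun i => (f (κ i)).1, ?_, fun i => hfe _, ?_, ?_⟩
  · intro i j
    rw [← hA0, hfA]
    by_cases h : i = j
    · simp [h]
    · rw [if_neg h, if_neg (fun h' => h (hκ h'))]
  · intro i j h
    rw [← hB0, hfB, if_neg (fun h' => h (hκ h'))]
  · intro i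
    constructor
    · -- lower bound
      let g : V i →ₗ[ℝ] (ℝ × (Fin i → ℝ)) :=
        { toFun := fun u => (b e u.1, fun j => a (f (κ ⟨j, j.2.trans i.2⟩)).1 u.1)
          map_add' := fun x y => by
            ext <;> simp
          map_smul' := fun c x => by
            ext <;> simp }
      have hg : LinearMap.ker g ≠ ⊥ := by
        refine LinearMap.ker_ne_bot_of_finrank_lt ?_
        rw [hV1 i, Module.finrank_prod, Module.finrank_self, Module.finrank_fin_fun]
        omega
      obtain ⟨x, hx, hx0⟩ := Submodule.exists_mem_ne_zero_of_ne_bot hg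
      have hx1 : b e x.1 = 0 := congrArg Prod.fst (LinearMap.mem_ker.mp hx)
      have hx2 : ∀ j : Fin i, a (f (κ ⟨j, j.2.trans i.2⟩)).1 x.1 = 0 := fun j =>
        congrFun (congrArg Prod.snd (LinearMap.mem_ker.mp hx)) j
      have hx0' : x.1 ≠ 0 := fun h => hx0 (Subtype.ext h)
      let y : F0 := ⟨x.1, le_iSup V i x.2, hx1⟩
      have e1 : a x.1 x.1 = ∑ j, A0 (f j) y ^ 2 := hAs y
      have e2 : b x.1 x.1 = ∑ j, β j * A0 (f j) y ^ 2 := hBs y
      have e3 : b x.1 x.1 ≤ β (κ i) * a x.1 x.1 := by
        rw [e1, e2, Finset.mul_sum]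
        refine Finset.sum_le_sum fun j _ => ?_
        by_cases hj : (j : ℕ) < i
        · have h0 : A0 (f j) y = 0 := by
            have h1 := hx2 ⟨j, hj⟩
            have h2 : κ ⟨(⟨j, hj⟩ : Fin i), hj.trans i.2⟩ = j := by
              ext
              rfl
            rw [h2] at h1
            exact h1
          rw [h0]
          simp
        · refine mul_le_mul_of_nonneg_right (hβ ?_) (sq_nonneg _)
          rw [Fin.le_iff_val_le_val]
          change (i : ℕ) ≤ j
          omega
      have e4 := hV2 i x.1 x.2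
      have e5 := P.bpos x.1 hx0'
      have e6 : β (κ i) * a x.1 x.1 ≤ β (κ i) * (c i * b x.1 x.1) :=
        mul_le_mul_of_nonneg_left e4 (hβpos _).le
      have e7 : 1 ≤ β (κ i) * c i := by
        by_contra h
        push Not at h
        nlinarith
      have e8 : 1 / c i ≤ β (κ i) := by
        rw [div_le_iff₀ (hc0 i)]
        exact e7
      rw [hβ']
      exact (hV3 i).trans e8
    · -- upper bound
      rw [hβ']
      have hlt : ∀ j : Fin (i + 1), (j : ℕ) < n := fun j => by omega
      refine Frm_upper P (h1' _ (by omega)) (fun j : Fin (i + 1) => (f (κ ⟨j, hlt j⟩)).1)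
        (hβpos _) ?_ (fun j => hfe _) ?_ ?_
      · intro j l
        rw [← hA0, hfA]
        by_cases h : j = l
        · simp [h]
        · rw [if_neg h, if_neg]
          intro h'
          have := hκ h'
          exact h (Fin.ext (Fin.mk.inj_iff.mp this))
      · intro j l h
        rw [← hB0, hfB, if_neg]
        intro h'
        have := hκ h'
        exact h (Fin.ext (Fin.mk.inj_iff.mp this))
      · intro j
        rw [hβ']
        refine hβ ?_
        rw [Fin.le_iff_val_le_val]
        change (j : ℕ) ≤ i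
        omega

end Abstract

end BGS
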