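import Pool.Agent.LibBGR.Kyf
import Pool.Agent.LibBGR.Frm

open MeasureTheory Set Filter Topology
open scoped ContDiff ENNReal NNReal

namespace BGS

section KNK

variable {E : Type} [AddCommGroup E] [Module ℝ E] {a b b' : LinearMap.BilinForm ℝ E} {e : E}

theorem KNK_bnonneg (P : IsPair a b e) (u : E) : 0 ≤ b u u := by
  by_cases hu : u = 0
  · rw [hu]; simp
  · exact (P.bpos u hu).le

/-- One sign. -/
theorem KNK_one (P : IsPair a b e) (h1 : lam a b 1 ≠ 0) {n : ℕ} (w : Fin n → E)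
    (hw : ∀ i j, a (w i) (w j) = if i = j then 1 else 0) (hwe : ∀ i, b (w i) e = 0) {M : ℝ}
    (hM : ∀ i, b (w i) (w i) ≤ M) (h : LinearMap.BilinForm ℝ E) (K σ : ℝ)
    (hs : ∀ u v, h u v = h v u) (h0 : ∀ u, 0 ≤ h u u) (hK : ∀ u, h u u ≤ K * b u u)
    (hK0 : 0 ≤ K) (hσ : |σ| * K ≤ 1 / 2) :
    ∑ i, (b (w i) (w i) + σ * h (w i) (w i)) - n * (2 * K ^ 2 * σ ^ 2 * M) ≤
      ∑ k ∈ Finset.range n, mu a (b + σ • h) k := by
  have P' : IsPair a (b + σ • h) e := P.add hs h0 hK hσ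
  have h1' : lam a (b + σ • h) 1 ≠ 0 := by
    apply lam_ne_zero_of_le (b := b) (θ := 3 / 2) (by norm_num) _ h1
    intro u
    have hb := KNK_bnonneg P u
    have h2 : σ * h u u ≤ |σ| * (K * b u u) :=
      mul_le_mul (le_abs_self σ) (hK u) (h0 u) (abs_nonneg σ)
    have h3 : |σ| * (K * b u u) ≤ 1 / 2 * b u u := by
      rw [← mul_assoc]
      exact mul_le_mul_of_nonneg_right hσ hb
    simp only [LinearMap.add_apply, LinearMap.smul_apply, smul_eq_mul]
    linarith
  have hky := kyfan P' h1' w hw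
  have hbe : 0 < b e e := P.bpos e P.ne
  have hbe' : b e e / 2 ≤ (b + σ • h) e e := by
    have h2 : -(|σ| * (K * b e e)) ≤ σ * h e e := by
      have h3 : |σ| * h e e ≤ |σ| * (K * b e e) := mul_le_mul_of_nonneg_left (hK e) (abs_nonneg σ)
      have h4 : -(|σ|) * h e e ≤ σ * h e e := mul_le_mul_of_nonneg_right (neg_abs_le σ) (h0 e)
      linarith
    have h3 : |σ| * (K * b e e) ≤ 1 / 2 * b e e := by
      rw [← mul_assoc]
      exact mul_le_mul_of_nonneg_right hσ hbe.le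
    simp only [LinearMap.add_apply, LinearMap.smul_apply, smul_eq_mul]
    linarith
  refine le_trans ?_ hky
  have hcard : (n : ℝ) * (2 * K ^ 2 * σ ^ 2 * M) = ∑ _i : Fin n, 2 * K ^ 2 * σ ^ 2 * M := by
    rw [Finset.sum_const, Finset.card_univ, Fintype.card_fin, nsmul_eq_mul]
  rw [hcard, ← Finset.sum_sub_distrib]
  apply Finset.sum_le_sum
  intro i _
  have hx : (b + σ • h) (w i) e = σ * h (w i) e := by
    simp only [LinearMap.add_apply, LinearMap.smul_apply, smul_eq_mul, hwe i, zero_add]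
  have hcs : h (w i) e ^ 2 ≤ h (w i) (w i) * h e e := by
    have h2 := LinearMap.BilinForm.apply_mul_apply_le_of_forall_zero_le h h0 (w i) e
    rw [hs e (w i)] at h2
    rw [pow_two]
    exact h2
  have hM0 : b (w i) (w i) ≤ M := hM i
  have hbi := KNK_bnonneg P (w i)
  have hhe : h e e ≤ K * b e e := hK e
  have hhw : h (w i) (w i) ≤ K * M :=
    le_trans (hK (w i)) (mul_le_mul_of_nonneg_left hM0 hK0)
  have hKM : 0 ≤ K * M := le_trans (h0 (w i)) hhw
  have hprod : h (w i) e ^ 2 ≤ (K * M) * (K * b e e) :=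
    le_trans hcs (mul_le_mul hhw hhe (h0 e) hKM)
  have hdiv : (σ * h (w i) e) ^ 2 / (b + σ • h) e e ≤ 2 * K ^ 2 * σ ^ 2 * M := by
    have hpos : 0 < (b + σ • h) e e := lt_of_lt_of_le (by linarith) hbe'
    rw [div_le_iff₀ hpos]
    have hKKM : 0 ≤ K ^ 2 * M := by
      have := mul_nonneg hK0 hKM
      calc (0 : ℝ) ≤ K * (K * M) := this
        _ = K ^ 2 * M := by ring
    have h5 : (σ * h (w i) e) ^ 2 ≤ σ ^ 2 * ((K * M) * (K * b e e)) := by
      rw [mul_pow]
      exact mul_le_mul_of_nonneg_left hprod (sq_nonneg σ)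
    have h6 : 2 * K ^ 2 * σ ^ 2 * M * (b e e / 2) ≤ 2 * K ^ 2 * σ ^ 2 * M * (b + σ • h) e e := by
      apply mul_le_mul_of_nonneg_left hbe'
      have : 0 ≤ σ ^ 2 * (K ^ 2 * M) := mul_nonneg (sq_nonneg σ) hKKM
      calc (0 : ℝ) ≤ 2 * (σ ^ 2 * (K ^ 2 * M)) := by linarith
        _ = 2 * K ^ 2 * σ ^ 2 * M := by ring
    have h7 : σ ^ 2 * ((K * M) * (K * b e e)) = 2 * K ^ 2 * σ ^ 2 * M * (b e e / 2) := by ring
    linarith
  rw [hx]
  have hself : (b + σ • h) (w i) (w i) = b (w i) (w i) + σ * h (w i) (w i) := by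
    simp only [LinearMap.add_apply, LinearMap.smul_apply, smul_eq_mul]
  rw [hself]
  linarith

/-- Both signs. -/
theorem KNK_two (P : IsPair a b e) (h1 : lam a b 1 ≠ 0) {n : ℕ} (w w' : Fin n → E)
    (hw : ∀ i j, a (w i) (w j) = if i = j then 1 else 0) (hwe : ∀ i, b (w i) e = 0)
    (hw' : ∀ i j, a (w' i) (w' j) = if i = j then 1 else 0) (hwe' : ∀ i, b (w' i) e = 0) {M : ℝ}
    (hM : ∀ i, b (w i) (w i) ≤ M) (hM' : ∀ i, b (w' i) (w' i) ≤ M)
    (h : LinearMap.BilinForm ℝ E) (K τ : ℝ)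
    (hs : ∀ u v, h u v = h v u) (h0 : ∀ u, 0 ≤ h u u) (hK : ∀ u, h u u ≤ K * b u u)
    (hK0 : 0 ≤ K) (hτ : 0 ≤ τ) (hτK : τ * K ≤ 1 / 2) :
    ∑ i, (b (w i) (w i) + τ * h (w i) (w i)) + ∑ i, (b (w' i) (w' i) - τ * h (w' i) (w' i))
        - 4 * n * K ^ 2 * τ ^ 2 * M ≤
      ∑ k ∈ Finset.range n, mu a (b + τ • h) k + ∑ k ∈ Finset.range n, mu a (b - τ • h) k := by
  have e1 := KNK_one P h1 w hw hwe hM h K τ hs h0 hK hK0 (by rwa [abs_of_nonneg hτ])
  have e2 := KNK_one P h1 w' hw' hwe' hM' h K (-τ) hs h0 hK hK0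
    (by rwa [abs_neg, abs_of_nonneg hτ])
  have e3 : b + (-τ) • h = b - τ • h := by
    ext x y
    simp only [LinearMap.add_apply, LinearMap.sub_apply, LinearMap.smul_apply, smul_eq_mul]
    ring
  rw [e3] at e2
  have e4 : ∑ i, (b (w' i) (w' i) + -τ * h (w' i) (w' i))
      = ∑ i, (b (w' i) (w' i) - τ * h (w' i) (w' i)) := by
    apply Finset.sum_congr rfl
    intro i _
    ring
  rw [e4] at e2
  have e5 : (-τ) ^ 2 = τ ^ 2 := by ring
  rw [e5] at e2
  have e6 : 4 * (n : ℝ) * K ^ 2 * τ ^ 2 * M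
      = n * (2 * K ^ 2 * τ ^ 2 * M) + n * (2 * K ^ 2 * τ ^ 2 * M) := by ring
  linarith

theorem semiconvex (P : IsPair a b e) (h1 : lam a b 1 ≠ 0) (hf : ∀ k, lam a b k ≠ ⊤) (n : ℕ)
    (h : LinearMap.BilinForm ℝ E) (K τ : ℝ) (hs : ∀ u v, h u v = h v u) (h0 : ∀ u, 0 ≤ h u u)
    (hK : ∀ u, h u u ≤ K * b u u) (hK0 : 0 ≤ K) (hτ : 0 ≤ τ) (hτK : τ * K ≤ 1 / 2) :
    - (4 * (n + 1) * K ^ 2 * τ ^ 2 * mu a b 0) ≤
      ∑ k ∈ Finset.range (n + 1), mu a (b + τ • h) k
        + ∑ k ∈ Finset.range (n + 1), mu a (b - τ • h) k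
        - 2 * ∑ k ∈ Finset.range (n + 1), mu a b k := by
  apply le_of_forall_pos_le_add
  intro ε hε
  have hn : (0 : ℝ) < n + 1 := by positivity
  obtain ⟨u, hu, hue, -, hb⟩ := frame P h1 hf (n + 1) (ε := ε / (2 * (n + 1))) (by positivity)
  have hanti := mu_anti (a := a) (b := b) h1
  have hM : ∀ i, b (u i) (u i) ≤ mu a b 0 := fun i =>
    le_trans (hb i).2 (hanti (Nat.zero_le _))
  have e1 := KNK_two P h1 u u hu hue hu hue hM hM h K τ hs h0 hK hK0 hτ hτK
  have e2 : ∑ i, (b (u i) (u i) + τ * h (u i) (u i)) + ∑ i, (b (u i) (u i) - τ * h (u i) (u i))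
      = 2 * ∑ i, b (u i) (u i) := by
    rw [← Finset.sum_add_distrib, Finset.mul_sum]
    apply Finset.sum_congr rfl
    intro i _
    ring
  have e3 : ∑ k ∈ Finset.range (n + 1), mu a b k - ε / 2 ≤ ∑ i, b (u i) (u i) := by
    rw [← Fin.sum_univ_eq_sum_range (fun k => mu a b k) (n + 1)]
    have e4 : ε / 2 = ∑ _i : Fin (n + 1), ε / (2 * (n + 1)) := by
      rw [Finset.sum_const, Finset.card_univ, Fintype.card_fin, nsmul_eq_mul]
      push_cast
      field_simp
    rw [e4, ← Finset.sum_sub_distrib]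
    apply Finset.sum_le_sum
    intro i _
    exact (hb i).1
  have e5 : ((n + 1 : ℕ) : ℝ) = (n : ℝ) + 1 := by push_cast; ring
  rw [e2, e5] at e1
  linarith

theorem kink (P : IsPair a b e) (h1 : lam a b 1 ≠ 0) (hf : ∀ k, lam a b k ≠ ⊤) (n : ℕ) {ε : ℝ}
    (hε : 0 < ε) : ∃ u v : E, a u u = 1 ∧ a v v = 1 ∧ a u v = 0 ∧ mu a b n - ε ≤ b u u ∧
      ∀ (h : LinearMap.BilinForm ℝ E) (K τ : ℝ), (∀ u v, h u v = h v u) → (∀ u, 0 ≤ h u u) →
        (∀ u, h u u ≤ K * b u u) → 0 ≤ K → 0 ≤ τ → τ * K ≤ 1 / 2 →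
        τ * √((h u u - h v v) ^ 2 + (2 * h u v) ^ 2) - (mu a b n - mu a b (n + 1))
            - 4 * (n + 1) * K ^ 2 * τ ^ 2 * mu a b 0 - (2 * n + 5) * ε ≤
          ∑ k ∈ Finset.range (n + 1), mu a (b + τ • h) k
            + ∑ k ∈ Finset.range (n + 1), mu a (b - τ • h) k
            - 2 * ∑ k ∈ Finset.range (n + 1), mu a b k := by
  obtain ⟨f, hf1, hfe, hforth, hb⟩ := frame P h1 hf (n + 2) hε
  set U : Fin n → E := fun i => f ⟨i, by omega⟩ with hU
  set u : E := f ⟨n, by omega⟩ with hu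
  set v : E := f ⟨n + 1, by omega⟩ with hv
  have hne : (⟨n, by omega⟩ : Fin (n + 2)) ≠ ⟨n + 1, by omega⟩ := by
    intro h; have := congrArg Fin.val h; simp at this
  have auu : a u u = 1 := by rw [hu, hf1]; simp
  have avv : a v v = 1 := by rw [hv, hf1]; simp
  have auv : a u v = 0 := by rw [hu, hv, hf1, if_neg hne]
  have avu : a v u = 0 := by rw [P.asym, auv]
  have buv : b u v = 0 := by rw [hu, hv]; exact hforth _ _ hne
  have bvu : b v u = 0 := by rw [P.bsym, buv]
  have bue : b u e = 0 := by rw [hu]; exact hfe _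
  have bve : b v e = 0 := by rw [hv]; exact hfe _
  have hbu := hb ⟨n, by omega⟩
  have hbv := hb ⟨n + 1, by omega⟩
  rw [← hu] at hbu
  rw [← hv] at hbv
  simp only at hbu hbv
  have hanti := mu_anti (a := a) (b := b) h1
  refine ⟨u, v, auu, avv, auv, hbu.1, ?_⟩
  intro h K τ hs h0 hK hK0 hτ hτK
  set z : ℂ := ⟨h u u - h v v, 2 * h u v⟩ with hz
  set t : ℝ := Complex.arg z / 2 with ht
  have hnorm : ‖z‖ = √((h u u - h v v) ^ 2 + (2 * h u v) ^ 2) := by
    rw [Complex.norm_def, Complex.normSq_mk]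
    congr 1
    ring
  have hcos : ‖z‖ * Real.cos (2 * t) = h u u - h v v := by
    have h2 : 2 * t = Complex.arg z := by rw [ht]; ring
    rw [h2]
    exact Complex.norm_mul_cos_arg z
  have hsin : ‖z‖ * Real.sin (2 * t) = 2 * h u v := by
    have h2 : 2 * t = Complex.arg z := by rw [ht]; ring
    rw [h2]
    exact Complex.norm_mul_sin_arg z
  set c : ℝ := Real.cos t with hc
  set s : ℝ := Real.sin t with hs'
  have hcs : c ^ 2 + s ^ 2 = 1 := Real.cos_sq_add_sin_sq t
  have hc2 : Real.cos (2 * t) = c ^ 2 - s ^ 2 := by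
    rw [Real.cos_two_mul, ← hc]
    linarith
  have hs2 : Real.sin (2 * t) = 2 * s * c := Real.sin_two_mul t
  rw [hc2] at hcos
  rw [hs2] at hsin
  set w : Fin (n + 1) → E := Fin.snoc U (c • u + s • v) with hwdef
  set w' : Fin (n + 1) → E := Fin.snoc U (-s • u + c • v) with hw'def
  -- generic facts about a frame completed by one vector of the plane
  have gen : ∀ x y : ℝ, x ^ 2 + y ^ 2 = 1 →
      (∀ i j, a ((Fin.snoc U (x • u + y • v) : Fin (n + 1) → E) i)
        ((Fin.snoc U (x • u + y • v) : Fin (n + 1) → E) j) = if i = j then 1 else 0) ∧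
      (∀ i, b ((Fin.snoc U (x • u + y • v) : Fin (n + 1) → E) i) e = 0) ∧
      (∀ i, b ((Fin.snoc U (x • u + y • v) : Fin (n + 1) → E) i)
        ((Fin.snoc U (x • u + y • v) : Fin (n + 1) → E) i) ≤ mu a b 0) := by
    intro x y hxy
    have aU : ∀ i j : Fin n, a (U i) (U j) = if i = j then 1 else 0 := by
      intro i j
      rw [hU]
      simp only
      rw [hf1]
      simp [Fin.ext_iff]
    have aUu : ∀ i : Fin n, a (U i) u = 0 := by
      intro i
      rw [hU, hu]
      simp only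
      rw [hf1, if_neg]
      intro h'
      have := congrArg Fin.val h'
      simp at this
      have := i.2
      omega
    have aUv : ∀ i : Fin n, a (U i) v = 0 := by
      intro i
      rw [hU, hv]
      simp only
      rw [hf1, if_neg]
      intro h'
      have := congrArg Fin.val h'
      simp at this
      have := i.2
      omega
    have auU : ∀ i : Fin n, a u (U i) = 0 := fun i => by rw [P.asym, aUu]
    have avU : ∀ i : Fin n, a v (U i) = 0 := fun i => by rw [P.asym, aUv]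
    refine ⟨?_, ?_, ?_⟩
    · intro i j
      refine Fin.lastCases ?_ (fun i => ?_) i
      · refine Fin.lastCases ?_ (fun j => ?_) j
        · simp only [Fin.snoc_last, if_true, map_add, map_smul, LinearMap.add_apply,
            LinearMap.smul_apply, smul_eq_mul, auu, avv, auv, avu]
          linarith
        · have hne' : Fin.last n ≠ Fin.castSucc j := (Fin.castSucc_lt_last j).ne'
          simp only [Fin.snoc_last, Fin.snoc_castSucc, map_add, map_smul, LinearMap.add_apply,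
            LinearMap.smul_apply, smul_eq_mul, auU, avU, if_neg hne']
          ring
      · refine Fin.lastCases ?_ (fun j => ?_) j
        · have hne' : Fin.castSucc i ≠ Fin.last n := (Fin.castSucc_lt_last i).ne
          simp only [Fin.snoc_last, Fin.snoc_castSucc, map_add, map_smul, smul_eq_mul, aUu, aUv,
            if_neg hne']
          ring
        · simp only [Fin.snoc_castSucc, aU, Fin.castSucc_inj]
    · intro i
      refine Fin.lastCases ?_ (fun i => ?_) i
      · simp only [Fin.snoc_last, map_add, map_smul, LinearMap.add_apply, LinearMap.smul_apply,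
          smul_eq_mul, bue, bve]
        ring
      · simp only [Fin.snoc_castSucc]
        rw [hU]
        exact hfe _
    · intro i
      refine Fin.lastCases ?_ (fun i => ?_) i
      · simp only [Fin.snoc_last, map_add, map_smul, LinearMap.add_apply, LinearMap.smul_apply,
          smul_eq_mul, buv, bvu]
        have h2 : b u u ≤ mu a b 0 := le_trans hbu.2 (hanti (Nat.zero_le _))
        have h3 : b v v ≤ mu a b 0 := le_trans hbv.2 (hanti (Nat.zero_le _))
        have h4 : x ^ 2 * b u u ≤ x ^ 2 * mu a b 0 := mul_le_mul_of_nonneg_left h2 (sq_nonneg x)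
        have h5 : y ^ 2 * b v v ≤ y ^ 2 * mu a b 0 := mul_le_mul_of_nonneg_left h3 (sq_nonneg y)
        have h6 : x ^ 2 * mu a b 0 + y ^ 2 * mu a b 0 = mu a b 0 := by rw [← add_mul, hxy, one_mul]
        calc _ = x ^ 2 * b u u + y ^ 2 * b v v := by ring
          _ ≤ mu a b 0 := by linarith
      · simp only [Fin.snoc_castSucc]
        rw [hU]
        exact le_trans (hb _).2 (hanti (Nat.zero_le _))
  obtain ⟨g1, g2, g3⟩ := gen c s hcs
  obtain ⟨g1', g2', g3'⟩ := gen (-s) c (by linarith)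
  have e1 := KNK_two P h1 w w' g1 g2 g1' g2' g3 g3' h K τ hs h0 hK hK0 hτ hτK
  have e2 : ∑ i, (b (w i) (w i) + τ * h (w i) (w i)) + ∑ i, (b (w' i) (w' i) - τ * h (w' i) (w' i))
      = 2 * ∑ i, b (U i) (U i) + b u u + b v v + τ * ‖z‖ := by
    rw [Fin.sum_univ_castSucc, Fin.sum_univ_castSucc]
    simp only [hwdef, hw'def, Fin.snoc_castSucc, Fin.snoc_last]
    have e3 : ∑ i, (b (U i) (U i) + τ * h (U i) (U i))
        + ∑ i, (b (U i) (U i) - τ * h (U i) (U i)) = 2 * ∑ i, b (U i) (U i) := by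
      rw [← Finset.sum_add_distrib, Finset.mul_sum]
      apply Finset.sum_congr rfl
      intro i _
      ring
    have hvu : h v u = h u v := hs v u
    simp only [map_add, map_smul, LinearMap.add_apply, LinearMap.smul_apply, smul_eq_mul, buv, bvu,
      hvu, map_neg, neg_smul, LinearMap.neg_apply]
    have e4 : ‖z‖ = (c ^ 2 - s ^ 2) * (h u u - h v v) + 2 * s * c * (2 * h u v) := by
      rw [← hcos, ← hsin]
      have : (c ^ 2 - s ^ 2) * (‖z‖ * (c ^ 2 - s ^ 2)) + 2 * s * c * (‖z‖ * (2 * s * c))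
          = ‖z‖ * (c ^ 2 + s ^ 2) ^ 2 := by ring
      rw [this, hcs]
      ring
    have e5 : b u u + b v v = (c ^ 2 + s ^ 2) * b u u + (c ^ 2 + s ^ 2) * b v v := by
      rw [hcs]; ring
    linear_combination e3 - e5 - τ * e4
  have e3 : ∑ k ∈ Finset.range n, mu a b k - n * ε ≤ ∑ i, b (U i) (U i) := by
    rw [← Fin.sum_univ_eq_sum_range (fun k => mu a b k) n]
    have e4 : (n : ℝ) * ε = ∑ _i : Fin n, ε := by
      rw [Finset.sum_const, Finset.card_univ, Fintype.card_fin, nsmul_eq_mul]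
    rw [e4, ← Finset.sum_sub_distrib]
    apply Finset.sum_le_sum
    intro i _
    exact (hb ⟨i, by omega⟩).1
  have e5 : ((n + 1 : ℕ) : ℝ) = (n : ℝ) + 1 := by push_cast; ring
  rw [e2, e5, hnorm] at e1
  have e6 : ∑ k ∈ Finset.range (n + 1), mu a b k = ∑ k ∈ Finset.range n, mu a b k + mu a b n :=
    Finset.sum_range_succ _ _
  rw [e6]
  have h7 := hbu.1
  have h8 := hbv.1
  have h9 : 0 ≤ (n : ℝ) * ε := by positivity
  linarith

end KNK

end BGS
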