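import Pool.Agent.LibBGR.Bmp
import Pool.Agent.LibBGS.Poin

/-! ROW LOC: localisation of a near-degenerate pair by a bump function. -/

open MeasureTheory Set Filter Topology
open scoped ContDiff ENNReal NNReal

namespace BGS

variable {Γ : Type} [Group Γ] [MulAction Γ Pl] {D : Set Pl}

/-- Elementary: a planar vector near another one. -/
theorem LOC_vec {X Y P Q E : ℝ} (h1 : |X - P| ≤ E) (h2 : |Y - Q| ≤ E) :
    √(P ^ 2 + Q ^ 2) - 2 * E ≤ √(X ^ 2 + Y ^ 2) := by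
  have e1 : √(P ^ 2 + Q ^ 2) = ‖((P : ℂ) + Q * Complex.I)‖ := (Complex.norm_add_mul_I P Q).symm
  have e2 : √(X ^ 2 + Y ^ 2) = ‖((X : ℂ) + Y * Complex.I)‖ := (Complex.norm_add_mul_I X Y).symm
  have e3 : ((P : ℂ) + Q * Complex.I) = ((X : ℂ) + Y * Complex.I) +
      (((P - X : ℝ) : ℂ) + ((Q - Y : ℝ) : ℂ) * Complex.I) := by
    push_cast
    ring
  have e4 : ‖(((P - X : ℝ) : ℂ) + ((Q - Y : ℝ) : ℂ) * Complex.I)‖ ≤ |P - X| + |Q - Y| := by
    refine (norm_add_le _ _).trans ?_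
    rw [norm_mul, Complex.norm_I, mul_one, Complex.norm_real, Complex.norm_real,
      Real.norm_eq_abs, Real.norm_eq_abs]
  rw [abs_sub_comm] at h1 h2
  have e5 := norm_add_le ((X : ℂ) + Y * Complex.I)
    (((P - X : ℝ) : ℂ) + ((Q - Y : ℝ) : ℂ) * Complex.I)
  rw [← e3] at e5
  rw [e1, e2]
  linarith

theorem LOC_pt1 {x y a b θ : ℝ} (hθ : 0 < θ) :
    |(x ^ 2 - y ^ 2) - (a ^ 2 - b ^ 2)| ≤
      θ * (a ^ 2 + b ^ 2) + (1 + 1 / θ) * ((x - a) ^ 2 + (y - b) ^ 2) := by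
  have h1 : ∀ s t : ℝ, 2 * (s * t) ≤ θ * s ^ 2 + 1 / θ * t ^ 2 := by
    intro s t
    have h0 : 0 ≤ 1 / θ * (θ * s - t) ^ 2 := by positivity
    have h2 : 1 / θ * (θ * s - t) ^ 2 = θ * s ^ 2 + 1 / θ * t ^ 2 - 2 * (s * t) := by
      field_simp
      ring
    linarith
  have p1 := h1 a (x - a)
  have p2 := h1 b (-(y - b))
  have p3 := h1 (-a) (x - a)
  have p4 := h1 b (y - b)
  rw [abs_le]
  constructor <;> nlinarith [sq_nonneg (x - a), sq_nonneg (y - b)]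

theorem LOC_pt2 {x y a b θ : ℝ} (hθ : 0 < θ) :
    |2 * (x * y) - 2 * (a * b)| ≤
      θ * (a ^ 2 + b ^ 2) + (1 + 1 / θ) * ((x - a) ^ 2 + (y - b) ^ 2) := by
  have h1 : ∀ s t : ℝ, 2 * (s * t) ≤ θ * s ^ 2 + 1 / θ * t ^ 2 := by
    intro s t
    have h0 : 0 ≤ 1 / θ * (θ * s - t) ^ 2 := by positivity
    have h2 : 1 / θ * (θ * s - t) ^ 2 = θ * s ^ 2 + 1 / θ * t ^ 2 - 2 * (s * t) := by
      field_simp
      ring
    linarith
  have p1 := h1 a (y - b)
  have p2 := h1 b (x - a)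
  have p3 := h1 (-a) (y - b)
  have p4 := h1 (-b) (x - a)
  rw [abs_le]
  constructor <;> nlinarith [sq_nonneg (x - a - (y - b)), sq_nonneg (x - a + (y - b))]

/-- The estimate on one square. -/
theorem LOC_core {u v F : Pl → ℝ} (hu : Continuous u) (hv : Continuous v) (hF : Continuous F)
    (a b : ℝ) {r A θ : ℝ} (hr : 0 < r) (hθ : 0 < θ) (α β : ℝ)
    (hF0 : ∀ z ∈ Disc_sq a b r, 0 ≤ F z) (hFA : ∀ z ∈ Disc_sq a b r, F z ≤ A)
    {G : Pl → ℝ} (hG : Continuous G) (c : ℝ)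
    (hpt : ∀ z, |G z - c| ≤
      θ * (α ^ 2 + β ^ 2) + (1 + 1 / θ) * ((u z - α) ^ 2 + (v z - β) ^ 2)) :
    |(∫ z in Disc_sq a b r, F z * G z) - c * ∫ z in Disc_sq a b r, F z| ≤
      A * (θ * ((α ^ 2 + β ^ 2) * r ^ 2) +
        (1 + 1 / θ) * ∫ z in Disc_sq a b r, ((u z - α) ^ 2 + (v z - β) ^ 2)) := by
  have hint : ∀ {g : Pl → ℝ}, Continuous g → IntegrableOn g (Disc_sq a b r) := fun hg =>
    Disc_intble hg a b r
  have hvol : (volume : Measure Pl).real (Disc_sq a b r) = r ^ 2 := by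
    unfold Disc_sq
    rw [Measure.real, Measure.volume_eq_prod, Measure.prod_prod, ENNReal.toReal_mul]
    simp only [Real.volume_Ico]
    rw [ENNReal.toReal_ofReal (by linarith), ENNReal.toReal_ofReal (by linarith)]
    ring
  have i1 : IntegrableOn (fun z => F z * G z) (Disc_sq a b r) := hint (hF.mul hG)
  have i2 : IntegrableOn (fun z => c * F z) (Disc_sq a b r) := hint (continuous_const.mul hF)
  have e1 : (∫ z in Disc_sq a b r, F z * G z) - c * ∫ z in Disc_sq a b r, F z =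
      ∫ z in Disc_sq a b r, F z * (G z - c) := by
    rw [← integral_const_mul, ← integral_sub i1 i2]
    congr 1
    funext z
    ring
  have hc1 : Continuous fun z => (u z - α) ^ 2 + (v z - β) ^ 2 :=
    ((hu.sub continuous_const).pow 2).add ((hv.sub continuous_const).pow 2)
  have hc2 : Continuous fun z => A * (θ * (α ^ 2 + β ^ 2) +
      (1 + 1 / θ) * ((u z - α) ^ 2 + (v z - β) ^ 2)) :=
    continuous_const.mul (continuous_const.add (continuous_const.mul hc1))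
  rw [e1, ← Real.norm_eq_abs]
  have e2 : ∫ z in Disc_sq a b r, A * (θ * (α ^ 2 + β ^ 2) +
      (1 + 1 / θ) * ((u z - α) ^ 2 + (v z - β) ^ 2)) =
      A * (θ * ((α ^ 2 + β ^ 2) * r ^ 2) +
        (1 + 1 / θ) * ∫ z in Disc_sq a b r, ((u z - α) ^ 2 + (v z - β) ^ 2)) := by
    have i3 : IntegrableOn (fun _ : Pl => θ * (α ^ 2 + β ^ 2)) (Disc_sq a b r) :=
      hint continuous_const
    have i4 : IntegrableOn (fun z => (1 + 1 / θ) * ((u z - α) ^ 2 + (v z - β) ^ 2))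
        (Disc_sq a b r) := hint (continuous_const.mul hc1)
    have i5 : ∫ z in Disc_sq a b r, (1 + 1 / θ) * ((u z - α) ^ 2 + (v z - β) ^ 2) =
        (1 + 1 / θ) * ∫ z in Disc_sq a b r, ((u z - α) ^ 2 + (v z - β) ^ 2) :=
      integral_const_mul _ _
    rw [integral_const_mul, integral_add i3 i4, i5, setIntegral_const, hvol, smul_eq_mul]
    ring
  rw [← e2]
  refine norm_integral_le_of_norm_le (hint hc2) ?_
  rw [ae_restrict_iff' (Disc_sq_meas a b r)]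
  refine ae_of_all _ fun z hz => ?_
  rw [Real.norm_eq_abs, abs_mul, abs_of_nonneg (hF0 z hz)]
  have h3 := hpt z
  exact mul_le_mul (hFA z hz) h3 (abs_nonneg _) ((hF0 z hz).trans (hFA z hz))

theorem LOC_sq_real (a b : ℝ) {r : ℝ} (hr : 0 < r) :
    (volume : Measure Pl).real (Disc_sq a b r) = r ^ 2 := by
  unfold Disc_sq
  rw [Measure.real, Measure.volume_eq_prod, Measure.prod_prod, ENNReal.toReal_mul]
  simp only [Real.volume_Ico]
  rw [ENNReal.toReal_ofReal (by linarith), ENNReal.toReal_ofReal (by linarith)]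
  ring

/-- Variance identity and Poincare's inequality on one square. -/
theorem LOC_var {u : Pl → ℝ} (hu : ContDiff ℝ ∞ u) (a b : ℝ) {r : ℝ} (hr : 0 < r) :
    (∫ z in Disc_sq a b r, (u z - (∫ y in Disc_sq a b r, u y) / r ^ 2) ^ 2) =
      (∫ z in Disc_sq a b r, u z ^ 2) - ((∫ y in Disc_sq a b r, u y) / r ^ 2) ^ 2 * r ^ 2 ∧
    (∫ z in Disc_sq a b r, (u z - (∫ y in Disc_sq a b r, u y) / r ^ 2) ^ 2) ≤
      r ^ 2 * ∫ z in Disc_sq a b r, (dx u z ^ 2 + dy u z ^ 2) := by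
  have hint : ∀ {g : Pl → ℝ}, Continuous g → IntegrableOn g (Disc_sq a b r) := fun hg =>
    Disc_intble hg a b r
  set α : ℝ := (∫ y in Disc_sq a b r, u y) / r ^ 2 with hα
  have hr2 : r ^ 2 ≠ 0 := by positivity
  have hαr : ∫ y in Disc_sq a b r, u y = α * r ^ 2 := by
    rw [hα]
    field_simp
  have hvol := LOC_sq_real a b hr
  constructor
  · have e1 : ∀ z, (u z - α) ^ 2 = u z ^ 2 - 2 * α * u z + α ^ 2 := fun z => by ring
    simp_rw [e1]
    have i1 : IntegrableOn (fun z => u z ^ 2) (Disc_sq a b r) := hint (hu.continuous.pow 2)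
    have i2 : IntegrableOn (fun z => 2 * α * u z) (Disc_sq a b r) :=
      hint (continuous_const.mul hu.continuous)
    have i3 : IntegrableOn (fun z => u z ^ 2 - 2 * α * u z) (Disc_sq a b r) :=
      hint ((hu.continuous.pow 2).sub (continuous_const.mul hu.continuous))
    have i4 : IntegrableOn (fun _ : Pl => α ^ 2) (Disc_sq a b r) := hint continuous_const
    rw [integral_add i3 i4, integral_sub i1 i2,
      integral_const_mul, hαr, setIntegral_const, hvol, smul_eq_mul]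
    ring
  · have h1 : ContDiff ℝ 1 fun z => u z - α :=
      (hu.of_le (by exact_mod_cast le_top)).sub contDiff_const
    have h0 : ∫ z in Ico a (a + r) ×ˢ Ico b (b + r), (u z - α) = 0 := by
      show ∫ z in Disc_sq a b r, (u z - α) = 0
      rw [integral_sub (hint hu.continuous) (hint continuous_const), hαr, setIntegral_const, hvol,
        smul_eq_mul]
      ring
    have h2 := poincare_square (fun z => u z - α) h1 a b hr h0
    have h3 : ∀ z, dx (fun z => u z - α) z = dx u z := by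
      intro z
      unfold dx
      rw [fderiv_sub_const]
    have h4 : ∀ z, dy (fun z => u z - α) z = dy u z := by
      intro z
      unfold dy
      rw [fderiv_sub_const]
    simp only [h3, h4] at h2
    exact h2

/-- The estimate on one good square. -/
theorem LOC_good {u v ρ : Pl → ℝ} (hu : ContDiff ℝ ∞ u) (hv : ContDiff ℝ ∞ v)
    (hρ : Continuous ρ) {R : ℕ} (hR : 1 ≤ R) (p : ℤ × ℤ) {A1 a1 cb κ : ℝ}
    (ha1 : 0 < a1) (hA1 : 0 < A1) (hcb : 0 < cb)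
    (hup : ∀ z ∈ Disc_sq (p.1 / R) (p.2 / R) (1 / R), ρ z ≤ A1)
    (hlo : ∀ z ∈ Disc_sq (p.1 / R) (p.2 / R) (1 / R), a1 ≤ ρ z)
    (hcbR : cb / (R : ℝ) ^ 2 ≤ ∫ z, bmp R p z)
    (hκ : κ = 2 + 16 * A1 * (1 + 1 / (a1 * cb / (16 * A1))) / (a1 * cb))
    (hgood : κ * (1 / (R : ℝ)) ^ 2 * (∫ z in Disc_sq (p.1 / R) (p.2 / R) (1 / R),
        (dx u z ^ 2 + dy u z ^ 2 + (dx v z ^ 2 + dy v z ^ 2))) ≤
      ∫ z in Disc_sq (p.1 / R) (p.2 / R) (1 / R), (u z ^ 2 + v z ^ 2)) :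
    a1 * cb / 4 * (∫ z in Disc_sq (p.1 / R) (p.2 / R) (1 / R), (u z ^ 2 + v z ^ 2)) ≤
      √((∫ z, bmp R p z * (u z ^ 2 - v z ^ 2) * ρ z) ^ 2 +
          (2 * ∫ z, bmp R p z * (u z * v z) * ρ z) ^ 2) := by
  have hR0 : (0 : ℝ) < R := by exact_mod_cast hR
  set r : ℝ := 1 / R with hr
  have hrpos : 0 < r := by positivity
  set a : ℝ := p.1 / R with ha
  set b : ℝ := p.2 / R with hb
  set Q : Set Pl := Disc_sq a b r with hQ
  have hint : ∀ {g : Pl → ℝ}, Continuous g → IntegrableOn g Q := fun hg =>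
    Disc_intble hg a b r
  set θ : ℝ := a1 * cb / (16 * A1) with hθ
  have hθpos : 0 < θ := by positivity
  have hκ2 : 2 ≤ κ := by
    rw [hκ]
    have : 0 ≤ 16 * A1 * (1 + 1 / θ) / (a1 * cb) := by positivity
    linarith
  have hκpos : 0 < κ := by linarith
  set α : ℝ := (∫ y in Q, u y) / r ^ 2 with hα
  set β : ℝ := (∫ y in Q, v y) / r ^ 2 with hβ
  obtain ⟨u1, u2⟩ := LOC_var hu a b hrpos
  obtain ⟨v1, v2⟩ := LOC_var hv a b hrpos
  rw [← hQ, ← hα] at u1 u2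
  rw [← hQ, ← hβ] at v1 v2
  set I : ℝ := ∫ z in Q, (u z ^ 2 + v z ^ 2) with hI
  have hIs : I = (∫ z in Q, u z ^ 2) + ∫ z in Q, v z ^ 2 := by
    rw [hI]
    exact integral_add (hint (hu.continuous.pow 2)) (hint (hv.continuous.pow 2))
  have hV : ∫ z in Q, ((u z - α) ^ 2 + (v z - β) ^ 2) =
      (∫ z in Q, (u z - α) ^ 2) + ∫ z in Q, (v z - β) ^ 2 :=
    integral_add (hint ((hu.continuous.sub continuous_const).pow 2))
      (hint ((hv.continuous.sub continuous_const).pow 2))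
  have hG : ∫ z in Q, (dx u z ^ 2 + dy u z ^ 2 + (dx v z ^ 2 + dy v z ^ 2)) =
      (∫ z in Q, (dx u z ^ 2 + dy u z ^ 2)) + ∫ z in Q, (dx v z ^ 2 + dy v z ^ 2) :=
    integral_add (hint (((Cmp_dx hu).pow 2).add ((Cmp_dy hu).pow 2)))
      (hint (((Cmp_dx hv).pow 2).add ((Cmp_dy hv).pow 2)))
  set V : ℝ := ∫ z in Q, ((u z - α) ^ 2 + (v z - β) ^ 2) with hVd
  set Gr : ℝ := ∫ z in Q, (dx u z ^ 2 + dy u z ^ 2 + (dx v z ^ 2 + dy v z ^ 2)) with hGr
  set J : ℝ := (α ^ 2 + β ^ 2) * r ^ 2 with hJ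
  have hV0 : 0 ≤ V := setIntegral_nonneg (Disc_sq_meas _ _ _) fun z _ => by positivity
  have hJ0 : 0 ≤ J := by positivity
  have hVJ : V = I - J := by
    rw [hV, u1, v1, hIs, hJ]
    ring
  have hVG : V ≤ r ^ 2 * Gr := by
    rw [hV, hG]
    linarith
  have hVI : κ * V ≤ I := by
    calc κ * V ≤ κ * (r ^ 2 * Gr) := mul_le_mul_of_nonneg_left hVG hκpos.le
      _ = κ * r ^ 2 * Gr := by ring
      _ ≤ I := hgood
  -- the weight
  set F : Pl → ℝ := fun z => bmp R p z * ρ z with hF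
  have hFc : Continuous F := (bmp_smooth R p).continuous.mul hρ
  have hF0 : ∀ z ∈ Q, 0 ≤ F z := fun z hz =>
    mul_nonneg (bmp_nonneg R p z) (ha1.le.trans (hlo z hz))
  have hFA : ∀ z ∈ Q, F z ≤ A1 := by
    intro z hz
    calc F z = bmp R p z * ρ z := rfl
      _ ≤ 1 * ρ z := mul_le_mul_of_nonneg_right (bmp_le_one R p z) (ha1.le.trans (hlo z hz))
      _ ≤ A1 := by rw [one_mul]; exact hup z hz
  have hout : ∀ (g : Pl → ℝ), ∫ z, bmp R p z * g z = ∫ z in Q, bmp R p z * g z := by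
    intro g
    refine (setIntegral_eq_integral_of_forall_compl_eq_zero fun z hz => ?_).symm
    have : bmp R p z = 0 := by
      by_contra hne
      exact hz (bmp_supp hR p hne)
    rw [this, zero_mul]
  set M : ℝ := ∫ z in Q, F z with hM
  have hMlow : a1 * cb * r ^ 2 ≤ M := by
    have h1 : ∫ z, bmp R p z = ∫ z in Q, bmp R p z := by
      have := hout fun _ => 1
      simpa using this
    have h2 : a1 * ∫ z in Q, bmp R p z ≤ M := by
      rw [hM, ← integral_const_mul]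
      refine setIntegral_mono_on ((hint (bmp_smooth R p).continuous).const_mul a1) (hint hFc)
        (Disc_sq_meas _ _ _) fun z hz => ?_
      rw [mul_comm]
      exact mul_le_mul_of_nonneg_left (hlo z hz) (bmp_nonneg R p z)
    have h3 : cb * r ^ 2 = cb / (R : ℝ) ^ 2 := by
      rw [hr]
      field_simp
    calc a1 * cb * r ^ 2 = a1 * (cb / (R : ℝ) ^ 2) := by rw [← h3]; ring
      _ ≤ a1 * ∫ z, bmp R p z := mul_le_mul_of_nonneg_left hcbR ha1.le
      _ = a1 * ∫ z in Q, bmp R p z := by rw [h1]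
      _ ≤ M := h2
  -- the two components
  set X : ℝ := ∫ z, bmp R p z * (u z ^ 2 - v z ^ 2) * ρ z with hX
  set Y : ℝ := 2 * ∫ z, bmp R p z * (u z * v z) * ρ z with hY
  have hXQ : X = ∫ z in Q, F z * (u z ^ 2 - v z ^ 2) := by
    have h1 : ∀ z, bmp R p z * (u z ^ 2 - v z ^ 2) * ρ z =
        bmp R p z * ((u z ^ 2 - v z ^ 2) * ρ z) := fun z => by ring
    rw [hX]
    simp_rw [h1]
    rw [hout]
    congr 1
    funext z
    simp only [hF]
    ring
  have hYQ : Y = ∫ z in Q, F z * (2 * (u z * v z)) := by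
    have h1 : ∀ z, bmp R p z * (u z * v z) * ρ z =
        bmp R p z * ((u z * v z) * ρ z) := fun z => by ring
    rw [hY]
    simp_rw [h1]
    rw [hout, ← integral_const_mul]
    congr 1
    funext z
    simp only [hF]
    ring
  set E : ℝ := A1 * (θ * J + (1 + 1 / θ) * V) with hE
  have hc1 := LOC_core hu.continuous hv.continuous hFc a b (A := A1) hrpos hθpos α β hF0 hFA
    (G := fun z => u z ^ 2 - v z ^ 2) ((hu.continuous.pow 2).sub (hv.continuous.pow 2))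
    (α ^ 2 - β ^ 2) (fun z => LOC_pt1 hθpos)
  have hc2 := LOC_core hu.continuous hv.continuous hFc a b (A := A1) hrpos hθpos α β hF0 hFA
    (G := fun z => 2 * (u z * v z)) (continuous_const.mul (hu.continuous.mul hv.continuous))
    (2 * (α * β)) (fun z => LOC_pt2 hθpos)
  have hX1 : |X - (α ^ 2 - β ^ 2) * M| ≤ E := by
    rw [hXQ]
    exact hc1
  have hY1 : |Y - 2 * (α * β) * M| ≤ E := by
    rw [hYQ]
    exact hc2
  have hM0 : 0 ≤ M := le_trans (by positivity) hMlow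
  have key := LOC_vec hX1 hY1
  have hsq : √(((α ^ 2 - β ^ 2) * M) ^ 2 + (2 * (α * β) * M) ^ 2) = (α ^ 2 + β ^ 2) * M := by
    have h1 : ((α ^ 2 - β ^ 2) * M) ^ 2 + (2 * (α * β) * M) ^ 2 = ((α ^ 2 + β ^ 2) * M) ^ 2 := by
      ring
    rw [h1]
    exact Real.sqrt_sq (by positivity)
  rw [hsq] at key
  refine le_trans ?_ key
  -- arithmetic
  have hI0 : 0 ≤ I := by linarith
  have hJI : J ≤ I := by linarith
  have hJI2 : I / 2 ≤ J := by nlinarith
  have h1 : J * (a1 * cb) ≤ (α ^ 2 + β ^ 2) * M := by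
    calc J * (a1 * cb) = (α ^ 2 + β ^ 2) * (a1 * cb * r ^ 2) := by rw [hJ]; ring
      _ ≤ (α ^ 2 + β ^ 2) * M := mul_le_mul_of_nonneg_left hMlow (by positivity)
  have h2 : 2 * A1 * (θ * J) ≤ a1 * cb / 8 * I := by
    have : 2 * A1 * (θ * J) = a1 * cb / 8 * J := by
      rw [hθ]
      field_simp
      ring
    rw [this]
    exact mul_le_mul_of_nonneg_left hJI (by positivity)
  have h3 : 2 * A1 * ((1 + 1 / θ) * V) ≤ a1 * cb / 8 * I := by
    have h4 : 16 * A1 * (1 + 1 / θ) / (a1 * cb) * V ≤ I := by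
      refine le_trans ?_ hVI
      refine mul_le_mul_of_nonneg_right ?_ hV0
      rw [hκ]
      linarith
    have h5 : 2 * A1 * ((1 + 1 / θ) * V) =
        a1 * cb / 8 * (16 * A1 * (1 + 1 / θ) / (a1 * cb) * V) := by
      field_simp
      ring
    rw [h5]
    exact mul_le_mul_of_nonneg_left h4 (by positivity)
  have h6 : 2 * E = 2 * A1 * (θ * J) + 2 * A1 * ((1 + 1 / θ) * V) := by
    rw [hE]
    ring
  have h7 : a1 * cb * (I / 2) ≤ a1 * cb * J := mul_le_mul_of_nonneg_left hJI2 (by positivity)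
  rw [h6]
  nlinarith

/-- Localisation, with a weight between two positive constants. -/
theorem localize_w (hX : Surface Γ D) (m : Mt Γ D) {L : ℕ} (hL : D ⊆ bigSq L) {w1 w2 : ℝ}
    (hw1 : 0 < w1) (hw2 : 0 < w2) :
    ∃ c > 0, ∃ C > 0, ∀ W : Pl → ℝ, Continuous W → (∀ z, w1 ≤ W z) → (∀ z, W z ≤ w2) →
      ∀ R : ℕ, 1 ≤ R → ∀ u ∈ Test Γ, ∀ v ∈ Test Γ,
      C * (en D m.1.1 u + en D m.1.1 v) ≤ (R : ℝ) ^ 2 * (l2 D m.1.1 u + l2 D m.1.1 v) →
      ∃ p ∈ grid L R, c * (l2 D m.1.1 u + l2 D m.1.1 v) / (R : ℝ) ^ 2 ≤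
        √((∫ z, bmp R p z * (u z ^ 2 - v z ^ 2) * (W z * √(dt (m.1.1 z)))) ^ 2 +
          (2 * ∫ z, bmp R p z * (u z * v z) * (W z * √(dt (m.1.1 z)))) ^ 2) := by
  obtain ⟨z0, hz0⟩ : D.Nonempty := by
    obtain ⟨γ, hγ, -⟩ := hX.orbit 0
    exact ⟨_, hγ⟩
  have hL1 : 1 ≤ L := by
    rcases Nat.eq_zero_or_pos L with h | h
    · subst h
      have h1 := hL hz0
      simp only [bigSq, Disc_sq, mem_prod, mem_Ico, Nat.cast_zero] at h1
      exfalso
      linarith [h1.1.1, h1.1.2]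
    · exact h
  have hL0 : (0 : ℝ) < L := by exact_mod_cast hL1
  set K : Set Pl := Icc (-(L : ℝ)) (-L + 2 * L) ×ˢ Icc (-(L : ℝ)) (-L + 2 * L) with hK
  have hKc : IsCompact K := isCompact_Icc.prod isCompact_Icc
  have hQK : bigSq L ⊆ K := Disc_sq_sub _ _ _
  have hKne : K.Nonempty := ⟨z0, hQK (hL hz0)⟩
  have hm : Continuous m.1.1 := m.1.2.continuous
  have hsq : Continuous fun z => √(dt (m.1.1 z)) := BGR_rho m
  have hEG : ∀ z, 0 < (m.1.1 z).1 + (m.1.1 z).2.2 := by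
    intro z
    have h := m.2.pos z
    have h3 : 0 < (m.1.1 z).2.2 := by
      have h4 := h.2
      unfold dt at h4
      by_contra hc
      push Not at hc
      nlinarith [mul_nonneg h.1.le (neg_nonneg.2 hc), sq_nonneg (m.1.1 z).2.1]
    linarith [h.1]
  have hlow : Continuous fun z => √(dt (m.1.1 z)) / ((m.1.1 z).1 + (m.1.1 z).2.2) :=
    hsq.div ((continuous_fst.comp hm).add (continuous_snd.comp (continuous_snd.comp hm)))
      fun z => (hEG z).ne'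
  obtain ⟨z1, _, hz1⟩ := hKc.exists_isMaxOn hKne hsq.continuousOn
  obtain ⟨z2, _, hz2⟩ := hKc.exists_isMinOn hKne hlow.continuousOn
  obtain ⟨z3, _, hz3⟩ := hKc.exists_isMinOn hKne hsq.continuousOn
  set A1 : ℝ := √(dt (m.1.1 z1)) with hA1
  set a2 : ℝ := √(dt (m.1.1 z2)) / ((m.1.1 z2).1 + (m.1.1 z2).2.2) with ha2
  set a1 : ℝ := √(dt (m.1.1 z3)) with ha1
  have hA1pos : 0 < A1 := Real.sqrt_pos.2 (m.2.pos z1).2
  have ha1pos : 0 < a1 := Real.sqrt_pos.2 (m.2.pos z3).2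
  have ha2pos : 0 < a2 := div_pos (Real.sqrt_pos.2 (m.2.pos z2).2) (hEG z2)
  obtain ⟨cb, hcb, hcbR⟩ := bmp_int
  obtain ⟨P, hP, hcov⟩ := en_cover hX m (bigSq L) (hKc.isBounded.subset hQK)
    (Disc_sq_meas _ _ _)
  set κ : ℝ := 2 + 16 * (w2 * A1) * (1 + 1 / ((w1 * a1) * cb / (16 * (w2 * A1)))) /
    ((w1 * a1) * cb) with hκ
  have hw1a : 0 < w1 * a1 := by positivity
  have hw2a : 0 < w2 * A1 := by positivity
  have hκpos : 0 < κ := by positivity
  refine ⟨(w1 * a1) * cb / (32 * A1 * L ^ 2), by positivity, 2 * κ * (P / a2) * A1,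
    by positivity, ?_⟩
  intro W hW hWlo hWup R hR u hu v hv hyp
  have hR0 : (0 : ℝ) < R := by exact_mod_cast hR
  set Λ : ℝ := l2 D m.1.1 u + l2 D m.1.1 v with hΛ
  set En : ℝ := en D m.1.1 u + en D m.1.1 v with hEn
  set S : Set Pl := bigSq L with hS
  have hSint : ∀ {g : Pl → ℝ}, Continuous g → IntegrableOn g S := fun hg =>
    Disc_intble hg _ _ _
  -- the L² norm is bounded by the integral over `S`
  have s1 : ∀ w ∈ Test Γ, l2 D m.1.1 w ≤ A1 * ∫ z in S, w z ^ 2 := by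
    intro w hw
    rw [← integral_const_mul]
    calc l2 D m.1.1 w ≤ ∫ z in S, w z ^ 2 * √(dt (m.1.1 z)) :=
          setIntegral_mono_set (hSint (Cmp_l2_cont m hw.1))
            (Eventually.of_forall fun z => mul_nonneg (sq_nonneg _) (Real.sqrt_nonneg _))
            hL.eventuallyLE
      _ ≤ ∫ z in S, A1 * w z ^ 2 := by
          refine setIntegral_mono_on (hSint (Cmp_l2_cont m hw.1))
            (hSint (continuous_const.mul (hw.1.continuous.pow 2)))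
            (Disc_sq_meas _ _ _) fun z hz => ?_
          rw [mul_comm]
          exact mul_le_mul_of_nonneg_right (hz1 (hQK hz)) (sq_nonneg _)
  have s2 : ∀ w ∈ Test Γ, a2 * ∫ z in S, (dx w z ^ 2 + dy w z ^ 2) ≤ P * en D m.1.1 w := by
    intro w hw
    rw [← integral_const_mul]
    refine le_trans ?_ (hcov w hw)
    refine setIntegral_mono_on
      (hSint (continuous_const.mul (((Cmp_dx hw.1).pow 2).add ((Cmp_dy hw.1).pow 2))))
      (hSint (Cmp_wf_cont m hw.1)) (Disc_sq_meas _ _ _) fun z hz => ?_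
    refine le_trans ?_ (Disc_wf (m.2.pos z).1 (m.2.pos z).2 _ _)
    exact mul_le_mul_of_nonneg_right (hz2 (hQK hz)) (by positivity)
  -- decomposition
  have hrpos : 0 < 1 / (R : ℝ) := by positivity
  have hNr : ((2 * L * R : ℕ) : ℝ) * (1 / (R : ℝ)) = 2 * L := by
    push_cast
    field_simp
  have hdec : ∀ {g : Pl → ℝ}, Continuous g → ∫ z in S, g z =
      ∑ q : Fin (2 * L * R) × Fin (2 * L * R),
        ∫ z in Disc_sq (-L + (q.1 : ℕ) * (1 / (R : ℝ))) (-L + (q.2 : ℕ) * (1 / (R : ℝ)))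
          (1 / (R : ℝ)), g z := by
    intro g hg
    have := Disc_sum hg (-L) (-L) hrpos (2 * L * R)
    rw [hNr] at this
    exact this
  set g1 : Pl → ℝ := fun z => u z ^ 2 + v z ^ 2 with hg1
  set g2 : Pl → ℝ := fun z => dx u z ^ 2 + dy u z ^ 2 + (dx v z ^ 2 + dy v z ^ 2) with hg2
  have hg1c : Continuous g1 := (hu.1.continuous.pow 2).add (hv.1.continuous.pow 2)
  have hg2c : Continuous g2 := (((Cmp_dx hu.1).pow 2).add ((Cmp_dy hu.1).pow 2)).add
    (((Cmp_dx hv.1).pow 2).add ((Cmp_dy hv.1).pow 2))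
  have t1 : Λ / A1 ≤ ∫ z in S, g1 z := by
    have h1 : ∫ z in S, g1 z = (∫ z in S, u z ^ 2) + ∫ z in S, v z ^ 2 :=
      integral_add (hSint (hu.1.continuous.pow 2)) (hSint (hv.1.continuous.pow 2))
    rw [div_le_iff₀ hA1pos, h1]
    have := s1 u hu
    have := s1 v hv
    linarith
  have t2 : a2 * ∫ z in S, g2 z ≤ P * En := by
    have h1 : ∫ z in S, g2 z = (∫ z in S, (dx u z ^ 2 + dy u z ^ 2)) +
        ∫ z in S, (dx v z ^ 2 + dy v z ^ 2) :=
      integral_add (hSint (((Cmp_dx hu.1).pow 2).add ((Cmp_dy hu.1).pow 2)))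
        (hSint (((Cmp_dx hv.1).pow 2).add ((Cmp_dy hv.1).pow 2)))
    rw [h1]
    have := s2 u hu
    have := s2 v hv
    linarith
  have hΛ0 : 0 ≤ Λ := by
    have h1 : ∀ w : Pl → ℝ, 0 ≤ l2 D m.1.1 w := fun w =>
      setIntegral_nonneg hX.meas fun z _ => mul_nonneg (sq_nonneg _) (Real.sqrt_nonneg _)
    exact add_nonneg (h1 u) (h1 v)
  have t3 : κ * (1 / (R : ℝ)) ^ 2 * ∫ z in S, g2 z ≤ Λ / (2 * A1) := by
    have h1 : ∫ z in S, g2 z ≤ P / a2 * En := by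
      rw [div_mul_eq_mul_div, le_div_iff₀ ha2pos]
      linarith
    have h2 : κ * (1 / (R : ℝ)) ^ 2 * ∫ z in S, g2 z ≤ κ * (1 / (R : ℝ)) ^ 2 * (P / a2 * En) :=
      mul_le_mul_of_nonneg_left h1 (by positivity)
    refine h2.trans ?_
    rw [le_div_iff₀ (by positivity)]
    have h3 : κ * (1 / (R : ℝ)) ^ 2 * (P / a2 * En) * (2 * A1) =
        (2 * κ * (P / a2) * A1 * En) / (R : ℝ) ^ 2 := by
      field_simp
    rw [h3, div_le_iff₀ (by positivity)]
    linarith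
  -- pigeonhole
  have hpig : ∃ q : Fin (2 * L * R) × Fin (2 * L * R),
      Λ / (2 * A1) / (2 * L * R) ^ 2 ≤
        (∫ z in Disc_sq (-L + (q.1 : ℕ) * (1 / (R : ℝ))) (-L + (q.2 : ℕ) * (1 / (R : ℝ)))
          (1 / (R : ℝ)), g1 z) - κ * (1 / (R : ℝ)) ^ 2 *
        ∫ z in Disc_sq (-L + (q.1 : ℕ) * (1 / (R : ℝ))) (-L + (q.2 : ℕ) * (1 / (R : ℝ)))
          (1 / (R : ℝ)), g2 z := by
    have hne : (Finset.univ : Finset (Fin (2 * L * R) × Fin (2 * L * R))).Nonempty := by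
      have : 0 < 2 * L * R := by positivity
      exact ⟨(⟨0, this⟩, ⟨0, this⟩), Finset.mem_univ _⟩
    obtain ⟨q, -, hq⟩ := Finset.exists_le_of_sum_le hne (f := fun _ =>
      Λ / (2 * A1) / (2 * L * R) ^ 2) (g := fun q : Fin (2 * L * R) × Fin (2 * L * R) =>
        (∫ z in Disc_sq (-L + (q.1 : ℕ) * (1 / (R : ℝ))) (-L + (q.2 : ℕ) * (1 / (R : ℝ)))
          (1 / (R : ℝ)), g1 z) - κ * (1 / (R : ℝ)) ^ 2 *
        ∫ z in Disc_sq (-L + (q.1 : ℕ) * (1 / (R : ℝ))) (-L + (q.2 : ℕ) * (1 / (R : ℝ)))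
          (1 / (R : ℝ)), g2 z) (by
        rw [Finset.sum_const, Finset.card_univ, Fintype.card_prod, Fintype.card_fin,
          Finset.sum_sub_distrib, ← Finset.mul_sum, ← hdec hg1c, ← hdec hg2c, nsmul_eq_mul]
        have h4 : ((2 * L * R * (2 * L * R) : ℕ) : ℝ) * (Λ / (2 * A1) / (2 * L * R) ^ 2) =
            Λ / (2 * A1) := by
          push_cast
          field_simp
        rw [h4]
        have h5 : Λ / A1 = Λ / (2 * A1) + Λ / (2 * A1) := by
          field_simp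
          ring
        linarith)
    exact ⟨q, hq⟩
  obtain ⟨q, hq⟩ := hpig
  set p : ℤ × ℤ := (-(L * R : ℤ) + (q.1 : ℕ), -(L * R : ℤ) + (q.2 : ℕ)) with hp
  have hp1 : (p.1 : ℝ) / R = -L + (q.1 : ℕ) * (1 / (R : ℝ)) := by
    rw [hp]
    push_cast
    field_simp
  have hp2 : (p.2 : ℝ) / R = -L + (q.2 : ℕ) * (1 / (R : ℝ)) := by
    rw [hp]
    push_cast
    field_simp
  have hpg : p ∈ grid L R := by
    have h1 := q.1.2
    have h2 := q.2.2
    have h3 : (2 * L * R : ℤ) = L * R + L * R := by ring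
    have h4 : ((q.1 : ℕ) : ℤ) < L * R + L * R := by rw [← h3]; exact_mod_cast h1
    have h5 : ((q.2 : ℕ) : ℤ) < L * R + L * R := by rw [← h3]; exact_mod_cast h2
    simp only [grid, Finset.mem_product, Finset.mem_Ico, hp]
    refine ⟨⟨?_, ?_⟩, ⟨?_, ?_⟩⟩ <;> omega
  refine ⟨p, hpg, ?_⟩
  rw [← hp1, ← hp2] at hq
  set Q : Set Pl := Disc_sq (p.1 / R) (p.2 / R) (1 / R) with hQ
  have hQS : Q ⊆ S := by
    rw [hQ, hp1, hp2]
    have h1 := Disc_decomp (-L) (-L) hrpos (2 * L * R)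
    rw [hNr] at h1
    show _ ⊆ Disc_sq (-L) (-L) (2 * L)
    rw [h1]
    exact subset_biUnion_of_mem (u := fun p : Fin (2 * L * R) × Fin (2 * L * R) =>
      Disc_sq (-(L : ℝ) + (p.1 : ℕ) * (1 / (R : ℝ))) (-(L : ℝ) + (p.2 : ℕ) * (1 / (R : ℝ)))
        (1 / (R : ℝ))) (Finset.mem_coe.2 (Finset.mem_univ q))
  have hg20 : 0 ≤ ∫ z in Q, g2 z := setIntegral_nonneg (Disc_sq_meas _ _ _) fun z _ => by
    simp only [hg2]
    positivity
  have hpos1 : 0 ≤ Λ / (2 * A1) / (2 * L * R) ^ 2 := by positivity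
  have hgood : κ * (1 / (R : ℝ)) ^ 2 * (∫ z in Q, g2 z) ≤ ∫ z in Q, g1 z := by linarith
  have hup : ∀ z ∈ Q, W z * √(dt (m.1.1 z)) ≤ w2 * A1 := fun z hz =>
    mul_le_mul (hWup z) (hz1 (hQK (hQS hz))) (Real.sqrt_nonneg _) hw2.le
  have hlo : ∀ z ∈ Q, w1 * a1 ≤ W z * √(dt (m.1.1 z)) := fun z hz =>
    mul_le_mul (hWlo z) (hz3 (hQK (hQS hz))) ha1pos.le (hw1.le.trans (hWlo z))
  have hmain := LOC_good (ρ := fun z => W z * √(dt (m.1.1 z))) hu.1 hv.1 (hW.mul hsq) hR p hw1a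
    hw2a hcb hup hlo (hcbR R hR p) hκ hgood
  refine le_trans ?_ hmain
  have h6 : 0 ≤ κ * (1 / (R : ℝ)) ^ 2 * ∫ z in Q, g2 z := by positivity
  have h7 : Λ / (2 * A1) / (2 * L * R) ^ 2 ≤ ∫ z in Q, g1 z := by linarith
  have h8 : (w1 * a1) * cb / (32 * A1 * L ^ 2) * Λ / (R : ℝ) ^ 2 =
      (w1 * a1) * cb / 4 * (Λ / (2 * A1) / (2 * L * R) ^ 2) := by
    field_simp
    ring
  rw [h8]
  exact mul_le_mul_of_nonneg_left h7 (by positivity)

theorem localize (hX : Surface Γ D) (m : Mt Γ D) {L : ℕ} (hL : D ⊆ bigSq L) :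
    ∃ c > 0, ∃ C > 0, ∀ R : ℕ, 1 ≤ R → ∀ u ∈ Test Γ, ∀ v ∈ Test Γ,
      C * (en D m.1.1 u + en D m.1.1 v) ≤ (R : ℝ) ^ 2 * (l2 D m.1.1 u + l2 D m.1.1 v) →
      ∃ p ∈ grid L R, c * (l2 D m.1.1 u + l2 D m.1.1 v) / (R : ℝ) ^ 2 ≤
        √((∫ z, bmp R p z * (u z ^ 2 - v z ^ 2) * √(dt (m.1.1 z))) ^ 2 +
          (2 * ∫ z, bmp R p z * (u z * v z) * √(dt (m.1.1 z))) ^ 2) := by
  obtain ⟨c, hc, C, hC, h⟩ := localize_w hX m hL (w1 := 1) (w2 := 1) one_pos one_pos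
  refine ⟨c, hc, C, hC, fun R hR u hu v hv hyp => ?_⟩
  obtain ⟨p, hp, h1⟩ := h (fun _ => 1) continuous_const (fun _ => le_rfl) (fun _ => le_rfl) R hR
    u hu v hv hyp
  refine ⟨p, hp, ?_⟩
  simp only [one_mul] at h1
  exact h1

end BGS
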