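import Pool.Agent.LibBGR.AE_WGT
import Pool.Agent.LibBGR.Knk
import Pool.Agent.LibBGR.Loc
import Pool.Agent.LibBGR.Per

/-! ### ROW KEX : kinks in the direction of a bump function -/

open MeasureTheory Set Filter Topology
open scoped ContDiff ENNReal NNReal unitInterval

namespace BGS


variable {Γ : Type} [Group Γ] [MulAction Γ Pl] {D : Set Pl}

/-- The product of two functions on the surface. -/
noncomputable def KEX_mul (u v : TestS Γ) : TestS Γ :=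
  ⟨fun z => u.1 z * v.1 z, u.2.1.mul v.2.1, fun γ z => by
    change u.1 (γ • z) * v.1 (γ • z) = u.1 z * v.1 z
    rw [u.2.2 γ z, v.2.2 γ z]⟩

theorem KEX_mul_apply (u v : TestS Γ) (z : Pl) : (KEX_mul u v).1 z = u.1 z * v.1 z := rfl

theorem KEX_pos (φ : TestS Γ) (z : Pl) : 0 < (expT φ).1 z := Real.exp_pos _

/-- The periodised bump function. -/
noncomputable def KEX_eta (hX : Surface Γ D) {R : ℕ} (hR : 1 ≤ R) (p : ℤ × ℤ) : TestS Γ :=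
  ⟨per Γ (bmp R p), per_mem hX (bmp_smooth R p) (bmp_compact hR p)⟩

theorem KEX_symm (hX : Surface Γ D) (m : Mt Γ D) (w u v : TestS Γ) :
    bF hX m w u v = bF hX m w v u := by
  rw [bF_apply, bF_apply]
  congr 1
  funext z
  ring

theorem KEX_nonneg (hX : Surface Γ D) (m : Mt Γ D) (w : TestS Γ) (hw : ∀ z, 0 ≤ w.1 z)
    (u : TestS Γ) : 0 ≤ bF hX m w u u := by
  rw [bF_apply]
  refine integral_nonneg fun z => ?_
  have h1 : w.1 z * u.1 z * u.1 z * √(dt (m.1.1 z)) = w.1 z * (u.1 z) ^ 2 * √(dt (m.1.1 z)) := by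
    ring
  change 0 ≤ w.1 z * u.1 z * u.1 z * √(dt (m.1.1 z))
  rw [h1]
  exact mul_nonneg (mul_nonneg (hw z) (sq_nonneg _)) (Real.sqrt_nonneg _)

/-- `e^{φ ± τ η}` dominates `w ± τ w η`. -/
theorem KEX_dom (hX : Surface Γ D) (m : Mt Γ D) (φ η φp : TestS Γ) (τ : ℝ)
    (hp : ∀ z, φp.1 z = φ.1 z + τ * η.1 z) (k : ℕ) :
    mu (aF hX m) (bF hX m (expT φ) + τ • bF hX m (KEX_mul (expT φ) η)) k ≤ muE hX m φp k := by
  rw [← bF_add_smul]
  have h1 := mu_le_of_le (a := aF hX m) (b := bF hX m (expT φ + τ • KEX_mul (expT φ) η))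
    (b' := bF hX m (expT φp)) one_pos (expT_lam1 hX m φp) (fun u => by
      refine bF_le hX m (fun z => ?_) u
      rw [one_mul, Submodule.coe_add, Pi.add_apply, Submodule.coe_smul, Pi.smul_apply,
        smul_eq_mul, KEX_mul_apply, expT_apply, expT_apply, hp z, Real.exp_add]
      have h2 := Real.add_one_le_exp (τ * η.1 z)
      have h3 := mul_le_mul_of_nonneg_left h2 (Real.exp_pos (φ.1 z)).le
      nlinarith) k
  rw [one_mul] at h1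
  exact h1

theorem KEX_SE (hX : Surface Γ D) (m : Mt Γ D) (φ η φp φm : TestS Γ) (τ : ℝ)
    (hp : ∀ z, φp.1 z = φ.1 z + τ * η.1 z) (hm : ∀ z, φm.1 z = φ.1 z - τ * η.1 z) (n : ℕ) :
    ∑ k ∈ Finset.range (n + 1), mu (aF hX m)
        (bF hX m (expT φ) + τ • bF hX m (KEX_mul (expT φ) η)) k
      + ∑ k ∈ Finset.range (n + 1), mu (aF hX m)
        (bF hX m (expT φ) - τ • bF hX m (KEX_mul (expT φ) η)) k
      - 2 * ∑ k ∈ Finset.range (n + 1), mu (aF hX m) (bF hX m (expT φ)) k ≤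
    SE hX m n φp + SE hX m n φm - 2 * SE hX m n φ := by
  unfold SE
  refine sub_le_sub (add_le_add (Finset.sum_le_sum fun k _ => KEX_dom hX m φ η φp τ hp k)
    (Finset.sum_le_sum fun k _ => ?_)) le_rfl
  have h1 := KEX_dom hX m φ η φm (-τ) (fun z => by rw [hm z]; ring) k
  have h2 : bF hX m (expT φ) + (-τ) • bF hX m (KEX_mul (expT φ) η) =
      bF hX m (expT φ) - τ • bF hX m (KEX_mul (expT φ) η) := by
    refine LinearMap.ext fun u => LinearMap.ext fun v => ?_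
    simp only [LinearMap.add_apply, LinearMap.sub_apply, LinearMap.smul_apply, smul_eq_mul]
    ring
  rw [h2] at h1
  exact h1

/-- `h u u - h v v` as an integral over the plane. -/
theorem KEX_diff (hX : Surface Γ D) (m : Mt Γ D) (φ : TestS Γ) {R : ℕ} (hR : 1 ≤ R) (p : ℤ × ℤ)
    (u v : TestS Γ) :
    bF hX m (KEX_mul (expT φ) (KEX_eta hX hR p)) u u -
      bF hX m (KEX_mul (expT φ) (KEX_eta hX hR p)) v v =
    ∫ z, bmp R p z * (Real.exp (φ.1 z) * (u.1 z ^ 2 - v.1 z ^ 2)) * √(dt (m.1.1 z)) := by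
  rw [← per_int hX m (bmp_smooth R p) (bmp_compact hR p)
    (g := fun z => Real.exp (φ.1 z) * (u.1 z ^ 2 - v.1 z ^ 2))
    ((Real.continuous_exp.comp φ.2.1.continuous).mul
      ((u.2.1.continuous.pow 2).sub (v.2.1.continuous.pow 2)))
    (fun γ z => by rw [φ.2.2 γ z, u.2.2 γ z, v.2.2 γ z])]
  rw [bF_apply, bF_apply, ← integral_sub]
  · congr 1
    funext z
    rw [KEX_mul_apply, expT_apply]
    change Real.exp (φ.1 z) * per Γ (bmp R p) z * u.1 z * u.1 z * √(dt (m.1.1 z)) -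
      Real.exp (φ.1 z) * per Γ (bmp R p) z * v.1 z * v.1 z * √(dt (m.1.1 z)) = _
    ring
  · exact Cmp_int hX (BGR_b_cont m (KEX_mul (expT φ) (KEX_eta hX hR p)).2.1 u.2.1 u.2.1)
  · exact Cmp_int hX (BGR_b_cont m (KEX_mul (expT φ) (KEX_eta hX hR p)).2.1 v.2.1 v.2.1)

theorem KEX_cross (hX : Surface Γ D) (m : Mt Γ D) (φ : TestS Γ) {R : ℕ} (hR : 1 ≤ R) (p : ℤ × ℤ)
    (u v : TestS Γ) :
    bF hX m (KEX_mul (expT φ) (KEX_eta hX hR p)) u v =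
    ∫ z, bmp R p z * (Real.exp (φ.1 z) * (u.1 z * v.1 z)) * √(dt (m.1.1 z)) := by
  rw [← per_int hX m (bmp_smooth R p) (bmp_compact hR p)
    (g := fun z => Real.exp (φ.1 z) * (u.1 z * v.1 z))
    ((Real.continuous_exp.comp φ.2.1.continuous).mul (u.2.1.continuous.mul v.2.1.continuous))
    (fun γ z => by rw [φ.2.2 γ z, u.2.2 γ z, v.2.2 γ z])]
  rw [bF_apply]
  congr 1
  funext z
  rw [KEX_mul_apply, expT_apply]
  change Real.exp (φ.1 z) * per Γ (bmp R p) z * u.1 z * v.1 z * √(dt (m.1.1 z)) = _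
  ring

/-- The mass is bounded below by the weighted mass. -/
theorem KEX_mass (hX : Surface Γ D) (m : Mt Γ D) {M : ℝ} (φ : TestS Γ) (hφ : ∀ z, |φ.1 z| ≤ M)
    (u : TestS Γ) : Real.exp (-M) * bF hX m (expT φ) u u ≤ l2 D m.1.1 u.1 := by
  have h1 := bF_le hX m (w := expT φ) (w' := oneT Γ) (θ := Real.exp M) (fun z => by
    rw [expT_apply]
    change Real.exp (φ.1 z) ≤ Real.exp M * 1
    rw [mul_one, Real.exp_le_exp]
    exact (abs_le.1 (hφ z)).2) u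
  rw [bF_one_self] at h1
  calc Real.exp (-M) * bF hX m (expT φ) u u ≤ Real.exp (-M) * (Real.exp M * l2 D m.1.1 u.1) :=
        mul_le_mul_of_nonneg_left h1 (Real.exp_pos _).le
    _ = l2 D m.1.1 u.1 := by
        rw [← mul_assoc, ← Real.exp_add, neg_add_cancel, Real.exp_zero, one_mul]

/-- Weighted localisation, reordered. -/
theorem KEX_loc (hX : Surface Γ D) (m : Mt Γ D) {L : ℕ} (hL : D ⊆ bigSq L) (w₁ w₂ : ℝ)
    (hw₁ : 0 < w₁) (hw₂ : 0 < w₂) :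
    ∃ c > 0, ∃ C > 0, ∀ W : Pl → ℝ, Continuous W → (∀ z, w₁ ≤ W z ∧ W z ≤ w₂) →
      ∀ R : ℕ, 1 ≤ R → ∀ u ∈ Test Γ, ∀ v ∈ Test Γ,
      C * (en D m.1.1 u + en D m.1.1 v) ≤ (R : ℝ) ^ 2 * (l2 D m.1.1 u + l2 D m.1.1 v) →
      ∃ p ∈ grid L R, c * (l2 D m.1.1 u + l2 D m.1.1 v) / (R : ℝ) ^ 2 ≤
        √((∫ z, bmp R p z * (W z * (u z ^ 2 - v z ^ 2)) * √(dt (m.1.1 z))) ^ 2 +
          (2 * ∫ z, bmp R p z * (W z * (u z * v z)) * √(dt (m.1.1 z))) ^ 2) := by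
  obtain ⟨c, hc, C, hC, h⟩ := localize_w hX m hL hw₁ hw₂
  refine ⟨c, hc, C, hC, fun W hW hW2 R hR u hu v hv hcond => ?_⟩
  obtain ⟨p, hp, hpl⟩ := h W hW (fun z => (hW2 z).1) (fun z => (hW2 z).2) R hR u hu v hv hcond
  refine ⟨p, hp, ?_⟩
  have h1 : (fun z => bmp R p z * (W z * (u z ^ 2 - v z ^ 2)) * √(dt (m.1.1 z))) =
      fun z => bmp R p z * (u z ^ 2 - v z ^ 2) * (W z * √(dt (m.1.1 z))) := by
    funext z
    ring
  have h2 : (fun z => bmp R p z * (W z * (u z * v z)) * √(dt (m.1.1 z))) =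
      fun z => bmp R p z * (u z * v z) * (W z * √(dt (m.1.1 z))) := by
    funext z
    ring
  rw [h1, h2]
  exact hpl

theorem KEX_l2_nonneg (m : Mt Γ D) (u : Pl → ℝ) : 0 ≤ l2 D m.1.1 u := by
  unfold l2
  exact integral_nonneg fun z => mul_nonneg (sq_nonneg _) (Real.sqrt_nonneg _)

theorem semi_exp (hX : Surface Γ D) (m : Mt Γ D) (L : ℕ) (M : ℝ) :
    ∃ C₁ : ℝ, 0 < C₁ ∧ ∃ τ₁ : ℝ, 0 < τ₁ ∧ ∀ φ : TestS Γ, (∀ z, |φ.1 z| ≤ M) →
      ∀ n R : ℕ, 1 ≤ R → ∀ τ : ℝ, 0 ≤ τ → τ ≤ τ₁ → ∀ p ∈ grid L R, ∀ φp φm : TestS Γ,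
        (∀ z, φp.1 z = φ.1 z + τ * per Γ (bmp R p) z) →
        (∀ z, φm.1 z = φ.1 z - τ * per Γ (bmp R p) z) →
        -(C₁ * (n + 1) * τ ^ 2) ≤ SE hX m n φp + SE hX m n φm - 2 * SE hX m n φ := by
  obtain ⟨K, hK0, hK⟩ := per_bmp_le hX L
  obtain ⟨M₀, hM0, hM⟩ := muE_upper hX m M
  refine ⟨4 * K ^ 2 * M₀, by positivity, 1 / (2 * K), by positivity, ?_⟩
  intro φ hφ n R hR τ hτ hτ1 p hp φp φm hpp hmm
  set η := KEX_eta hX hR p with hη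
  have h1 := semiconvex (pair_surface hX m (expT φ) (KEX_pos φ)) (expT_lam1 hX m φ)
    (expT_top hX m φ) n (bF hX m (KEX_mul (expT φ) η)) K τ (KEX_symm hX m _)
    (KEX_nonneg hX m _ (fun z => mul_nonneg (KEX_pos φ z).le (per_bmp_nonneg R p z)))
    (bF_le hX m (fun z => by
      rw [KEX_mul_apply, mul_comm]
      exact mul_le_mul_of_nonneg_right (hK R hR p hp z) (KEX_pos φ z).le)) hK0.le hτ
    (by
      rw [le_div_iff₀ (by positivity)] at hτ1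
      linarith)
  have h2 := KEX_SE hX m φ η φp φm τ hpp hmm n
  have h3 : muE hX m φ 0 ≤ M₀ := hM φ hφ 0
  have h4 : 4 * ((n : ℝ) + 1) * K ^ 2 * τ ^ 2 * mu (aF hX m) (bF hX m (expT φ)) 0 ≤
      4 * K ^ 2 * M₀ * (n + 1) * τ ^ 2 := by
    have h5 := mul_le_mul_of_nonneg_left h3
      (by positivity : (0 : ℝ) ≤ 4 * ((n : ℝ) + 1) * K ^ 2 * τ ^ 2)
    change 4 * ((n : ℝ) + 1) * K ^ 2 * τ ^ 2 * muE hX m φ 0 ≤ _
    linarith
  linarith

theorem kink_exp (hX : Surface Γ D) (m : Mt Γ D) {L : ℕ} (hL : D ⊆ bigSq L) (M : ℝ) :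
    ∃ z₀ : ℝ, 0 < z₀ ∧ ∃ τ₀ : ℝ, 0 < τ₀ ∧ ∃ A : ℕ, 1 ≤ A ∧ ∀ φ : TestS Γ, (∀ z, |φ.1 z| ≤ M) →
      ∀ n R : ℕ, A * (n + 2) ^ 2 ≤ R → ∀ τ : ℝ, 0 < τ →
      τ ≤ τ₀ / (((n : ℝ) + 2) ^ 5 * (R : ℝ) ^ 2) →
      muE hX m φ n - muE hX m φ (n + 1) ≤ τ * (z₀ / (((n : ℝ) + 2) ^ 4 * (R : ℝ) ^ 2)) →
      ∃ p ∈ grid L R, ∀ φp φm : TestS Γ, (∀ z, φp.1 z = φ.1 z + τ * per Γ (bmp R p) z) →
        (∀ z, φm.1 z = φ.1 z - τ * per Γ (bmp R p) z) →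
        τ * (z₀ / (((n : ℝ) + 2) ^ 4 * (R : ℝ) ^ 2)) ≤
          SE hX m n φp + SE hX m n φm - 2 * SE hX m n φ := by
  obtain ⟨K, hK0, hK⟩ := per_bmp_le hX L
  obtain ⟨M₀, hM0, hM⟩ := muE_upper hX m M
  obtain ⟨c₀, hc0, hc⟩ := muE_lower hX m M
  obtain ⟨c, hcpos, C, hCpos, hloc⟩ := KEX_loc hX m hL (Real.exp (-M)) (Real.exp M)
    (Real.exp_pos _) (Real.exp_pos _)
  set κ : ℝ := c * Real.exp (-M) * c₀ / 2 with hκ
  have hκ0 : 0 < κ := by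
    have := Real.exp_pos (-M)
    positivity
  obtain ⟨A₀, hA₀⟩ := exists_nat_ge (4 * C * Real.exp M / c₀)
  refine ⟨κ / 8, by positivity, min (1 / (2 * K)) (κ / (32 * K ^ 2 * M₀)),
    lt_min (by positivity) (by positivity), A₀ + 1, by omega, ?_⟩
  intro φ hφ n R hR τ hτ hτ1 hgap
  have hn2 : (1 : ℝ) ≤ (n : ℝ) + 2 := by
    have : (0 : ℝ) ≤ n := Nat.cast_nonneg n
    linarith
  have hn20 : (0 : ℝ) < (n : ℝ) + 2 := by linarith
  have hR1 : 1 ≤ R := by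
    refine le_trans ?_ hR
    exact Nat.one_le_iff_ne_zero.2 (Nat.mul_ne_zero (by omega) (pow_ne_zero _ (by omega)))
  have hR1' : (1 : ℝ) ≤ R := by exact_mod_cast hR1
  have hR0 : (0 : ℝ) < R := by linarith
  -- the basic quantity
  set X : ℝ := τ / (((n : ℝ) + 2) ^ 4 * (R : ℝ) ^ 2) with hX'
  have hX0 : 0 < X := by positivity
  have hXz : ∀ t : ℝ, τ * (t / (((n : ℝ) + 2) ^ 4 * (R : ℝ) ^ 2)) = t * X := by
    intro t
    rw [hX']
    ring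
  rw [hXz] at hgap
  set ε : ℝ := min (c₀ / (2 * ((n : ℝ) + 2) ^ 4)) (κ * X / (8 * (2 * n + 5))) with hε
  have hε0 : 0 < ε := lt_min (by positivity) (by positivity)
  obtain ⟨u, v, hu, hv, _, hbu, hkink⟩ := kink (pair_surface hX m (expT φ) (KEX_pos φ))
    (expT_lam1 hX m φ) (expT_top hX m φ) n hε0
  -- the mass of `u`
  have hmass : Real.exp (-M) * c₀ / (2 * ((n : ℝ) + 2) ^ 4) ≤ l2 D m.1.1 u.1 := by
    have h1 := KEX_mass hX m φ hφ u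
    have h2 := hc φ hφ n
    have h3 : ε ≤ c₀ / (2 * ((n : ℝ) + 2) ^ 4) := min_le_left _ _
    have h4 : c₀ / (2 * ((n : ℝ) + 2) ^ 4) ≤ bF hX m (expT φ) u u := by
      have h5 : c₀ / ((n : ℝ) + 2) ^ 4 = 2 * (c₀ / (2 * ((n : ℝ) + 2) ^ 4)) := by
        field_simp
      have h6 : muE hX m φ n - ε ≤ bF hX m (expT φ) u u := hbu
      rw [h5] at h2
      linarith
    calc Real.exp (-M) * c₀ / (2 * ((n : ℝ) + 2) ^ 4)
        = Real.exp (-M) * (c₀ / (2 * ((n : ℝ) + 2) ^ 4)) := by ring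
      _ ≤ Real.exp (-M) * bF hX m (expT φ) u u :=
          mul_le_mul_of_nonneg_left h4 (Real.exp_pos _).le
      _ ≤ _ := h1
  have hv0 : 0 ≤ l2 D m.1.1 v.1 := KEX_l2_nonneg m v.1
  -- localisation
  have hcond : C * (en D m.1.1 u.1 + en D m.1.1 v.1) ≤
      (R : ℝ) ^ 2 * (l2 D m.1.1 u.1 + l2 D m.1.1 v.1) := by
    rw [← aF_self hX m u, ← aF_self hX m v, hu, hv]
    have h1 : (((A₀ : ℝ) + 1) * ((n : ℝ) + 2) ^ 2) ≤ R := by exact_mod_cast hR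
    have h2 : (((A₀ : ℝ) + 1) * ((n : ℝ) + 2) ^ 2) ^ 2 ≤ (R : ℝ) ^ 2 :=
      pow_le_pow_left₀ (by positivity) h1 2
    have h3 : 4 * C * Real.exp M / c₀ ≤ ((A₀ : ℝ) + 1) ^ 2 := by
      have h4 : (0 : ℝ) ≤ A₀ := Nat.cast_nonneg _
      nlinarith
    have h5 : C * (1 + 1) ≤ (R : ℝ) ^ 2 * (Real.exp (-M) * c₀ / (2 * ((n : ℝ) + 2) ^ 4)) := by
      have h6 : ((A₀ : ℝ) + 1) ^ 2 * ((n : ℝ) + 2) ^ 4 ≤ (R : ℝ) ^ 2 := by
        calc ((A₀ : ℝ) + 1) ^ 2 * ((n : ℝ) + 2) ^ 4 = (((A₀ : ℝ) + 1) * ((n : ℝ) + 2) ^ 2) ^ 2 := by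
              ring
          _ ≤ _ := h2
      have h7 : 4 * C * Real.exp M / c₀ * ((n : ℝ) + 2) ^ 4 ≤ (R : ℝ) ^ 2 :=
        le_trans (mul_le_mul_of_nonneg_right h3 (by positivity)) h6
      have h8 : C * (1 + 1) = 4 * C * Real.exp M / c₀ * ((n : ℝ) + 2) ^ 4 *
          (Real.exp (-M) * c₀ / (2 * ((n : ℝ) + 2) ^ 4)) := by
        rw [Real.exp_neg]
        have := (Real.exp_pos M).ne'
        field_simp
        ring
      rw [h8]
      refine mul_le_mul_of_nonneg_right h7 ?_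
      have := Real.exp_pos (-M)
      positivity
    refine h5.trans (mul_le_mul_of_nonneg_left ?_ (by positivity))
    linarith
  obtain ⟨p, hp, hpl⟩ := hloc (fun z => Real.exp (φ.1 z))
    (Real.continuous_exp.comp φ.2.1.continuous)
    (fun z => ⟨Real.exp_le_exp.2 (abs_le.1 (hφ z)).1, Real.exp_le_exp.2 (abs_le.1 (hφ z)).2⟩)
    R hR1 u.1 u.2 v.1 v.2 hcond
  refine ⟨p, hp, ?_⟩
  intro φp φm hpp hmm
  rw [hXz]
  set η := KEX_eta hX hR1 p with hη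
  have hτK : τ * K ≤ 1 / 2 := by
    have h1 : τ ≤ 1 / (2 * K) := by
      refine hτ1.trans ((div_le_self (le_min (by positivity) (by positivity)) ?_).trans
        (min_le_left _ _))
      have h2 : (1 : ℝ) ≤ ((n : ℝ) + 2) ^ 5 := one_le_pow₀ hn2
      have h3 : (1 : ℝ) ≤ (R : ℝ) ^ 2 := one_le_pow₀ hR1'
      nlinarith
    rw [le_div_iff₀ (by positivity)] at h1
    linarith
  have h1 := hkink (bF hX m (KEX_mul (expT φ) η)) K τ (KEX_symm hX m _)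
    (KEX_nonneg hX m _ (fun z => mul_nonneg (KEX_pos φ z).le (per_bmp_nonneg R p z)))
    (bF_le hX m (fun z => by
      rw [KEX_mul_apply, mul_comm]
      exact mul_le_mul_of_nonneg_right (hK R hR1 p hp z) (KEX_pos φ z).le)) hK0.le hτ.le hτK
  rw [KEX_diff, KEX_cross] at h1
  have h2 := KEX_SE hX m φ η φp φm τ hpp hmm n
  -- the main term
  have h3 : κ * X ≤ τ * √((∫ z, bmp R p z * (Real.exp (φ.1 z) * (u.1 z ^ 2 - v.1 z ^ 2)) *
        √(dt (m.1.1 z))) ^ 2 +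
      (2 * ∫ z, bmp R p z * (Real.exp (φ.1 z) * (u.1 z * v.1 z)) * √(dt (m.1.1 z))) ^ 2) := by
    have h4 : κ / (((n : ℝ) + 2) ^ 4 * (R : ℝ) ^ 2) ≤
        c * (l2 D m.1.1 u.1 + l2 D m.1.1 v.1) / (R : ℝ) ^ 2 := by
      have h5 : κ / (((n : ℝ) + 2) ^ 4 * (R : ℝ) ^ 2) =
          c * (Real.exp (-M) * c₀ / (2 * ((n : ℝ) + 2) ^ 4)) / (R : ℝ) ^ 2 := by
        rw [hκ]
        field_simp
      rw [h5]
      refine div_le_div_of_nonneg_right (mul_le_mul_of_nonneg_left ?_ hcpos.le) (by positivity)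
      linarith
    calc κ * X = τ * (κ / (((n : ℝ) + 2) ^ 4 * (R : ℝ) ^ 2)) := (hXz κ).symm
      _ ≤ _ := mul_le_mul_of_nonneg_left (h4.trans hpl) hτ.le
  -- the quadratic error
  have h6 : 4 * ((n : ℝ) + 1) * K ^ 2 * τ ^ 2 * mu (aF hX m) (bF hX m (expT φ)) 0 ≤ κ / 8 * X := by
    have h7 : muE hX m φ 0 ≤ M₀ := hM φ hφ 0
    have h8 : τ ≤ κ / (32 * K ^ 2 * M₀) / (((n : ℝ) + 2) ^ 5 * (R : ℝ) ^ 2) :=
      hτ1.trans (div_le_div_of_nonneg_right (min_le_right _ _) (by positivity))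
    have h9 : 4 * ((n : ℝ) + 1) * K ^ 2 * τ ^ 2 * muE hX m φ 0 ≤
        4 * ((n : ℝ) + 2) * K ^ 2 * τ ^ 2 * M₀ := by
      refine mul_le_mul ?_ h7 ?_ (by positivity)
      · have : 4 * ((n : ℝ) + 1) * K ^ 2 * τ ^ 2 ≤ 4 * ((n : ℝ) + 2) * K ^ 2 * τ ^ 2 := by
          have h10 : (0 : ℝ) ≤ K ^ 2 * τ ^ 2 := by positivity
          nlinarith
        exact this
      · have h11 := hc φ hφ 0
        refine le_trans ?_ h11
        positivity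
    have h10 : 4 * ((n : ℝ) + 2) * K ^ 2 * τ ^ 2 * M₀ =
        4 * ((n : ℝ) + 2) * K ^ 2 * M₀ * τ * τ := by ring
    have h11 : 4 * ((n : ℝ) + 2) * K ^ 2 * M₀ * τ * τ ≤ 4 * ((n : ℝ) + 2) * K ^ 2 * M₀ * τ *
        (κ / (32 * K ^ 2 * M₀) / (((n : ℝ) + 2) ^ 5 * (R : ℝ) ^ 2)) :=
      mul_le_mul_of_nonneg_left h8 (by positivity)
    have h12 : 4 * ((n : ℝ) + 2) * K ^ 2 * M₀ * τ *
        (κ / (32 * K ^ 2 * M₀) / (((n : ℝ) + 2) ^ 5 * (R : ℝ) ^ 2)) = κ / 8 * X := by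
      rw [hX']
      field_simp
      ring
    change 4 * ((n : ℝ) + 1) * K ^ 2 * τ ^ 2 * muE hX m φ 0 ≤ κ / 8 * X
    linarith
  have h7 : (2 * (n : ℝ) + 5) * ε ≤ κ / 8 * X := by
    have h8 : ε ≤ κ * X / (8 * (2 * n + 5)) := min_le_right _ _
    have h9 : (0 : ℝ) < 2 * (n : ℝ) + 5 := by positivity
    calc (2 * (n : ℝ) + 5) * ε ≤ (2 * (n : ℝ) + 5) * (κ * X / (8 * (2 * n + 5))) :=
          mul_le_mul_of_nonneg_left h8 h9.le
      _ = κ / 8 * X := by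
          field_simp
  have h8 : mu (aF hX m) (bF hX m (expT φ)) n - mu (aF hX m) (bF hX m (expT φ)) (n + 1) ≤
      κ / 8 * X := hgap
  have h9 : 0 < κ * X := mul_pos hκ0 hX0
  linarith

end BGS
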