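import Pool.Agent.LibBGR.AE_SCT
import Pool.Agent.LibBGR.AE_KEX

/-! ROW LVB : the probability of a small gap. -/

open MeasureTheory Set Filter Topology
open scoped ContDiff ENNReal NNReal unitInterval

namespace BGS

open Pool.BGR (PM upI pj)

variable {Γ : Type} [Group Γ] [MulAction Γ Pl] {D : Set Pl}


theorem LVB_card (L R : ℕ) : (grid L R).card = (2 * (L * R)) ^ 2 := by
  unfold grid
  rw [Finset.card_product, Int.card_Ico]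
  have h : ((L * R : ℤ) - -(L * R : ℤ)).toNat = 2 * (L * R) := by
    have : (L * R : ℤ) - -(L * R : ℤ) = ((2 * (L * R) : ℕ) : ℤ) := by push_cast; ring
    rw [this]
    exact Int.toNat_natCast _
  rw [h, sq]

/-- The change of one coordinate, up and down. -/
theorem LVB_up (hX : Surface Γ D) (L : ℕ) {c : ℕ → ℝ} (hc : Cs c) (ψ : TestS Γ)
    (Φ : (Dir → I) → TestS Γ) (hΦ : ∀ ξ z, (Φ ξ).1 z = ψ.1 z + phi Γ L c ξ z) (R : ℕ)
    {p : ℤ × ℤ} (hp : p ∈ grid L (R + 1)) (ξ : Dir → I) (s : ℝ)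
    (hs : (ξ (R, p) : ℝ) + s ∈ Icc (0 : ℝ) 1) (z : Pl) :
    (Φ (upI ξ (R, p) (pj (ξ (R, p) + s)))).1 z =
      (Φ ξ).1 z + c R * s * per Γ (bmp (R + 1) p) z := by
  rw [hΦ, hΦ, phi_up hX L hc ξ R hp, Pool.BGR.pj_of_mem hs]
  ring

theorem level_bad (hX : Surface Γ D) (m : Mt Γ D) {L : ℕ} (hL : D ⊆ bigSq L) {c : ℕ → ℝ}
    (hc : Cs c) (ψ : TestS Γ) :
    ∃ A B : ℕ, ∃ C₂ : ℝ, 0 < C₂ ∧ ∀ (Φ : (Dir → I) → TestS Γ),
      (∀ ξ z, (Φ ξ).1 z = ψ.1 z + phi Γ L c ξ z) → ∀ (n : ℕ) (δ : ℝ), 0 < δ →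
        C₂ * ((n : ℝ) + 1) ^ B * δ ≤ c (A * (n + 2) ^ 2) →
        PM Dir {ξ | muE hX m (Φ ξ) n - muE hX m (Φ ξ) (n + 1) < δ} ≤
          ENNReal.ofReal (C₂ * ((n : ℝ) + 1) ^ B * δ / c (A * (n + 2) ^ 2)) := by
  obtain ⟨M1, hM1, hψ⟩ := test_bdd hX ψ
  obtain ⟨M2, hM2, hφ⟩ := phi_bound hX L hc
  obtain ⟨z₀, hz₀, τ₀, hτ₀, A, hA, hk⟩ := kink_exp hX m hL (M1 + M2)
  obtain ⟨C₁, hC₁, τ₁, hτ₁, hs⟩ := semi_exp hX m L (M1 + M2)
  obtain ⟨Λ, hΛ, hl⟩ := SE_lip hX m L hc ψ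
  have hA' : (1 : ℝ) ≤ A := by exact_mod_cast hA
  set Z : ℝ := 256 * (A : ℝ) ^ 2 / z₀ with hZ
  have hZ0 : 0 < Z := by positivity
  set C₂ : ℝ := 64 * (L : ℝ) ^ 2 * (A : ℝ) ^ 2 * Z * (2 + (2 * Λ + C₁) * Z)
    + 512 * (A : ℝ) ^ 2 * Z / τ₀ + Z / τ₁ + 2 * Z with hC₂
  have hC₂0 : 0 < C₂ := by positivity
  refine ⟨A, 21, C₂, hC₂0, fun Φ hΦ n δ hδ hδc => ?_⟩
  have hΦb : ∀ ξ z, |(Φ ξ).1 z| ≤ M1 + M2 := by
    intro ξ z
    rw [hΦ]
    exact (abs_add_le _ _).trans (add_le_add (hψ z) (hφ ξ z))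
  set N : ℝ := (n : ℝ) + 1 with hN
  have hN1 : 1 ≤ N := by
    rw [hN]
    linarith [Nat.cast_nonneg (α := ℝ) n]
  have hN0 : 0 < N := by linarith
  have hn2 : (n : ℝ) + 2 ≤ 2 * N := by
    rw [hN]
    linarith [Nat.cast_nonneg (α := ℝ) n]
  have hn20 : 0 < (n : ℝ) + 2 := by positivity
  set Rn : ℕ := A * (n + 2) ^ 2 with hRn
  have hRn1 : 1 ≤ Rn := Nat.one_le_iff_ne_zero.2 (by rw [hRn]; positivity)
  obtain ⟨R', hR'⟩ : ∃ R' : ℕ, R' + 1 = Rn := ⟨Rn - 1, Nat.sub_add_cancel hRn1⟩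
  have hRr : (Rn : ℝ) = A * ((n : ℝ) + 2) ^ 2 := by
    rw [hRn]
    push_cast
    ring
  have hRpos : (0 : ℝ) < Rn := by exact_mod_cast hRn1
  set cn : ℝ := c Rn with hcn
  have hcn0 : 0 < cn := hc.pos _
  have hcn1 : cn ≤ 1 := hc.le_one _
  have hcR : cn ≤ c R' := hc.anti (by omega)
  have hcR0 : 0 < c R' := hc.pos _
  have hcR1 : c R' ≤ 1 := hc.le_one _
  set z : ℝ := z₀ / (((n : ℝ) + 2) ^ 4 * (Rn : ℝ) ^ 2) with hz
  have hz0 : 0 < z := by positivity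
  -- the reciprocal of `z`
  have hq : 1 / z ≤ Z * N ^ 8 := by
    have h1 : 1 / z = (A : ℝ) ^ 2 * ((n : ℝ) + 2) ^ 8 / z₀ := by
      rw [hz, hRr]
      field_simp
    rw [h1, hZ, div_mul_eq_mul_div]
    refine div_le_div_of_nonneg_right ?_ hz₀.le
    have h2 : ((n : ℝ) + 2) ^ 8 ≤ (2 * N) ^ 8 := pow_le_pow_left₀ hn20.le hn2 8
    have h3 := mul_le_mul_of_nonneg_left h2 (sq_nonneg (A : ℝ))
    have h4 : (A : ℝ) ^ 2 * (2 * N) ^ 8 = 256 * (A : ℝ) ^ 2 * N ^ 8 := by ring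
    rw [h4] at h3
    exact h3
  have hδ1 : C₂ * N ^ 21 * δ ≤ 1 := hδc.trans hcn1
  -- the parameters
  set t : ℝ := δ / (z * c R') with ht
  have ht0 : 0 < t := by positivity
  have hτ : c R' * t = δ / z := by
    rw [ht]
    field_simp
  have hτz : c R' * t * z = δ := by
    rw [hτ]
    field_simp
  have hδz : δ / z ≤ δ * (Z * N ^ 8) := by
    rw [div_eq_mul_one_div]
    exact mul_le_mul_of_nonneg_left hq hδ.le
  have hN8 : N ^ 8 ≤ N ^ 21 := pow_le_pow_right₀ hN1 (by norm_num)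
  have hN17 : N ^ 17 ≤ N ^ 21 := pow_le_pow_right₀ hN1 (by norm_num)
  have hpart : ∀ x : ℝ, 0 ≤ x → x ≤ C₂ → ∀ y : ℝ, 0 ≤ y → y ≤ N ^ 21 → x * y * δ ≤ cn := by
    intro x hx hxC y hy hyN
    refine le_trans ?_ hδc
    exact mul_le_mul_of_nonneg_right (mul_le_mul hxC hyN hy hC₂0.le) hδ.le
  have hCa : 512 * (A : ℝ) ^ 2 * Z / τ₀ ≤ C₂ := by
    have h1 : 0 ≤ 64 * (L : ℝ) ^ 2 * (A : ℝ) ^ 2 * Z * (2 + (2 * Λ + C₁) * Z) := by positivity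
    have h2 : 0 ≤ Z / τ₁ := by positivity
    rw [hC₂]
    linarith
  have hCb : Z / τ₁ ≤ C₂ := by
    have h1 : 0 ≤ 64 * (L : ℝ) ^ 2 * (A : ℝ) ^ 2 * Z * (2 + (2 * Λ + C₁) * Z) := by positivity
    have h2 : 0 ≤ 512 * (A : ℝ) ^ 2 * Z / τ₀ := by positivity
    rw [hC₂]
    linarith
  have hCc : 2 * Z ≤ C₂ := by
    have h1 : 0 ≤ 64 * (L : ℝ) ^ 2 * (A : ℝ) ^ 2 * Z * (2 + (2 * Λ + C₁) * Z) := by positivity
    have h2 : 0 ≤ 512 * (A : ℝ) ^ 2 * Z / τ₀ := by positivity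
    have h3 : 0 ≤ Z / τ₁ := by positivity
    rw [hC₂]
    linarith
  have hτa : c R' * t ≤ τ₀ / (((n : ℝ) + 2) ^ 5 * (Rn : ℝ) ^ 2) := by
    rw [hτ, le_div_iff₀ (by positivity)]
    have h1 : ((n : ℝ) + 2) ^ 5 * (Rn : ℝ) ^ 2 ≤ 512 * (A : ℝ) ^ 2 * N ^ 9 := by
      have h2 : ((n : ℝ) + 2) ^ 5 * (Rn : ℝ) ^ 2 = (A : ℝ) ^ 2 * ((n : ℝ) + 2) ^ 9 := by
        rw [hRr]
        ring
      have h3 : ((n : ℝ) + 2) ^ 9 ≤ (2 * N) ^ 9 := pow_le_pow_left₀ hn20.le hn2 9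
      rw [h2]
      have h4 := mul_le_mul_of_nonneg_left h3 (sq_nonneg (A : ℝ))
      have h5 : (A : ℝ) ^ 2 * (2 * N) ^ 9 = 512 * (A : ℝ) ^ 2 * N ^ 9 := by ring
      rw [h5] at h4
      exact h4
    have h2 := hpart _ (by positivity) hCa (N ^ 17) (by positivity) hN17
    have h3 : 512 * (A : ℝ) ^ 2 * Z / τ₀ * N ^ 17 * δ ≤ 1 := h2.trans hcn1
    have h4 : 512 * (A : ℝ) ^ 2 * Z * N ^ 17 * δ ≤ τ₀ := by
      have h5 : 512 * (A : ℝ) ^ 2 * Z / τ₀ * N ^ 17 * δ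
          = 512 * (A : ℝ) ^ 2 * Z * N ^ 17 * δ / τ₀ := by ring
      rw [h5, div_le_one hτ₀] at h3
      exact h3
    calc δ / z * (((n : ℝ) + 2) ^ 5 * (Rn : ℝ) ^ 2)
        ≤ (δ * (Z * N ^ 8)) * (512 * (A : ℝ) ^ 2 * N ^ 9) :=
          mul_le_mul hδz h1 (by positivity) (by positivity)
      _ = 512 * (A : ℝ) ^ 2 * Z * N ^ 17 * δ := by ring
      _ ≤ τ₀ := h4
  have hτb : c R' * t ≤ τ₁ := by
    rw [hτ]
    refine hδz.trans ?_
    have h2 := hpart _ (by positivity) hCb (N ^ 8) (by positivity) hN8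
    have h3 : Z / τ₁ * N ^ 8 * δ ≤ 1 := h2.trans hcn1
    have h5 : Z / τ₁ * N ^ 8 * δ = δ * (Z * N ^ 8) / τ₁ := by ring
    rw [h5, div_le_one hτ₁] at h3
    exact h3
  have htc : t ≤ 1 / 2 := by
    have h2 := hpart _ (by positivity) hCc (N ^ 8) (by positivity) hN8
    have h3 : 2 * (c R' * t) ≤ c R' := by
      rw [hτ]
      linarith [hδz, h2, hcR]
    have h4 : c R' * (2 * t) ≤ c R' * 1 := by linarith
    have h5 := le_of_mul_le_mul_left h4 hcR0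
    linarith
  -- the application of `bad_le`
  set J : Finset Dir := (grid L Rn).image (fun p => (R', p)) with hJ
  have hJc : (J.card : ℝ) = 4 * (L : ℝ) ^ 2 * (Rn : ℝ) ^ 2 := by
    rw [hJ, Finset.card_image_of_injective _ (Prod.mk_right_injective R'), LVB_card]
    push_cast
    ring
  have hJm : ∀ i ∈ J, ∃ p ∈ grid L (R' + 1), i = (R', p) := by
    intro i hi
    rw [hJ, Finset.mem_image] at hi
    obtain ⟨p, hp, rfl⟩ := hi
    rw [hR']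
    exact ⟨p, hp, rfl⟩
  have key := Pool.BGR.bad_le (S := fun ξ => SE hX m n (Φ ξ)) (SE_cont hX m L hc n Φ ψ hΦ).measurable
    J (c R' * (Λ * (n + 1))) (C₁ * (n + 1) * c R' ^ 2) t δ
    (by
      intro i hi ξ x y
      obtain ⟨p, hp, rfl⟩ := hJm i hi
      exact hl Φ hΦ n R' p hp ξ x y)
    (by positivity) ht0 htc hδ
    (by
      intro i hi ξ h1 h2
      obtain ⟨p, hp, rfl⟩ := hJm i hi
      have h3 := hs (Φ ξ) (hΦb ξ) n (R' + 1) (by omega) (c R' * t) (by positivity) hτb p hp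
        (Φ (upI ξ (R', p) (pj (ξ (R', p) + t)))) (Φ (upI ξ (R', p) (pj (ξ (R', p) - t))))
        (fun z => LVB_up hX L hc ψ Φ hΦ R' hp ξ t ⟨by linarith, by linarith⟩ z)
        (fun z => by
          have h4 := LVB_up hX L hc ψ Φ hΦ R' hp ξ (-t) ⟨by linarith, by linarith⟩ z
          rw [← sub_eq_add_neg] at h4
          rw [h4]
          ring)
      have h5 : C₁ * (n + 1) * c R' ^ 2 * t ^ 2 = C₁ * (n + 1) * (c R' * t) ^ 2 := by ring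
      rw [h5]
      exact h3)
    {ξ | muE hX m (Φ ξ) n - muE hX m (Φ ξ) (n + 1) < δ}
    (by
      intro ξ hξ
      have h0 : muE hX m (Φ ξ) n - muE hX m (Φ ξ) (n + 1) < δ := hξ
      obtain ⟨p, hp, h3⟩ := hk (Φ ξ) (hΦb ξ) n Rn le_rfl (c R' * t) (by positivity) hτa
        (by rw [← hz, hτz]; exact h0.le)
      refine ⟨(R', p), Finset.mem_image.2 ⟨p, hp, rfl⟩, fun h1 h2 => ?_⟩
      rw [← hR'] at hp
      have h6 := h3 (Φ (upI ξ (R', p) (pj (ξ (R', p) + t))))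
        (Φ (upI ξ (R', p) (pj (ξ (R', p) - t))))
        (fun z => by
          rw [← hR']
          exact LVB_up hX L hc ψ Φ hΦ R' hp ξ t ⟨by linarith, by linarith⟩ z)
        (fun z => by
          have h4 := LVB_up hX L hc ψ Φ hΦ R' hp ξ (-t) ⟨by linarith, by linarith⟩ z
          rw [← sub_eq_add_neg] at h4
          rw [h4, ← hR']
          ring)
      rw [← hz, hτz] at h6
      exact h6)
  refine key.trans (ENNReal.ofReal_le_ofReal ?_)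
  rw [hJc]
  -- the final estimate
  have e1 : (2 * (c R' * (Λ * (n + 1))) + C₁ * (n + 1) * c R' ^ 2) * t ^ 2 / δ =
      (2 * Λ + C₁ * c R') * N * t * (1 / z) := by
    rw [← hτz, hN]
    field_simp
  have e2 : (2 * Λ + C₁ * c R') ≤ 2 * Λ + C₁ := by
    have h1 := mul_le_mul_of_nonneg_left hcR1 hC₁.le
    rw [mul_one] at h1
    linarith
  have e3 : (2 * (c R' * (Λ * (n + 1))) + C₁ * (n + 1) * c R' ^ 2) * t ^ 2 / δ ≤
      (2 * Λ + C₁) * N * t * (Z * N ^ 8) := by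
    rw [e1]
    refine mul_le_mul ?_ hq (by positivity) (by positivity)
    exact mul_le_mul_of_nonneg_right (mul_le_mul_of_nonneg_right e2 hN0.le) ht0.le
  have e4 : 2 * t + (2 * (c R' * (Λ * (n + 1))) + C₁ * (n + 1) * c R' ^ 2) * t ^ 2 / δ ≤
      t * ((2 + (2 * Λ + C₁) * Z) * N ^ 9) := by
    have h1 : (1 : ℝ) ≤ N ^ 9 := one_le_pow₀ hN1
    have h2 : 2 * t * 1 ≤ 2 * t * N ^ 9 := mul_le_mul_of_nonneg_left h1 (by positivity)
    have h3 : (2 * Λ + C₁) * N * t * (Z * N ^ 8) = t * ((2 * Λ + C₁) * Z * N ^ 9) := by ring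
    have h4 : t * ((2 + (2 * Λ + C₁) * Z) * N ^ 9) =
        2 * t * N ^ 9 + t * ((2 * Λ + C₁) * Z * N ^ 9) := by ring
    rw [h4]
    rw [h3] at e3
    linarith
  have e5 : t ≤ δ * (Z * N ^ 8) / cn := by
    have h1 : t = δ / z / c R' := by
      rw [ht, div_div]
    rw [h1]
    exact div_le_div₀ (by positivity) hδz hcn0 hcR
  have e6 : (Rn : ℝ) ^ 2 ≤ 16 * (A : ℝ) ^ 2 * N ^ 4 := by
    have h3 : ((n : ℝ) + 2) ^ 4 ≤ (2 * N) ^ 4 := pow_le_pow_left₀ hn20.le hn2 4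
    have h4 : (Rn : ℝ) ^ 2 = (A : ℝ) ^ 2 * ((n : ℝ) + 2) ^ 4 := by
      rw [hRr]
      ring
    rw [h4]
    have h5 := mul_le_mul_of_nonneg_left h3 (sq_nonneg (A : ℝ))
    have h6 : (A : ℝ) ^ 2 * (2 * N) ^ 4 = 16 * (A : ℝ) ^ 2 * N ^ 4 := by ring
    rw [h6] at h5
    exact h5
  calc 4 * (L : ℝ) ^ 2 * (Rn : ℝ) ^ 2 *
      (2 * t + (2 * (c R' * (Λ * (n + 1))) + C₁ * (n + 1) * c R' ^ 2) * t ^ 2 / δ)
      ≤ 4 * (L : ℝ) ^ 2 * (16 * (A : ℝ) ^ 2 * N ^ 4) *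
        ((δ * (Z * N ^ 8) / cn) * ((2 + (2 * Λ + C₁) * Z) * N ^ 9)) := by
        refine mul_le_mul (mul_le_mul_of_nonneg_left e6 (by positivity))
          (e4.trans (mul_le_mul_of_nonneg_right e5 (by positivity))) (by positivity) (by positivity)
    _ = 64 * (L : ℝ) ^ 2 * (A : ℝ) ^ 2 * Z * (2 + (2 * Λ + C₁) * Z) * N ^ 21 * δ / cn := by
        ring
    _ ≤ C₂ * N ^ 21 * δ / cn := by
        refine div_le_div_of_nonneg_right ?_ hcn0.le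
        refine mul_le_mul_of_nonneg_right (mul_le_mul_of_nonneg_right ?_ (by positivity)) hδ.le
        have h2 : 0 ≤ 512 * (A : ℝ) ^ 2 * Z / τ₀ := by positivity
        have h3 : 0 ≤ Z / τ₁ := by positivity
        rw [hC₂]
        linarith

end BGS
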