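import Pool.Agent.LibBGR.AE_WGT
import Pool.Agent.LibBGR.AE_PH2

open MeasureTheory Set Filter Topology
open scoped ContDiff ENNReal NNReal unitInterval

namespace BGS

open Pool.BGR (PM upI pj)

variable {Γ : Type} [Group Γ] [MulAction Γ Pl] {D : Set Pl}


/-! ### ROW SCT : continuity and Lipschitz bound in the parameters -/

theorem SCT_nonneg (hX : Surface Γ D) (m : Mt Γ D) (φ : TestS Γ) (k : ℕ) : 0 ≤ muE hX m φ k :=
  mu_nonneg _ _ k

theorem muE_cont (hX : Surface Γ D) (m : Mt Γ D) (L : ℕ) {c : ℕ → ℝ} (hc : Cs c) (n : ℕ)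
    (Φ : (Dir → I) → TestS Γ) (ψ : TestS Γ)
    (hΦ : ∀ ξ z, (Φ ξ).1 z = ψ.1 z + phi Γ L c ξ z) : Continuous fun ξ => muE hX m (Φ ξ) n := by
  rw [continuous_iff_continuousAt]
  intro ξ₀
  set μ₀ : ℝ := muE hX m (Φ ξ₀) n with hμ
  have h1 : Tendsto (fun ε : ℝ => Real.exp ε * μ₀) (𝓝[>] 0) (𝓝 μ₀) := by
    have h2 : Continuous fun ε : ℝ => Real.exp ε * μ₀ := by fun_prop
    have h3 := (h2.tendsto 0).mono_left (nhdsWithin_le_nhds (s := Ioi (0 : ℝ)))
    simpa using h3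
  have h2 : Tendsto (fun ε : ℝ => Real.exp (-ε) * μ₀) (𝓝[>] 0) (𝓝 μ₀) := by
    have h2 : Continuous fun ε : ℝ => Real.exp (-ε) * μ₀ := by fun_prop
    have h3 := (h2.tendsto 0).mono_left (nhdsWithin_le_nhds (s := Ioi (0 : ℝ)))
    simpa using h3
  have key : ∀ ε : ℝ, 0 < ε → ∀ᶠ ξ in 𝓝 ξ₀, Real.exp (-ε) * μ₀ ≤ muE hX m (Φ ξ) n ∧
      muE hX m (Φ ξ) n ≤ Real.exp ε * μ₀ := by
    intro ε hε
    filter_upwards [phi_cont hX L hc ξ₀ hε] with ξ hξ
    constructor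
    · have h3 : muE hX m (Φ ξ₀) n ≤ Real.exp ε * muE hX m (Φ ξ) n := by
        refine muE_le hX m (fun z => ?_) n
        have h4 := (abs_le.1 (hξ z)).1
        rw [hΦ, hΦ]
        linarith
      have h5 : Real.exp (-ε) * μ₀ ≤ Real.exp (-ε) * (Real.exp ε * muE hX m (Φ ξ) n) :=
        mul_le_mul_of_nonneg_left h3 (Real.exp_pos _).le
      rw [← mul_assoc, ← Real.exp_add, neg_add_cancel, Real.exp_zero, one_mul] at h5
      exact h5
    · refine muE_le hX m (fun z => ?_) n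
      have h4 := (abs_le.1 (hξ z)).2
      rw [hΦ, hΦ]
      linarith
  refine tendsto_order.2 ⟨fun l hl => ?_, fun u hu => ?_⟩
  · obtain ⟨ε, hε1, hε2⟩ := ((h2.eventually (lt_mem_nhds hl)).and self_mem_nhdsWithin).exists
    filter_upwards [key ε hε2] with ξ hξ
    exact lt_of_lt_of_le hε1 hξ.1
  · obtain ⟨ε, hε1, hε2⟩ := ((h1.eventually (gt_mem_nhds hu)).and self_mem_nhdsWithin).exists
    filter_upwards [key ε hε2] with ξ hξ
    exact lt_of_le_of_lt hξ.2 hε1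

theorem SE_cont (hX : Surface Γ D) (m : Mt Γ D) (L : ℕ) {c : ℕ → ℝ} (hc : Cs c) (n : ℕ)
    (Φ : (Dir → I) → TestS Γ) (ψ : TestS Γ)
    (hΦ : ∀ ξ z, (Φ ξ).1 z = ψ.1 z + phi Γ L c ξ z) : Continuous fun ξ => SE hX m n (Φ ξ) := by
  unfold SE
  exact continuous_finsetSum _ fun k _ => muE_cont hX m L hc k Φ ψ hΦ

theorem SCT_diff (hX : Surface Γ D) (m : Mt Γ D) {φ φ' : TestS Γ} {s C M₀ : ℝ} (hs : 0 ≤ s)
    (hsC : s ≤ C) (h : ∀ z, φ.1 z ≤ φ'.1 z + s) (k : ℕ) (hM0 : 0 ≤ M₀)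
    (hM : muE hX m φ' k ≤ M₀) :
    muE hX m φ k - muE hX m φ' k ≤ s * (Real.exp C * M₀) := by
  have h1 := muE_le hX m h k
  have h2 := SCT_nonneg hX m φ' k
  have h3 : Real.exp s - 1 ≤ s * Real.exp C := by
    have h4 : 1 - s ≤ Real.exp (-s) := by
      have := Real.add_one_le_exp (-s)
      linarith
    have h5 : Real.exp s * (1 - s) ≤ 1 := by
      calc Real.exp s * (1 - s) ≤ Real.exp s * Real.exp (-s) :=
            mul_le_mul_of_nonneg_left h4 (Real.exp_pos s).le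
        _ = 1 := by rw [← Real.exp_add, add_neg_cancel, Real.exp_zero]
    have h6 : Real.exp s ≤ Real.exp C := Real.exp_le_exp.2 hsC
    nlinarith [Real.exp_pos s]
  have h4 : 0 ≤ s * Real.exp C := mul_nonneg hs (Real.exp_pos C).le
  calc muE hX m φ k - muE hX m φ' k ≤ (Real.exp s - 1) * muE hX m φ' k := by linarith
    _ ≤ (s * Real.exp C) * muE hX m φ' k := mul_le_mul_of_nonneg_right h3 h2
    _ ≤ (s * Real.exp C) * M₀ := mul_le_mul_of_nonneg_left hM h4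
    _ = s * (Real.exp C * M₀) := by ring

theorem SE_lip (hX : Surface Γ D) (m : Mt Γ D) (L : ℕ) {c : ℕ → ℝ} (hc : Cs c) (ψ : TestS Γ) :
    ∃ Λ : ℝ, 0 < Λ ∧ ∀ (Φ : (Dir → I) → TestS Γ), (∀ ξ z, (Φ ξ).1 z = ψ.1 z + phi Γ L c ξ z) →
      ∀ (n R : ℕ), ∀ p ∈ grid L (R + 1), ∀ (ξ : Dir → I) (x y : I),
        |SE hX m n (Φ (upI ξ (R, p) x)) - SE hX m n (Φ (upI ξ (R, p) y))| ≤
          c R * (Λ * (n + 1)) * |(x : ℝ) - y| := by
  obtain ⟨C, hC0, hC⟩ := per_bmp_le hX L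
  obtain ⟨M₁, hM1, hM1'⟩ := test_bdd hX ψ
  obtain ⟨M₂, hM2, hM2'⟩ := phi_bound hX L hc
  obtain ⟨M₀, hM0, hM⟩ := muE_upper hX m (M₁ + M₂)
  refine ⟨C * (Real.exp C * M₀), mul_pos hC0 (mul_pos (Real.exp_pos C) hM0), ?_⟩
  intro Φ hΦ n R p hp ξ x y
  have hbd : ∀ (ξ : Dir → I) (k : ℕ), muE hX m (Φ ξ) k ≤ M₀ := by
    intro ξ k
    refine hM _ (fun z => ?_) k
    rw [hΦ]
    exact (abs_add_le _ _).trans (add_le_add (hM1' z) (hM2' ξ z))
  have hdiff : ∀ (x y : I) (k : ℕ),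
      muE hX m (Φ (upI ξ (R, p) x)) k - muE hX m (Φ (upI ξ (R, p) y)) k ≤
        c R * |(x : ℝ) - y| * C * (Real.exp C * M₀) := by
    intro x y k
    have hxy : |(x : ℝ) - y| ≤ 1 := by
      have h1 := x.2.1
      have h2 := x.2.2
      have h3 := y.2.1
      have h4 := y.2.2
      rw [abs_le]
      constructor <;> linarith
    have hcR := hc.pos R
    have hcR1 := hc.le_one R
    have h0 : 0 ≤ c R * |(x : ℝ) - y| := mul_nonneg hcR.le (abs_nonneg _)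
    have h1 : c R * |(x : ℝ) - y| ≤ 1 := by
      calc c R * |(x : ℝ) - y| ≤ 1 * 1 :=
            mul_le_mul hcR1 hxy (abs_nonneg _) zero_le_one
        _ = 1 := one_mul 1
    refine SCT_diff hX m (mul_nonneg h0 hC0.le) ?_ (fun z => ?_) k hM0.le (hbd _ k)
    · nlinarith
    · rw [hΦ, hΦ, phi_up hX L hc ξ R hp x z, phi_up hX L hc ξ R hp y z]
      have h2 := hC (R + 1) (Nat.le_add_left 1 R) p hp z
      have h3 : 0 ≤ per Γ (bmp (R + 1) p) z := per_bmp_nonneg (R + 1) p z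
      have h4 : c R * ((x : ℝ) - y) * per Γ (bmp (R + 1) p) z ≤ c R * |(x : ℝ) - y| * C := by
        calc c R * ((x : ℝ) - y) * per Γ (bmp (R + 1) p) z
            ≤ c R * |(x : ℝ) - y| * per Γ (bmp (R + 1) p) z := by
              refine mul_le_mul_of_nonneg_right ?_ h3
              exact mul_le_mul_of_nonneg_left (le_abs_self _) hcR.le
          _ ≤ c R * |(x : ℝ) - y| * C := mul_le_mul_of_nonneg_left h2 h0
      linarith
  have habs : ∀ k : ℕ,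
      |muE hX m (Φ (upI ξ (R, p) x)) k - muE hX m (Φ (upI ξ (R, p) y)) k| ≤
        c R * |(x : ℝ) - y| * C * (Real.exp C * M₀) := by
    intro k
    rw [abs_le]
    constructor
    · have h1 := hdiff y x k
      rw [abs_sub_comm] at h1
      linarith
    · exact hdiff x y k
  unfold SE
  rw [← Finset.sum_sub_distrib]
  refine (Finset.abs_sum_le_sum_abs _ _).trans ?_
  refine (Finset.sum_le_card_nsmul _ _ _ fun k _ => habs k).trans (le_of_eq ?_)
  rw [Finset.card_range, nsmul_eq_mul]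
  push_cast
  ring

end BGS
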