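import Pool.Agent.LibBGR.Defs

/-! ROW CNT : counting on a grid -/

open MeasureTheory Set Filter Topology
open scoped ContDiff ENNReal NNReal

namespace BGS

/-- The box `{0, ..., J - 1}^G`. -/
noncomputable def CNT_B (G : Type) [Fintype G] [DecidableEq G] (J : ℕ) : Finset (G → ℤ) :=
  Fintype.piFinset (fun _ => Finset.Ico (0 : ℤ) J)

/-- The part of the box with coordinate `p` equal to `c`. -/
noncomputable def CNT_line (G : Type) [Fintype G] [DecidableEq G] (J : ℕ) (p : G) (c : ℤ) :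
    Finset (G → ℤ) :=
  Fintype.piFinset (fun q => if q = p then {c} else Finset.Ico (0 : ℤ) J)

section

variable {G : Type} [Fintype G] [DecidableEq G]

theorem CNT_mem_B {J : ℕ} {ξ : G → ℤ} : ξ ∈ CNT_B G J ↔ ∀ q, 0 ≤ ξ q ∧ ξ q < J := by
  unfold CNT_B
  rw [Fintype.mem_piFinset]
  exact forall_congr' fun q => Finset.mem_Ico

theorem CNT_card_B (J : ℕ) : (CNT_B G J).card = J ^ Fintype.card G := by
  unfold CNT_B
  rw [Fintype.card_piFinset, Finset.prod_const, Int.card_Ico, Finset.card_univ]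
  simp

theorem CNT_card_line (J : ℕ) (p : G) (c : ℤ) :
    (CNT_line G J p c).card * J = J ^ Fintype.card G := by
  unfold CNT_line
  rw [Fintype.card_piFinset, ← Finset.mul_prod_erase Finset.univ _ (Finset.mem_univ p), if_pos rfl,
    Finset.card_singleton, one_mul]
  have h : ∀ q ∈ Finset.univ.erase p,
      (if q = p then ({c} : Finset ℤ) else Finset.Ico (0 : ℤ) J).card = J := by
    intro q hq
    rw [if_neg (Finset.ne_of_mem_erase hq), Int.card_Ico]
    simp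
  rw [Finset.prod_congr rfl h, Finset.prod_const, Finset.card_erase_of_mem (Finset.mem_univ p),
    Finset.card_univ, ← pow_succ]
  congr 1
  have h1 : 0 < Fintype.card G := Fintype.card_pos_iff.2 ⟨p⟩
  omega

theorem CNT_mem_line {J : ℕ} {p : G} {c : ℤ} {ξ : G → ℤ} (h : ξ p = c)
    (h' : ∀ q, q ≠ p → 0 ≤ ξ q ∧ ξ q < J) : ξ ∈ CNT_line G J p c := by
  unfold CNT_line
  rw [Fintype.mem_piFinset]
  intro q
  by_cases hq : q = p
  · rw [if_pos hq, Finset.mem_singleton, hq, h]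
  · rw [if_neg hq, Finset.mem_Ico]
    exact h' q hq

theorem CNT_of_mem_line {J : ℕ} {p : G} {c : ℤ} {ξ : G → ℤ} (h : ξ ∈ CNT_line G J p c) :
    ξ p = c ∧ ∀ q, q ≠ p → 0 ≤ ξ q ∧ ξ q < J := by
  unfold CNT_line at h
  rw [Fintype.mem_piFinset] at h
  constructor
  · have h1 := h p
    rw [if_pos rfl, Finset.mem_singleton] at h1
    exact h1
  · intro q hq
    have h1 := h q
    rw [if_neg hq, Finset.mem_Ico] at h1
    exact h1

/-- Telescoping in the direction `p`. -/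
theorem CNT_tele {J : ℕ} (hJ : 1 ≤ J) (p : G) (T : (G → ℤ) → ℝ) {l : ℝ} (hl : 0 ≤ l)
    (hT : ∀ ξ : G → ℤ, (∀ q, -1 ≤ ξ q ∧ ξ q < J) → |T ξ| ≤ l) :
    (∑ ξ ∈ CNT_B G J, (T ξ - T (ξ - Pi.single p 1))) * J ≤ 2 * l * (J : ℝ) ^ Fintype.card G := by
  classical
  set B := CNT_B G J with hB
  set B' := B.map (Equiv.subRight (Pi.single p (1 : ℤ) : G → ℤ)).toEmbedding with hB'
  have h1 : ∑ ξ ∈ B, T (ξ - Pi.single p 1) = ∑ η ∈ B', T η := by
    rw [hB', Finset.sum_map]
    rfl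
  have hsub1 : B \ B' ⊆ CNT_line G J p (J - 1) := by
    intro ξ hξ
    rw [Finset.mem_sdiff] at hξ
    have h2 := CNT_mem_B.1 hξ.1
    have h3 : ¬ (ξ + Pi.single p 1) ∈ B := by
      intro h
      refine hξ.2 ?_
      rw [hB', Finset.mem_map]
      exact ⟨ξ + Pi.single p 1, h, by simp [Equiv.subRight]⟩
    refine CNT_mem_line ?_ (fun q _ => h2 q)
    by_contra hne
    refine h3 (CNT_mem_B.2 fun q => ?_)
    by_cases hq : q = p
    · subst hq
      rw [Pi.add_apply, Pi.single_eq_same]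
      have := h2 q
      omega
    · rw [Pi.add_apply, Pi.single_eq_of_ne hq, add_zero]
      exact h2 q
  have hsub2 : B' \ B ⊆ CNT_line G J p (-1) := by
    intro η hη
    rw [Finset.mem_sdiff, hB', Finset.mem_map] at hη
    obtain ⟨⟨ξ, hξ, hξη⟩, hn⟩ := hη
    have h2 := CNT_mem_B.1 hξ
    have h4 : η = ξ - Pi.single p 1 := hξη.symm
    have h5 : ∀ q, q ≠ p → η q = ξ q := by
      intro q hq
      rw [h4, Pi.sub_apply, Pi.single_eq_of_ne hq, sub_zero]
    have h6 : η p = ξ p - 1 := by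
      rw [h4, Pi.sub_apply, Pi.single_eq_same]
    refine CNT_mem_line ?_ (fun q hq => by rw [h5 q hq]; exact h2 q)
    by_contra hne
    refine hn (CNT_mem_B.2 fun q => ?_)
    by_cases hq : q = p
    · subst hq
      have := h2 q
      omega
    · rw [h5 q hq]
      exact h2 q
  have hb1 : ∀ ξ ∈ B \ B', |T ξ| ≤ l := by
    intro ξ hξ
    obtain ⟨h2, h3⟩ := CNT_of_mem_line (hsub1 hξ)
    refine hT ξ fun q => ?_
    by_cases hq : q = p
    · subst hq; omega
    · have := h3 q hq; omega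
  have hb2 : ∀ ξ ∈ B' \ B, |T ξ| ≤ l := by
    intro ξ hξ
    obtain ⟨h2, h3⟩ := CNT_of_mem_line (hsub2 hξ)
    refine hT ξ fun q => ?_
    by_cases hq : q = p
    · subst hq; omega
    · have := h3 q hq; omega
  have hc1 : ((B \ B').card : ℝ) * J ≤ (J : ℝ) ^ Fintype.card G := by
    have h2 := Finset.card_le_card hsub1
    have h3 := CNT_card_line (G := G) J p (J - 1)
    have h4 : (B \ B').card * J ≤ J ^ Fintype.card G := by
      rw [← h3]; exact Nat.mul_le_mul_right _ h2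
    exact_mod_cast h4
  have hc2 : ((B' \ B).card : ℝ) * J ≤ (J : ℝ) ^ Fintype.card G := by
    have h2 := Finset.card_le_card hsub2
    have h3 := CNT_card_line (G := G) J p (-1)
    have h4 : (B' \ B).card * J ≤ J ^ Fintype.card G := by
      rw [← h3]; exact Nat.mul_le_mul_right _ h2
    exact_mod_cast h4
  have h7 : ∑ ξ ∈ B \ B', T ξ ≤ (B \ B').card * l := by
    rw [← nsmul_eq_mul]
    exact Finset.sum_le_card_nsmul _ _ _ fun ξ hξ => (abs_le.1 (hb1 ξ hξ)).2
  have h8 : -((B' \ B).card * l) ≤ ∑ ξ ∈ B' \ B, T ξ := by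
    have h9 : (B' \ B).card • (-l) ≤ ∑ ξ ∈ B' \ B, T ξ :=
      Finset.card_nsmul_le_sum _ _ _ fun ξ hξ => (abs_le.1 (hb2 ξ hξ)).1
    rw [nsmul_eq_mul] at h9
    linarith
  have h10 : ∑ ξ ∈ B, (T ξ - T (ξ - Pi.single p 1)) =
      ∑ ξ ∈ B \ B', T ξ - ∑ ξ ∈ B' \ B, T ξ := by
    rw [Finset.sum_sub_distrib, h1, Finset.sum_sdiff_sub_sum_sdiff]
  rw [h10]
  have hJ0 : (0 : ℝ) ≤ J := Nat.cast_nonneg J
  have h11 : ∑ ξ ∈ B \ B', T ξ - ∑ ξ ∈ B' \ B, T ξ ≤ ((B \ B').card + (B' \ B).card) * l := by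
    linarith
  calc (∑ ξ ∈ B \ B', T ξ - ∑ ξ ∈ B' \ B, T ξ) * J ≤
        (((B \ B').card + (B' \ B).card) * l) * J := mul_le_mul_of_nonneg_right h11 hJ0
    _ = (((B \ B').card : ℝ) * J + ((B' \ B).card : ℝ) * J) * l := by ring
    _ ≤ ((J : ℝ) ^ Fintype.card G + (J : ℝ) ^ Fintype.card G) * l :=
        mul_le_mul_of_nonneg_right (add_le_add hc1 hc2) hl
    _ = 2 * l * (J : ℝ) ^ Fintype.card G := by ring

end

theorem grid_count {G : Type} [Fintype G] [DecidableEq G] (J N : ℕ) (hJ : 1 ≤ J)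
    (S : Fin N → (G → ℤ) → ℝ) {l κ δ : ℝ} (hl : 0 ≤ l) (hκ : 0 ≤ κ) (hδ : 0 < δ)
    (hLip : ∀ (n : Fin N) (p : G) (ξ : G → ℤ), (∀ q, -1 ≤ ξ q ∧ ξ q < J) →
      |S n (ξ + Pi.single p 1) - S n ξ| ≤ l)
    (hlow : ∀ (n : Fin N) (p : G) (ξ : G → ℤ), (∀ q, 0 ≤ ξ q ∧ ξ q < J) →
      -κ ≤ S n (ξ + Pi.single p 1) + S n (ξ - Pi.single p 1) - 2 * S n ξ)
    (hsmall : N * Fintype.card G * (2 * l + J * κ) < J * δ) :
    ∃ ξ : G → ℤ, (∀ q, 0 ≤ ξ q ∧ ξ q < J) ∧ ∀ (n : Fin N) (p : G),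
      S n (ξ + Pi.single p 1) + S n (ξ - Pi.single p 1) - 2 * S n ξ < δ := by
  classical
  by_contra hcon
  push Not at hcon
  set B := CNT_B G J with hB
  let Dd : Fin N → G → (G → ℤ) → ℝ := fun n p ξ =>
    S n (ξ + Pi.single p 1) + S n (ξ - Pi.single p 1) - 2 * S n ξ
  have hJ0 : (0 : ℝ) < J := by exact_mod_cast hJ
  have hcardB : (B.card : ℝ) = (J : ℝ) ^ Fintype.card G := by
    have := CNT_card_B (G := G) J
    rw [← hB] at this
    rw [this]
    push_cast
    rfl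
  have hBpos : (0 : ℝ) < B.card := by
    rw [hcardB]; positivity
  have hcov : B ⊆ Finset.univ.biUnion (fun x : Fin N × G => B.filter (fun ξ => δ ≤ Dd x.1 x.2 ξ)) := by
    intro ξ hξ
    obtain ⟨n, p, h⟩ := hcon ξ (CNT_mem_B.1 hξ)
    rw [Finset.mem_biUnion]
    exact ⟨(n, p), Finset.mem_univ _, Finset.mem_filter.2 ⟨hξ, h⟩⟩
  have hone : ∀ x : Fin N × G, δ * (B.filter (fun ξ => δ ≤ Dd x.1 x.2 ξ)).card * J ≤
      (2 * l + J * κ) * B.card := by
    rintro ⟨n, p⟩
    have h1 : δ * (B.filter (fun ξ => δ ≤ Dd n p ξ)).card ≤ ∑ ξ ∈ B, (Dd n p ξ + κ) := by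
      calc δ * (B.filter (fun ξ => δ ≤ Dd n p ξ)).card =
            ∑ _ξ ∈ B.filter (fun ξ => δ ≤ Dd n p ξ), δ := by
            rw [Finset.sum_const, nsmul_eq_mul]; ring
        _ ≤ ∑ ξ ∈ B.filter (fun ξ => δ ≤ Dd n p ξ), (Dd n p ξ + κ) := by
            refine Finset.sum_le_sum fun ξ hξ => ?_
            have := (Finset.mem_filter.1 hξ).2
            linarith
        _ ≤ ∑ ξ ∈ B, (Dd n p ξ + κ) := by
            refine Finset.sum_le_sum_of_subset_of_nonneg (Finset.filter_subset _ _) ?_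
            intro ξ hξ _
            have := hlow n p ξ (CNT_mem_B.1 hξ)
            change 0 ≤ S n (ξ + Pi.single p 1) + S n (ξ - Pi.single p 1) - 2 * S n ξ + κ
            linarith
    have h2 : ∑ ξ ∈ B, (Dd n p ξ + κ) = ∑ ξ ∈ B, Dd n p ξ + κ * B.card := by
      rw [Finset.sum_add_distrib, Finset.sum_const, nsmul_eq_mul]; ring
    have h3 := CNT_tele hJ p (fun ξ => S n (ξ + Pi.single p 1) - S n ξ) hl
      (fun ξ hξ => hLip n p ξ hξ)
    have h4 : ∑ ξ ∈ B, Dd n p ξ = ∑ ξ ∈ CNT_B G J,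
        ((fun ξ => S n (ξ + Pi.single p 1) - S n ξ) ξ -
          (fun ξ => S n (ξ + Pi.single p 1) - S n ξ) (ξ - Pi.single p 1)) := by
      refine Finset.sum_congr rfl fun ξ _ => ?_
      change S n (ξ + Pi.single p 1) + S n (ξ - Pi.single p 1) - 2 * S n ξ =
        (S n (ξ + Pi.single p 1) - S n ξ) -
          (S n (ξ - Pi.single p 1 + Pi.single p 1) - S n (ξ - Pi.single p 1))
      rw [sub_add_cancel]
      ring
    rw [← h4, ← hcardB] at h3
    have h5 : δ * (B.filter (fun ξ => δ ≤ Dd n p ξ)).card * J ≤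
        (∑ ξ ∈ B, Dd n p ξ + κ * B.card) * J := by
      rw [← h2]
      exact mul_le_mul_of_nonneg_right h1 hJ0.le
    calc δ * (B.filter (fun ξ => δ ≤ Dd n p ξ)).card * J ≤
          (∑ ξ ∈ B, Dd n p ξ + κ * B.card) * J := h5
      _ = (∑ ξ ∈ B, Dd n p ξ) * J + κ * B.card * J := by ring
      _ ≤ 2 * l * B.card + κ * B.card * J := by linarith
      _ = (2 * l + J * κ) * B.card := by ring
  have hsum : δ * B.card * J ≤ (N * Fintype.card G) * ((2 * l + J * κ) * B.card) := by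
    have h1 : (B.card : ℝ) ≤ ∑ x : Fin N × G, ((B.filter (fun ξ => δ ≤ Dd x.1 x.2 ξ)).card : ℝ) := by
      have h2 := (Finset.card_le_card hcov).trans Finset.card_biUnion_le
      exact_mod_cast h2
    calc δ * B.card * J = B.card * (δ * J) := by ring
      _ ≤ (∑ x : Fin N × G, ((B.filter (fun ξ => δ ≤ Dd x.1 x.2 ξ)).card : ℝ)) * (δ * J) :=
          mul_le_mul_of_nonneg_right h1 (by positivity)
      _ = ∑ x : Fin N × G, δ * (B.filter (fun ξ => δ ≤ Dd x.1 x.2 ξ)).card * J := by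
          rw [Finset.sum_mul]
          exact Finset.sum_congr rfl fun x _ => by ring
      _ ≤ ∑ _x : Fin N × G, (2 * l + J * κ) * B.card := Finset.sum_le_sum fun x _ => hone x
      _ = (N * Fintype.card G) * ((2 * l + J * κ) * B.card) := by
          rw [Finset.sum_const, nsmul_eq_mul, Finset.card_univ, Fintype.card_prod, Fintype.card_fin]
          push_cast
          ring
  have hfin : (N * Fintype.card G) * ((2 * l + J * κ) * B.card) < δ * B.card * J := by
    calc (N * Fintype.card G : ℝ) * ((2 * l + J * κ) * B.card) =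
          (N * Fintype.card G * (2 * l + J * κ)) * B.card := by ring
      _ < (J * δ) * B.card := mul_lt_mul_of_pos_right hsmall hBpos
      _ = δ * B.card * J := by ring
  exact absurd hsum (not_le.2 hfin)

end BGS
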