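import Pool.Agent.LibBGR.Knk
import Pool.Agent.LibBGR.Frc
import Pool.Agent.LibBGR.Upp
import Pool.Agent.LibBGR.Low
import Pool.Agent.LibBGR.Cnt
import Pool.Agent.LibBGR.Near
import Pool.Agent.LibBGR.Loc

open MeasureTheory Set Filter Topology
open scoped ContDiff ENNReal NNReal

namespace BGS

variable {Γ : Type} [Group Γ] [MulAction Γ Pl] {D : Set Pl}

theorem ASM_lam0 {E : Type} [AddCommGroup E] [Module ℝ E] {a b : LinearMap.BilinForm ℝ E} {e : E}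
    (P : IsPair a b e) : lam a b 0 = 0 := by
  unfold lam
  refine le_antisymm ?_ zero_le
  refine (iInf₂_le (0 : ℝ≥0) ⟨Submodule.span ℝ {e}, ?_, ?_⟩).trans (by simp)
  · rw [finrank_span_singleton P.ne]
  · intro u hu
    obtain ⟨c, rfl⟩ := Submodule.mem_span_singleton.1 hu
    have h1 : a (c • e) (c • e) = 0 := by
      rw [map_smul, P.asym, P.ae, smul_zero]
    rw [h1]
    simp

theorem ASM_L (hX : Surface Γ D) : ∃ L : ℕ, 1 ≤ L ∧ D ⊆ bigSq L := by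
  obtain ⟨R, hR⟩ := hX.bdd.subset_closedBall (0 : Pl)
  obtain ⟨L, hL⟩ := exists_nat_gt (max R 0)
  refine ⟨L, ?_, fun z hz => ?_⟩
  · have h1 : (0 : ℝ) < L := (le_max_right R 0).trans_lt hL
    exact_mod_cast h1
  · have h1 := hR hz
    rw [mem_closedBall_zero_iff, Prod.norm_def, max_le_iff, Real.norm_eq_abs, Real.norm_eq_abs,
      abs_le, abs_le] at h1
    have h2 := le_max_left R 0
    exact ⟨⟨by linarith [h1.1.1], by linarith [h1.1.2]⟩, ⟨by linarith [h1.2.1],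
      by linarith [h1.2.2]⟩⟩

theorem ASM_card (L R : ℕ) : ((grid L R).card : ℝ) = (2 * L * R) ^ 2 := by
  unfold grid
  rw [Finset.card_product, Int.card_Ico]
  have h : ((L * R : ℤ) - -(L * R : ℤ)).toNat = 2 * L * R := by
    have : ((L * R : ℤ) - -(L * R : ℤ)) = ((2 * L * R : ℕ) : ℤ) := by push_cast; ring
    rw [this, Int.toNat_natCast]
  rw [h]
  push_cast
  ring

/-- Facts about weights between `1/2` and `2`. -/
theorem ASM_weight (hX : Surface Γ D) (m : Mt Γ D) {c0 Cu : ℝ} (hc0 : 0 < c0) (hCu : 0 < Cu)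
    (hlow : ENNReal.ofReal c0 ≤ lam (aF hX m) (bF hX m (oneT Γ)) 1)
    (hup : ∀ k : ℕ, lam (aF hX m) (bF hX m (oneT Γ)) k ≤ ENNReal.ofReal (Cu * (k + 1) ^ 4))
    (w : TestS Γ) (hw1 : ∀ z, 1 / 2 ≤ w.1 z) (hw2 : ∀ z, w.1 z ≤ 2) :
    lam (aF hX m) (bF hX m w) 1 ≠ 0 ∧ (∀ k, lam (aF hX m) (bF hX m w) k ≠ ⊤) ∧
      mu (aF hX m) (bF hX m w) 0 ≤ 2 / c0 ∧
      ∀ n : ℕ, 1 / (2 * Cu * (n + 2) ^ 4) ≤ mu (aF hX m) (bF hX m w) n := by
  have hle : ∀ u, bF hX m w u u ≤ 2 * bF hX m (oneT Γ) u u :=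
    bF_le hX m (fun z => by show w.1 z ≤ 2 * 1; linarith [hw2 z])
  have hge : ∀ u, bF hX m (oneT Γ) u u ≤ 2 * bF hX m w u u :=
    bF_le hX m (fun z => by show (1 : ℝ) ≤ 2 * w.1 z; linarith [hw1 z])
  have h10 : lam (aF hX m) (bF hX m (oneT Γ)) 1 ≠ 0 := by
    intro h
    rw [h] at hlow
    exact absurd (ENNReal.ofReal_pos.2 hc0) (not_lt.2 hlow)
  have h1 : lam (aF hX m) (bF hX m w) 1 ≠ 0 := lam_ne_zero_of_le two_pos hle h10
  have hfin : ∀ k, lam (aF hX m) (bF hX m w) k ≤ ENNReal.ofReal 2 * lam (aF hX m) (bF hX m (oneT Γ)) k :=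
    fun k => lam_le_of_le two_pos hge k
  refine ⟨h1, fun k => ?_, ?_, fun n => ?_⟩
  · refine ne_top_of_le_ne_top ?_ (hfin k)
    exact ENNReal.mul_ne_top ENNReal.ofReal_ne_top (ne_top_of_le_ne_top ENNReal.ofReal_ne_top (hup k))
  · refine (mu_le_of_le two_pos h10 hle 0).trans ?_
    have h2 : mu (aF hX m) (bF hX m (oneT Γ)) 0 ≤ c0⁻¹ := by
      unfold mu
      refine ENNReal.toReal_le_of_le_ofReal (by positivity) ?_
      rw [ENNReal.ofReal_inv_of_pos hc0]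
      exact ENNReal.inv_le_inv.2 hlow
    calc 2 * mu (aF hX m) (bF hX m (oneT Γ)) 0 ≤ 2 * c0⁻¹ := by linarith
      _ = 2 / c0 := by ring
  · have h3 : mu (aF hX m) (bF hX m (oneT Γ)) n ≤ 2 * mu (aF hX m) (bF hX m w) n :=
      mu_le_of_le two_pos h1 hge n
    have h4 : (Cu * ((n + 1 : ℕ) + 1 : ℝ) ^ 4)⁻¹ ≤ mu (aF hX m) (bF hX m (oneT Γ)) n := by
      unfold mu
      have h5 := hup (n + 1)
      have h6 : lam (aF hX m) (bF hX m (oneT Γ)) (n + 1) ≠ 0 := by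
        intro h
        exact h10 (le_antisymm ((lam_mono _ _ (by omega)).trans h.le) zero_le)
      rw [← ENNReal.ofReal_le_iff_le_toReal (ENNReal.inv_ne_top.2 h6),
        ENNReal.ofReal_inv_of_pos (by positivity)]
      exact ENNReal.inv_le_inv.2 h5
    have h7 : (1 : ℝ) / (2 * Cu * (n + 2) ^ 4) = (Cu * ((n + 1 : ℕ) + 1 : ℝ) ^ 4)⁻¹ / 2 := by
      push_cast
      have : (n : ℝ) + 1 + 1 = n + 2 := by ring
      rw [this]
      field_simp
    rw [h7]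
    linarith

end BGS
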