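import Pool.Agent.LibBGR.Asm1

open MeasureTheory Set Filter Topology
open scoped ContDiff ENNReal NNReal

namespace BGS

variable {Γ : Type} [Group Γ] [MulAction Γ Pl] {D : Set Pl}

/-- The periodised bump as a test function. -/
noncomputable def ASM_eta (hX : Surface Γ D) {R : ℕ} (hR : 1 ≤ R) (p : ℤ × ℤ) : TestS Γ :=
  ⟨per Γ (bmp R p), per_mem hX (bmp_smooth R p) (bmp_compact hR p)⟩

/-- The perturbation. -/
noncomputable def ASM_h (hX : Surface Γ D) {R : ℕ} (hR : 1 ≤ R) (L : ℕ) (τ : ℝ)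
    (ξ : grid L R → ℤ) : TestS Γ :=
  τ • ∑ p, (ξ p : ℝ) • ASM_eta hX hR p.1

/-- The weight. -/
noncomputable def ASM_w (hX : Surface Γ D) {R : ℕ} (hR : 1 ≤ R) (L : ℕ) (τ : ℝ)
    (ξ : grid L R → ℤ) : TestS Γ :=
  oneT Γ + ASM_h hX hR L τ ξ

theorem ASM_w_add (hX : Surface Γ D) {R : ℕ} (hR : 1 ≤ R) (L : ℕ) (τ : ℝ)
    (ξ : grid L R → ℤ) (p : grid L R) :
    ASM_w hX hR L τ (ξ + Pi.single p 1) = ASM_w hX hR L τ ξ + τ • ASM_eta hX hR p.1 := by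
  unfold ASM_w ASM_h
  have h : ∑ q, (((ξ + Pi.single p 1 : grid L R → ℤ) q : ℤ) : ℝ) • ASM_eta hX hR q.1 =
      ∑ q, (ξ q : ℝ) • ASM_eta hX hR q.1 + ASM_eta hX hR p.1 := by
    have h1 : ∀ q, (((ξ + Pi.single p 1 : grid L R → ℤ) q : ℤ) : ℝ) • ASM_eta hX hR q.1 =
        (ξ q : ℝ) • ASM_eta hX hR q.1 + if q = p then ASM_eta hX hR q.1 else 0 := by
      intro q
      by_cases hq : q = p
      · subst hq
        simp [add_smul]
      · simp [hq]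
    rw [Finset.sum_congr rfl fun q _ => h1 q, Finset.sum_add_distrib]
    simp
  rw [h, smul_add, add_assoc]

theorem ASM_w_sub (hX : Surface Γ D) {R : ℕ} (hR : 1 ≤ R) (L : ℕ) (τ : ℝ)
    (ξ : grid L R → ℤ) (p : grid L R) :
    ASM_w hX hR L τ (ξ - Pi.single p 1) = ASM_w hX hR L τ ξ - τ • ASM_eta hX hR p.1 := by
  have h := ASM_w_add hX hR L τ (ξ - Pi.single p 1) p
  rw [sub_add_cancel] at h
  rw [h, add_sub_cancel_right]

theorem ASM_h_apply (hX : Surface Γ D) {R : ℕ} (hR : 1 ≤ R) (L : ℕ) (τ : ℝ)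
    (ξ : grid L R → ℤ) :
    (ASM_h hX hR L τ ξ).1 = fun z => τ * ∑ p, (ξ p : ℝ) * per Γ (bmp R p.1) z := by
  funext z
  unfold ASM_h
  rw [Submodule.coe_smul, Submodule.coe_sum, Pi.smul_apply, Finset.sum_apply, smul_eq_mul]
  rfl

theorem ASM_h_bound (hX : Surface Γ D) {R : ℕ} (hR : 1 ≤ R) (L : ℕ) {τ : ℝ} (hτ : 0 ≤ τ)
    {Kb : ℝ} (hb : ∀ p ∈ grid L R, ∀ z, per Γ (bmp R p) z ≤ Kb) {J : ℕ}
    {ξ : grid L R → ℤ} (hξ : ∀ p, |ξ p| ≤ J) (z : Pl) :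
    |(ASM_h hX hR L τ ξ).1 z| ≤ τ * (J * (grid L R).card * Kb) := by
  rw [ASM_h_apply]
  simp only
  rw [abs_mul, abs_of_nonneg hτ]
  refine mul_le_mul_of_nonneg_left ?_ hτ
  calc |∑ p, (ξ p : ℝ) * per Γ (bmp R p.1) z| ≤ ∑ p, |(ξ p : ℝ) * per Γ (bmp R p.1) z| :=
        Finset.abs_sum_le_sum_abs _ _
    _ ≤ ∑ _p : grid L R, (J * Kb : ℝ) := by
        refine Finset.sum_le_sum fun p _ => ?_
        rw [abs_mul, abs_of_nonneg (per_bmp_nonneg R p.1 z)]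
        refine mul_le_mul ?_ (hb p.1 p.2 z) (per_bmp_nonneg R p.1 z) (by positivity)
        have := hξ p
        exact_mod_cast this
    _ = J * (grid L R).card * Kb := by
        rw [Finset.sum_const, nsmul_eq_mul, Finset.card_univ, Fintype.card_coe]
        ring

theorem ASM_h_deriv (hX : Surface Γ D) {R : ℕ} (hR : 1 ≤ R) (L : ℕ) {τ : ℝ} (hτ : 0 ≤ τ)
    {B : ℝ} {K : Set Pl} {r : ℕ}
    (hd : ∀ p ∈ grid L R, ∀ j ≤ r, ∀ z ∈ K, ‖iteratedFDeriv ℝ j (per Γ (bmp R p)) z‖ ≤ B)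
    {J : ℕ} {ξ : grid L R → ℤ} (hξ : ∀ p, |ξ p| ≤ J) (j : ℕ) (hj : j ≤ r) (z : Pl) (hz : z ∈ K) :
    ‖iteratedFDeriv ℝ j (ASM_h hX hR L τ ξ).1 z‖ ≤ τ * (J * (grid L R).card * B) := by
  have hs : ∀ p : grid L R, ContDiff ℝ j (per Γ (bmp R p.1)) := fun p =>
    ((ASM_eta hX hR p.1).2.1).of_le (by exact_mod_cast le_top)
  have h1 : (ASM_h hX hR L τ ξ).1 = τ • fun z => ∑ p, ((ξ p : ℝ) • per Γ (bmp R p.1)) z := by
    rw [ASM_h_apply]
    rfl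
  have h3 : ∀ p ∈ (Finset.univ : Finset (grid L R)), ContDiff ℝ j ((ξ p : ℝ) • per Γ (bmp R p.1)) :=
    fun p _ => contDiff_const.smul (hs p)
  rw [h1, iteratedFDeriv_const_smul_apply (by
    apply ContDiff.contDiffAt
    exact ContDiff.sum h3), norm_smul, Real.norm_eq_abs, abs_of_nonneg hτ]
  refine mul_le_mul_of_nonneg_left ?_ hτ
  have h4 : iteratedFDeriv ℝ j (fun z => ∑ p, ((ξ p : ℝ) • per Γ (bmp R p.1)) z) z =
      ∑ p, iteratedFDeriv ℝ j ((ξ p : ℝ) • per Γ (bmp R p.1)) z :=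
    iteratedFDeriv_fun_sum_apply fun p hp => (h3 p hp).contDiffAt
  rw [h4]
  calc ‖∑ p, iteratedFDeriv ℝ j ((ξ p : ℝ) • per Γ (bmp R p.1)) z‖
      ≤ ∑ p, ‖iteratedFDeriv ℝ j ((ξ p : ℝ) • per Γ (bmp R p.1)) z‖ := norm_sum_le _ _
    _ ≤ ∑ _p : grid L R, (J * B : ℝ) := by
        refine Finset.sum_le_sum fun p _ => ?_
        rw [iteratedFDeriv_const_smul_apply (hs p).contDiffAt, norm_smul, Real.norm_eq_abs]
        refine mul_le_mul ?_ (hd p.1 p.2 j hj z hz) (norm_nonneg _) (by positivity)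
        have := hξ p
        exact_mod_cast this
    _ = J * (grid L R).card * B := by
        rw [Finset.sum_const, nsmul_eq_mul, Finset.card_univ, Fintype.card_coe]
        ring

end BGS
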