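import Pool.Agent.LibBGR.Asm2

open MeasureTheory Set Filter Topology
open scoped ContDiff ENNReal NNReal

namespace BGS

variable {Γ : Type} [Group Γ] [MulAction Γ Pl] {D : Set Pl}

theorem ASM_bsym (hX : Surface Γ D) (m : Mt Γ D) (w u v : TestS Γ) :
    bF hX m w u v = bF hX m w v u := by
  rw [bF_apply, bF_apply]
  congr 1
  funext z
  ring

theorem ASM_bnonneg (hX : Surface Γ D) (m : Mt Γ D) (w : TestS Γ) (hw : ∀ z, 0 ≤ w.1 z)
    (u : TestS Γ) : 0 ≤ bF hX m w u u := by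
  rw [bF_apply]
  refine integral_nonneg fun z => ?_
  have h1 := hw z
  have h2 := mul_self_nonneg (u.1 z)
  have h3 := Real.sqrt_nonneg (dt (m.1.1 z))
  show 0 ≤ w.1 z * u.1 z * u.1 z * √(dt (m.1.1 z))
  rw [mul_assoc (w.1 z)]
  positivity

theorem ASM_bsub (hX : Surface Γ D) (m : Mt Γ D) (w h : TestS Γ) (τ : ℝ) :
    bF hX m (w - τ • h) = bF hX m w - τ • bF hX m h := by
  have e1 : w - τ • h = w + (-τ) • h := by
    apply Subtype.ext
    funext z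
    show w.1 z - τ * h.1 z = w.1 z + (-τ) * h.1 z
    ring
  rw [e1, bF_add_smul]
  refine LinearMap.ext₂ fun u v => ?_
  show bF hX m w u v + (-τ) * bF hX m h u v = bF hX m w u v - τ * bF hX m h u v
  ring

/-- The two components of the splitting vector. -/
theorem ASM_split (hX : Surface Γ D) (m : Mt Γ D) {R : ℕ} (hR : 1 ≤ R) (p : ℤ × ℤ)
    (u v : TestS Γ) :
    bF hX m (ASM_eta hX hR p) u u - bF hX m (ASM_eta hX hR p) v v =
        ∫ z, bmp R p z * (u.1 z ^ 2 - v.1 z ^ 2) * √(dt (m.1.1 z)) ∧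
      bF hX m (ASM_eta hX hR p) u v = ∫ z, bmp R p z * (u.1 z * v.1 z) * √(dt (m.1.1 z)) := by
  have hc := bmp_smooth R p
  have hcc := bmp_compact hR p
  have hη := (ASM_eta hX hR p).2.1
  constructor
  · rw [← per_int hX m hc hcc (g := fun z => u.1 z ^ 2 - v.1 z ^ 2)
      ((u.2.1.continuous.pow 2).sub (v.2.1.continuous.pow 2))
      (fun γ z => by simp only [u.2.2, v.2.2]), bF_apply, bF_apply,
      ← integral_sub (Cmp_int hX (BGR_b_cont m hη u.2.1 u.2.1))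
        (Cmp_int hX (BGR_b_cont m hη v.2.1 v.2.1))]
    congr 1
    funext z
    show per Γ (bmp R p) z * u.1 z * u.1 z * √(dt (m.1.1 z)) -
      per Γ (bmp R p) z * v.1 z * v.1 z * √(dt (m.1.1 z)) = _
    ring
  · rw [← per_int hX m hc hcc (g := fun z => u.1 z * v.1 z)
      (u.2.1.continuous.mul v.2.1.continuous)
      (fun γ z => by simp only [u.2.2, v.2.2]), bF_apply]
    congr 1
    funext z
    show per Γ (bmp R p) z * u.1 z * v.1 z * √(dt (m.1.1 z)) = _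
    ring

/-- At a point where all second differences are small the gap is large. -/
theorem ASM_point (hX : Surface Γ D) (m : Mt Γ D) {L R : ℕ} (hR : 1 ≤ R) {Kb c1 Cl ν M0 τ ζ : ℝ}
    (hKb : 0 < Kb) (hc1 : 0 < c1) (hν : 0 < ν) (hτ : 0 < τ) (hζ : 0 < ζ)
    (hb : ∀ p ∈ grid L R, ∀ z, per Γ (bmp R p) z ≤ Kb)
    (hloc : ∀ u ∈ Test Γ, ∀ v ∈ Test Γ,
      Cl * (en D m.1.1 u + en D m.1.1 v) ≤ (R : ℝ) ^ 2 * (l2 D m.1.1 u + l2 D m.1.1 v) →
      ∃ p ∈ grid L R, c1 * (l2 D m.1.1 u + l2 D m.1.1 v) / (R : ℝ) ^ 2 ≤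
        √((∫ z, bmp R p z * (u z ^ 2 - v z ^ 2) * √(dt (m.1.1 z))) ^ 2 +
          (2 * ∫ z, bmp R p z * (u z * v z) * √(dt (m.1.1 z))) ^ 2))
    (w : TestS Γ) (hw1 : ∀ z, 1 / 2 ≤ w.1 z) (hw2 : ∀ z, w.1 z ≤ 2)
    (h1 : lam (aF hX m) (bF hX m w) 1 ≠ 0) (hf : ∀ k, lam (aF hX m) (bF hX m w) k ≠ ⊤) (n : ℕ)
    (hmu : ν ≤ mu (aF hX m) (bF hX m w) n) (hM0 : mu (aF hX m) (bF hX m w) 0 ≤ M0)
    (hR2 : 2 * Cl ≤ (R : ℝ) ^ 2 * (ν / 4)) (hζ1 : ζ ≤ c1 * (ν / 4) / (R : ℝ) ^ 2)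
    (hτK : τ * (2 * Kb) ≤ 1 / 2) (hκ : 4 * (n + 1) * (2 * Kb) ^ 2 * τ ^ 2 * M0 ≤ τ * ζ / 8)
    (hD : ∀ p ∈ grid L R,
      ∑ k ∈ Finset.range (n + 1), mu (aF hX m) (bF hX m (w + τ • ASM_eta hX hR p)) k
        + ∑ k ∈ Finset.range (n + 1), mu (aF hX m) (bF hX m (w - τ • ASM_eta hX hR p)) k
        - 2 * ∑ k ∈ Finset.range (n + 1), mu (aF hX m) (bF hX m w) k < τ * ζ / 2) :
    τ * ζ / 8 < mu (aF hX m) (bF hX m w) n - mu (aF hX m) (bF hX m w) (n + 1) := by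
  by_contra hg
  push Not at hg
  have hw : ∀ z, 0 < w.1 z := fun z => by linarith [hw1 z]
  have P := pair_surface hX m w hw
  set ε : ℝ := min (ν / 2) (τ * ζ / (8 * (2 * n + 5))) with hε
  have hε0 : 0 < ε := by
    rw [hε]
    refine lt_min (by positivity) (by positivity)
  obtain ⟨u, v, hu, hv, huv, hbu, hk⟩ := kink P h1 hf n hε0
  have hε1 : ε ≤ ν / 2 := min_le_left _ _
  have hε2 : (2 * n + 5) * ε ≤ τ * ζ / 8 := by
    have : ε ≤ τ * ζ / (8 * (2 * n + 5)) := min_le_right _ _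
    calc (2 * n + 5 : ℝ) * ε ≤ (2 * n + 5) * (τ * ζ / (8 * (2 * n + 5))) := by gcongr
      _ = τ * ζ / 8 := by field_simp
  have hl2u : ν / 4 ≤ l2 D m.1.1 u.1 := by
    rw [← bF_one_self hX m u]
    have h2 := bF_le hX m (w := w) (w' := oneT Γ) (θ := 2)
      (fun z => by show w.1 z ≤ 2 * 1; linarith [hw2 z]) u
    linarith
  have hl2v : 0 ≤ l2 D m.1.1 v.1 :=
    integral_nonneg fun z => mul_nonneg (sq_nonneg _) (Real.sqrt_nonneg _)
  have henu : en D m.1.1 u.1 = 1 := by rw [← aF_self hX m u, hu]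
  have henv : en D m.1.1 v.1 = 1 := by rw [← aF_self hX m v, hv]
  obtain ⟨p, hp, hpZ⟩ := hloc u.1 u.2 v.1 v.2 (by
    rw [henu, henv]
    have : (R : ℝ) ^ 2 * (ν / 4) ≤ (R : ℝ) ^ 2 * (l2 D m.1.1 u.1 + l2 D m.1.1 v.1) := by
      gcongr
      linarith
    linarith)
  have hR0 : (0 : ℝ) < (R : ℝ) ^ 2 := by
    have : (0 : ℝ) < R := by exact_mod_cast hR
    positivity
  have hζZ : ζ ≤ √((∫ z, bmp R p z * (u.1 z ^ 2 - v.1 z ^ 2) * √(dt (m.1.1 z))) ^ 2 +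
      (2 * ∫ z, bmp R p z * (u.1 z * v.1 z) * √(dt (m.1.1 z))) ^ 2) := by
    refine hζ1.trans (le_trans ?_ hpZ)
    gcongr
    linarith
  obtain ⟨hs1, hs2⟩ := ASM_split hX m hR p u v
  rw [← hs1, ← hs2] at hζZ
  have hk2 := hk (bF hX m (ASM_eta hX hR p)) (2 * Kb) τ (ASM_bsym hX m _)
    (ASM_bnonneg hX m _ (fun z => per_bmp_nonneg R p z))
    (bF_le hX m (fun z => by
      show per Γ (bmp R p) z ≤ 2 * Kb * w.1 z
      have := hb p hp z
      nlinarith [hw1 z])) (by positivity) hτ.le hτK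
  have hD2 := hD p hp
  rw [bF_add_smul, ASM_bsub] at hD2
  have h3 := mul_le_mul_of_nonneg_left hζZ hτ.le
  have h4 : 4 * (n + 1) * (2 * Kb) ^ 2 * τ ^ 2 * mu (aF hX m) (bF hX m w) 0 ≤ τ * ζ / 8 := by
    refine le_trans ?_ hκ
    gcongr
  have h5 : 0 < τ * ζ := by positivity
  linarith

end BGS
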