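import Pool.Agent.LibBGR.Asm3

open MeasureTheory Set Filter Topology
open scoped ContDiff ENNReal NNReal

namespace BGS

variable {Γ : Type} [Group Γ] [MulAction Γ Pl] {D : Set Pl}

/-- Levels of `m'` in terms of `mu`. -/
theorem ASM_x_zero (hX : Surface Γ D) (m m' : Mt Γ D) (w : TestS Γ) (hw : ∀ z, 0 < w.1 z) {c : ℝ}
    (hc : 0 < c) (h : ∀ z, m'.1.1 z = (c * w.1 z) • m.1.1 z) : x m' 0 = 0 := by
  unfold x lvl
  rw [ev_eq_lam hX m m' w hw hc h, ASM_lam0 (pair_surface hX m w hw)]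
  simp

theorem ASM_x_succ (hX : Surface Γ D) (m m' : Mt Γ D) (w : TestS Γ) (hw : ∀ z, 0 < w.1 z) {c : ℝ}
    (hc : 0 < c) (h : ∀ z, m'.1.1 z = (c * w.1 z) • m.1.1 z) (k : ℕ) :
    x m' (k + 1) = (mu (aF hX m) (bF hX m w) k)⁻¹ / (c * (4 * Real.pi)) := by
  unfold x lvl mu
  rw [ev_eq_lam hX m m' w hw hc h]
  have hpi : (0 : ℝ) < 4 * Real.pi := by positivity
  rw [ENNReal.toReal_div, ENNReal.toReal_div, ENNReal.toReal_ofReal hc.le,
    ENNReal.toReal_ofReal hpi.le, ENNReal.toReal_inv, inv_inv, div_div]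

/-- The gap of `m'` is large if the gap of the reciprocals is. -/
theorem ASM_gap (hX : Surface Γ D) (m m' : Mt Γ D) (w : TestS Γ) (hw : ∀ z, 0 < w.1 z) {c : ℝ}
    (hc : 0 < c) (hc2 : c ≤ 2) (h : ∀ z, m'.1.1 z = (c * w.1 z) • m.1.1 z) {M0 β : ℝ}
    (hM0 : 0 < M0) (hβ : 0 < β) {N : ℕ}
    (hmu0 : mu (aF hX m) (bF hX m w) 0 ≤ M0)
    (h1 : lam (aF hX m) (bF hX m w) 1 ≠ 0)
    (hmupos : ∀ n : ℕ, 0 < mu (aF hX m) (bF hX m w) n)
    (hgap : ∀ n < N, β < mu (aF hX m) (bF hX m w) n - mu (aF hX m) (bF hX m w) (n + 1))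
    (k : ℕ) (hk : k < N) :
    min (β / (8 * Real.pi * M0 ^ 2)) (1 / (16 * Real.pi * M0)) < x m' (k + 1) - x m' k := by
  have hpi := Real.pi_pos
  have hanti := mu_anti h1
  rcases k with _ | n
  · rw [ASM_x_zero hX m m' w hw hc h, ASM_x_succ hX m m' w hw hc h, sub_zero]
    refine (min_le_right _ _).trans_lt ?_
    have h2 := hmupos 0
    have h3 : M0⁻¹ ≤ (mu (aF hX m) (bF hX m w) 0)⁻¹ := inv_anti₀ h2 hmu0
    have h4 : c * (4 * Real.pi) ≤ 8 * Real.pi := by nlinarith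
    calc 1 / (16 * Real.pi * M0) < M0⁻¹ / (8 * Real.pi) := by
          rw [div_lt_div_iff₀ (by positivity) (by positivity)]
          have h5 : M0⁻¹ * (16 * Real.pi * M0) = 16 * Real.pi := by field_simp
          rw [h5]
          linarith
      _ ≤ (mu (aF hX m) (bF hX m w) 0)⁻¹ / (c * (4 * Real.pi)) := by
          apply div_le_div₀ (by positivity) h3 (by positivity) h4
  · rw [ASM_x_succ hX m m' w hw hc h, ASM_x_succ hX m m' w hw hc h]
    refine (min_le_left _ _).trans_lt ?_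
    have hg := hgap n (by omega)
    set μ := mu (aF hX m) (bF hX m w) n with hμ
    set μ' := mu (aF hX m) (bF hX m w) (n + 1) with hμ'
    have h2 : 0 < μ := hmupos n
    have h2' : 0 < μ' := hmupos (n + 1)
    have h3 : μ ≤ M0 := (hanti (Nat.zero_le n)).trans hmu0
    have h3' : μ' ≤ M0 := (hanti (Nat.zero_le (n + 1))).trans hmu0
    have h4 : c * (4 * Real.pi) ≤ 8 * Real.pi := by nlinarith
    have h5 : μ'⁻¹ / (c * (4 * Real.pi)) - μ⁻¹ / (c * (4 * Real.pi)) =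
        (μ - μ') / (μ * μ') / (c * (4 * Real.pi)) := by
      field_simp
    rw [h5]
    calc β / (8 * Real.pi * M0 ^ 2) = β / (M0 * M0) / (8 * Real.pi) := by
          rw [div_div]
          congr 1
          ring
      _ < (μ - μ') / (M0 * M0) / (8 * Real.pi) := by gcongr
      _ ≤ (μ - μ') / (μ * μ') / (c * (4 * Real.pi)) := by
          have : 0 ≤ μ - μ' := by linarith
          gcongr

theorem ASM_area (hX : Surface Γ D) (m : Mt Γ D) {h : TestS Γ} (hh : ∀ z, |h.1 z| ≤ 1 / 2) :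
    1 / 2 ≤ ∫ y in D, (1 + h.1 y) * √(dt (m.1.1 y)) := by
  have h1 := m.2.area
  have h2 : ∫ y in D, (1 / 2 : ℝ) * √(dt (m.1.1 y)) = 1 / 2 := by
    rw [integral_const_mul, h1, mul_one]
  rw [← h2]
  refine setIntegral_mono_on (Cmp_int hX (continuous_const.mul (BGR_rho m)))
    (Cmp_int hX ((continuous_const.add h.2.1.continuous).mul (BGR_rho m))) hX.meas
    fun z _ => ?_
  have h3 := abs_le.1 (hh z)
  exact mul_le_mul_of_nonneg_right (by linarith [h3.1]) (Real.sqrt_nonneg _)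

/-- The core: explicit conditions. -/
theorem ASM_core (hX : Surface Γ D) (m : Mt Γ D) {U : Set (Mt Γ D)} {L R J N r : ℕ} (hL : 1 ≤ L)
    (hR : 1 ≤ R) (hJ : 1 ≤ J)
    (hN : 1 ≤ N) {K : Set Pl} {Kb c0 c1 Cl Cu Cd ν δ0 τ ζ : ℝ} (hKb : 0 < Kb) (hc0 : 0 < c0)
    (hc1 : 0 < c1) (hCu : 0 < Cu) (hν : 0 < ν) (hτ : 0 < τ) (hζ : 0 < ζ)
    (hnear : ∀ h ∈ Test Γ, (∀ j ≤ r, ∀ z ∈ K, ‖iteratedFDeriv ℝ j h z‖ ≤ δ0) →
      ∃ m' ∈ U, ∀ z, m'.1.1 z = ((∫ y in D, (1 + h y) * √(dt (m.1.1 y)))⁻¹ * (1 + h z)) • m.1.1 z)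
    (hb : ∀ p ∈ grid L R, ∀ z, per Γ (bmp R p) z ≤ Kb)
    (hd : ∀ p ∈ grid L R, ∀ j ≤ r, ∀ z ∈ K, ‖iteratedFDeriv ℝ j (per Γ (bmp R p)) z‖ ≤ Cd)
    (hloc : ∀ u ∈ Test Γ, ∀ v ∈ Test Γ,
      Cl * (en D m.1.1 u + en D m.1.1 v) ≤ (R : ℝ) ^ 2 * (l2 D m.1.1 u + l2 D m.1.1 v) →
      ∃ p ∈ grid L R, c1 * (l2 D m.1.1 u + l2 D m.1.1 v) / (R : ℝ) ^ 2 ≤
        √((∫ z, bmp R p z * (u z ^ 2 - v z ^ 2) * √(dt (m.1.1 z))) ^ 2 +
          (2 * ∫ z, bmp R p z * (u z * v z) * √(dt (m.1.1 z))) ^ 2))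
    (hlow : ENNReal.ofReal c0 ≤ lam (aF hX m) (bF hX m (oneT Γ)) 1)
    (hup : ∀ k : ℕ, lam (aF hX m) (bF hX m (oneT Γ)) k ≤ ENNReal.ofReal (Cu * (k + 1) ^ 4))
    (hνN : ∀ n < N, ν ≤ 1 / (2 * Cu * (n + 2) ^ 4))
    (hR2 : 2 * Cl ≤ (R : ℝ) ^ 2 * (ν / 4)) (hζ1 : ζ ≤ c1 * (ν / 4) / (R : ℝ) ^ 2)
    (hH1 : τ * (J * (grid L R).card * Kb) ≤ 1 / 4)
    (hH2 : τ * (J * (grid L R).card * Cd) ≤ δ0)
    (hH3 : 4 * N * (2 * Kb) ^ 2 * τ ^ 2 * (2 / c0) ≤ τ * ζ / 8)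
    (hH4 : 16 * N ^ 2 * (grid L R).card * Kb * (2 / c0) < J * ζ) :
    ∃ m' ∈ U, ∀ k < N, min (τ * ζ / 8 / (8 * Real.pi * (2 / c0) ^ 2))
      (1 / (16 * Real.pi * (2 / c0))) < x m' (k + 1) - x m' k := by
  set M0 : ℝ := 2 / c0 with hM0def
  have hM0 : 0 < M0 := by positivity
  have hcard : (1 : ℝ) ≤ (grid L R).card := by
    rw [ASM_card]
    have h1 : (1 : ℝ) ≤ L := by exact_mod_cast hL
    have h2 : (1 : ℝ) ≤ R := by exact_mod_cast hR
    have h3 : (1 : ℝ) ≤ L * R := by nlinarith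
    nlinarith
  have hJ1 : (1 : ℝ) ≤ J := by exact_mod_cast hJ
  have hN1 : (1 : ℝ) ≤ N := by exact_mod_cast hN
  have hτKJ : τ * (J * Kb) ≤ 1 / 4 := by
    refine le_trans ?_ hH1
    gcongr
    have : (J : ℝ) * 1 ≤ J * (grid L R).card := by gcongr
    linarith
  have hτK : τ * (2 * Kb) ≤ 1 / 2 := by
    have : τ * (1 * Kb) ≤ τ * (J * Kb) := by gcongr
    linarith
  -- bounds of the weights
  have hsmall : ∀ ξ : grid L R → ℤ, (∀ q, -1 ≤ ξ q ∧ ξ q ≤ J) → ∀ z,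
      |(ASM_h hX hR L τ ξ).1 z| ≤ 1 / 4 := by
    intro ξ hξ z
    refine (ASM_h_bound hX hR L hτ.le hb (J := J) (fun p => ?_) z).trans hH1
    have h1 := hξ p
    rw [abs_le]
    constructor
    · have : (1 : ℤ) ≤ J := by exact_mod_cast hJ
      linarith [h1.1]
    · exact h1.2
  have hwz : ∀ (ξ : grid L R → ℤ) z, (ASM_w hX hR L τ ξ).1 z = 1 + (ASM_h hX hR L τ ξ).1 z :=
    fun ξ z => rfl
  have hw1 : ∀ ξ : grid L R → ℤ, (∀ q, -1 ≤ ξ q ∧ ξ q ≤ J) → ∀ z,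
      1 / 2 ≤ (ASM_w hX hR L τ ξ).1 z := by
    intro ξ hξ z
    have := (abs_le.1 (hsmall ξ hξ z)).1
    rw [hwz]
    linarith
  have hw2 : ∀ ξ : grid L R → ℤ, (∀ q, -1 ≤ ξ q ∧ ξ q ≤ J) → ∀ z,
      (ASM_w hX hR L τ ξ).1 z ≤ 2 := by
    intro ξ hξ z
    have := (abs_le.1 (hsmall ξ hξ z)).2
    rw [hwz]
    linarith
  have hwt := fun (ξ : grid L R → ℤ) (hξ : ∀ q, -1 ≤ ξ q ∧ ξ q ≤ J) =>
    ASM_weight hX m hc0 hCu hlow hup (ASM_w hX hR L τ ξ) (hw1 ξ hξ) (hw2 ξ hξ)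
  set S : Fin N → (grid L R → ℤ) → ℝ := fun n ξ =>
    ∑ k ∈ Finset.range (n + 1), mu (aF hX m) (bF hX m (ASM_w hX hR L τ ξ)) k with hS
  have hηK : ∀ p ∈ grid L R, ∀ (ξ : grid L R → ℤ), (∀ q, -1 ≤ ξ q ∧ ξ q ≤ J) → ∀ u,
      bF hX m (ASM_eta hX hR p) u u ≤ 2 * Kb * bF hX m (ASM_w hX hR L τ ξ) u u := by
    intro p hp ξ hξ
    refine bF_le hX m fun z => ?_
    show per Γ (bmp R p) z ≤ 2 * Kb * (ASM_w hX hR L τ ξ).1 z
    have h1 := hb p hp z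
    nlinarith [hw1 ξ hξ z]
  obtain ⟨ξ, hξ, hξD⟩ := grid_count J N hJ S (l := N * (2 * τ * Kb * M0))
    (κ := 16 * N * Kb ^ 2 * M0 * τ ^ 2) (δ := τ * ζ / 2) (by positivity) (by positivity)
    (by positivity) (by
      intro n p ξ hξ
      have hξ' : ∀ q, -1 ≤ ξ q ∧ ξ q ≤ J := fun q => ⟨(hξ q).1, (hξ q).2.le⟩
      have hξ'' : ∀ q, -1 ≤ (ξ + Pi.single p 1 : grid L R → ℤ) q ∧
          (ξ + Pi.single p 1 : grid L R → ℤ) q ≤ J := by
        intro q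
        have h1 := hξ q
        by_cases hq : q = p
        · subst hq
          simp only [Pi.add_apply, Pi.single_eq_same]
          omega
        · simp only [Pi.add_apply, Pi.single_eq_of_ne hq]
          omega
      obtain ⟨a1, a2, a3, a4⟩ := hwt ξ hξ'
      obtain ⟨b1, b2, b3, b4⟩ := hwt _ hξ''
      have hmono : ∀ k, mu (aF hX m) (bF hX m (ASM_w hX hR L τ ξ)) k ≤
          mu (aF hX m) (bF hX m (ASM_w hX hR L τ (ξ + Pi.single p 1))) k := by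
        intro k
        have := mu_le_of_le (a := aF hX m) (b := bF hX m (ASM_w hX hR L τ ξ))
          (b' := bF hX m (ASM_w hX hR L τ (ξ + Pi.single p 1))) one_pos b1
          (bF_le hX m (fun z => by
            rw [ASM_w_add]
            show (ASM_w hX hR L τ ξ).1 z ≤
              1 * ((ASM_w hX hR L τ ξ).1 z + τ * per Γ (bmp R p.1) z)
            have := mul_nonneg hτ.le (per_bmp_nonneg (Γ := Γ) R p.1 z)
            linarith)) k
        linarith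
      have hup2 : ∀ k, mu (aF hX m) (bF hX m (ASM_w hX hR L τ (ξ + Pi.single p 1))) k ≤
          (1 + 2 * τ * Kb) * mu (aF hX m) (bF hX m (ASM_w hX hR L τ ξ)) k := by
        intro k
        refine mu_le_of_le (a := aF hX m) (b := bF hX m (ASM_w hX hR L τ (ξ + Pi.single p 1)))
          (b' := bF hX m (ASM_w hX hR L τ ξ)) (by positivity) a1
          (bF_le hX m (fun z => ?_)) k
        rw [ASM_w_add]
        show (ASM_w hX hR L τ ξ).1 z + τ * per Γ (bmp R p.1) z ≤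
              (1 + 2 * τ * Kb) * (ASM_w hX hR L τ ξ).1 z
        have e1 := mul_le_mul_of_nonneg_left (hb p.1 p.2 z) hτ.le
        have e2 : τ * Kb ≤ 2 * τ * Kb * (ASM_w hX hR L τ ξ).1 z := by
          have e3 : 0 < τ * Kb := by positivity
          nlinarith [hw1 ξ hξ' z]
        linarith
      show |S n (ξ + Pi.single p 1) - S n ξ| ≤ N * (2 * τ * Kb * M0)
      simp only [hS]
      rw [← Finset.sum_sub_distrib]
      refine (Finset.abs_sum_le_sum_abs _ _).trans ?_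
      calc _ ≤ ∑ _k ∈ Finset.range ((n : ℕ) + 1), (2 * τ * Kb * M0) := by
            refine Finset.sum_le_sum fun k _ => ?_
            rw [abs_of_nonneg (by linarith [hmono k])]
            have e1 := hup2 k
            have e2 : mu (aF hX m) (bF hX m (ASM_w hX hR L τ ξ)) k ≤ M0 :=
              (mu_anti a1 (Nat.zero_le k)).trans a3
            have e3 : 0 ≤ 2 * τ * Kb := by positivity
            nlinarith
        _ = ((n : ℕ) + 1 : ℝ) * (2 * τ * Kb * M0) := by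
            rw [Finset.sum_const, Finset.card_range, nsmul_eq_mul]
            push_cast
            ring
        _ ≤ N * (2 * τ * Kb * M0) := by
            have : ((n : ℕ) + 1 : ℝ) ≤ N := by exact_mod_cast n.2
            gcongr) (by
      intro n p ξ hξ
      have hξ' : ∀ q, -1 ≤ ξ q ∧ ξ q ≤ J := fun q => ⟨by linarith [(hξ q).1], (hξ q).2.le⟩
      obtain ⟨a1, a2, a3, a4⟩ := hwt ξ hξ'
      have hsc := semiconvex (pair_surface hX m (ASM_w hX hR L τ ξ)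
          (fun z => by linarith [hw1 ξ hξ' z])) a1 a2 n (bF hX m (ASM_eta hX hR p.1)) (2 * Kb) τ
          (ASM_bsym hX m _) (ASM_bnonneg hX m _ (fun z => per_bmp_nonneg R p.1 z))
          (hηK p.1 p.2 ξ hξ') (by positivity) hτ.le hτK
      show _ ≤ S n (ξ + Pi.single p 1) + S n (ξ - Pi.single p 1) - 2 * S n ξ
      simp only [hS]
      rw [ASM_w_add, ASM_w_sub, bF_add_smul, ASM_bsub]
      refine le_trans ?_ hsc
      have e1 : ((n : ℕ) + 1 : ℝ) ≤ N := by exact_mod_cast n.2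
      have e2 : 0 ≤ mu (aF hX m) (bF hX m (ASM_w hX hR L τ ξ)) 0 := mu_nonneg _ _ _
      have e3 : 4 * ((n : ℕ) + 1 : ℝ) * (2 * Kb) ^ 2 * τ ^ 2 *
          mu (aF hX m) (bF hX m (ASM_w hX hR L τ ξ)) 0 ≤ 4 * N * (2 * Kb) ^ 2 * τ ^ 2 * M0 := by
        gcongr
      have e4 : 4 * (N : ℝ) * (2 * Kb) ^ 2 * τ ^ 2 * M0 = 16 * N * Kb ^ 2 * M0 * τ ^ 2 := by ring
      linarith) (by
      rw [Fintype.card_coe]
      have e1 : 2 * ((N : ℝ) * (2 * τ * Kb * M0)) + J * (16 * N * Kb ^ 2 * M0 * τ ^ 2) =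
          N * Kb * M0 * τ * (4 + 16 * (τ * (J * Kb))) := by ring
      rw [e1]
      have e2 : N * Kb * M0 * τ * (4 + 16 * (τ * (J * Kb))) ≤ N * Kb * M0 * τ * 8 := by
        have : 0 ≤ N * Kb * M0 * τ := by positivity
        nlinarith
      calc (N : ℝ) * (grid L R).card * (N * Kb * M0 * τ * (4 + 16 * (τ * (J * Kb))))
          ≤ (N : ℝ) * (grid L R).card * (N * Kb * M0 * τ * 8) := by gcongr
        _ = (16 * N ^ 2 * (grid L R).card * Kb * M0) * (τ / 2) := by ring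
        _ < (J * ζ) * (τ / 2) := by gcongr
        _ = J * (τ * ζ / 2) := by ring)
  have hξ' : ∀ q, -1 ≤ ξ q ∧ ξ q ≤ J := fun q => ⟨by linarith [(hξ q).1], (hξ q).2.le⟩
  obtain ⟨a1, a2, a3, a4⟩ := hwt ξ hξ'
  obtain ⟨m', hm'U, hm'⟩ := hnear (ASM_h hX hR L τ ξ).1 (ASM_h hX hR L τ ξ).2 (by
    intro j hj z hz
    refine (ASM_h_deriv hX hR L hτ.le hd (J := J) (fun p => ?_) j hj z hz).trans hH2
    rw [abs_le]
    exact ⟨by linarith [(hξ p).1], (hξ p).2.le⟩)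
  have harea : 1 / 2 ≤ ∫ y in D, (1 + (ASM_h hX hR L τ ξ).1 y) * √(dt (m.1.1 y)) :=
    ASM_area hX m fun z => (hsmall ξ hξ' z).trans (by norm_num)
  set A := ∫ y in D, (1 + (ASM_h hX hR L τ ξ).1 y) * √(dt (m.1.1 y)) with hA
  have hA0 : 0 < A := by linarith
  have hmupos : ∀ n : ℕ, 0 < mu (aF hX m) (bF hX m (ASM_w hX hR L τ ξ)) n := fun n =>
    lt_of_lt_of_le (by positivity) (a4 n)
  refine ⟨m', hm'U, fun k hk => ?_⟩
  refine ASM_gap hX m m' (ASM_w hX hR L τ ξ) (fun z => by linarith [hw1 ξ hξ' z])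
    (c := A⁻¹) (by positivity) ?_ hm' hM0 (by positivity) a3 a1 hmupos ?_ k hk
  · rw [inv_le_comm₀ hA0 two_pos]
    linarith
  · intro n hn
    refine ASM_point hX m hR hKb hc1 hν hτ hζ hb hloc (ASM_w hX hR L τ ξ) (hw1 ξ hξ') (hw2 ξ hξ')
      a1 a2 n ((hνN n hn).trans (a4 n)) a3 hR2 hζ1 hτK ?_ ?_
    · refine le_trans ?_ hH3
      have e1 : ((n : ℕ) + 1 : ℝ) ≤ N := by exact_mod_cast hn
      gcongr
    · intro p hp
      have h2 := hξD ⟨n, hn⟩ ⟨p, hp⟩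
      simp only [hS] at h2
      rw [ASM_w_add, ASM_w_sub] at h2
      exact h2

end BGS
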