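import Pool.Agent.LibBGR.Defs
import Pool.Agent.LibBGR.Mul

open MeasureTheory Set Filter Topology
open scoped ContDiff ENNReal NNReal

namespace BGS

section Abstract

variable {E : Type} [AddCommGroup E] [Module ℝ E] {a b b' : LinearMap.BilinForm ℝ E} {e : E}

theorem KYF_diag {n : ℕ} (G : Matrix (Fin n) (Fin n) ℝ) (hG : ∀ i j, G i j = G j i) :
    ∃ (m : Fin n → ℝ) (v : Fin n → Fin n → ℝ), Antitone m ∧
      (∀ i j, ∑ l, v i l * v j l = if i = j then 1 else 0) ∧
      (∀ i l, ∑ l', G l l' * v i l' = m i * v i l) ∧ ∑ i, G i i = ∑ i, m i := by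
  classical
  have hH : G.IsHermitian := by
    ext i j
    simp [hG i j]
  set σ : Equiv.Perm (Fin n) := Tuple.sort (fun i => -hH.eigenvalues i) with hσ
  refine ⟨fun i => hH.eigenvalues (σ i), fun i l => hH.eigenvectorBasis (σ i) l, ?_, ?_, ?_, ?_⟩
  · intro i j hij
    have h1 : Monotone ((fun i => -hH.eigenvalues i) ∘ σ) := Tuple.monotone_sort _
    have h2 := h1 hij
    simp only [Function.comp_apply] at h2
    linarith
  · intro i j
    have h1 := orthonormal_iff_ite.1 hH.eigenvectorBasis.orthonormal (σ j) (σ i)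
    rw [PiLp.inner_apply] at h1
    simp only [RCLike.inner_apply, conj_trivial] at h1
    rw [h1]
    by_cases hij : i = j
    · simp [hij]
    · have : σ j ≠ σ i := fun h => hij (σ.injective h).symm
      simp [hij, this]
  · intro i l
    have h1 := congrFun (hH.mulVec_eigenvectorBasis (σ i)) l
    simpa [Matrix.mulVec, dotProduct] using h1
  · have h1 := hH.trace_eq_sum_eigenvalues
    simp only [RCLike.ofReal_real_eq_id, id_eq] at h1
    rw [Equiv.sum_comp σ hH.eigenvalues, ← h1]
    rfl

/-- The combination with coefficients `x`. -/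
noncomputable def KYF_U {n : ℕ} (u : Fin n → E) (x : Fin n → ℝ) : E := ∑ l, x l • u l

theorem KYF_form (c : LinearMap.BilinForm ℝ E) {n : ℕ} (u : Fin n → E) (x y : Fin n → ℝ) :
    c (KYF_U u x) (KYF_U u y) = ∑ l, ∑ l', x l * y l' * c (u l) (u l') := by
  unfold KYF_U
  simp only [map_sum, LinearMap.sum_apply, map_smul, LinearMap.smul_apply, smul_eq_mul]
  rw [Finset.sum_comm]
  refine Finset.sum_congr rfl fun l _ => ?_
  rw [Finset.mul_sum]
  refine Finset.sum_congr rfl fun l' _ => ?_
  ring

theorem KYF_form_e (c : LinearMap.BilinForm ℝ E) (e : E) {n : ℕ} (u : Fin n → E) (x : Fin n → ℝ) :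
    c (KYF_U u x) e = ∑ l, x l * c (u l) e := by
  unfold KYF_U
  simp only [map_sum, LinearMap.sum_apply, map_smul, LinearMap.smul_apply, smul_eq_mul]

theorem KYF_sum {n N : ℕ} (v : Fin n → Fin N → ℝ) (c : Fin n → ℝ) (u : Fin N → E) :
    KYF_U u (fun l => ∑ j, c j * v j l) = ∑ j, c j • KYF_U u (v j) := by
  unfold KYF_U
  simp only [Finset.sum_smul, Finset.smul_sum, smul_smul]
  rw [Finset.sum_comm]

theorem kyfan (P : IsPair a b e) (h1 : lam a b 1 ≠ 0) {n : ℕ} (u : Fin n → E)
    (hu : ∀ i j, a (u i) (u j) = if i = j then 1 else 0) :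
    ∑ i, (b (u i) (u i) - b (u i) e ^ 2 / b e e) ≤ ∑ k ∈ Finset.range n, mu a b k := by
  classical
  have hbe : 0 < b e e := P.bpos e P.ne
  obtain ⟨m, v, hm, hv, hGv, htr⟩ := KYF_diag
    (fun i j : Fin n => b (u i) (u j) - b (u i) e * b (u j) e / b e e)
    (fun i j => by rw [P.bsym (u i) (u j)]; ring)
  have htr' : ∑ i, (b (u i) (u i) - b (u i) e ^ 2 / b e e) = ∑ i, m i := by
    rw [← htr]
    refine Finset.sum_congr rfl fun i _ => ?_
    ring
  rw [htr', Finset.sum_range (fun k => mu a b k)]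
  apply Finset.sum_le_sum
  intro k _
  rcases le_or_gt (m k) 0 with hmk | hmk
  · exact hmk.trans (mu_nonneg a b k)
  -- the vectors
  set w : Fin n → E := fun j => KYF_U u (v j) with hw
  have haw : ∀ i j, a (w i) (w j) = if i = j then 1 else 0 := by
    intro i j
    rw [hw]
    simp only
    rw [KYF_form, ← hv i j]
    refine Finset.sum_congr rfl fun l _ => ?_
    simp only [hu, mul_ite, mul_one, mul_zero]
    rw [Finset.sum_ite_eq]
    simp
  have hae : ∀ x, a e x = 0 := P.ae
  have hae' : ∀ x, a x e = 0 := fun x => by rw [P.asym, P.ae]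
  have hbw : ∀ i j, b (w i) (w j) - b (w i) e * b (w j) e / b e e = if i = j then m i else 0 := by
    intro i j
    rw [hw]
    simp only
    rw [KYF_form, KYF_form_e, KYF_form_e]
    have h2 : (∑ l, ∑ l', v i l * v j l' * b (u l) (u l')) -
        (∑ l, v i l * b (u l) e) * (∑ l, v j l * b (u l) e) / b e e =
        ∑ l, v i l * ∑ l', (b (u l) (u l') - b (u l) e * b (u l') e / b e e) * v j l' := by
      rw [Finset.sum_mul_sum, Finset.sum_div, ← Finset.sum_sub_distrib]
      refine Finset.sum_congr rfl fun l _ => ?_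
      rw [Finset.sum_div, ← Finset.sum_sub_distrib, Finset.mul_sum]
      refine Finset.sum_congr rfl fun l' _ => ?_
      ring
    rw [h2]
    have h3 : ∀ l, v i l * ∑ l', (b (u l) (u l') - b (u l) e * b (u l') e / b e e) * v j l' =
        m j * (v i l * v j l) := by
      intro l
      have h4 : ∑ l', (b (u l) (u l') - b (u l) e * b (u l') e / b e e) * v j l' = m j * v j l :=
        hGv j l
      rw [h4]
      ring
    rw [Finset.sum_congr rfl fun l _ => h3 l, ← Finset.mul_sum, hv i j]
    by_cases hij : i = j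
    · simp [hij]
    · simp [hij]
  -- the subspace
  have hk : (k : ℕ) < n := k.2
  set ι : Fin (k + 1) → Fin n := fun j => ⟨j, by omega⟩ with hι
  have hιinj : ∀ i j, (ι i = ι j) = (i = j) := by
    intro i j
    rw [hι]
    simp only [Fin.mk.injEq, eq_iff_iff]
    exact ⟨fun h => Fin.ext h, fun h => by rw [h]⟩
  set f : Fin (k + 1 + 1) → E := Fin.cons e (fun j => w (ι j)) with hf
  have hind : LinearIndependent ℝ f := by
    rw [Fintype.linearIndependent_iff]
    intro g hg
    rw [Fin.sum_univ_succ] at hg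
    simp only [hf, Fin.cons_zero, Fin.cons_succ] at hg
    have h5 : ∀ i : Fin (k + 1), g i.succ = 0 := by
      intro i
      have h6 := congrArg (fun x => a x (w (ι i))) hg
      simp only [map_add, LinearMap.add_apply, map_smul, LinearMap.smul_apply, map_sum,
        LinearMap.sum_apply, smul_eq_mul, hae, mul_zero, zero_add, haw, hιinj, mul_ite, mul_one,
        Finset.sum_ite_eq', Finset.mem_univ, if_true, map_zero, LinearMap.zero_apply] at h6
      exact h6
    have h7 : g 0 = 0 := by
      simp only [h5, zero_smul, Finset.sum_const_zero, add_zero] at hg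
      exact (smul_eq_zero.1 hg).resolve_right P.ne
    intro i
    refine Fin.cases h7 h5 i
  have hfin : Module.finrank ℝ (Submodule.span ℝ (Set.range f)) = (k : ℕ) + 1 + 1 := by
    rw [finrank_span_eq_card hind, Fintype.card_fin]
  have hbound : ∀ x ∈ Submodule.span ℝ (Set.range f),
      a x x ≤ ((Real.toNNReal (m k)⁻¹ : ℝ≥0) : ℝ) * b x x := by
    intro x hx
    obtain ⟨g, hg⟩ := (Submodule.mem_span_range_iff_exists_fun ℝ).1 hx
    rw [Real.coe_toNNReal _ (inv_nonneg.2 hmk.le)]
    rw [Fin.sum_univ_succ] at hg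
    simp only [hf, Fin.cons_zero, Fin.cons_succ] at hg
    set y : E := ∑ i : Fin (k + 1), g i.succ • w (ι i) with hy
    have hay : a y y = ∑ i : Fin (k + 1), g i.succ ^ 2 := by
      rw [hy]
      simp only [map_sum, LinearMap.sum_apply, map_smul, LinearMap.smul_apply, smul_eq_mul, haw,
        hιinj, mul_ite, mul_one, mul_zero, Finset.sum_ite_eq', Finset.mem_univ, if_true]
      refine Finset.sum_congr rfl fun i _ => ?_
      ring
    have hby : b y y - b y e ^ 2 / b e e = ∑ i : Fin (k + 1), g i.succ ^ 2 * m (ι i) := by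
      have h8 : b y y - b y e ^ 2 / b e e = ∑ i : Fin (k + 1), ∑ j : Fin (k + 1),
          g i.succ * g j.succ * (b (w (ι i)) (w (ι j)) - b (w (ι i)) e * b (w (ι j)) e / b e e) := by
        rw [hy]
        simp only [map_sum, LinearMap.sum_apply, map_smul, LinearMap.smul_apply, smul_eq_mul]
        rw [sq, Finset.sum_mul_sum, Finset.sum_div, Finset.sum_comm, ← Finset.sum_sub_distrib]
        refine Finset.sum_congr rfl fun i _ => ?_
        rw [Finset.mul_sum, Finset.sum_div, ← Finset.sum_sub_distrib]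
        refine Finset.sum_congr rfl fun j _ => ?_
        ring
      rw [h8]
      refine Finset.sum_congr rfl fun i _ => ?_
      simp only [hbw, hιinj, mul_ite, mul_zero, Finset.sum_ite_eq, Finset.mem_univ, if_true]
      ring
    have hax : a x x = a y y := by
      rw [← hg]
      simp only [map_add, LinearMap.add_apply, map_smul, LinearMap.smul_apply, smul_eq_mul, hae,
        hae', mul_zero, zero_add, add_zero]
    have hbx : b y y - b y e ^ 2 / b e e ≤ b x x := by
      have h9 : b x x = (b y y - b y e ^ 2 / b e e) + (g 0 * b e e + b y e) ^ 2 / b e e := by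
        rw [← hg]
        simp only [map_add, LinearMap.add_apply, map_smul, LinearMap.smul_apply, smul_eq_mul]
        rw [P.bsym e y]
        field_simp
        ring
      rw [h9]
      have : 0 ≤ (g 0 * b e e + b y e) ^ 2 / b e e := by positivity
      linarith
    have hlow : m k * ∑ i : Fin (k + 1), g i.succ ^ 2 ≤ ∑ i : Fin (k + 1), g i.succ ^ 2 * m (ι i) := by
      rw [Finset.mul_sum]
      refine Finset.sum_le_sum fun i _ => ?_
      have h10 : m k ≤ m (ι i) := by
        apply hm
        rw [hι]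
        simp only [Fin.le_def]
        have := i.2
        omega
      have := mul_le_mul_of_nonneg_left h10 (sq_nonneg (g i.succ))
      linarith
    rw [hax, hay]
    have h11 : m k * ∑ i : Fin (k + 1), g i.succ ^ 2 ≤ b x x := by
      linarith
    calc ∑ i : Fin (k + 1), g i.succ ^ 2 = (m k)⁻¹ * (m k * ∑ i : Fin (k + 1), g i.succ ^ 2) := by
          rw [← mul_assoc, inv_mul_cancel₀ hmk.ne', one_mul]
      _ ≤ (m k)⁻¹ * b x x := mul_le_mul_of_nonneg_left h11 (inv_nonneg.2 hmk.le)
  have hlam : lam a b (k + 1) ≤ ((Real.toNNReal (m k)⁻¹ : ℝ≥0) : ℝ≥0∞) := by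
    unfold lam
    exact iInf₂_le _ ⟨_, hfin, hbound⟩
  have hne : lam a b ((k : ℕ) + 1) ≠ 0 := by
    intro h0
    have h12 := lam_mono a b (by omega : 1 ≤ (k : ℕ) + 1)
    rw [h0] at h12
    exact h1 (le_antisymm h12 bot_le)
  unfold mu
  have h13 : ENNReal.ofReal (m k) ≤ (lam a b ((k : ℕ) + 1))⁻¹ := by
    have h14 : ENNReal.ofReal (m k) = (((Real.toNNReal (m k)⁻¹ : ℝ≥0) : ℝ≥0∞))⁻¹ := by
      rw [show (((Real.toNNReal (m k)⁻¹ : ℝ≥0) : ℝ≥0∞)) = ENNReal.ofReal (m k)⁻¹ from rfl,
        ENNReal.ofReal_inv_of_pos hmk, inv_inv]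
    rw [h14]
    exact ENNReal.inv_le_inv.2 hlam
  have h15 : (lam a b ((k : ℕ) + 1))⁻¹ ≠ ⊤ := ENNReal.inv_ne_top.2 hne
  calc m k = (ENNReal.ofReal (m k)).toReal := (ENNReal.toReal_ofReal hmk.le).symm
    _ ≤ ((lam a b ((k : ℕ) + 1))⁻¹).toReal := ENNReal.toReal_mono h15 h13

end Abstract

end BGS
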